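import Pool.Agent.H366R3.SC.T13

set_option autoImplicit false
set_option linter.unusedSectionVars false

namespace Pool.Agent.H366R3.SC

open Finset
open Pool.Agent.H126R2.CDC (MGraph)

/-- a double cover with the smallest number of members -/
lemma exists_min {V E : Type} [Fintype V] [DecidableEq V] [Fintype E] [DecidableEq E]
    {G : MGraph V E} (h : ∃ F, CD G F) :
    ∃ F, CD G F ∧ ∀ F', CD G F' → Multiset.card F ≤ Multiset.card F' := by
  classical
  have h2 : ∃ n, ∃ F, CD G F ∧ Multiset.card F = n := by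
    obtain ⟨F, hF⟩ := h
    exact ⟨_, F, hF, rfl⟩
  obtain ⟨F, hF, hn⟩ := Nat.find_spec h2
  refine ⟨F, hF, fun F' hF' => ?_⟩
  rw [hn]
  exact Nat.find_min' h2 ⟨F', hF', rfl⟩

lemma even_V {V E : Type} [Fintype V] [DecidableEq V] [Fintype E] [DecidableEq E]
    {G : MGraph V E} (hG : Cubic G) : Even (Fintype.card V) := by
  have := hand hG
  rw [Nat.even_iff]
  omega

theorem main3 (t0 : T0) (h13 : ∀ (V E : Type) [Fintype V] [DecidableEq V] [Fintype E]
      [DecidableEq E] (G : MGraph V E), Cubic G → EC G 3 → C4 G → 4 ≤ Fintype.card V → ∀ F, CD G F →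
      Fintype.card V + 2 ≤ 2 * Multiset.card F →
      (Fintype.card V = 4 ∧ Multiset.card F = 3) ∨
        ∃ F', CD G F' ∧ Multiset.card F' < Multiset.card F) (t11 : T11) :
    ∀ (n : ℕ) (V E : Type) [Fintype V] [DecidableEq V] [Fintype E] [DecidableEq E]
    (G : MGraph V E), Cubic G → EC G 3 → 4 ≤ Fintype.card V → Fintype.card V = n →
    ∃ F, CD G F ∧ (2 * Multiset.card F ≤ n ∨ (n = 4 ∧ Multiset.card F = 3)) := by
  intro n
  induction n using Nat.strong_induction_on with
  | _ n ih =>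
    intro V E _ _ _ _ G hG h3 h4 hn
    obtain ⟨F, hF, hmin⟩ := exists_min (t0 V E G hG
      (fun S a b => le_trans (by norm_num) (h3 S a b)))
    by_cases hsmall : 2 * Multiset.card F ≤ n
    · exact ⟨F, hF, Or.inl hsmall⟩
    have heven := even_V hG
    rw [hn] at heven
    have hc : Fintype.card V + 2 ≤ 2 * Multiset.card F := by
      obtain ⟨k, hk⟩ := heven
      omega
    by_cases hC4 : C4 G
    · rcases h13 V E G hG h3 hC4 h4 F hF hc with r | ⟨F', hF', hlt⟩
      · exact ⟨F, hF, Or.inr ⟨by omega, r.2⟩⟩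
      · have := hmin F' hF'
        omega
    · unfold C4 at hC4
      push Not at hC4
      obtain ⟨S, hS1, hS2, hS3⟩ := hC4
      have hcut : (cut G S).card = 3 := by
        have := h3 S (card_pos.1 (by omega)) (by
          rintro rfl
          simp at hS2)
        omega
      obtain ⟨V₁, E₁, i1, i2, i3, i4, G₁, V₂, E₂, j1, j2, j3, j4, G₂, a1, a2, a3, b1, b2, b3, glue⟩
        := t11 V E G hG h3 S hcut hS1 hS2
      have hcard : S.card + Sᶜ.card = Fintype.card V := card_add_card_compl S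
      have e1 : Even (Fintype.card V₁) := even_V a1
      have e2 : Even (Fintype.card V₂) := even_V b1
      have l1 : 4 ≤ Fintype.card V₁ := by
        obtain ⟨k, hk⟩ := e1; omega
      have l2 : 4 ≤ Fintype.card V₂ := by
        obtain ⟨k, hk⟩ := e2; omega
      obtain ⟨F₁, f1, f2⟩ := ih (Fintype.card V₁) (by omega) V₁ E₁ G₁ a1 a2 l1 rfl
      obtain ⟨F₂, g1, g2⟩ := ih (Fintype.card V₂) (by omega) V₂ E₂ G₂ b1 b2 l2 rfl
      obtain ⟨F', hF', hcF⟩ := glue F₁ F₂ f1 g1
      refine ⟨F', hF', Or.inl ?_⟩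
      omega

theorem mainQ (t0 : T0) (t2 : T2) (t12 : T12)
    (h3 : ∀ (n : ℕ) (V E : Type) [Fintype V] [DecidableEq V] [Fintype E] [DecidableEq E]
      (G : MGraph V E), Cubic G → EC G 3 → 4 ≤ Fintype.card V → Fintype.card V = n →
      ∃ F, CD G F ∧ (2 * Multiset.card F ≤ n ∨ (n = 4 ∧ Multiset.card F = 3))) :
    ∀ (n : ℕ) (V E : Type) [Fintype V] [DecidableEq V] [Fintype E] [DecidableEq E]
    (G : MGraph V E) (g : E), Cubic G → EC G 2 → SimpX G g → 4 ≤ Fintype.card V →
    Fintype.card V = n → ∃ F, CD G F ∧ 2 * Multiset.card F ≤ n + 2 := by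
  intro n
  induction n using Nat.strong_induction_on with
  | _ n ih =>
    intro V E _ _ _ _ G g hG h2 hs h4 hn
    by_cases hEC : EC G 3
    · obtain ⟨F, hF, h⟩ := h3 n V E G hG hEC h4 hn
      exact ⟨F, hF, by omega⟩
    -- a two-edge cut with g not inside S
    have hex : ∃ S : Finset V, (cut G S).card = 2 ∧ S.Nonempty ∧ S ≠ univ ∧
        ¬ ∀ x ∈ G.ends g, x ∈ S := by
      unfold EC at hEC
      push Not at hEC
      obtain ⟨S, hS1, hS2, hS3⟩ := hEC
      have h5 := h2 S hS1 hS2
      by_cases hg : ∀ x ∈ G.ends g, x ∈ S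
      · refine ⟨Sᶜ, ?_, ?_, ?_, ?_⟩
        · have : cut G Sᶜ = cut G S := by
            ext e
            simp only [mem_cut, mem_compl, not_not]
            tauto
          rw [this]; omega
        · rw [nonempty_iff_ne_empty, Ne, compl_eq_empty_iff]; exact hS2
        · intro h
          rw [compl_eq_univ_iff] at h
          rw [h] at hS1
          simp at hS1
        · intro h
          obtain ⟨x, y, hxy, he⟩ := exists_ends hG g
          have a := h x (by rw [he]; simp)
          have b := hg x (by rw [he]; simp)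
          rw [mem_compl] at a
          exact a b
      · exact ⟨S, by omega, hS1, hS2, hg⟩
    obtain ⟨S, hS1, hS2, hS3, hS4⟩ := hex
    obtain ⟨V₁, E₁, i1, i2, i3, i4, G₁, g₁, V₂, E₂, j1, j2, j3, j4, G₂, g₂, a1, a2, a3, a4, b1, b2,
      b3, b4, glue⟩ := t12 V E G hG h2 S hS1 hS2 hS3
    have hcard : S.card + Sᶜ.card = Fintype.card V := card_add_card_compl S
    have hSc : 0 < Sᶜ.card := by
      rw [card_pos, nonempty_iff_ne_empty, Ne, compl_eq_empty_iff]; exact hS3
    have hS0 : 0 < S.card := card_pos.2 hS2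
    have hsimp : SimpX G₁ g₁ := a4 (by
      intro e f he hef
      apply hs e f
      · rintro rfl; exact hS4 he
      · rintro rfl; apply hS4; rw [← hef]; exact he
      · exact hef)
    have e1 : Even (Fintype.card V₁) := even_V a1
    have l1 : 4 ≤ Fintype.card V₁ := by
      by_contra hlt
      have hV1 : Fintype.card V₁ = 2 := by
        obtain ⟨k, hk⟩ := e1; omega
      -- two vertices, at most one edge besides g₁
      have hE := hand a1
      rw [hV1] at hE
      have hE3 : Fintype.card E₁ = 3 := by omega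
      have h6 : ∀ e f : E₁, G₁.ends e = G₁.ends f := by
        intro e f
        obtain ⟨x, y, hxy, he⟩ := exists_ends a1 e
        obtain ⟨z, w, hzw, hf⟩ := exists_ends a1 f
        have huniv : ({x, y} : Finset V₁) = univ := by
          rw [← card_eq_iff_eq_univ, card_pair hxy, hV1]
        have hz : z ∈ ({x, y} : Finset V₁) := by rw [huniv]; simp
        have hw : w ∈ ({x, y} : Finset V₁) := by rw [huniv]; simp
        simp only [mem_insert, mem_singleton] at hz hw
        rw [he, hf]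
        rcases hz with rfl | rfl <;> rcases hw with rfl | rfl
        · exact absurd rfl hzw
        · rfl
        · exact Sym2.eq_swap
        · exact absurd rfl hzw
      have h7 : (univ.erase g₁ : Finset E₁).card = 2 := by
        rw [card_erase_of_mem (mem_univ _), card_univ, hE3]
      obtain ⟨e, f, hef, hh⟩ := card_eq_two.1 h7
      have he : e ∈ (univ.erase g₁ : Finset E₁) := by rw [hh]; simp
      have hf : f ∈ (univ.erase g₁ : Finset E₁) := by rw [hh]; simp
      exact hef (hsimp e f (ne_of_mem_erase he) (ne_of_mem_erase hf) (h6 e f))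
    obtain ⟨F₁, f1, f2⟩ := ih (Fintype.card V₁) (by omega) V₁ E₁ G₁ g₁ a1 a2 hsimp l1 rfl
    obtain ⟨F₂, g1⟩ := t0 V₂ E₂ G₂ b1 b2
    have g2 := t2 V₂ E₂ G₂ b1 (fun S a b => le_trans (by norm_num) (b2 S a b)) F₂ g1
    obtain ⟨F', hF', hcF⟩ := glue F₁ F₂ f1 g1
    exact ⟨F', hF', by omega⟩

theorem main (t0 : T0) (t2 : T2) (t12 : T12)
    (h3 : ∀ (n : ℕ) (V E : Type) [Fintype V] [DecidableEq V] [Fintype E] [DecidableEq E]
      (G : MGraph V E), Cubic G → EC G 3 → 4 ≤ Fintype.card V → Fintype.card V = n →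
      ∃ F, CD G F ∧ (2 * Multiset.card F ≤ n ∨ (n = 4 ∧ Multiset.card F = 3))) :
    Main := by
  intro V E _ _ _ _ G hG h2 hs
  have hQ := mainQ t0 t2 t12 h3
  -- a simple cubic graph has no two vertices only
  have hfour : ∀ (V₁ E₁ : Type) [Fintype V₁] [DecidableEq V₁] [Fintype E₁] [DecidableEq E₁]
      (G₁ : MGraph V₁ E₁) (g₁ : E₁), Cubic G₁ → SimpX G₁ g₁ → 0 < Fintype.card V₁ →
      4 ≤ Fintype.card V₁ := by
    intro V₁ E₁ _ _ _ _ G₁ g₁ a1 hsimp hpos
    have e1 : Even (Fintype.card V₁) := even_V a1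
    by_contra hlt
    have hV1 : Fintype.card V₁ = 2 := by
      obtain ⟨k, hk⟩ := e1; omega
    have hE := hand a1
    rw [hV1] at hE
    have hE3 : Fintype.card E₁ = 3 := by omega
    have h6 : ∀ e f : E₁, G₁.ends e = G₁.ends f := by
      intro e f
      obtain ⟨x, y, hxy, he⟩ := exists_ends a1 e
      obtain ⟨z, w, hzw, hf⟩ := exists_ends a1 f
      have huniv : ({x, y} : Finset V₁) = univ := by
        rw [← card_eq_iff_eq_univ, card_pair hxy, hV1]
      have hz : z ∈ ({x, y} : Finset V₁) := by rw [huniv]; simp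
      have hw : w ∈ ({x, y} : Finset V₁) := by rw [huniv]; simp
      simp only [mem_insert, mem_singleton] at hz hw
      rw [he, hf]
      rcases hz with rfl | rfl <;> rcases hw with rfl | rfl
      · exact absurd rfl hzw
      · rfl
      · exact Sym2.eq_swap
      · exact absurd rfl hzw
    have h7 : (univ.erase g₁ : Finset E₁).card = 2 := by
      rw [card_erase_of_mem (mem_univ _), card_univ, hE3]
    obtain ⟨e, f, hef, hh⟩ := card_eq_two.1 h7
    have he : e ∈ (univ.erase g₁ : Finset E₁) := by rw [hh]; simp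
    have hf : f ∈ (univ.erase g₁ : Finset E₁) := by rw [hh]; simp
    exact hef (hsimp e f (ne_of_mem_erase he) (ne_of_mem_erase hf) (h6 e f))
  by_cases hV : Fintype.card V = 0
  · obtain ⟨F, hF⟩ := t0 V E G hG h2
    refine ⟨F, hF, Or.inl ?_⟩
    have hE := hand hG
    have hE0 : Fintype.card E = 0 := by omega
    have hEe : IsEmpty E := Fintype.card_eq_zero_iff.1 hE0
    have : F = 0 := by
      rw [Multiset.eq_zero_iff_forall_notMem]
      intro C hC
      obtain ⟨e, _⟩ := (hF.1 C hC).1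
      exact hEe.elim e
    rw [this]; simp
  have hVpos : 0 < Fintype.card V := Nat.pos_of_ne_zero hV
  have hEne : Nonempty E := by
    rw [← Fintype.card_pos_iff]
    have hE := hand hG
    omega
  obtain ⟨g⟩ := hEne
  have h4 : 4 ≤ Fintype.card V := hfour V E G g hG (fun e f _ _ h => hs e f h) hVpos
  by_cases hEC : EC G 3
  · obtain ⟨F, hF, h⟩ := h3 _ V E G hG hEC h4 rfl
    exact ⟨F, hF, h.imp id And.left⟩
  · unfold EC at hEC
    push Not at hEC
    obtain ⟨S, hS1, hS2, hS3⟩ := hEC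
    have h5 := h2 S hS1 hS2
    obtain ⟨V₁, E₁, i1, i2, i3, i4, G₁, g₁, V₂, E₂, j1, j2, j3, j4, G₂, g₂, a1, a2, a3, a4, b1, b2,
      b3, b4, glue⟩ := t12 V E G hG h2 S (by omega) hS1 hS2
    have hcard : S.card + Sᶜ.card = Fintype.card V := card_add_card_compl S
    have hSc : 0 < Sᶜ.card := by
      rw [card_pos, nonempty_iff_ne_empty, Ne, compl_eq_empty_iff]; exact hS2
    have hS0 : 0 < S.card := card_pos.2 hS1
    have s1 : SimpX G₁ g₁ := a4 (fun e f _ h => hs e f h)
    have s2 : SimpX G₂ g₂ := b4 (fun e f _ h => hs e f h)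
    have l1 := hfour V₁ E₁ G₁ g₁ a1 s1 (by omega)
    have l2 := hfour V₂ E₂ G₂ g₂ b1 s2 (by omega)
    obtain ⟨F₁, f1, f2⟩ := hQ _ V₁ E₁ G₁ g₁ a1 a2 s1 l1 rfl
    obtain ⟨F₂, f3, f4⟩ := hQ _ V₂ E₂ G₂ g₂ b1 b2 s2 l2 rfl
    obtain ⟨F', hF', hcF⟩ := glue F₁ F₂ f1 f3
    exact ⟨F', hF', Or.inl (by omega)⟩

end Pool.Agent.H366R3.SC
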