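import Pool.Agent.H366R3.SC.Stmts

set_option autoImplicit false
set_option linter.unusedSectionVars false
set_option linter.unusedSimpArgs false

namespace Pool.Agent.H366R3.SC

open Finset
open Pool.Agent.H126R2.CDC (MGraph)

variable {V E : Type} [Fintype V] [DecidableEq V] [Fintype E] [DecidableEq E]
variable {G : MGraph V E}

lemma mem_inc {v : V} {e : E} : e ∈ inc G v ↔ v ∈ G.ends e := by simp [inc]

lemma mem_cut {S : Finset V} {e : E} :
    e ∈ cut G S ↔ (∃ x ∈ S, x ∈ G.ends e) ∧ ∃ y ∉ S, y ∈ G.ends e := by simp [cut]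

lemma exists_ends (hG : Cubic G) (e : E) : ∃ x y, x ≠ y ∧ G.ends e = s(x, y) := by
  have h := hG.loopless e
  induction h2 : G.ends e using Sym2.ind with
  | _ x y =>
    refine ⟨x, y, ?_, rfl⟩
    rintro rfl
    rw [h2] at h
    exact h rfl

lemma Circ.card_inc (hG : Cubic G) {C : Finset E} (hC : Circ G C) (v : V) :
    (C ∩ inc G v).card = 0 ∨ (C ∩ inc G v).card = 2 := by
  have h1 := hC.2.1 v
  have h2 : (C ∩ inc G v).card ≤ 3 := by
    rw [← hG.three v]; exact card_le_card inter_subset_right
  obtain ⟨k, hk⟩ := h1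
  omega

/-- a circuit through an edge at `v` misses exactly one edge at `v` -/
lemma Circ.two (hG : Cubic G) {C : Finset E} (hC : Circ G C) {v : V} {e : E} (he : e ∈ C)
    (hv : v ∈ G.ends e) : ∃ f g, f ≠ e ∧ g ≠ e ∧ f ≠ g ∧ f ∈ C ∧ g ∉ C ∧ v ∈ G.ends f ∧
      v ∈ G.ends g ∧ ∀ h, v ∈ G.ends h → h = e ∨ h = f ∨ h = g := by
  have h1 := hC.card_inc hG v
  have h2 : e ∈ C ∩ inc G v := mem_inter.2 ⟨he, mem_inc.2 hv⟩
  have h3 : (C ∩ inc G v).card = 2 := by
    rcases h1 with h | h
    · rw [card_eq_zero] at h; rw [h] at h2; simp at h2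
    · exact h
  obtain ⟨f, hf, hfe⟩ := exists_mem_ne (by omega : 1 < (C ∩ inc G v).card) e
  have h4 : C ∩ inc G v = {e, f} := by
    symm
    apply eq_of_subset_of_card_le
    · intro x hx
      simp only [mem_insert, mem_singleton] at hx
      rcases hx with rfl | rfl
      · exact h2
      · exact hf
    · rw [h3, card_pair (Ne.symm hfe)]
  have h5 : (inc G v \ C).card = 1 := by
    have := card_inter_add_card_sdiff (inc G v) C
    rw [inter_comm, h3, hG.three v] at this
    omega
  obtain ⟨g, hg⟩ := card_eq_one.1 h5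
  have hg2 : g ∈ inc G v \ C := by rw [hg]; simp
  rw [mem_sdiff] at hg2
  refine ⟨f, g, hfe, ?_, ?_, (mem_inter.1 hf).1, hg2.2, mem_inc.1 (mem_inter.1 hf).2,
    mem_inc.1 hg2.1, ?_⟩
  · rintro rfl; exact hg2.2 he
  · rintro rfl; exact hg2.2 (mem_inter.1 hf).1
  · intro h hh
    by_cases hC2 : h ∈ C
    · have : h ∈ C ∩ inc G v := mem_inter.2 ⟨hC2, mem_inc.2 hh⟩
      rw [h4] at this
      simp only [mem_insert, mem_singleton] at this
      tauto
    · have : h ∈ inc G v \ C := mem_sdiff.2 ⟨mem_inc.2 hh, hC2⟩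
      rw [hg] at this
      simp only [mem_singleton] at this
      tauto

lemma CD.exists_mem {F : Multiset (Finset E)} (hF : CD G F) (e : E) : ∃ C ∈ F, e ∈ C := by
  have h := hF.2 e
  have : 0 < F.countP (fun C => e ∈ C) := by omega
  rw [Multiset.countP_pos] at this
  exact this

lemma CD.nodup (hG : Cubic G) {F : Multiset (Finset E)} (hF : CD G F) : F.Nodup := by
  rw [Multiset.nodup_iff_count_le_one]
  intro C
  by_contra hcon
  push Not at hcon
  have hC : C ∈ F := Multiset.count_pos.1 (by omega)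
  have hc := hF.1 C hC
  obtain ⟨e, he⟩ := hc.1
  obtain ⟨x, y, hxy, hends⟩ := exists_ends hG e
  have hx : x ∈ G.ends e := by rw [hends]; simp
  obtain ⟨f, g, h1, h2, h3, h4, h5, h6, h7, h8⟩ := hc.two hG he hx
  obtain ⟨D, hD, hgD⟩ := hF.exists_mem g
  have hd := hF.1 D hD
  obtain ⟨f', g', k1, k2, k3, k4, k5, k6, k7, k8⟩ := hd.two hG hgD h7
  have hDC : D ≠ C := by rintro rfl; exact h5 hgD
  have hf' : f' ∈ C := by
    rcases h8 f' k6 with r | r | r
    · rw [r]; exact he
    · rw [r]; exact h4
    · exact absurd r k1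
  have h9 := hF.2 f'
  rw [Multiset.countP_eq_card_filter] at h9
  have h10 : ({C, C, D} : Multiset (Finset E)) ≤ F.filter (fun B => f' ∈ B) := by
    rw [Multiset.le_iff_count]
    intro B
    rw [Multiset.count_filter]
    by_cases hBC : B = C
    · subst hBC
      rw [if_pos hf']
      have : Multiset.count B ({B, B, D} : Multiset (Finset E)) = 2 := by
        simp [Multiset.count_cons, Multiset.count_singleton, Ne.symm hDC]
      omega
    · by_cases hBD : B = D
      · subst hBD
        rw [if_pos k4]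
        have : Multiset.count B ({C, C, B} : Multiset (Finset E)) = 1 := by
          simp [Multiset.count_cons, Multiset.count_singleton, hDC]
        have := Multiset.count_pos.2 hD
        omega
      · simp [Multiset.count_cons, Multiset.count_singleton, hBC, hBD]
  have h11 := Multiset.card_le_card h10
  rw [h9] at h11
  simp at h11

lemma CD.card_filter (hG : Cubic G) {F : Multiset (Finset E)} (hF : CD G F) (e : E) :
    (F.toFinset.filter (fun C => e ∈ C)).card = 2 := by
  have h := hF.2 e
  rw [Multiset.countP_eq_card_filter] at h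
  rw [← Multiset.toFinset_filter, Multiset.toFinset_card_of_nodup]
  · exact h
  · exact (hF.nodup hG).filter _

/-- the other face at an edge -/
lemma CD.other (hG : Cubic G) {F : Multiset (Finset E)} (hF : CD G F) {T : Finset E} (hT : T ∈ F)
    {e : E} (he : e ∈ T) : ∃ X ∈ F, X ≠ T ∧ e ∈ X ∧ ∀ Y ∈ F, e ∈ Y → Y = T ∨ Y = X := by
  have h := hF.card_filter hG e
  have hT2 : T ∈ F.toFinset.filter (fun C => e ∈ C) := by simp [hT, he]
  obtain ⟨X, hX, hXT⟩ := exists_mem_ne (by omega : 1 < (F.toFinset.filter (fun C => e ∈ C)).card) T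
  have h4 : ({T, X} : Finset (Finset E)) = F.toFinset.filter (fun C => e ∈ C) := by
    apply eq_of_subset_of_card_le
    · intro x hx
      simp only [mem_insert, mem_singleton] at hx
      rcases hx with rfl | rfl
      · exact hT2
      · exact hX
    · rw [h, card_pair (Ne.symm hXT)]
  simp only [mem_filter, Multiset.mem_toFinset] at hX
  refine ⟨X, hX.1, hXT, hX.2, ?_⟩
  intro Y hY heY
  have : Y ∈ F.toFinset.filter (fun C => e ∈ C) := by simp [hY, heY]
  rw [← h4] at this
  simpa using this

lemma CD.two_of_three (hG : Cubic G) {F : Multiset (Finset E)} (hF : CD G F) {A B C : Finset E}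
    (hA : A ∈ F) (hB : B ∈ F) (hC : C ∈ F) (hAB : A ≠ B) {e : E} (ha : e ∈ A) (hb : e ∈ B)
    (hc : e ∈ C) : C = A ∨ C = B := by
  obtain ⟨X, hX, hXA, heX, h⟩ := hF.other hG hA ha
  rcases h B hB hb with r | r
  · exact absurd r.symm hAB
  · subst r
    exact h C hC hc

/-- two faces do not share two edges at a vertex -/
lemma CD.corner (hG : Cubic G) {F : Multiset (Finset E)} (hF : CD G F) {T X : Finset E}
    (hT : T ∈ F) (hX : X ∈ F) (hTX : T ≠ X) {e f : E} {v : V} (hef : e ≠ f) (he : v ∈ G.ends e)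
    (hf : v ∈ G.ends f) (h1 : e ∈ T) (h2 : f ∈ T) (h3 : e ∈ X) (h4 : f ∈ X) : False := by
  obtain ⟨f', g, a1, a2, a3, a4, a5, a6, a7, a8⟩ := (hF.1 T hT).two hG h1 he
  have hff : f' = f := by
    rcases a8 f hf with r | r | r
    · exact absurd r.symm hef
    · exact r.symm
    · rw [r] at h2; exact absurd h2 a5
  subst hff
  have hgX : g ∉ X := by
    obtain ⟨f2, g2, b1, b2, b3, b4, b5, b6, b7, b8⟩ := (hF.1 X hX).two hG h3 he
    intro hgX
    rcases a8 g2 b7 with r | r | r
    · exact b2 r
    · rw [r] at b5; exact b5 h4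
    · rw [r] at b5; exact b5 hgX
  obtain ⟨D, hD, hgD⟩ := hF.exists_mem g
  obtain ⟨f3, g3, c1, c2, c3, c4, c5, c6, c7, c8⟩ := (hF.1 D hD).two hG hgD a7
  have hDT : D ≠ T := by rintro rfl; exact a5 hgD
  have hDX : D ≠ X := by rintro rfl; exact hgX hgD
  rcases a8 f3 c6 with r | r | r
  · subst r
    rcases hF.two_of_three hG hT hX hD hTX h1 h3 c4 with r | r
    · exact hDT r
    · exact hDX r
  · subst r
    rcases hF.two_of_three hG hT hX hD hTX h2 h4 c4 with r | r
    · exact hDT r
    · exact hDX r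
  · exact c1 r

/-- replacing a part of a double cover -/
lemma CD.replace {F : Multiset (Finset E)} (hF : CD G F) {A B : Multiset (Finset E)} (hA : A ≤ F)
    (hB : ∀ C ∈ B, Circ G C)
    (h : ∀ e, B.countP (fun C => e ∈ C) = A.countP (fun C => e ∈ C)) :
    ∃ F', CD G F' ∧ Multiset.card F' + Multiset.card A = Multiset.card F + Multiset.card B := by
  obtain ⟨R, rfl⟩ := Multiset.le_iff_exists_add.1 hA
  refine ⟨B + R, ⟨?_, ?_⟩, ?_⟩
  · intro C hC
    rcases Multiset.mem_add.1 hC with h1 | h1
    · exact hB C h1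
    · exact hF.1 C (Multiset.mem_add.2 (Or.inr h1))
  · intro e
    have := hF.2 e
    rw [Multiset.countP_add] at this ⊢
    rw [h e]
    exact this
  · simp only [Multiset.card_add]
    omega

lemma sum_card (F : Multiset (Finset E)) :
    (F.map (fun C => C.card)).sum = ∑ e : E, F.countP (fun C => e ∈ C) := by
  induction F using Multiset.induction_on with
  | empty => simp
  | cons C F ih =>
    simp only [Multiset.map_cons, Multiset.sum_cons, ih, Multiset.countP_cons, sum_add_distrib]
    rw [add_comm]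
    congr 1
    rw [card_eq_sum_ones, sum_ite_mem]
    simp

lemma hand (hG : Cubic G) : 2 * Fintype.card E = 3 * Fintype.card V := by
  have h1 : ∑ v : V, (inc G v).card = 3 * Fintype.card V := by
    simp [hG.three, mul_comm]
  have h2 : ∑ v : V, (inc G v).card = ∑ e : E, (univ.filter (fun v => v ∈ G.ends e)).card := by
    simp only [inc, card_filter]
    rw [sum_comm]
  have h3 : ∀ e : E, (univ.filter (fun v => v ∈ G.ends e)).card = 2 := by
    intro e
    obtain ⟨x, y, hxy, h⟩ := exists_ends hG e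
    have : univ.filter (fun v => v ∈ G.ends e) = {x, y} := by
      ext v; simp [h]
    rw [this, card_pair hxy]
  rw [← h1, h2]
  simp [h3, mul_comm]

/-- a short face -/
lemma CD.short (hG : Cubic G) {F : Multiset (Finset E)} (hF : CD G F)
    (h : Fintype.card V + 2 ≤ 2 * Multiset.card F) : ∃ T ∈ F, T.card ≤ 5 := by
  by_contra hcon
  push Not at hcon
  have h1 : 6 * Multiset.card F ≤ (F.map (fun C => C.card)).sum := by
    have h2 : Multiset.card (F.map (fun C => C.card)) • 6 ≤ (F.map (fun C => C.card)).sum := by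
      apply Multiset.card_nsmul_le_sum
      intro x hx
      rw [Multiset.mem_map] at hx
      obtain ⟨C, hC, rfl⟩ := hx
      have := hcon C hC
      omega
    rw [Multiset.card_map, smul_eq_mul, mul_comm] at h2
    exact h2
  rw [sum_card] at h1
  simp only [hF.2, sum_const, card_univ, smul_eq_mul] at h1
  have := hand hG
  omega

end Pool.Agent.H366R3.SC
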