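import Pool.Agent.H366R3.SC.Asm

set_option autoImplicit false
set_option linter.unusedSectionVars false

namespace Pool.Agent.H366R3.SC

open Finset
open Pool.Agent.H126R2.CDC (MGraph)

section
variable {V : Type} [Fintype V] [DecidableEq V] (G : SimpleGraph V) [DecidableRel G.Adj]

/-- a simple graph as a multigraph -/
def toM : MGraph V G.edgeSet := ⟨fun e => e.1⟩

lemma toM_cubic (h : ∀ v : V, G.degree v = 3) : Cubic (toM G) := by
  constructor
  · intro e
    exact G.not_isDiag_of_mem_edgeSet e.2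
  · intro v
    rw [← h v, ← G.card_incidenceFinset_eq_degree v]
    rw [← card_map (Function.Embedding.subtype _)]
    congr 1
    ext e
    simp only [mem_map, Function.Embedding.subtype_apply, mem_inc, toM,
      SimpleGraph.mem_incidenceFinset]
    constructor
    · rintro ⟨a, ha, rfl⟩
      exact ⟨a.2, ha⟩
    · rintro ⟨h1, h2⟩
      exact ⟨⟨e, h1⟩, h2, rfl⟩

lemma toM_simp : Simp (toM G) := by
  intro e f h
  exact Subtype.ext h

lemma toM_ec (h : ∀ v : V, G.degree v = 3) (hc : G.Connected)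
    (h2 : ∀ v : V, (G.induce {w : V | w ≠ v}).Connected) : EC (toM G) 2 := by
  intro S hS hSu
  by_contra hlt
  push Not at hlt
  have hle : (cut (toM G) S).card ≤ 1 := by omega
  rw [card_le_one] at hle
  obtain ⟨a, ha⟩ := hS
  obtain ⟨b, hb⟩ : ∃ b, b ∉ S := by
    by_contra hcon
    push Not at hcon
    exact hSu (eq_univ_iff_forall.2 hcon)
  obtain ⟨p⟩ := hc.preconnected a b
  obtain ⟨d, hd, hd1, hd2⟩ := p.exists_boundary_dart (S : Set V) (by simpa using ha)
    (by simpa using hb)
  -- the edge of d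
  have hxy : G.Adj d.fst d.snd := d.adj
  set x := d.fst with hx
  set y := d.snd with hy
  have hxS : x ∈ S := by simpa using hd1
  have hyS : y ∉ S := by simpa using hd2
  have hmem : ∀ u w, G.Adj u w → ∀ huw : s(u, w) ∈ G.edgeSet, u ∈ S → w ∉ S →
      (⟨s(u, w), huw⟩ : G.edgeSet) ∈ cut (toM G) S := by
    intro u w _ huw hu hw
    rw [mem_cut]
    exact ⟨⟨u, hu, by simp [toM]⟩, w, hw, by simp [toM]⟩
  have huniq : ∀ u w, G.Adj u w → u ∈ S → w ∉ S → u = x ∧ w = y := by
    intro u w huw hu hw
    have h1 := hmem u w huw ((SimpleGraph.mem_edgeSet G).2 huw) hu hw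
    have h3 := hmem x y hxy ((SimpleGraph.mem_edgeSet G).2 hxy) hxS hyS
    have h4 := hle _ h1 _ h3
    have h5 : s(u, w) = s(x, y) := congrArg Subtype.val h4
    rw [Sym2.eq_iff] at h5
    rcases h5 with h5 | h5
    · exact h5
    · exfalso
      rw [h5.1] at hu
      exact hyS hu
  -- another neighbour of x in S
  have h3 : (G.neighborFinset x).card = 3 := by
    rw [SimpleGraph.card_neighborFinset_eq_degree]; exact h x
  obtain ⟨z, hz, hzy⟩ := exists_mem_ne (by omega : 1 < (G.neighborFinset x).card) y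
  rw [SimpleGraph.mem_neighborFinset] at hz
  have hzS : z ∈ S := by
    by_contra hzS
    exact hzy (huniq x z hz hxS hzS).2
  have hzx : z ≠ x := hz.ne'
  have hyx : y ≠ x := hxy.ne'
  obtain ⟨q⟩ := (h2 x).preconnected ⟨z, hzx⟩ ⟨y, hyx⟩
  obtain ⟨d', hd', e1, e2⟩ := q.exists_boundary_dart {w | w.1 ∈ S} hzS hyS
  have hadj := d'.adj
  rw [SimpleGraph.comap_adj] at hadj
  have := (huniq d'.fst.1 d'.snd.1 hadj e1 e2).1
  exact d'.fst.2 this

lemma four_top (h : ∀ v : V, G.degree v = 3) (h4 : Fintype.card V = 4) :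
    Nonempty (G ≃g (⊤ : SimpleGraph (Fin 4))) := by
  have htop : G = ⊤ := by
    ext v w
    simp only [SimpleGraph.top_adj]
    constructor
    · exact fun h => h.ne
    · intro hvw
      have h1 : G.neighborFinset v ⊆ univ.erase v := by
        intro u hu
        rw [SimpleGraph.mem_neighborFinset] at hu
        simp [hu.ne']
      have h2 : G.neighborFinset v = univ.erase v := by
        apply eq_of_subset_of_card_le h1
        rw [card_erase_of_mem (mem_univ _), card_univ, h4,
          SimpleGraph.card_neighborFinset_eq_degree, h v]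
      have h3 : w ∈ G.neighborFinset v := by
        rw [h2]; simp [Ne.symm hvw]
      rwa [SimpleGraph.mem_neighborFinset] at h3
  obtain ⟨e⟩ : Nonempty (V ≃ Fin 4) := ⟨Fintype.equivFinOfCardEq h4⟩
  refine ⟨⟨e, ?_⟩⟩
  intro a b
  rw [htop]
  simp

lemma count_fin {α : Type} (l : List α) (p : α → Prop) [DecidablePred p] :
    (univ.filter (fun i : Fin l.length => p (l.get i))).card = Multiset.countP p (l : Multiset α) := by
  have h1 : (univ.val.map l.get : Multiset α) = (l : Multiset α) := by
    rw [Fin.univ_val_map, List.ofFn_get]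
  rw [← h1, Multiset.countP_map]
  rfl

theorem final (hM : Main) (h14 : T14) (h3 : ∀ v : V, G.degree v = 3) (hc : G.Connected)
    (h2 : ∀ v : V, (G.induce {w : V | w ≠ v}).Connected)
    (hK : ¬ Nonempty (G ≃g (⊤ : SimpleGraph (Fin 4)))) :
    ∃ k : ℕ, 2 * k ≤ Fintype.card V ∧
      ∃ u : Fin k → V, ∃ c : (i : Fin k) → G.Walk (u i) (u i),
        (∀ i, (c i).IsCycle) ∧
        ∀ e ∈ G.edgeSet,
          (Finset.univ.filter (fun i : Fin k => e ∈ (c i).edges)).card = 2 := by
  have hcub := toM_cubic G h3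
  obtain ⟨F, hF, hcard⟩ := hM V G.edgeSet (toM G) hcub (toM_ec G h3 hc h2) (toM_simp G)
  have hcard2 : 2 * Multiset.card F ≤ Fintype.card V := by
    rcases hcard with r | r
    · exact r
    · exact absurd (four_top G h3 r) hK
  obtain ⟨l, rfl⟩ := Quot.exists_rep F
  have hl : ∀ i : Fin l.length, Circ (toM G) (l.get i) := fun i =>
    hF.1 _ (by
      show l.get i ∈ (l : Multiset _)
      rw [Multiset.mem_coe]; exact List.get_mem l i)
  choose u c hc1 hc2 using fun i => h14 V G (toM G) (fun _ => rfl) (l.get i) hcub (hl i)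
  refine ⟨l.length, ?_, u, c, hc1, ?_⟩
  · exact hcard2
  · intro e he
    have h5 := hF.2 ⟨e, he⟩
    rw [← h5]
    have h6 := count_fin l (fun C => (⟨e, he⟩ : G.edgeSet) ∈ C)
    refine Eq.trans ?_ h6
    congr 1
    ext i
    simp only [mem_filter, mem_univ, true_and]
    exact hc2 i ⟨e, he⟩

end

end Pool.Agent.H366R3.SC
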