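import Pool.Agent.H366R3.SC.Basic

set_option autoImplicit false
set_option linter.unusedSectionVars false
set_option linter.unusedSimpArgs false

namespace Pool.Agent.H366R3.SC

open Finset
open Pool.Agent.H126R2.CDC (MGraph)

variable {V E : Type} [Fintype V] [DecidableEq V] [Fintype E] [DecidableEq E]
variable {G : MGraph V E}

lemma opP1 (hG : Cubic G) {F : Multiset (Finset E)} (hF : CD G F) {T X Y Z : Finset E}
    (hT : T ∈ F) (hX : X ∈ F) (hY : Y ∈ F) (hZ : Z ∈ F)
    (hTX : T ≠ X) (hTY : T ≠ Y) (hTZ : T ≠ Z) (hXY : X ≠ Y) (hXZ : X ≠ Z) (hYZ : Y ≠ Z)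
    (hcov : ∀ e ∈ T, e ∈ X ∨ e ∈ Y ∨ e ∈ Z)
    (c1 : Circ G (symmDiff T X)) (c2 : Circ G (symmDiff T Y)) (c3 : Circ G (symmDiff T Z)) :
    ∃ F', CD G F' ∧ Multiset.card F' < Multiset.card F := by
  have hA : ({T, X, Y, Z} : Multiset (Finset E)) ≤ F := by
    rw [Multiset.le_iff_subset]
    · intro B hB
      simp only [Multiset.insert_eq_cons, Multiset.mem_cons, Multiset.mem_singleton] at hB
      rcases hB with rfl | rfl | rfl | rfl <;> assumption
    · simp [hTX, hTY, hTZ, hXY, hXZ, hYZ]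
  obtain ⟨F', h1, h2⟩ := hF.replace (B := {symmDiff T X, symmDiff T Y, symmDiff T Z}) hA (by
      intro C hC
      simp only [Multiset.insert_eq_cons, Multiset.mem_cons, Multiset.mem_singleton] at hC
      rcases hC with rfl | rfl | rfl <;> assumption) (by
      intro e
      have k1 : e ∈ T → e ∈ X → e ∉ Y := fun a b c => by
        rcases hF.two_of_three hG hT hX hY hTX a b c with r | r
        · exact hTY r.symm
        · exact hXY r.symm
      have k2 : e ∈ T → e ∈ X → e ∉ Z := fun a b c => by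
        rcases hF.two_of_three hG hT hX hZ hTX a b c with r | r
        · exact hTZ r.symm
        · exact hXZ r.symm
      have k3 : e ∈ T → e ∈ Y → e ∉ Z := fun a b c => by
        rcases hF.two_of_three hG hT hY hZ hTY a b c with r | r
        · exact hTZ r.symm
        · exact hYZ r.symm
      have k4 := hcov e
      simp only [Multiset.insert_eq_cons, Multiset.countP_cons, ← Multiset.cons_zero,
        Multiset.countP_zero, mem_symmDiff]
      by_cases a : e ∈ T <;> by_cases b : e ∈ X <;> by_cases c : e ∈ Y <;> by_cases d : e ∈ Z <;>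
        simp_all)
  refine ⟨F', h1, ?_⟩
  simp at h2
  omega

lemma opP2 (hG : Cubic G) {F : Multiset (Finset E)} (hF : CD G F) {T X Y Z W : Finset E}
    (hT : T ∈ F) (hX : X ∈ F) (hY : Y ∈ F) (hZ : Z ∈ F) (hW : W ∈ F)
    (hTX : T ≠ X) (hTY : T ≠ Y) (hTZ : T ≠ Z) (hTW : T ≠ W) (hXY : X ≠ Y) (hXZ : X ≠ Z)
    (hXW : X ≠ W) (hYZ : Y ≠ Z) (hYW : Y ≠ W) (hZW : Z ≠ W)
    (hcov : ∀ e ∈ T, e ∈ X ∨ e ∈ Y ∨ e ∈ Z ∨ e ∈ W) (hd : ∀ e ∈ Z, e ∉ W)
    (c1 : Circ G (symmDiff T X)) (c2 : Circ G (symmDiff T Y))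
    (c3 : Circ G (symmDiff (symmDiff T Z) W)) :
    ∃ F', CD G F' ∧ Multiset.card F' < Multiset.card F := by
  have hA : ({T, X, Y, Z, W} : Multiset (Finset E)) ≤ F := by
    rw [Multiset.le_iff_subset]
    · intro B hB
      simp only [Multiset.insert_eq_cons, Multiset.mem_cons, Multiset.mem_singleton] at hB
      rcases hB with rfl | rfl | rfl | rfl | rfl <;> assumption
    · simp [hTX, hTY, hTZ, hTW, hXY, hXZ, hXW, hYZ, hYW, hZW]
  obtain ⟨F', h1, h2⟩ := hF.replace
    (B := {symmDiff T X, symmDiff T Y, symmDiff (symmDiff T Z) W}) hA (by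
      intro C hC
      simp only [Multiset.insert_eq_cons, Multiset.mem_cons, Multiset.mem_singleton] at hC
      rcases hC with rfl | rfl | rfl <;> assumption) (by
      intro e
      have k1 : ∀ A ∈ F, ∀ B ∈ F, T ≠ A → T ≠ B → A ≠ B → e ∈ T → e ∈ A → e ∉ B :=
        fun A hA B hB hTA hTB hAB a b c => by
          rcases hF.two_of_three hG hT hA hB hTA a b c with r | r
          · exact hTB r.symm
          · exact hAB r.symm
      have k2 := k1 X hX Y hY hTX hTY hXY
      have k3 := k1 X hX Z hZ hTX hTZ hXZ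
      have k4 := k1 X hX W hW hTX hTW hXW
      have k5 := k1 Y hY Z hZ hTY hTZ hYZ
      have k6 := k1 Y hY W hW hTY hTW hYW
      have k7 := hcov e
      have k8 := hd e
      clear k1
      simp only [Multiset.insert_eq_cons, Multiset.countP_cons, ← Multiset.cons_zero,
        Multiset.countP_zero, mem_symmDiff]
      by_cases a : e ∈ T <;> by_cases b : e ∈ X <;> by_cases c : e ∈ Y <;> by_cases d : e ∈ Z <;>
        by_cases f : e ∈ W <;> simp_all)
  refine ⟨F', h1, ?_⟩
  simp at h2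
  omega

lemma opP3 (hG : Cubic G) {F : Multiset (Finset E)} (hF : CD G F) {T X Y Z W U : Finset E}
    (hT : T ∈ F) (hX : X ∈ F) (hY : Y ∈ F) (hZ : Z ∈ F) (hW : W ∈ F) (hU : U ∈ F)
    (hnd : List.Nodup [T, X, Y, Z, W, U])
    (hcov : ∀ e ∈ T, e ∈ X ∨ e ∈ Y ∨ e ∈ Z ∨ e ∈ W ∨ e ∈ U) (hd : ∀ e ∈ Y, e ∉ Z)
    (hd2 : ∀ e ∈ W, e ∉ U)
    (c1 : Circ G (symmDiff T X)) (c2 : Circ G (symmDiff (symmDiff T Y) Z))
    (c3 : Circ G (symmDiff (symmDiff T W) U)) :
    ∃ F', CD G F' ∧ Multiset.card F' < Multiset.card F := by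
  have hA : ({T, X, Y, Z, W, U} : Multiset (Finset E)) ≤ F := by
    rw [Multiset.le_iff_subset]
    · intro B hB
      simp only [Multiset.insert_eq_cons, Multiset.mem_cons, Multiset.mem_singleton] at hB
      rcases hB with rfl | rfl | rfl | rfl | rfl | rfl <;> assumption
    · exact hnd
  simp only [List.nodup_cons, List.mem_cons, List.not_mem_nil, or_false, not_or, not_false_eq_true,
    List.nodup_nil, and_true] at hnd
  obtain ⟨⟨hTX, hTY, hTZ, hTW, hTU⟩, ⟨hXY, hXZ, hXW, hXU⟩, ⟨hYZ, hYW, hYU⟩, ⟨hZW, hZU⟩, hWU⟩ := hnd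
  obtain ⟨F', h1, h2⟩ := hF.replace
    (B := {symmDiff T X, symmDiff (symmDiff T Y) Z, symmDiff (symmDiff T W) U}) hA (by
      intro C hC
      simp only [Multiset.insert_eq_cons, Multiset.mem_cons, Multiset.mem_singleton] at hC
      rcases hC with rfl | rfl | rfl <;> assumption) (by
      intro e
      have k1 : ∀ A ∈ F, ∀ B ∈ F, T ≠ A → T ≠ B → A ≠ B → e ∈ T → e ∈ A → e ∉ B :=
        fun A hA B hB hTA hTB hAB a b c => by
          rcases hF.two_of_three hG hT hA hB hTA a b c with r | r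
          · exact hTB r.symm
          · exact hAB r.symm
      have k2 := k1 X hX Y hY hTX hTY hXY
      have k3 := k1 X hX Z hZ hTX hTZ hXZ
      have k4 := k1 X hX W hW hTX hTW hXW
      have k4' := k1 X hX U hU hTX hTU hXU
      have k5' := k1 Y hY W hW hTY hTW hYW
      have k6' := k1 Y hY U hU hTY hTU hYU
      have k9 := k1 Z hZ W hW hTZ hTW hZW
      have k9' := k1 Z hZ U hU hTZ hTU hZU
      have k7 := hcov e
      have k8 := hd e
      have k8' := hd2 e
      clear k1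
      simp only [Multiset.insert_eq_cons, Multiset.countP_cons, ← Multiset.cons_zero,
        Multiset.countP_zero, mem_symmDiff]
      by_cases a : e ∈ T <;> by_cases b : e ∈ X <;> by_cases c : e ∈ Y <;> by_cases d : e ∈ Z <;>
        by_cases f : e ∈ W <;> by_cases g : e ∈ U <;> simp_all)
  refine ⟨F', h1, ?_⟩
  simp at h2
  omega

lemma opZ (hG : Cubic G) {F : Multiset (Finset E)} (hF : CD G F) {T X Y Z Z' : Finset E}
    (hT : T ∈ F) (hX : X ∈ F) (hY : Y ∈ F) (hTX : T ≠ X) (hTY : T ≠ Y) (hXY : X ≠ Y)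
    {e e' f : E} (h1 : T ∩ X = {e}) (h2 : T ∩ Y = {e'}) (h3 : X ∩ Y = {f}) (hee : e ≠ e')
    (c1 : Circ G Z) (c2 : Circ G Z') (h4 : Z ∩ Z' = {e, e', f})
    (h5 : symmDiff Z Z' = symmDiff (symmDiff T X) Y) :
    ∃ F', CD G F' ∧ Multiset.card F' < Multiset.card F := by
  have hA : ({T, X, Y} : Multiset (Finset E)) ≤ F := by
    rw [Multiset.le_iff_subset]
    · intro B hB
      simp only [Multiset.insert_eq_cons, Multiset.mem_cons, Multiset.mem_singleton] at hB
      rcases hB with rfl | rfl | rfl <;> assumption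
    · simp [hTX, hTY, hXY]
  obtain ⟨F', k1, k2⟩ := hF.replace (B := {Z, Z'}) hA (by
      intro C hC
      simp only [Multiset.insert_eq_cons, Multiset.mem_cons, Multiset.mem_singleton] at hC
      rcases hC with rfl | rfl <;> assumption) (by
      intro g
      have a1 : g ∈ T ∩ X ↔ g = e := by rw [h1]; simp
      have a2 : g ∈ T ∩ Y ↔ g = e' := by rw [h2]; simp
      have a3 : g ∈ X ∩ Y ↔ g = f := by rw [h3]; simp
      have a4 : g ∈ Z ∩ Z' ↔ (g = e ∨ g = e' ∨ g = f) := by rw [h4]; simp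
      have a5 : g ∈ symmDiff Z Z' ↔ g ∈ symmDiff (symmDiff T X) Y := by rw [h5]
      have a6 : ¬ (g = e ∧ g = e') := fun ⟨r, s⟩ => hee (r.symm.trans s)
      simp only [mem_inter, mem_symmDiff] at a1 a2 a3 a4 a5
      rw [← a1, ← a2] at a6
      rw [← a1, ← a2, ← a3] at a4
      clear a1 a2 a3
      simp only [Multiset.insert_eq_cons, Multiset.countP_cons, ← Multiset.cons_zero,
        Multiset.countP_zero]
      by_cases a : g ∈ T <;> by_cases b : g ∈ X <;> by_cases c : g ∈ Y <;> by_cases d : g ∈ Z <;>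
        by_cases f : g ∈ Z' <;> simp_all)
  refine ⟨F', k1, ?_⟩
  simp at k2
  omega

end Pool.Agent.H366R3.SC
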