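import Pool.Agent.H366R3.SC.Ops

set_option autoImplicit false
set_option linter.unusedSectionVars false
set_option linter.unusedSimpArgs false

namespace Pool.Agent.H366R3.SC

open Finset
open Pool.Agent.H126R2.CDC (MGraph)

variable {V E : Type} [Fintype V] [DecidableEq V] [Fintype E] [DecidableEq E]
variable {G : MGraph V E}

lemma ec_small (h3 : EC G 3) {S : Finset V} (h : (cut G S).card ≤ 2) : cut G S = ∅ := by
  by_contra hne
  have h1 : S.Nonempty := by
    rw [nonempty_iff_ne_empty]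
    rintro rfl
    apply hne
    ext e; simp [mem_cut]
  have h2 : S ≠ univ := by
    rintro rfl
    apply hne
    ext e; simp [mem_cut]
  have := h3 S h1 h2
  omega

lemma dual3 (hG : Cubic G) {F : Multiset (Finset E)} (hF : CD G F) {T X Y : Finset E}
    (hT : T ∈ F) (hX : X ∈ F) (hY : Y ∈ F) (hTX : T ≠ X) (hTY : T ≠ Y) (hXY : X ≠ Y)
    {e e' g : E} (he : e ∈ T) (he2 : e ∈ X) (he3 : e ∉ Y) (he'1 : e' ∈ T) (he'2 : e' ∈ Y)
    (he'3 : e' ∉ X) (hg1 : g ∈ X) (hg2 : g ∈ Y) (hg3 : g ∉ T) :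
    ∀ B ∈ F, Even (B ∩ {e, e', g}).card := by
  intro B hB
  have n1 : e ≠ e' := by rintro rfl; exact he3 he'2
  have n2 : e ≠ g := by rintro rfl; exact he3 hg2
  have n3 : e' ≠ g := by rintro rfl; exact hg3 he'1
  by_cases b1 : B = T
  · subst b1
    have : B ∩ {e, e', g} = {e, e'} := by
      ext x; simp only [mem_inter, mem_insert, mem_singleton]
      constructor
      · rintro ⟨h, rfl | rfl | rfl⟩
        · simp
        · simp
        · exact absurd h hg3
      · rintro (rfl | rfl) <;> simp [*]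
    rw [this, card_pair n1]; exact ⟨1, rfl⟩
  by_cases b2 : B = X
  · subst b2
    have : B ∩ {e, e', g} = {e, g} := by
      ext x; simp only [mem_inter, mem_insert, mem_singleton]
      constructor
      · rintro ⟨h, rfl | rfl | rfl⟩
        · simp
        · exact absurd h he'3
        · simp
      · rintro (rfl | rfl) <;> simp [*]
    rw [this, card_pair n2]; exact ⟨1, rfl⟩
  by_cases b3 : B = Y
  · subst b3
    have : B ∩ {e, e', g} = {e', g} := by
      ext x; simp only [mem_inter, mem_insert, mem_singleton]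
      constructor
      · rintro ⟨h, rfl | rfl | rfl⟩
        · exact absurd h he3
        · simp
        · simp
      · rintro (rfl | rfl) <;> simp [*]
    rw [this, card_pair n3]; exact ⟨1, rfl⟩
  have : B ∩ {e, e', g} = ∅ := by
    ext x
    simp only [mem_inter, mem_insert, mem_singleton, notMem_empty, iff_false, not_and]
    rintro hx (rfl | rfl | rfl)
    · rcases hF.two_of_three hG hT hX hB hTX he he2 hx with r | r <;> contradiction
    · rcases hF.two_of_three hG hT hY hB hTY he'1 he'2 hx with r | r <;> contradiction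
    · rcases hF.two_of_three hG hX hY hB hXY hg1 hg2 hx with r | r <;> contradiction
  rw [this]; simp

lemma dual2 (hG : Cubic G) {F : Multiset (Finset E)} (hF : CD G F) {X Y : Finset E}
    (hX : X ∈ F) (hY : Y ∈ F) (hXY : X ≠ Y)
    {p q : E} (hpq : p ≠ q) (h1 : p ∈ X) (h2 : p ∈ Y) (h3 : q ∈ X) (h4 : q ∈ Y) :
    ∀ B ∈ F, Even (B ∩ {p, q}).card := by
  intro B hB
  by_cases b2 : B = X
  · subst b2
    have : B ∩ {p, q} = {p, q} := by
      ext x; simp only [mem_inter, mem_insert, mem_singleton]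
      constructor
      · rintro ⟨h, h'⟩; exact h'
      · rintro (rfl | rfl) <;> simp [*]
    rw [this, card_pair hpq]; exact ⟨1, rfl⟩
  by_cases b3 : B = Y
  · subst b3
    have : B ∩ {p, q} = {p, q} := by
      ext x; simp only [mem_inter, mem_insert, mem_singleton]
      constructor
      · rintro ⟨h, h'⟩; exact h'
      · rintro (rfl | rfl) <;> simp [*]
    rw [this, card_pair hpq]; exact ⟨1, rfl⟩
  have : B ∩ {p, q} = ∅ := by
    ext x
    simp only [mem_inter, mem_insert, mem_singleton, notMem_empty, iff_false, not_and]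
    rintro hx (rfl | rfl)
    · rcases hF.two_of_three hG hX hY hB hXY h1 h2 hx with r | r <;> contradiction
    · rcases hF.two_of_three hG hX hY hB hXY h3 h4 hx with r | r <;> contradiction
  rw [this]; simp

lemma nc3 (h4 : C4 G) {e e' g : E} (hee : ∀ v, v ∈ G.ends e → v ∉ G.ends e') (S : Finset V) :
    cut G S ≠ {e, e', g} := by
  intro h
  have he : e ∈ cut G S := by rw [h]; simp
  have he' : e' ∈ cut G S := by rw [h]; simp
  rw [mem_cut] at he he'
  obtain ⟨⟨x, hx, hx2⟩, y, hy, hy2⟩ := he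
  obtain ⟨⟨x', hx', hx'2⟩, y', hy', hy'2⟩ := he'
  have h1 : 2 ≤ S.card := by
    by_contra hc
    have h1 : S.card ≤ 1 := by omega
    rw [card_le_one] at h1
    have := h1 x hx x' hx'
    subst this
    exact hee _ hx2 hx'2
  have h2 : 2 ≤ Sᶜ.card := by
    by_contra hc
    have h1 : Sᶜ.card ≤ 1 := by omega
    rw [card_le_one] at h1
    have := h1 y (by simpa using hy) y' (by simpa using hy')
    subst this
    exact hee _ hy2 hy'2
  have h5 := h4 S h1 h2
  rw [h] at h5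
  have : ({e, e', g} : Finset E).card ≤ 3 := card_le_three
  omega

/-- context -/
structure Ctx (G : MGraph V E) (F : Multiset (Finset E)) : Prop where
  hG : Cubic G
  h3 : EC G 3
  h4 : C4 G
  hn : 4 ≤ Fintype.card V
  hF : CD G F
  hc : Fintype.card V + 2 ≤ 2 * Multiset.card F
  tk2 : ∀ K K' : Finset E,
    (∀ B ∈ F, Even (B ∩ K).card) → (∀ B ∈ F, Even (B ∩ K').card) →
    (∀ S : Finset V, cut G S ≠ K) → (∀ S : Finset V, cut G S ≠ K') →
    ∃ S : Finset V, cut G S = symmDiff K K'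
  t4 : ∀ (T X : Finset E) (e : E), Circ G T → Circ G X → T ∩ X = {e} → Circ G (symmDiff T X)
  t7 : ∀ T ∈ F, ∀ X ∈ F, T ≠ X → ∀ e e' : E, e ≠ e' → T ∩ X = {e, e'} → Circ G (symmDiff T X)
  t8 : ∀ T ∈ F, ∀ X ∈ F, ∀ Y ∈ F, T ≠ X → T ≠ Y → X ≠ Y → ∀ e e' f : E, e ≠ e' → e ≠ f →
    e' ≠ f → T ∩ X = {e} → T ∩ Y = {e'} → X ∩ Y = {f} → (∀ S : Finset V, cut G S ≠ {e, e', f}) →
    ∃ Z Z' : Finset E, Circ G Z ∧ Circ G Z' ∧ Z ∩ Z' = {e, e', f} ∧
      symmDiff Z Z' = symmDiff (symmDiff T X) Y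

lemma zz {F : Multiset (Finset E)} (c : Ctx G F) {T X Y : Finset E}
    (hT : T ∈ F) (hX : X ∈ F) (hY : Y ∈ F) (hTX : T ≠ X) (hTY : T ≠ Y) (hXY : X ≠ Y)
    {e e' f : E} (h1 : T ∩ X = {e}) (h2 : T ∩ Y = {e'})
    (hee : ∀ v, v ∈ G.ends e → v ∉ G.ends e') (hf1 : f ∈ X) (hf2 : f ∈ Y) :
    ∃ F', CD G F' ∧ Multiset.card F' < Multiset.card F := by
  have a1 : ∀ g, g ∈ T ∩ X ↔ g = e := by intro g; rw [h1]; simp
  have a2 : ∀ g, g ∈ T ∩ Y ↔ g = e' := by intro g; rw [h2]; simp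
  simp only [mem_inter] at a1 a2
  have n1 : e ≠ e' := by
    rintro rfl
    obtain ⟨x, y, hxy, h⟩ := exists_ends c.hG e
    exact hee x (by rw [h]; simp) (by rw [h]; simp)
  have e1 := (a1 e).2 rfl
  have e2 := (a2 e').2 rfl
  have eY : e ∉ Y := fun h => n1 ((a2 e).1 ⟨e1.1, h⟩)
  have e'X : e' ∉ X := fun h => n1 ((a1 e').1 ⟨e2.1, h⟩).symm
  have nT : ∀ g, g ∈ X → g ∈ Y → g ∉ T := fun g p q r =>
    n1 (((a1 g).1 ⟨r, p⟩).symm.trans ((a2 g).1 ⟨r, q⟩))
  have key : ∀ g, g ∈ X → g ∈ Y → (∀ B ∈ F, Even (B ∩ {e, e', g}).card) := fun g p q =>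
    dual3 c.hG c.hF hT hX hY hTX hTY hXY e1.1 e1.2 eY e2.1 e2.2 e'X p q (nT g p q)
  have huniq : ∀ g, g ∈ X → g ∈ Y → g = f := by
    intro g p q
    by_contra hgf
    obtain ⟨S, hS⟩ := c.tk2 {e, e', f} {e, e', g} (key f hf1 hf2) (key g p q) (nc3 c.h4 hee)
      (nc3 c.h4 hee)
    have hfe : f ≠ e := by rintro rfl; exact nT f hf1 hf2 e1.1
    have hfe' : f ≠ e' := by rintro rfl; exact nT f hf1 hf2 e2.1
    have hge : g ≠ e := by rintro rfl; exact nT g p q e1.1
    have hge' : g ≠ e' := by rintro rfl; exact nT g p q e2.1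
    have h5 : symmDiff ({e, e', f} : Finset E) {e, e', g} = {f, g} := by
      ext x
      simp only [mem_symmDiff, mem_insert, mem_singleton]
      constructor
      · tauto
      · rintro (rfl | rfl)
        · left; simp [hfe, hfe', Ne.symm hgf]
        · right; simp [hge, hge', hgf]
    rw [h5] at hS
    have h6 := ec_small c.h3 (S := S) (by rw [hS]; exact card_le_two)
    rw [hS] at h6
    have : f ∈ ({f, g} : Finset E) := by simp
    rw [h6] at this
    simp at this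
  have h3 : X ∩ Y = {f} := by
    ext g
    simp only [mem_inter, mem_singleton]
    constructor
    · rintro ⟨p, q⟩; exact huniq g p q
    · rintro rfl; exact ⟨hf1, hf2⟩
  have n2 : e ≠ f := by rintro rfl; exact eY hf2
  have n3 : e' ≠ f := by rintro rfl; exact e'X hf1
  obtain ⟨Z, Z', z1, z2, z3, z4⟩ := c.t8 T hT X hX Y hY hTX hTY hXY e e' f n1 n2 n3 h1 h2 h3
    (nc3 c.h4 hee)
  exact opZ c.hG c.hF hT hX hY hTX hTY hXY h1 h2 h3 n1 z1 z2 z3 z4

lemma circ2 {F : Multiset (Finset E)} (c : Ctx G F) {T X Y : Finset E} (hT : T ∈ F) (hX : X ∈ F)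
    (hY : Y ∈ F) {e e' : E} (h1 : T ∩ X = {e}) (h2 : T ∩ Y = {e'}) (hd : ∀ g ∈ X, g ∉ Y) :
    Circ G (symmDiff (symmDiff T X) Y) := by
  refine c.t4 _ _ e' (c.t4 _ _ e (c.hF.1 T hT) (c.hF.1 X hX) h1) (c.hF.1 Y hY) ?_
  rw [← h2]
  ext g
  have := hd g
  simp only [mem_inter, mem_symmDiff]
  tauto

/-- a face in cyclic order with its neighbours -/
structure Nb (G : MGraph V E) (F : Multiset (Finset E)) (T : Finset E) {L : ℕ} [NeZero L]
    (a : Fin L → V) (t : Fin L → E) (X : Fin L → Finset E) : Prop where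
  inja : Function.Injective a
  injt : Function.Injective t
  memT : ∀ e, e ∈ T ↔ ∃ i, t i = e
  ends : ∀ i, G.ends (t i) = s(a i, a (i + 1))
  XF : ∀ i, X i ∈ F
  XT : ∀ i, X i ≠ T
  tX : ∀ i, t i ∈ X i
  uq : ∀ i, ∀ Y ∈ F, t i ∈ Y → Y = T ∨ Y = X i

lemma Nb.rot {F : Multiset (Finset E)} {T : Finset E} {L : ℕ} [NeZero L]
    {a : Fin L → V} {t : Fin L → E} {X : Fin L → Finset E} (h : Nb G F T a t X) (k : Fin L) :
    Nb G F T (fun i => a (i + k)) (fun i => t (i + k)) (fun i => X (i + k)) where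
  inja := fun i j hij => by simpa using h.inja hij
  injt := fun i j hij => by simpa using h.injt hij
  memT := fun e => by
    rw [h.memT]
    constructor
    · rintro ⟨i, rfl⟩; exact ⟨i - k, by simp⟩
    · rintro ⟨i, rfl⟩; exact ⟨i + k, rfl⟩
  ends := fun i => by rw [h.ends, add_right_comm]
  XF := fun i => h.XF _
  XT := fun i => h.XT _
  tX := fun i => h.tX _
  uq := fun i => h.uq _

section
variable {F : Multiset (Finset E)} {T : Finset E} {L : ℕ} [NeZero L]
    {a : Fin L → V} {t : Fin L → E} {X : Fin L → Finset E}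

lemma Nb.mem_iff (h : Nb G F T a t X) (i j : Fin L) : t j ∈ X i ↔ X j = X i := by
  constructor
  · intro hj
    rcases h.uq j (X i) (h.XF i) hj with r | r
    · exact absurd r (h.XT i)
    · exact r.symm
  · intro hj
    rw [← hj]; exact h.tX j

lemma Nb.adj (c : Ctx G F) (hT : T ∈ F) (h : Nb G F T a t X) (i : Fin L) (hi : i ≠ i + 1) :
    X i ≠ X (i + 1) := by
  intro hX
  have h1 : t (i + 1) ∈ X i := (h.mem_iff i (i + 1)).2 hX.symm
  exact c.hF.corner c.hG hT (h.XF i) (h.XT i).symm (e := t i) (f := t (i + 1)) (v := a (i + 1))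
    (fun r => hi (h.injt r)) (by rw [h.ends]; simp) (by rw [h.ends]; simp)
    ((h.memT _).2 ⟨i, rfl⟩) ((h.memT _).2 ⟨i + 1, rfl⟩) (h.tX i) h1

lemma Nb.single (h : Nb G F T a t X) (i : Fin L) (hi : ∀ j, j ≠ i → X j ≠ X i) :
    T ∩ X i = {t i} := by
  ext e
  simp only [mem_inter, mem_singleton]
  constructor
  · rintro ⟨h1, h2⟩
    obtain ⟨j, rfl⟩ := (h.memT e).1 h1
    have h3 := (h.mem_iff i j).1 h2
    by_contra hne
    exact hi j (fun r => hne (by rw [r])) h3
  · rintro rfl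
    exact ⟨(h.memT _).2 ⟨i, rfl⟩, h.tX i⟩

lemma Nb.double (h : Nb G F T a t X) (i k : Fin L) (hik : X k = X i)
    (hi : ∀ j, j ≠ i → j ≠ k → X j ≠ X i) : T ∩ X i = {t i, t k} := by
  ext e
  simp only [mem_inter, mem_insert, mem_singleton]
  constructor
  · rintro ⟨h1, h2⟩
    obtain ⟨j, rfl⟩ := (h.memT e).1 h1
    have h3 := (h.mem_iff i j).1 h2
    by_contra hne
    push Not at hne
    exact hi j (fun r => hne.1 (by rw [r])) (fun r => hne.2 (by rw [r])) h3
  · rintro (rfl | rfl)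
    · exact ⟨(h.memT _).2 ⟨i, rfl⟩, h.tX i⟩
    · exact ⟨(h.memT _).2 ⟨k, rfl⟩, (h.mem_iff i k).2 hik⟩

lemma Nb.c1 (c : Ctx G F) (hT : T ∈ F) (h : Nb G F T a t X) (i : Fin L)
    (hi : ∀ j, j ≠ i → X j ≠ X i) : Circ G (symmDiff T (X i)) :=
  c.t4 _ _ (t i) (c.hF.1 T hT) (c.hF.1 _ (h.XF i)) (h.single i hi)

lemma Nb.c2 (c : Ctx G F) (hT : T ∈ F) (h : Nb G F T a t X) (i k : Fin L) (hik : X k = X i)
    (hne : i ≠ k) (hi : ∀ j, j ≠ i → j ≠ k → X j ≠ X i) : Circ G (symmDiff T (X i)) :=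
  c.t7 _ hT _ (h.XF i) (h.XT i).symm (t i) (t k) (fun r => hne (h.injt r)) (h.double i k hik hi)

end

lemma case3 {F : Multiset (Finset E)} (c : Ctx G F) {T : Finset E} (hT : T ∈ F)
    {a : Fin 3 → V} {t : Fin 3 → E} {X : Fin 3 → Finset E} (h : Nb G F T a t X) :
    ∃ F', CD G F' ∧ Multiset.card F' < Multiset.card F := by
  have n01 : X 0 ≠ X 1 := h.adj c hT 0 (by decide)
  have n12 : X 1 ≠ X 2 := h.adj c hT 1 (by decide)
  have n20 : X 2 ≠ X 0 := h.adj c hT 2 (by decide)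
  have i0 : ∀ j, j ≠ 0 → X j ≠ X 0 := by
    intro j hj; fin_cases j <;> simp_all [Ne.symm n01]
  have i1 : ∀ j, j ≠ 1 → X j ≠ X 1 := by
    intro j hj; fin_cases j <;> simp_all [Ne.symm n12]
  have i2 : ∀ j, j ≠ 2 → X j ≠ X 2 := by
    intro j hj; fin_cases j <;> simp_all [Ne.symm n20]
  refine opP1 c.hG c.hF hT (h.XF 0) (h.XF 1) (h.XF 2) (h.XT 0).symm (h.XT 1).symm (h.XT 2).symm
    n01 n20.symm n12 ?_ (h.c1 c hT 0 i0) (h.c1 c hT 1 i1) (h.c1 c hT 2 i2)
  intro e he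
  obtain ⟨i, rfl⟩ := (h.memT e).1 he
  have := h.tX i
  fin_cases i <;> simp_all

end Pool.Agent.H366R3.SC
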