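import Pool.Agent.H126R2.CDC.Main

set_option autoImplicit false

/-!
SCDC-PROJECT (helper366): MP_32fd1f_co, S08003.  Every 2-connected simple cubic graph other than
`K_4` has a cycle double cover with at most `n/2` cycles.  The cycle double cover theorem is in
`Pool.Agent.H126R2.CDC.Main` (`MGraph.exists_cdc`).
-/

namespace Pool.Agent.H366R3.SC

open Finset
open Pool.Agent.H126R2.CDC (MGraph)

section Defs

variable {V E : Type} [Fintype V] [DecidableEq V] [Fintype E] [DecidableEq E]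

/-- the edges at the vertex `v` -/
def inc (G : MGraph V E) (v : V) : Finset E := univ.filter (fun e => v ∈ G.ends e)

/-- loopless and cubic (parallel edges allowed) -/
structure Cubic (G : MGraph V E) : Prop where
  loopless : ∀ e, ¬ (G.ends e).IsDiag
  three : ∀ v, (inc G v).card = 3

/-- `A` is even: every vertex is on an even number of edges of `A` (for loopless graphs). -/
def Ev (G : MGraph V E) (A : Finset E) : Prop := ∀ v, Even (A ∩ inc G v).card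

/-- circuit = minimal nonempty even set -/
def Circ (G : MGraph V E) (C : Finset E) : Prop :=
  C.Nonempty ∧ Ev G C ∧ ∀ D ⊆ C, D.Nonempty → Ev G D → D = C

/-- circuit double cover -/
def CD (G : MGraph V E) (F : Multiset (Finset E)) : Prop :=
  (∀ C ∈ F, Circ G C) ∧ ∀ e, F.countP (fun C => e ∈ C) = 2

/-- edges with exactly one end in `S` -/
def cut (G : MGraph V E) (S : Finset V) : Finset E :=
  univ.filter (fun e => (∃ x ∈ S, x ∈ G.ends e) ∧ ∃ y ∉ S, y ∈ G.ends e)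

/-- every cut of a proper nonempty vertex set has at least `k` edges -/
def EC (G : MGraph V E) (k : ℕ) : Prop :=
  ∀ S : Finset V, S.Nonempty → S ≠ univ → k ≤ (cut G S).card

/-- no nontrivial cut with at most three edges -/
def C4 (G : MGraph V E) : Prop :=
  ∀ S : Finset V, 2 ≤ S.card → 2 ≤ Sᶜ.card → 4 ≤ (cut G S).card

/-- the sum (mod 2) of a family of edge sets -/
def oddSum (A : Finset (Finset E)) : Finset E :=
  univ.filter (fun e => Odd (A.filter (fun C => e ∈ C)).card)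

/-- no parallel edges except perhaps with `g` -/
def SimpX (G : MGraph V E) (g : E) : Prop :=
  ∀ e f, e ≠ g → f ≠ g → G.ends e = G.ends f → e = f

/-- no parallel edges inside `S` -/
def SimpIn (G : MGraph V E) (S : Finset V) : Prop :=
  ∀ e f, (∀ x ∈ G.ends e, x ∈ S) → G.ends e = G.ends f → e = f

/-- no parallel edges -/
def Simp (G : MGraph V E) : Prop := ∀ e f, G.ends e = G.ends f → e = f

end Defs

/-! ### Tasks -/

/-- T0: existence of a double cover, from `MGraph.exists_cdc`. -/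
def T0 : Prop := ∀ (V E : Type) [Fintype V] [DecidableEq V] [Fintype E] [DecidableEq E]
  (G : MGraph V E), Cubic G → EC G 2 → ∃ F, CD G F

/-- T1: a set orthogonal to all even sets is a cut. -/
def T1 : Prop := ∀ (V E : Type) [Fintype V] [DecidableEq V] [Fintype E] [DecidableEq E]
  (G : MGraph V E), Cubic G → EC G 1 → ∀ K : Finset E,
  (∀ C, Ev G C → Even (C ∩ K).card) → ∃ S : Finset V, K = cut G S

/-- T2: Euler bound. -/
def T2 : Prop := ∀ (V E : Type) [Fintype V] [DecidableEq V] [Fintype E] [DecidableEq E]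
  (G : MGraph V E), Cubic G → EC G 1 → ∀ F, CD G F → 2 * Multiset.card F ≤ Fintype.card V + 4

/-- T3: if there are at least `n/2 + 1` faces, the sums of faces have codimension at most one in
the even sets. -/
def T3 : Prop := ∀ (V E : Type) [Fintype V] [DecidableEq V] [Fintype E] [DecidableEq E]
  (G : MGraph V E), Cubic G → EC G 1 → ∀ F, CD G F →
  Fintype.card V + 2 ≤ 2 * Multiset.card F → ∀ C C' : Finset E, Ev G C → Ev G C' →
  (∃ A : Finset (Finset E), (∀ B ∈ A, B ∈ F) ∧ C = oddSum A) ∨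
  (∃ A : Finset (Finset E), (∀ B ∈ A, B ∈ F) ∧ C' = oddSum A) ∨
  (∃ A : Finset (Finset E), (∀ B ∈ A, B ∈ F) ∧ symmDiff C C' = oddSum A)

/-- T4: two circuits with exactly one common edge. -/
def T4 : Prop := ∀ (V E : Type) [Fintype V] [DecidableEq V] [Fintype E] [DecidableEq E]
  (G : MGraph V E), Cubic G → ∀ (T X : Finset E) (e : E), Circ G T → Circ G X → T ∩ X = {e} →
  Circ G (symmDiff T X)

/-- T5: arcs.  For two vertices `a ≠ b` of a circuit and an edge `e` of it, there is a unique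
`P ⊆ T \ {e}` with odd degree exactly at `a` and `b`. -/
def T5 : Prop := ∀ (V E : Type) [Fintype V] [DecidableEq V] [Fintype E] [DecidableEq E]
  (G : MGraph V E), Cubic G → ∀ (T : Finset E), Circ G T → ∀ a b : V, a ≠ b →
  (T ∩ inc G a).Nonempty → (T ∩ inc G b).Nonempty → ∀ e ∈ T,
  ∃ P ⊆ T, e ∉ P ∧ ∀ v, Odd (P ∩ inc G v).card ↔ (v = a ∨ v = b)

/-- a sum of faces which avoids the faces of `Y` but is contained in their union -/
def T6 : Prop := ∀ (V E : Type) [Fintype V] [DecidableEq V] [Fintype E] [DecidableEq E]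
  (G : MGraph V E), Cubic G → ∀ F, CD G F → ∀ A Y : Finset (Finset E),
  (∀ B ∈ A, B ∈ F) → (∀ B ∈ Y, B ∈ F) → Disjoint A Y → (∀ e ∈ oddSum A, ∃ B ∈ Y, e ∈ B) →
  ∀ W : Finset V, (∀ v, v ∈ W ↔ ∃ B ∈ A, (B ∩ inc G v).Nonempty) →
  ∀ g ∈ cut G W, ∃ B ∈ Y, ∃ B' ∈ Y, B ≠ B' ∧ g ∈ B ∧ g ∈ B'

/-- TK: with at least `n/2 + 1` faces, an even set which avoids a dual closed non-cut `K` is a
sum of faces. -/
def TK : Prop := T1 → T3 →
  ∀ (V E : Type) [Fintype V] [DecidableEq V] [Fintype E] [DecidableEq E]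
  (G : MGraph V E), Cubic G → EC G 1 → ∀ F, CD G F →
  Fintype.card V + 2 ≤ 2 * Multiset.card F → ∀ K : Finset E, (∀ B ∈ F, Even (B ∩ K).card) →
  (∀ S : Finset V, cut G S ≠ K) → ∀ C : Finset E, Ev G C → Disjoint C K →
  ∃ A : Finset (Finset E), (∀ B ∈ A, B ∈ F) ∧ C = oddSum A

/-- TK2: with at least `n/2 + 1` faces, the sum of two dual closed non-cuts is a cut. -/
def TK2 : Prop := T1 → T3 →
  ∀ (V E : Type) [Fintype V] [DecidableEq V] [Fintype E] [DecidableEq E]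
  (G : MGraph V E), Cubic G → EC G 1 → ∀ F, CD G F →
  Fintype.card V + 2 ≤ 2 * Multiset.card F → ∀ K K' : Finset E,
  (∀ B ∈ F, Even (B ∩ K).card) → (∀ B ∈ F, Even (B ∩ K').card) →
  (∀ S : Finset V, cut G S ≠ K) → (∀ S : Finset V, cut G S ≠ K') →
  ∃ S : Finset V, cut G S = symmDiff K K'

/-- T7a: two circuits meeting in two edges, crossed. -/
def T7a : Prop := ∀ (V E : Type) [Fintype V] [DecidableEq V] [Fintype E] [DecidableEq E]
  (G : MGraph V E), Cubic G → ∀ T X : Finset E, Circ G T → Circ G X → ∀ e e' : E, e ≠ e' →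
  T ∩ X = {e, e'} → ∀ a a' b b' : V, G.ends e = s(a, a') → G.ends e' = s(b, b') →
  a ≠ b → a ≠ b' → a' ≠ b → a' ≠ b' →
  ∀ P ⊆ T, ∀ R ⊆ X, e ∉ P → e' ∉ P → e ∉ R → e' ∉ R →
  (∀ v, Odd (P ∩ inc G v).card ↔ (v = a ∨ v = b)) →
  (∀ v, Odd (R ∩ inc G v).card ↔ (v = a ∨ v = b')) → Circ G (symmDiff T X)

/-- T7: two faces with two common edges. -/
def T7 : Prop := T1 → T3 → TK → T5 → T6 → T7a →
  ∀ (V E : Type) [Fintype V] [DecidableEq V] [Fintype E] [DecidableEq E]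
  (G : MGraph V E), Cubic G → EC G 3 → 4 ≤ Fintype.card V → ∀ F, CD G F →
  Fintype.card V + 2 ≤ 2 * Multiset.card F →
  ∀ T ∈ F, ∀ X ∈ F, T ≠ X → ∀ e e' : E, e ≠ e' → T ∩ X = {e, e'} → Circ G (symmDiff T X)

/-- T8a: three circuits pairwise meeting in one edge, Moebius position. -/
def T8a : Prop := ∀ (V E : Type) [Fintype V] [DecidableEq V] [Fintype E] [DecidableEq E]
  (G : MGraph V E), Cubic G → ∀ T X Y : Finset E, Circ G T → Circ G X → Circ G Y →
  ∀ e e' f : E, e ≠ e' → e ≠ f → e' ≠ f → T ∩ X = {e} → T ∩ Y = {e'} → X ∩ Y = {f} →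
  ∀ a a' b b' c c' : V, G.ends e = s(a, a') → G.ends e' = s(b, b') → G.ends f = s(c, c') →
  List.Nodup [a, a', b, b', c, c'] →
  ∀ P ⊆ T, ∀ R ⊆ X, ∀ M ⊆ Y, e ∉ P → e' ∉ P → e ∉ R → f ∉ R → e' ∉ M → f ∉ M →
  (∀ v, Odd (P ∩ inc G v).card ↔ (v = a ∨ v = b)) →
  (∀ v, Odd (R ∩ inc G v).card ↔ (v = a ∨ v = c)) →
  (∀ v, Odd (M ∩ inc G v).card ↔ (v = b ∨ v = c')) →
  ∃ Z Z' : Finset E, Circ G Z ∧ Circ G Z' ∧ Z ∩ Z' = {e, e', f} ∧
    symmDiff Z Z' = symmDiff (symmDiff T X) Y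

/-- T8: the Moebius zigzag. -/
def T8 : Prop := T1 → T3 → TK → T5 → T6 → T8a →
  ∀ (V E : Type) [Fintype V] [DecidableEq V] [Fintype E] [DecidableEq E]
  (G : MGraph V E), Cubic G → EC G 3 → 4 ≤ Fintype.card V → ∀ F, CD G F →
  Fintype.card V + 2 ≤ 2 * Multiset.card F →
  ∀ T ∈ F, ∀ X ∈ F, ∀ Y ∈ F, T ≠ X → T ≠ Y → X ≠ Y → ∀ e e' f : E, e ≠ e' → e ≠ f → e' ≠ f →
  T ∩ X = {e} → T ∩ Y = {e'} → X ∩ Y = {f} → (∀ S : Finset V, cut G S ≠ {e, e', f}) →
  ∃ Z Z' : Finset E, Circ G Z ∧ Circ G Z' ∧ Z ∩ Z' = {e, e', f} ∧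
    symmDiff Z Z' = symmDiff (symmDiff T X) Y

/-- T9: vertices and edges of a circuit in cyclic order. -/
def T9 : Prop := ∀ (V E : Type) [Fintype V] [DecidableEq V] [Fintype E] [DecidableEq E]
  (G : MGraph V E), Cubic G → ∀ (C : Finset E), Circ G C → ∀ n : ℕ, C.card = n + 3 →
  ∃ (a : Fin (n + 3) → V) (t : Fin (n + 3) → E), Function.Injective a ∧ Function.Injective t ∧
    (∀ e, e ∈ C ↔ ∃ i, t i = e) ∧ ∀ i, G.ends (t i) = s(a i, a (i + 1))

/-- T11: three-edge cuts. -/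
def T11 : Prop := ∀ (V E : Type) [Fintype V] [DecidableEq V] [Fintype E] [DecidableEq E]
  (G : MGraph V E), Cubic G → EC G 3 → ∀ S : Finset V, (cut G S).card = 3 → 2 ≤ S.card →
  2 ≤ Sᶜ.card →
  ∃ (V₁ E₁ : Type) (_ : Fintype V₁) (_ : DecidableEq V₁) (_ : Fintype E₁) (_ : DecidableEq E₁)
    (G₁ : MGraph V₁ E₁)
    (V₂ E₂ : Type) (_ : Fintype V₂) (_ : DecidableEq V₂) (_ : Fintype E₂) (_ : DecidableEq E₂)
    (G₂ : MGraph V₂ E₂),
    Cubic G₁ ∧ EC G₁ 3 ∧ Fintype.card V₁ = S.card + 1 ∧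
    Cubic G₂ ∧ EC G₂ 3 ∧ Fintype.card V₂ = Sᶜ.card + 1 ∧
    ∀ F₁ F₂, CD G₁ F₁ → CD G₂ F₂ →
      ∃ F, CD G F ∧ Multiset.card F + 3 = Multiset.card F₁ + Multiset.card F₂

/-- T12: two-edge cuts. -/
def T12 : Prop := ∀ (V E : Type) [Fintype V] [DecidableEq V] [Fintype E] [DecidableEq E]
  (G : MGraph V E), Cubic G → EC G 2 → ∀ S : Finset V, (cut G S).card = 2 → S.Nonempty →
  S ≠ univ →
  ∃ (V₁ E₁ : Type) (_ : Fintype V₁) (_ : DecidableEq V₁) (_ : Fintype E₁) (_ : DecidableEq E₁)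
    (G₁ : MGraph V₁ E₁) (g₁ : E₁)
    (V₂ E₂ : Type) (_ : Fintype V₂) (_ : DecidableEq V₂) (_ : Fintype E₂) (_ : DecidableEq E₂)
    (G₂ : MGraph V₂ E₂) (g₂ : E₂),
    Cubic G₁ ∧ EC G₁ 2 ∧ Fintype.card V₁ = S.card ∧ (SimpIn G S → SimpX G₁ g₁) ∧
    Cubic G₂ ∧ EC G₂ 2 ∧ Fintype.card V₂ = Sᶜ.card ∧ (SimpIn G Sᶜ → SimpX G₂ g₂) ∧
    ∀ F₁ F₂, CD G₁ F₁ → CD G₂ F₂ →
      ∃ F, CD G F ∧ Multiset.card F + 2 = Multiset.card F₁ + Multiset.card F₂

/-- T13: the reduction for cyclically 4-edge-connected graphs. -/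
def T13 : Prop := T1 → T3 → TK → TK2 → T4 → T5 → T6 → T7a → T7 → T8a → T8 → T9 →
  ∀ (V E : Type) [Fintype V] [DecidableEq V] [Fintype E] [DecidableEq E]
  (G : MGraph V E), Cubic G → EC G 3 → C4 G → 4 ≤ Fintype.card V → ∀ F, CD G F →
  Fintype.card V + 2 ≤ 2 * Multiset.card F →
  (Fintype.card V = 4 ∧ Multiset.card F = 3) ∨
    ∃ F', CD G F' ∧ Multiset.card F' < Multiset.card F

/-- the theorem for multigraphs -/
def Main : Prop := ∀ (V E : Type) [Fintype V] [DecidableEq V] [Fintype E] [DecidableEq E]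
  (G : MGraph V E), Cubic G → EC G 2 → Simp G →
  ∃ F, CD G F ∧ (2 * Multiset.card F ≤ Fintype.card V ∨ Fintype.card V = 4)

/-- T14: circuits of a simple graph are cycles (as closed walks). -/
def T14 : Prop := ∀ (V : Type) [Fintype V] [DecidableEq V] (G : SimpleGraph V)
  [DecidableRel G.Adj] (H : MGraph V G.edgeSet), (∀ e, H.ends e = e.1) →
  ∀ C : Finset G.edgeSet, Cubic H → Circ H C →
  ∃ (u : V) (c : G.Walk u u), c.IsCycle ∧ ∀ e : G.edgeSet, e.1 ∈ c.edges ↔ e ∈ C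

end Pool.Agent.H366R3.SC
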