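import Pool.Agent.H366R3.SC.Stmts

set_option autoImplicit false
set_option linter.unusedSectionVars false

/-! Task T0 of the SCDC project (helper444): existence of a circuit double cover. -/

namespace Pool.Agent.H366R3.SC.T0h444

open Finset
open Pool.Agent.H126R2.CDC (MGraph IsFl isFl_iff mem_cob_of_orth)
open Pool.Agent.Helper879.ECD (F2 IsFlow f2_add_self)

variable {V E : Type} [Fintype V] [DecidableEq V] [Fintype E] [DecidableEq E]

lemma deg_eq {G : MGraph V E} (hG : Cubic G) (D : Finset E) (v : V) :
    G.deg D v = (D ∩ inc G v).card := by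
  unfold MGraph.deg
  have h1 : (D.filter fun e => G.ends e = s(v, v)) = ∅ := by
    apply Finset.filter_eq_empty_iff.2
    intro e _ he
    apply hG.loopless e
    rw [he]
    simp
  rw [h1, card_empty, add_zero]
  congr 1
  ext e
  simp [inc]

lemma ev_iff {G : MGraph V E} (hG : Cubic G) (D : Finset E) : Ev G D ↔ G.IsEven D := by
  unfold Ev MGraph.IsEven
  apply forall_congr'
  intro v
  rw [deg_eq hG]

lemma circ_of_isCircuit {G : MGraph V E} (hG : Cubic G) {C : Finset E} (hC : G.IsCircuit C) :
    Circ G C := by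
  refine ⟨hC.1, (ev_iff hG C).2 hC.isEven, ?_⟩
  intro D hDC hDne hDev
  obtain ⟨e, he⟩ := hDne
  apply Finset.Subset.antisymm hDC
  intro f hf
  have hpath := hC.2.2 e (hDC he) f hf
  clear hf
  induction hpath with
  | refl => exact he
  | tail _ hbc ih =>
    rename_i b c _
    obtain ⟨hcC, v, hvb, hvc⟩ := hbc
    have hb : b ∈ D ∩ inc G v := by
      rw [mem_inter]
      exact ⟨ih, by simp [inc, hvb]⟩
    have h1 : 1 ≤ (D ∩ inc G v).card := card_pos.2 ⟨b, hb⟩
    obtain ⟨k, hk⟩ := hDev v
    have h2 : (C ∩ inc G v).card ≤ 2 := by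
      rw [← deg_eq hG]
      rcases hC.2.1 v with h | h <;> omega
    have hsub : D ∩ inc G v ⊆ C ∩ inc G v := inter_subset_inter_right hDC
    have heq : D ∩ inc G v = C ∩ inc G v := eq_of_subset_of_card_le hsub (by omega)
    have hc : c ∈ C ∩ inc G v := by
      rw [mem_inter]
      exact ⟨hcC, by simp [inc, hvc]⟩
    rw [← heq, mem_inter] at hc
    exact hc.1

lemma bridgeless {G : MGraph V E} (hEC : EC G 2) : G.Bridgeless := by
  classical
  intro e
  obtain ⟨v, hv⟩ := G.exists_halves
  set a : E → V := fun f => v (f, false) with ha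
  set b : E → V := fun f => v (f, true) with hb
  by_cases hall : ∀ B : E → F2, IsFlow a b B → B e = 0
  · exfalso
    obtain ⟨c, hc⟩ := mem_cob_of_orth a b (Pi.single e 1) (by
      intro B hB
      rw [Finset.sum_eq_single e]
      · rw [hall B hB, zero_mul]
      · intro f _ hf
        rw [Pi.single_eq_of_ne hf, mul_zero]
      · intro h
        exact absurd (mem_univ e) h)
    set S : Finset V := univ.filter (fun x => c x = 1) with hS
    have h01 : ∀ x : F2, x = 0 ∨ x = 1 := by decide
    have hmem : ∀ x, x ∈ S ↔ c x = 1 := fun x => by simp [hS]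
    have hcut : cut G S = {e} := by
      ext f
      rw [mem_singleton]
      unfold cut
      rw [mem_filter]
      have hf := hc f
      have hends : ∀ x, x ∈ G.ends f ↔ x = a f ∨ x = b f := by
        intro x
        rw [hv f, Sym2.mem_iff]
      constructor
      · rintro ⟨_, ⟨x, hxS, hx⟩, ⟨y, hyS, hy⟩⟩
        by_contra hfe
        rw [Pi.single_eq_of_ne hfe] at hf
        rw [hmem] at hxS hyS
        rw [hends] at hx hy
        have hy0 : c y = 0 := (h01 _).resolve_right hyS
        rcases hx with rfl | rfl <;> rcases hy with rfl | rfl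
        · exact hyS hxS
        · rw [hxS, hy0] at hf
          exact absurd hf (by decide)
        · rw [hxS, hy0] at hf
          exact absurd hf (by decide)
        · exact hyS hxS
      · rintro rfl
        rw [Pi.single_eq_same] at hf
        refine ⟨mem_univ _, ?_⟩
        rcases h01 (c (a f)) with h1 | h1 <;> rcases h01 (c (b f)) with h2 | h2
        · rw [h1, h2] at hf
          exact absurd hf (by decide)
        · refine ⟨⟨b f, (hmem _).2 h2, (hends _).2 (Or.inr rfl)⟩,
            ⟨a f, fun h => ?_, (hends _).2 (Or.inl rfl)⟩⟩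
          rw [hmem, h1] at h
          exact absurd h (by decide)
        · refine ⟨⟨a f, (hmem _).2 h1, (hends _).2 (Or.inl rfl)⟩,
            ⟨b f, fun h => ?_, (hends _).2 (Or.inr rfl)⟩⟩
          rw [hmem, h2] at h
          exact absurd h (by decide)
        · rw [h1, h2] at hf
          exact absurd hf (by decide)
    have he : e ∈ cut G S := by rw [hcut]; exact mem_singleton_self e
    unfold cut at he
    rw [mem_filter] at he
    obtain ⟨_, ⟨x, hxS, _⟩, ⟨y, hyS, _⟩⟩ := he
    have h := hEC S ⟨x, hxS⟩ (fun h => hyS (by rw [h]; exact mem_univ y))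
    rw [hcut, card_singleton] at h
    omega
  · push Not at hall
    obtain ⟨B, hB, hBe⟩ := hall
    set D : Finset E := univ.filter (fun f => B f ≠ 0) with hD
    have h01 : ∀ x : F2, x ≠ 0 → x = 1 := by decide
    have hBD : (fun f => if f ∈ D then (1 : F2) else 0) = B := by
      funext f
      by_cases hf : B f = 0
      · simp [hD, hf]
      · simp [hD, h01 _ hf]
    have hev : G.IsEven D := by
      rw [G.isEven_iff v hv, isFl_iff, hBD]
      exact hB
    obtain ⟨F, hF1, hF2⟩ := G.decompose D.card D rfl hev
    have heD : e ∈ D := by simp [hD, hBe]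
    have h1 := hF2 e
    rw [if_pos heD] at h1
    have h2 : 0 < F.countP (fun C => e ∈ C) := by omega
    rw [Multiset.countP_pos] at h2
    obtain ⟨C, hCF, heC⟩ := h2
    exact ⟨C, hF1 C hCF, heC⟩

theorem t : T0 := by
  intro V E _ _ _ _ G hG hEC
  obtain ⟨F, hF1, hF2⟩ := G.exists_cdc (bridgeless hEC)
  exact ⟨F, fun C hC => circ_of_isCircuit hG (hF1 C hC), hF2⟩

end Pool.Agent.H366R3.SC.T0h444
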