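import Pool.Agent.H366R3.SC.Stmts

set_option autoImplicit false
set_option linter.unusedSectionVars false

/-! T11 of the SCDC project (helper366): three-edge cuts. -/

namespace Pool.Agent.H366R3.SC.T11H

open Finset
open Pool.Agent.H126R2.CDC (MGraph)

section Side

variable {V E : Type} [Fintype V] [DecidableEq V] [Fintype E] [DecidableEq E]

/-- the edge `e` has an end in `S` -/
def Tch (G : MGraph V E) (S : Finset V) (e : E) : Prop := ∃ x ∈ S, x ∈ G.ends e

instance (G : MGraph V E) (S : Finset V) : DecidablePred (Tch G S) := fun e => by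
  unfold Tch
  infer_instance

/-- contraction of the complement of `S` -/
def phi (S : Finset V) (v : V) : Option {v // v ∈ S} := if h : v ∈ S then some ⟨v, h⟩ else none

lemma phi_some (S : Finset V) (v : V) (x : {v // v ∈ S}) : phi S v = some x ↔ v = x.1 := by
  unfold phi
  split_ifs with h
  · rw [Option.some_inj, Subtype.ext_iff]
  · constructor
    · intro h'
      cases h'
    · rintro rfl
      exact absurd x.2 h

lemma phi_none (S : Finset V) (v : V) : phi S v = none ↔ v ∉ S := by
  unfold phi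
  split_ifs with h <;> simp [h]

/-- the graph obtained by contraction of the complement of `S` -/
def side (G : MGraph V E) (S : Finset V) : MGraph (Option {v // v ∈ S}) {e // Tch G S e} :=
  ⟨fun e => (G.ends e.1).map (phi S)⟩

lemma mem_some (G : MGraph V E) (S : Finset V) (e : {e // Tch G S e}) (x : {v // v ∈ S}) :
    some x ∈ (side G S).ends e ↔ x.1 ∈ G.ends e.1 := by
  unfold side
  simp only [Sym2.mem_map, phi_some]
  constructor
  · rintro ⟨a, ha, rfl⟩
    exact ha
  · intro h
    exact ⟨_, h, rfl⟩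

lemma mem_none (G : MGraph V E) (S : Finset V) (e : {e // Tch G S e}) :
    none ∈ (side G S).ends e ↔ ∃ y ∉ S, y ∈ G.ends e.1 := by
  unfold side
  simp only [Sym2.mem_map, phi_none]
  constructor
  · rintro ⟨a, ha, h⟩
    exact ⟨a, h, ha⟩
  · rintro ⟨a, ha, h⟩
    exact ⟨a, h, ha⟩

/-- the edges as edges of `G` -/
def lift (G : MGraph V E) (S : Finset V) (C : Finset {e // Tch G S e}) : Finset E :=
  C.map (Function.Embedding.subtype _)

lemma mem_lift (G : MGraph V E) (S : Finset V) (C : Finset {e // Tch G S e}) (e : E) :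
    e ∈ lift G S C ↔ ∃ h : Tch G S e, (⟨e, h⟩ : {e // Tch G S e}) ∈ C := by
  unfold lift
  simp

lemma card_lift (G : MGraph V E) (S : Finset V) (C : Finset {e // Tch G S e}) :
    (lift G S C).card = C.card := card_map _

lemma lift_inter (G : MGraph V E) (S : Finset V) (C D : Finset {e // Tch G S e}) :
    lift G S (C ∩ D) = lift G S C ∩ lift G S D := map_inter ..

lemma lift_inj (G : MGraph V E) (S : Finset V) {C D : Finset {e // Tch G S e}}
    (h : lift G S C = lift G S D) : C = D := map_injective _ h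

lemma lift_inc_some (G : MGraph V E) (S : Finset V) (x : {v // v ∈ S}) :
    lift G S (inc (side G S) (some x)) = inc G x.1 := by
  ext e
  rw [mem_lift]
  simp only [inc, mem_filter, mem_univ, true_and, mem_some]
  constructor
  · rintro ⟨_, h⟩
    exact h
  · intro h
    exact ⟨⟨x.1, x.2, h⟩, h⟩

lemma lift_inc_none (G : MGraph V E) (S : Finset V) :
    lift G S (inc (side G S) none) = cut G S := by
  ext e
  rw [mem_lift]
  simp only [inc, cut, mem_filter, mem_univ, true_and, mem_none]
  constructor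
  · rintro ⟨h1, h⟩
    exact ⟨h1, h⟩
  · rintro ⟨h1, h⟩
    exact ⟨h1, h⟩

lemma side_cubic {G : MGraph V E} (hG : Cubic G) (S : Finset V) (hS : (cut G S).card = 3) :
    Cubic (side G S) := by
  constructor
  · rintro ⟨e, he⟩
    obtain ⟨x, hxS, hx⟩ := he
    have hl := hG.loopless e
    obtain ⟨y, hy⟩ := hx
    unfold side
    simp only [hy, Sym2.map_mk, Sym2.mk_isDiag_iff]
    intro h
    rw [hy, Sym2.mk_isDiag_iff] at hl
    apply hl
    have h1 : phi S x = some ⟨x, hxS⟩ := (phi_some S x ⟨x, hxS⟩).2 rfl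
    rw [h1] at h
    exact ((phi_some S y ⟨x, hxS⟩).1 h.symm).symm
  · rintro (_ | x)
    · rw [← card_lift, lift_inc_none, hS]
    · rw [← card_lift, lift_inc_some, hG.three]

lemma side_EC {G : MGraph V E} {S : Finset V} (hS : S ≠ univ) {k : ℕ}
    (hEC : EC G k) : EC (side G S) k := by
  have hsurj : ∀ y : Option {v // v ∈ S}, ∃ x, phi S x = y := by
    rintro (_ | x)
    · have : ∃ x, x ∉ S := by
        by_contra h
        push Not at h
        exact hS (eq_univ_iff_forall.2 h)
      obtain ⟨x, hx⟩ := this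
      exact ⟨x, (phi_none S x).2 hx⟩
    · exact ⟨x.1, (phi_some S _ _).2 rfl⟩
  intro T hT1 hT2
  have h1 : lift G S (cut (side G S) T) = cut G (univ.filter fun v => phi S v ∈ T) := by
    ext e
    rw [mem_lift]
    simp only [cut, mem_filter, mem_univ, true_and, side, Sym2.mem_map]
    constructor
    · rintro ⟨h1, ⟨_, hx, a, ha, rfl⟩, ⟨_, hy, b, hb, rfl⟩⟩
      exact ⟨⟨a, hx, ha⟩, ⟨b, hy, hb⟩⟩
    · rintro ⟨⟨a, hx, ha⟩, ⟨b, hy, hb⟩⟩
      refine ⟨?_, ⟨_, hx, a, ha, rfl⟩, ⟨_, hy, b, hb, rfl⟩⟩
      by_contra hc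
      unfold Tch at hc
      push Not at hc
      have h1 : a ∉ S := fun h => hc a h ha
      have h2 : b ∉ S := fun h => hc b h hb
      rw [(phi_none S a).2 h1] at hx
      rw [(phi_none S b).2 h2] at hy
      exact hy hx
  rw [← card_lift, h1]
  apply hEC
  · obtain ⟨y, hy⟩ := hT1
    obtain ⟨x, rfl⟩ := hsurj y
    exact ⟨x, by simp [hy]⟩
  · intro h
    apply hT2
    rw [eq_univ_iff_forall] at h ⊢
    intro y
    obtain ⟨x, rfl⟩ := hsurj y
    have := h x
    simpa using this

/-- handshake -/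
lemma hs {G : MGraph V E} (hG : Cubic G) (S : Finset V) (D : Finset E)
    (hD : ∀ v ∈ S, Even (D ∩ inc G v).card) : Even (D ∩ cut G S).card := by
  have h1 : ∑ v ∈ S, (D ∩ inc G v).card = ∑ e ∈ D, (S.filter fun v => v ∈ G.ends e).card := by
    have := Finset.sum_card_bipartiteAbove_eq_sum_card_bipartiteBelow (s := S) (t := D)
      (fun v e => v ∈ G.ends e)
    unfold bipartiteAbove bipartiteBelow at this
    rw [← this]
    refine sum_congr rfl fun v _ => ?_
    congr 1
    ext e
    simp [inc]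
  have h2 : Even (∑ e ∈ D, (S.filter fun v => v ∈ G.ends e).card) := by
    rw [← h1]
    exact Finset.even_sum _ hD
  have h3 : ∀ e, Odd (S.filter fun v => v ∈ G.ends e).card ↔ e ∈ cut G S := by
    intro e
    have hl := hG.loopless e
    obtain ⟨x, y, hxy⟩ : ∃ x y, G.ends e = s(x, y) := by
      induction h : G.ends e with
      | _ x y => exact ⟨x, y, rfl⟩
    rw [hxy, Sym2.mk_isDiag_iff] at hl
    simp only [cut, mem_filter, mem_univ, true_and, hxy, Sym2.mem_iff]
    have hl' : x ≠ y := hl
    have h4 : (S.filter fun v => v = x ∨ v = y) =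
        (if x ∈ S then {x} else ∅) ∪ (if y ∈ S then {y} else ∅) := by
      ext v
      by_cases hx : x ∈ S <;> by_cases hy : y ∈ S <;> simp [hx, hy] <;> aesop
    rw [h4]
    by_cases hx : x ∈ S <;> by_cases hy : y ∈ S
    · have : ({x} ∪ {y} : Finset V).card = 2 := by
        rw [card_union_of_disjoint (by simpa using hl')]
        simp
      simp only [hx, hy, if_true, this]
      constructor
      · intro h
        exact absurd h (by decide)
      · rintro ⟨_, z, hz, rfl | rfl⟩ <;> exact absurd ‹_› hz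
    · simp only [hx, hy, if_true, if_false, union_empty, card_singleton, odd_one, true_iff]
      exact ⟨⟨x, hx, Or.inl rfl⟩, ⟨y, hy, Or.inr rfl⟩⟩
    · simp only [hx, hy, if_true, if_false, empty_union, card_singleton, odd_one, true_iff]
      exact ⟨⟨y, hy, Or.inr rfl⟩, ⟨x, hx, Or.inl rfl⟩⟩
    · simp only [hx, hy, if_false, empty_union, card_empty]
      constructor
      · intro h
        exact absurd h (by decide)
      · rintro ⟨⟨z, hz, rfl | rfl⟩, _⟩ <;> exact absurd hz ‹_›
  by_contra hc
  rw [Nat.not_even_iff_odd] at hc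
  have h5 : Odd (∑ e ∈ D, (S.filter fun v => v ∈ G.ends e).card) := by
    rw [Finset.odd_sum_iff_odd_card_odd]
    convert hc using 2
    ext e
    simp only [mem_filter, mem_inter, h3]
  exact (Nat.not_even_iff_odd.2 h5) h2

/-- a half circuit -/
structure HC (G : MGraph V E) (S : Finset V) (C : Finset E) : Prop where
  sub : ∀ e ∈ C, Tch G S e
  ne : C.Nonempty
  ev : ∀ v ∈ S, Even (C ∩ inc G v).card
  min : ∀ D ⊆ C, D.Nonempty → (∀ v ∈ S, Even (D ∩ inc G v).card) → D = C

lemma circ_HC {G : MGraph V E} (hG : Cubic G) {S : Finset V} {C : Finset {e // Tch G S e}}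
    (hC : Circ (side G S) C) : HC G S (lift G S C) := by
  obtain ⟨hne, hev, hmin⟩ := hC
  refine ⟨?_, ?_, ?_, ?_⟩
  · intro e he
    exact ((mem_lift G S C e).1 he).1
  · obtain ⟨e, he⟩ := hne
    exact ⟨e.1, (mem_lift G S C _).2 ⟨e.2, he⟩⟩
  · intro v hv
    have := hev (some ⟨v, hv⟩)
    rwa [← card_lift, lift_inter, lift_inc_some] at this
  · intro D hD hDne hDev
    have hDl : lift G S (D.subtype (Tch G S)) = D := by
      unfold lift
      rw [subtype_map]
      exact filter_true_of_mem fun e he => ((mem_lift G S C e).1 (hD he)).1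
    have h1 : D.subtype (Tch G S) = C := by
      apply hmin
      · intro e he
        rw [mem_subtype] at he
        obtain ⟨_, h⟩ := (mem_lift G S C e.1).1 (hD he)
        exact h
      · obtain ⟨e, he⟩ := hDne
        refine ⟨⟨e, ((mem_lift G S C e).1 (hD he)).1⟩, ?_⟩
        rw [mem_subtype]
        exact he
      · rintro (_ | x)
        · rw [← card_lift, lift_inter, lift_inc_none, hDl]
          exact hs hG S D hDev
        · rw [← card_lift, lift_inter, lift_inc_some, hDl]
          exact hDev x.1 x.2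
    rw [← h1, hDl]

/-- a half double cover -/
structure HCD (G : MGraph V E) (S : Finset V) (M : Multiset (Finset E)) : Prop where
  circ : ∀ C ∈ M, HC G S C
  two : ∀ e, Tch G S e → M.countP (fun C => e ∈ C) = 2

lemma CD_HCD {G : MGraph V E} (hG : Cubic G) {S : Finset V}
    {F : Multiset (Finset {e // Tch G S e})} (hF : CD (side G S) F) :
    HCD G S (F.map (lift G S)) := by
  refine ⟨?_, ?_⟩
  · intro C hC
    obtain ⟨C', hC', rfl⟩ := Multiset.mem_map.1 hC
    exact circ_HC hG (hF.1 C' hC')
  · intro e he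
    rw [Multiset.countP_map, ← hF.2 ⟨e, he⟩, Multiset.countP_eq_card_filter]
    congr 1
    apply Multiset.filter_congr
    intro C _
    rw [mem_lift]
    exact ⟨fun ⟨_, h⟩ => h, fun h => ⟨he, h⟩⟩

lemma cut_compl (G : MGraph V E) (S : Finset V) : cut G Sᶜ = cut G S := by
  ext e
  simp only [cut, mem_filter, mem_univ, true_and, mem_compl, not_not]
  exact and_comm

lemma cut_iff (G : MGraph V E) (S : Finset V) (e : E) :
    e ∈ cut G S ↔ Tch G S e ∧ Tch G Sᶜ e := by
  simp only [cut, Tch, mem_filter, mem_univ, true_and, mem_compl]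

lemma tch_or (G : MGraph V E) (S : Finset V) (e : E) : Tch G S e ∨ Tch G Sᶜ e := by
  obtain ⟨x, hx⟩ : ∃ x, x ∈ G.ends e := by
    induction h : G.ends e with
    | _ x y => exact ⟨x, by simp⟩
  by_cases h : x ∈ S
  · exact Or.inl ⟨x, h, hx⟩
  · exact Or.inr ⟨x, by simpa using h, hx⟩

lemma tch_of_inc {G : MGraph V E} {S : Finset V} {v : V} (hv : v ∈ S) {e : E}
    (he : e ∈ inc G v) : Tch G S e := ⟨v, hv, by simpa [inc] using he⟩

/-- the intersection with the star of `v ∈ S` of the union -/
lemma union_inc {G : MGraph V E} {S : Finset V} {A B : Finset E} (hB : ∀ e ∈ B, Tch G Sᶜ e)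
    (hAB : A ∩ cut G S = B ∩ cut G S) {v : V} (hv : v ∈ S) :
    (A ∪ B) ∩ inc G v = A ∩ inc G v := by
  ext e
  simp only [mem_inter, mem_union]
  constructor
  · rintro ⟨h | h, he⟩
    · exact ⟨h, he⟩
    · have h1 : e ∈ B ∩ cut G S :=
        mem_inter.2 ⟨h, (cut_iff G S e).2 ⟨tch_of_inc hv he, hB e h⟩⟩
      rw [← hAB] at h1
      exact ⟨(mem_inter.1 h1).1, he⟩
  · rintro ⟨h, he⟩
    exact ⟨Or.inl h, he⟩

lemma single {G : MGraph V E} {S : Finset V} {A : Finset E} (hA : HC G S A)
    (h0 : A ∩ cut G S = ∅) : Circ G A := by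
  refine ⟨hA.ne, ?_, ?_⟩
  · intro v
    by_cases hv : v ∈ S
    · exact hA.ev v hv
    · have : A ∩ inc G v = ∅ := by
        rw [eq_empty_iff_forall_notMem]
        intro e he
        rw [mem_inter] at he
        have h1 : e ∈ A ∩ cut G S := mem_inter.2 ⟨he.1, (cut_iff G S e).2
          ⟨hA.sub e he.1, tch_of_inc (by simpa using hv) he.2⟩⟩
        rw [h0] at h1
        simp at h1
      simp [this]
  · intro D hD hne hev
    exact hA.min D hD hne fun v _ => hev v

lemma half {G : MGraph V E} {S : Finset V} {A B : Finset E} (hA : HC G S A) (hB : HC G Sᶜ B)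
    (hAB : A ∩ cut G S = B ∩ cut G S) {D : Finset E} (hD : D ⊆ A ∪ B) (hev : Ev G D) :
    D.filter (Tch G S) = ∅ ∨ D.filter (Tch G S) = A := by
  rcases (D.filter (Tch G S)).eq_empty_or_nonempty with h | h
  · exact Or.inl h
  · right
    apply hA.min _ _ h
    · intro v hv
      have : D.filter (Tch G S) ∩ inc G v = D ∩ inc G v := by
        ext e
        simp only [mem_inter, mem_filter]
        constructor
        · rintro ⟨⟨h1, _⟩, h2⟩
          exact ⟨h1, h2⟩
        · rintro ⟨h1, h2⟩
          exact ⟨⟨h1, tch_of_inc hv h2⟩, h2⟩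
      rw [this]
      exact hev v
    · intro e he
      rw [mem_filter] at he
      rcases mem_union.1 (hD he.1) with h1 | h1
      · exact h1
      · have h2 : e ∈ B ∩ cut G S := mem_inter.2 ⟨h1, (cut_iff G S e).2 ⟨he.2, hB.sub e h1⟩⟩
        rw [← hAB] at h2
        exact (mem_inter.1 h2).1

lemma glue {G : MGraph V E} {S : Finset V} {A B : Finset E} (hA : HC G S A) (hB : HC G Sᶜ B)
    (hAB : A ∩ cut G S = B ∩ cut G S) (hne : (A ∩ cut G S).Nonempty) : Circ G (A ∪ B) := by
  have hAB' : B ∩ cut G Sᶜ = A ∩ cut G Sᶜ := by rw [cut_compl, hAB]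
  refine ⟨hA.ne.mono subset_union_left, ?_, ?_⟩
  · intro v
    by_cases hv : v ∈ S
    · rw [union_inc hB.sub hAB hv]
      exact hA.ev v hv
    · have hv' : v ∈ Sᶜ := by simpa using hv
      rw [union_comm, union_inc (S := Sᶜ) (by simpa using hA.sub) hAB' hv']
      exact hB.ev v hv'
  · intro D hD hDne hev
    have hA' : HC G Sᶜᶜ A := by rwa [compl_compl]
    have h1 := half hA hB hAB hD hev
    have h2 := half hB hA' hAB' (by rwa [union_comm]) hev
    have hDu : D = D.filter (Tch G S) ∪ D.filter (Tch G Sᶜ) := by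
      ext e
      simp only [mem_union, mem_filter]
      constructor
      · intro h
        rcases tch_or G S e with h3 | h3
        · exact Or.inl ⟨h, h3⟩
        · exact Or.inr ⟨h, h3⟩
      · rintro (h | h) <;> exact h.1
    obtain ⟨f, hf⟩ := hne
    have hfA := (mem_inter.1 hf).1
    have hfc := (mem_inter.1 hf).2
    have hfB : f ∈ B := by
      rw [hAB] at hf
      exact (mem_inter.1 hf).1
    have hft := (cut_iff G S f).1 hfc
    rcases h1 with h1 | h1 <;> rcases h2 with h2 | h2
    · rw [h1, h2, empty_union] at hDu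
      rw [hDu] at hDne
      simp at hDne
    · have h3 : f ∈ D.filter (Tch G Sᶜ) := by rw [h2]; exact hfB
      have h4 : f ∈ D.filter (Tch G S) := mem_filter.2 ⟨(mem_filter.1 h3).1, hft.1⟩
      rw [h1] at h4
      simp at h4
    · have h3 : f ∈ D.filter (Tch G S) := by rw [h1]; exact hfA
      have h4 : f ∈ D.filter (Tch G Sᶜ) := mem_filter.2 ⟨(mem_filter.1 h3).1, hft.2⟩
      rw [h2] at h4
      simp at h4
    · rw [hDu, h1, h2]

lemma countP_split {α : Type} (p q r : α → Prop) [DecidablePred p] [DecidablePred q]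
    [DecidablePred r] (M : Multiset α)
    (h : ∀ a ∈ M, (p a ↔ q a ∨ r a) ∧ ¬ (q a ∧ r a)) :
    M.countP p = M.countP q + M.countP r := by
  induction M using Multiset.induction_on with
  | empty => simp
  | cons a M ih =>
    have h1 := h a (Multiset.mem_cons_self a M)
    have h2 := ih fun b hb => h b (Multiset.mem_cons_of_mem hb)
    rw [Multiset.countP_cons, Multiset.countP_cons, Multiset.countP_cons, h2]
    by_cases hq : q a <;> by_cases hr : r a
    · exact absurd ⟨hq, hr⟩ h1.2
    · simp [h1.1, hq, hr]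
      omega
    · simp [h1.1, hq, hr]
      omega
    · simp [h1.1, hq, hr]

lemma decomp {G : MGraph V E} (hG : Cubic G) {S : Finset V} {M : Multiset (Finset E)}
    (hM : HCD G S M) {f1 f2 f3 : E} (h12 : f1 ≠ f2) (h13 : f1 ≠ f3) (h23 : f2 ≠ f3)
    (hc : cut G S = {f1, f2, f3}) :
    ∃ A B C : Finset E, ∃ R : Multiset (Finset E), M = A ::ₘ B ::ₘ C ::ₘ R ∧
      A ∩ cut G S = {f1, f2} ∧ B ∩ cut G S = {f1, f3} ∧ C ∩ cut G S = {f2, f3} ∧
      ∀ D ∈ R, D ∩ cut G S = ∅ := by
  have hd12 : ({f1, f2} : Finset E) ≠ {f1, f3} := by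
    intro h
    have : f2 ∈ ({f1, f3} : Finset E) := by rw [← h]; simp
    simp at this
    tauto
  have hd13 : ({f1, f2} : Finset E) ≠ {f2, f3} := by
    intro h
    have : f1 ∈ ({f2, f3} : Finset E) := by rw [← h]; simp
    simp at this
    tauto
  have hd23 : ({f1, f3} : Finset E) ≠ {f2, f3} := by
    intro h
    have : f1 ∈ ({f2, f3} : Finset E) := by rw [← h]; simp
    simp at this
    tauto
  have z12 : (∅ : Finset E) ≠ {f1, f2} := (insert_ne_empty f1 {f2}).symm
  have z13 : (∅ : Finset E) ≠ {f1, f3} := (insert_ne_empty f1 {f3}).symm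
  have z23 : (∅ : Finset E) ≠ {f2, f3} := (insert_ne_empty f2 {f3}).symm
  have hcase : ∀ D ∈ M, D ∩ cut G S = ∅ ∨ D ∩ cut G S = {f1, f2} ∨ D ∩ cut G S = {f1, f3} ∨
      D ∩ cut G S = {f2, f3} := by
    intro D hD
    have hev := hs hG S D (hM.circ D hD).ev
    have hsub : D ∩ cut G S ∈ ({f1, f2, f3} : Finset E).powerset := by
      rw [mem_powerset, ← hc]
      exact inter_subset_right
    have h1 : D ∩ cut G S = ({f1, f2, f3} : Finset E).filter (· ∈ D) := by
      rw [← hc]
      ext e
      simp [and_comm]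
    rw [h1] at hev ⊢
    by_cases g1 : f1 ∈ D <;> by_cases g2 : f2 ∈ D <;> by_cases g3 : f3 ∈ D <;>
      simp [filter_insert, filter_singleton, g1, g2, g3, h12, h13, h23] at hev ⊢
    · exact absurd hev (by decide)
  have hm1 : Tch G S f1 := ((cut_iff G S f1).1 (by rw [hc]; simp)).1
  have hm2 : Tch G S f2 := ((cut_iff G S f2).1 (by rw [hc]; simp)).1
  have hm3 : Tch G S f3 := ((cut_iff G S f3).1 (by rw [hc]; simp)).1
  have hmem : ∀ (D : Finset E) (f : E), f ∈ cut G S → (f ∈ D ↔ f ∈ D ∩ cut G S) := by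
    intro D f hf
    simp [hf]
  have e1 : M.countP (fun D => f1 ∈ D) = M.countP (fun D => D ∩ cut G S = {f1, f2}) +
      M.countP (fun D => D ∩ cut G S = {f1, f3}) := by
    apply countP_split
    intro D hD
    rw [hmem D f1 (by rw [hc]; simp)]
    rcases hcase D hD with h | h | h | h <;> rw [h]
    · simp [z12, z13, z23]
    · simp [hd12]
    · simp [hd12.symm]
    · simp [h12, h13, hd13.symm, hd23.symm]
  have e2 : M.countP (fun D => f2 ∈ D) = M.countP (fun D => D ∩ cut G S = {f1, f2}) +
      M.countP (fun D => D ∩ cut G S = {f2, f3}) := by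
    apply countP_split
    intro D hD
    rw [hmem D f2 (by rw [hc]; simp)]
    rcases hcase D hD with h | h | h | h <;> rw [h]
    · simp [z12, z13, z23]
    · simp [hd13]
    · simp [h12.symm, h23, hd12.symm, hd23]
    · simp [hd13.symm]
  have e3 : M.countP (fun D => f3 ∈ D) = M.countP (fun D => D ∩ cut G S = {f1, f3}) +
      M.countP (fun D => D ∩ cut G S = {f2, f3}) := by
    apply countP_split
    intro D hD
    rw [hmem D f3 (by rw [hc]; simp)]
    rcases hcase D hD with h | h | h | h <;> rw [h]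
    · simp [z12, z13, z23]
    · simp [h13.symm, h23.symm, hd12, hd13]
    · simp [hd23]
    · simp [hd23.symm]
  rw [hM.two f1 hm1] at e1
  rw [hM.two f2 hm2] at e2
  rw [hM.two f3 hm3] at e3
  have n12 : M.countP (fun D => D ∩ cut G S = {f1, f2}) = 1 := by omega
  have n13 : M.countP (fun D => D ∩ cut G S = {f1, f3}) = 1 := by omega
  have n23 : M.countP (fun D => D ∩ cut G S = {f2, f3}) = 1 := by omega
  obtain ⟨A, hAM, hA⟩ := (Multiset.countP_pos (p := fun D => D ∩ cut G S = {f1, f2})).1
    (by rw [n12]; exact one_pos)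
  obtain ⟨M1, rfl⟩ := Multiset.exists_cons_of_mem hAM
  rw [Multiset.countP_cons, hA] at n12 n13 n23
  simp only [hd12, hd13, if_true, if_false, add_zero] at n12 n13 n23
  obtain ⟨B, hBM, hB⟩ := (Multiset.countP_pos (p := fun D => D ∩ cut G S = {f1, f3})).1
    (by rw [n13]; exact one_pos)
  obtain ⟨M2, rfl⟩ := Multiset.exists_cons_of_mem hBM
  rw [Multiset.countP_cons, hB] at n12 n13 n23
  simp only [hd12.symm, hd23, if_true, if_false, add_zero] at n12 n13 n23
  obtain ⟨C, hCM, hC⟩ := (Multiset.countP_pos (p := fun D => D ∩ cut G S = {f2, f3})).1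
    (by rw [n23]; exact one_pos)
  obtain ⟨R, rfl⟩ := Multiset.exists_cons_of_mem hCM
  rw [Multiset.countP_cons, hC] at n12 n13 n23
  simp only [hd13.symm, hd23.symm, if_true, if_false, add_zero] at n12 n13 n23
  refine ⟨A, B, C, R, rfl, hA, hB, hC, ?_⟩
  intro D hD
  rcases hcase D (by simp [hD]) with h | h | h | h
  · exact h
  · have : 0 < R.countP (fun D => D ∩ cut G S = {f1, f2}) :=
      Multiset.countP_pos.2 ⟨D, hD, h⟩
    omega
  · have : 0 < R.countP (fun D => D ∩ cut G S = {f1, f3}) :=
      Multiset.countP_pos.2 ⟨D, hD, h⟩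
    omega
  · have : 0 < R.countP (fun D => D ∩ cut G S = {f2, f3}) :=
      Multiset.countP_pos.2 ⟨D, hD, h⟩
    omega

end Side

theorem t : T11 := by
  intro V E _ _ _ _ G hG hEC S hcut hS2 hSc2
  have hcut' : (cut G Sᶜ).card = 3 := by rw [cut_compl, hcut]
  have hSne : S.Nonempty := card_pos.1 (by omega)
  have hScne : Sᶜ.Nonempty := card_pos.1 (by omega)
  have hSu : S ≠ univ := by
    rintro rfl
    simp at hSc2
  have hScu : Sᶜ ≠ univ := by
    intro h
    rw [compl_eq_univ_iff] at h
    rw [h] at hS2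
    simp at hS2
  refine ⟨Option {v // v ∈ S}, {e // Tch G S e}, inferInstance, inferInstance, inferInstance,
    inferInstance, side G S, Option {v // v ∈ Sᶜ}, {e // Tch G Sᶜ e}, inferInstance, inferInstance,
    inferInstance, inferInstance, side G Sᶜ, side_cubic hG S hcut, side_EC hSu hEC, ?_,
    side_cubic hG Sᶜ hcut', side_EC hScu hEC, ?_, ?_⟩
  · simp
  · rw [Fintype.card_option, Fintype.card_coe]
  · intro F₁ F₂ hF₁ hF₂
    have hM1 := CD_HCD hG hF₁
    have hM2 := CD_HCD hG hF₂
    obtain ⟨f1, f2, f3, h12, h13, h23, hc⟩ := card_eq_three.1 hcut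
    have hc' : cut G Sᶜ = {f1, f2, f3} := by rw [cut_compl, hc]
    obtain ⟨A1, A2, A3, R, hR, hA1, hA2, hA3, hR0⟩ := decomp hG hM1 h12 h13 h23 hc
    obtain ⟨B1, B2, B3, Q, hQ, hB1, hB2, hB3, hQ0⟩ := decomp hG hM2 h12 h13 h23 hc'
    rw [cut_compl] at hB1 hB2 hB3
    have hQ0' : ∀ D ∈ Q, D ∩ cut G S = ∅ := by
      intro D hD
      rw [← cut_compl]
      exact hQ0 D hD
    have gA1 := hM1.circ A1 (by rw [hR]; simp)
    have gA2 := hM1.circ A2 (by rw [hR]; simp)
    have gA3 := hM1.circ A3 (by rw [hR]; simp)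
    have gB1 := hM2.circ B1 (by rw [hQ]; simp)
    have gB2 := hM2.circ B2 (by rw [hQ]; simp)
    have gB3 := hM2.circ B3 (by rw [hQ]; simp)
    have hRm : ∀ D ∈ R, HC G S D := fun D hD => hM1.circ D (by rw [hR]; simp [hD])
    have hQm : ∀ D ∈ Q, HC G Sᶜ D := fun D hD => hM2.circ D (by rw [hQ]; simp [hD])
    refine ⟨(A1 ∪ B1) ::ₘ (A2 ∪ B2) ::ₘ (A3 ∪ B3) ::ₘ (R + Q), ⟨?_, ?_⟩, ?_⟩
    · intro D hD
      simp only [Multiset.mem_cons, Multiset.mem_add] at hD
      rcases hD with rfl | rfl | rfl | hD | hD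
      · exact glue gA1 gB1 (by rw [hA1, hB1]) (by rw [hA1]; simp)
      · exact glue gA2 gB2 (by rw [hA2, hB2]) (by rw [hA2]; simp)
      · exact glue gA3 gB3 (by rw [hA3, hB3]) (by rw [hA3]; simp)
      · exact single (hRm D hD) (hR0 D hD)
      · exact single (hQm D hD) (hQ0 D hD)
    · intro e
      by_cases he : Tch G S e
      · have h2 := hM1.two e he
        rw [hR] at h2
        have hk : ∀ A B : Finset E, (∀ e ∈ B, Tch G Sᶜ e) → A ∩ cut G S = B ∩ cut G S →
            (e ∈ A ∪ B ↔ e ∈ A) := by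
          intro A B hB hAB
          rw [mem_union]
          refine ⟨?_, Or.inl⟩
          rintro (h | h)
          · exact h
          · have h3 : e ∈ B ∩ cut G S := mem_inter.2 ⟨h, (cut_iff G S e).2 ⟨he, hB e h⟩⟩
            rw [← hAB] at h3
            exact (mem_inter.1 h3).1
        have hQe : Q.countP (fun C => e ∈ C) = 0 := by
          rw [Multiset.countP_eq_zero]
          intro D hD h
          have h3 : e ∈ D ∩ cut G S :=
            mem_inter.2 ⟨h, (cut_iff G S e).2 ⟨he, (hQm D hD).sub e h⟩⟩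
          rw [hQ0' D hD] at h3
          simp at h3
        simp only [Multiset.countP_cons, Multiset.countP_add, hQe,
          hk A1 B1 gB1.sub (by rw [hA1, hB1]), hk A2 B2 gB2.sub (by rw [hA2, hB2]),
          hk A3 B3 gB3.sub (by rw [hA3, hB3])] at h2 ⊢
        omega
      · have he' : Tch G Sᶜ e := (tch_or G S e).resolve_left he
        have h2 := hM2.two e he'
        rw [hQ] at h2
        have hk : ∀ A B : Finset E, (∀ e ∈ A, Tch G S e) → (e ∈ A ∪ B ↔ e ∈ B) := by
          intro A B hA
          rw [mem_union]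
          refine ⟨?_, Or.inr⟩
          rintro (h | h)
          · exact absurd (hA e h) he
          · exact h
        have hRe : R.countP (fun C => e ∈ C) = 0 := by
          rw [Multiset.countP_eq_zero]
          intro D hD h
          exact he ((hRm D hD).sub e h)
        simp only [Multiset.countP_cons, Multiset.countP_add, hRe, hk A1 B1 gA1.sub,
          hk A2 B2 gA2.sub, hk A3 B3 gA3.sub] at h2 ⊢
        omega
    · have c1 : Multiset.card F₁ = Multiset.card R + 3 := by
        have := congrArg Multiset.card hR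
        simpa using this
      have c2 : Multiset.card F₂ = Multiset.card Q + 3 := by
        have := congrArg Multiset.card hQ
        simpa using this
      simp only [Multiset.card_cons, Multiset.card_add]
      omega

end Pool.Agent.H366R3.SC.T11H
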