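import Pool.Agent.H366R3.SC.Stmts

set_option autoImplicit false
set_option linter.unusedSectionVars false

/-! Task T12: two-edge cuts. -/

namespace Pool.Agent.H366R3.SC.T12h608

open Finset
open Pool.Agent.H126R2.CDC (MGraph)
open Pool.Agent.H366R3.SC

theorem mem_attach {α : Type} {P : α → Prop} (s : Sym2 α) (h : ∀ a ∈ s, P a) (v : {a // P a}) :
    v ∈ s.attachWith h ↔ v.1 ∈ s := by
  conv_rhs => rw [← Sym2.attachWith_map_subtypeVal h]
  rw [Sym2.mem_map]
  constructor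
  · intro hv; exact ⟨v, hv, rfl⟩
  · rintro ⟨w, hw, hwv⟩
    rwa [← Subtype.ext hwv]

theorem three {α : Type} {s : Sym2 α} {a b c : α} (ha : a ∈ s) (hb : b ∈ s) (hc : c ∈ s)
    (hac : a ≠ c) (hbc : b ≠ c) : a = b := by
  induction s with | _ p q
  simp only [Sym2.mem_iff] at ha hb hc
  rcases ha with rfl | rfl <;> rcases hb with rfl | rfl <;> rcases hc with rfl | rfl <;> tauto

variable {V E : Type} [Fintype V] [DecidableEq V] [Fintype E] [DecidableEq E]

/-- the data of one side of the cut -/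
structure Half (G : MGraph V E) (S : Finset V) (f1 f2 : E) (x1 x2 : V) : Prop where
  cub : Cubic G
  hcut : cut G S = {f1, f2}
  hne : f1 ≠ f2
  m1 : x1 ∈ S
  m2 : x2 ∈ S
  e1 : x1 ∈ G.ends f1
  e2 : x2 ∈ G.ends f2
  hx : x1 ≠ x2

abbrev E1 (G : MGraph V E) (S : Finset V) := Option {e : E // ∀ x ∈ G.ends e, x ∈ S}

def Hg (G : MGraph V E) (S : Finset V) (x1 x2 : V) (m1 : x1 ∈ S) (m2 : x2 ∈ S) :
    MGraph {v // v ∈ S} (E1 G S) where
  ends := fun o => o.elim s(⟨x1, m1⟩, ⟨x2, m2⟩) fun e => (G.ends e.1).attachWith e.2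

open Classical in
noncomputable def res (G : MGraph V E) (S : Finset V) (f1 : E) (U : Finset E) : Finset (E1 G S) :=
  univ.filter (fun o => o.elim (f1 ∈ U) (fun e => e.1 ∈ U))

theorem res_none {G : MGraph V E} {S : Finset V} {f1 : E} {U : Finset E} :
    none ∈ res G S f1 U ↔ f1 ∈ U := by
  simp [res]

theorem res_some {G : MGraph V E} {S : Finset V} {f1 : E} {U : Finset E}
    (e : {e : E // ∀ x ∈ G.ends e, x ∈ S}) : some e ∈ res G S f1 U ↔ e.1 ∈ U := by
  simp [res]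

theorem mem_inc {G : MGraph V E} {v : V} {e : E} : e ∈ inc G v ↔ v ∈ G.ends e := by
  simp [inc]

theorem mem_cut {G : MGraph V E} {S : Finset V} {e : E} :
    e ∈ cut G S ↔ (∃ x ∈ S, x ∈ G.ends e) ∧ ∃ y ∉ S, y ∈ G.ends e := by
  simp [cut]

theorem cut_compl (G : MGraph V E) (S : Finset V) : cut G Sᶜ = cut G S := by
  ext e
  rw [mem_cut, mem_cut]
  simp only [mem_compl, not_not]
  tauto

section

variable {G : MGraph V E} {S : Finset V} {f1 f2 : E} {x1 x2 : V} (h : Half G S f1 f2 x1 x2)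
include h

theorem Half.swap : Half G S f2 f1 x2 x1 :=
  ⟨h.cub, by rw [h.hcut, Finset.pair_comm], h.hne.symm, h.m2, h.m1, h.e2, h.e1, h.hx.symm⟩

theorem Half.out1 : ∃ y ∉ S, y ∈ G.ends f1 := by
  have : f1 ∈ cut G S := by rw [h.hcut]; simp
  exact (mem_cut.1 this).2

theorem Half.not_in1 : ¬ ∀ x ∈ G.ends f1, x ∈ S := by
  obtain ⟨y, hy, hy'⟩ := h.out1
  exact fun h' => hy (h' y hy')

theorem Half.eq1 {v : V} (hv : v ∈ S) (hve : v ∈ G.ends f1) : v = x1 := by
  obtain ⟨y, hy, hy'⟩ := h.out1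
  exact three hve h.e1 hy' (fun e => hy (e ▸ hv)) (fun e => hy (e ▸ h.m1))

theorem Half.at {v : V} {e : E} (hv : v ∈ S) (hve : v ∈ G.ends e)
    (hn : ¬ ∀ x ∈ G.ends e, x ∈ S) : (e = f1 ∧ v = x1) ∨ (e = f2 ∧ v = x2) := by
  push Not at hn
  obtain ⟨y, hy, hy'⟩ := hn
  have h1 : e ∈ cut G S := mem_cut.2 ⟨⟨v, hv, hve⟩, ⟨y, hy', hy⟩⟩
  rw [h.hcut, mem_insert, mem_singleton] at h1
  rcases h1 with rfl | rfl
  · exact Or.inl ⟨rfl, h.eq1 hv hve⟩
  · exact Or.inr ⟨rfl, h.swap.eq1 hv hve⟩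

theorem Half.card_res (U : Finset E) (hU : f1 ∈ U ↔ f2 ∈ U) (v : {v // v ∈ S}) :
    (res G S f1 U ∩ inc (Hg G S x1 x2 h.m1 h.m2) v).card = (U ∩ inc G v.1).card := by
  classical
  symm
  refine Finset.card_bij (fun e _ => if hh : ∀ x ∈ G.ends e, x ∈ S then some ⟨e, hh⟩ else none)
    ?_ ?_ ?_
  · intro e he
    rw [mem_inter, mem_inc] at he
    rw [mem_inter, mem_inc]
    split_ifs with hh
    · exact ⟨(res_some _).2 he.1, (mem_attach _ _ _).2 he.2⟩
    · rcases h.at v.2 he.2 hh with ⟨rfl, hv⟩ | ⟨rfl, hv⟩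
      · refine ⟨res_none.2 he.1, ?_⟩
        exact Sym2.mem_iff.2 (Or.inl (Subtype.ext hv))
      · refine ⟨res_none.2 (hU.2 he.1), ?_⟩
        exact Sym2.mem_iff.2 (Or.inr (Subtype.ext hv))
  · intro e he e' he' hee
    rw [mem_inter, mem_inc] at he he'
    split_ifs at hee with h1 h2 h2
    · simpa using hee
    · rcases h.at v.2 he.2 h1 with ⟨rfl, hv⟩ | ⟨rfl, hv⟩ <;>
        rcases h.at v.2 he'.2 h2 with ⟨rfl, hv'⟩ | ⟨rfl, hv'⟩
      · rfl
      · exact absurd (hv.symm.trans hv') h.hx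
      · exact absurd (hv'.symm.trans hv) h.hx
      · rfl
  · intro o ho
    rw [mem_inter, mem_inc] at ho
    rcases o with _ | e
    · have h1 := ho.1
      rw [res_none] at h1
      rcases Sym2.mem_iff.1 ho.2 with hv | hv
      · have hv' : v.1 = x1 := congrArg Subtype.val hv
        refine ⟨f1, ?_, dif_neg h.not_in1⟩
        rw [mem_inter, mem_inc, hv']
        exact ⟨h1, h.e1⟩
      · have hv' : v.1 = x2 := congrArg Subtype.val hv
        refine ⟨f2, ?_, dif_neg h.swap.not_in1⟩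
        rw [mem_inter, mem_inc, hv']
        exact ⟨hU.1 h1, h.e2⟩
    · refine ⟨e.1, ?_, ?_⟩
      · rw [mem_inter, mem_inc]
        exact ⟨(res_some e).1 ho.1, (mem_attach _ _ _).1 ho.2⟩
      · rw [dif_pos e.2]

theorem Half.cubic : Cubic (Hg G S x1 x2 h.m1 h.m2) := by
  constructor
  · rintro (_ | e)
    · show ¬ (s((⟨x1, h.m1⟩ : {v // v ∈ S}), ⟨x2, h.m2⟩)).IsDiag
      rw [Sym2.mk_isDiag_iff]
      intro hh
      exact h.hx (congrArg Subtype.val hh)
    · intro hd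
      apply h.cub.loopless e.1
      have h1 : ((Hg G S x1 x2 h.m1 h.m2).ends (some e)).map Subtype.val = G.ends e.1 :=
        Sym2.attachWith_map_subtypeVal e.2
      rw [← h1]
      exact hd.map
  · intro v
    have h1 := h.card_res univ (by simp) v
    have h2 : res G S f1 (univ : Finset E) = univ := by
      ext o
      rcases o with _ | e
      · rw [res_none]; simp
      · rw [res_some]; simp
    rw [h2, univ_inter, univ_inter] at h1
    rw [h1]
    exact h.cub.three v.1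

/-- the vertex set in `G` -/
def up (A : Finset {v // v ∈ S}) : Finset V := A.map ⟨Subtype.val, Subtype.val_injective⟩

omit h in
theorem mem_up {A : Finset {v // v ∈ S}} {x : V} : x ∈ up A ↔ ∃ hx : x ∈ S, (⟨x, hx⟩ : {v // v ∈ S}) ∈ A := by
  unfold up
  rw [mem_map]
  constructor
  · rintro ⟨a, ha, rfl⟩
    exact ⟨a.2, ha⟩
  · rintro ⟨hx, hA⟩
    exact ⟨⟨x, hx⟩, hA, rfl⟩

theorem Half.card_cut (A : Finset {v // v ∈ S}) (hA : ¬ (x1 ∈ up A ∧ x2 ∈ up A)) :
    (cut (Hg G S x1 x2 h.m1 h.m2) A).card = (cut G (up A)).card := by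
  classical
  symm
  refine Finset.card_bij (fun e _ => if hh : ∀ x ∈ G.ends e, x ∈ S then some ⟨e, hh⟩ else none)
    ?_ ?_ ?_
  · intro e he
    rw [mem_cut] at he ⊢
    obtain ⟨⟨a, ha, hae⟩, ⟨y, hy, hye⟩⟩ := he
    obtain ⟨haS, haA⟩ := mem_up.1 ha
    split_ifs with hh
    · refine ⟨⟨⟨a, haS⟩, haA, (mem_attach _ _ _).2 hae⟩, ⟨⟨y, hh y hye⟩, ?_, (mem_attach _ _ _).2 hye⟩⟩
      intro hyA
      exact hy (mem_up.2 ⟨_, hyA⟩)
    · rcases h.at haS hae hh with ⟨rfl, rfl⟩ | ⟨rfl, rfl⟩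
      · refine ⟨⟨⟨a, h.m1⟩, haA, Sym2.mem_mk_left _ _⟩, ⟨⟨x2, h.m2⟩, ?_, Sym2.mem_mk_right _ _⟩⟩
        intro h2
        exact hA ⟨ha, mem_up.2 ⟨_, h2⟩⟩
      · refine ⟨⟨⟨a, h.m2⟩, haA, Sym2.mem_mk_right _ _⟩, ⟨⟨x1, h.m1⟩, ?_, Sym2.mem_mk_left _ _⟩⟩
        intro h2
        exact hA ⟨mem_up.2 ⟨_, h2⟩, ha⟩
  · intro e he e' he' hee
    rw [mem_cut] at he he'
    obtain ⟨⟨a, ha, hae⟩, -⟩ := he
    obtain ⟨⟨a', ha', hae'⟩, -⟩ := he'
    split_ifs at hee with h1 h2 h2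
    · simpa using hee
    · rcases h.at (mem_up.1 ha).1 hae h1 with ⟨rfl, rfl⟩ | ⟨rfl, rfl⟩ <;>
        rcases h.at (mem_up.1 ha').1 hae' h2 with ⟨rfl, rfl⟩ | ⟨rfl, rfl⟩
      · rfl
      · exact absurd ⟨ha, ha'⟩ hA
      · exact absurd ⟨ha', ha⟩ hA
      · rfl
  · intro o ho
    rw [mem_cut] at ho
    obtain ⟨⟨a, ha, hae⟩, ⟨y, hy, hye⟩⟩ := ho
    rcases o with _ | e
    · rcases Sym2.mem_iff.1 hae with rfl | rfl
      · refine ⟨f1, ?_, dif_neg h.not_in1⟩
        obtain ⟨z, hz, hz'⟩ := h.out1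
        exact mem_cut.2 ⟨⟨x1, mem_up.2 ⟨_, ha⟩, h.e1⟩, ⟨z, fun hzz => hz (mem_up.1 hzz).1, hz'⟩⟩
      · refine ⟨f2, ?_, dif_neg h.swap.not_in1⟩
        obtain ⟨z, hz, hz'⟩ := h.swap.out1
        exact mem_cut.2 ⟨⟨x2, mem_up.2 ⟨_, ha⟩, h.e2⟩, ⟨z, fun hzz => hz (mem_up.1 hzz).1, hz'⟩⟩
    · refine ⟨e.1, ?_, dif_pos e.2⟩
      refine mem_cut.2 ⟨⟨a.1, mem_up.2 ⟨a.2, ha⟩, (mem_attach _ _ _).1 hae⟩,
        ⟨y.1, fun hyy => hy (mem_up.1 hyy).2, (mem_attach _ _ _).1 hye⟩⟩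

theorem Half.ec (hE : EC G 2) : EC (Hg G S x1 x2 h.m1 h.m2) 2 := by
  have key : ∀ A : Finset {v // v ∈ S}, A.Nonempty → A ≠ univ → ¬ (x1 ∈ up A ∧ x2 ∈ up A) →
      2 ≤ (cut (Hg G S x1 x2 h.m1 h.m2) A).card := by
    intro A hA hA' hn
    rw [h.card_cut A hn]
    refine hE _ ?_ ?_
    · obtain ⟨a, ha⟩ := hA
      exact ⟨a.1, mem_up.2 ⟨a.2, ha⟩⟩
    · intro hu
      obtain ⟨y, hy, -⟩ := h.out1
      have : y ∈ up A := by rw [hu]; exact mem_univ _
      exact hy (mem_up.1 this).1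
  intro A hA hA'
  by_cases hn : x1 ∈ up A ∧ x2 ∈ up A
  · rw [← cut_compl]
    refine key Aᶜ ?_ ?_ ?_
    · rw [nonempty_iff_ne_empty]
      intro he
      exact hA' (compl_eq_empty_iff _ |>.1 he)
    · intro he
      obtain ⟨a, ha⟩ := hA
      have : a ∈ Aᶜ := by rw [he]; exact mem_univ _
      exact (mem_compl.1 this) ha
    · rintro ⟨h1, -⟩
      obtain ⟨m, hm⟩ := mem_up.1 h1
      exact (mem_compl.1 hm) (mem_up.1 hn.1).2
  · exact key A hA hA' hn

theorem Half.simp (hs : SimpIn G S) : SimpX (Hg G S x1 x2 h.m1 h.m2) none := by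
  rintro (_ | e) (_ | f) he hf hef
  · rfl
  · exact absurd rfl he
  · exact absurd rfl hf
  · congr 1
    apply Subtype.ext
    refine hs e.1 f.1 e.2 ?_
    have h1 : ((Hg G S x1 x2 h.m1 h.m2).ends (some e)).map Subtype.val = G.ends e.1 :=
      Sym2.attachWith_map_subtypeVal e.2
    have h2 : ((Hg G S x1 x2 h.m1 h.m2).ends (some f)).map Subtype.val = G.ends f.1 :=
      Sym2.attachWith_map_subtypeVal f.2
    rw [← h1, ← h2, hef]

end

/-- parity of the number of edges of an even set in a cut -/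
theorem handshake (G : MGraph V E) (hG : Cubic G) (S : Finset V) (U : Finset E) (hU : Ev G U) :
    Even (U ∩ cut G S).card := by
  classical
  have h1 : ∑ v ∈ S, (U ∩ inc G v).card = ∑ e ∈ U, (S.filter (fun v => v ∈ G.ends e)).card := by
    have e1 : ∀ v, (U ∩ inc G v).card = ∑ e ∈ U, if v ∈ G.ends e then 1 else 0 := by
      intro v
      rw [← Finset.card_filter]
      congr 1
      ext e
      simp [inc]
    have e2 : ∀ e, (S.filter (fun v => v ∈ G.ends e)).card = ∑ v ∈ S, if v ∈ G.ends e then 1 else 0 :=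
      fun e => Finset.card_filter _ _
    simp_rw [e1, e2]
    exact Finset.sum_comm
  have h2 : Even (∑ v ∈ S, (U ∩ inc G v).card) := Finset.even_sum _ fun v _ => hU v
  have h3 : (U ∩ cut G S).card = ∑ e ∈ U, if e ∈ cut G S then 1 else 0 := by
    rw [← Finset.card_filter, Finset.filter_mem_eq_inter]
  have h4 : ∀ e, Even ((S.filter (fun v => v ∈ G.ends e)).card + if e ∈ cut G S then 1 else 0) := by
    intro e
    have hl := hG.loopless e
    have hm : e ∈ cut G S ↔ (∃ x ∈ S, x ∈ G.ends e) ∧ ∃ y ∉ S, y ∈ G.ends e := mem_cut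
    simp only [hm]
    generalize G.ends e = s at hl
    induction s with | _ p q
    rw [Sym2.mk_isDiag_iff] at hl
    simp only [Sym2.mem_iff]
    have e1 : S.filter (fun v => v = p ∨ v = q) = S.filter (fun v => v = p) ∪ S.filter (fun v => v = q) :=
      Finset.filter_or _ _ _
    rw [e1, Finset.card_union_of_disjoint, Finset.filter_eq', Finset.filter_eq']
    · by_cases hp : p ∈ S <;> by_cases hq : q ∈ S
      · have : ¬ ((∃ x ∈ S, x = p ∨ x = q) ∧ ∃ y ∉ S, y = p ∨ y = q) := by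
          rintro ⟨-, y, hy, rfl | rfl⟩ <;> contradiction
        simp only [if_pos hp, if_pos hq, if_neg this, card_singleton]
        decide
      · have : ((∃ x ∈ S, x = p ∨ x = q) ∧ ∃ y ∉ S, y = p ∨ y = q) :=
          ⟨⟨p, hp, Or.inl rfl⟩, ⟨q, hq, Or.inr rfl⟩⟩
        simp only [if_pos hp, if_neg hq, if_pos this, card_singleton, card_empty]
        decide
      · have : ((∃ x ∈ S, x = p ∨ x = q) ∧ ∃ y ∉ S, y = p ∨ y = q) :=
          ⟨⟨q, hq, Or.inr rfl⟩, ⟨p, hp, Or.inl rfl⟩⟩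
        simp only [if_neg hp, if_pos hq, if_pos this, card_singleton, card_empty]
        decide
      · have : ¬ ((∃ x ∈ S, x = p ∨ x = q) ∧ ∃ y ∉ S, y = p ∨ y = q) := by
          rintro ⟨⟨y, hy, rfl | rfl⟩, -⟩ <;> contradiction
        simp only [if_neg hp, if_neg hq, if_neg this, card_empty]
        decide
    · rw [Finset.disjoint_filter]
      rintro x - rfl h2
      exact hl h2
  have h5 : Even (∑ e ∈ U, ((S.filter (fun v => v ∈ G.ends e)).card +
      if e ∈ cut G S then 1 else 0)) := Finset.even_sum _ fun e _ => h4 e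
  rw [Finset.sum_add_distrib, ← h1, ← h3] at h5
  exact (Nat.even_add.1 h5).1 h2


section glue

variable {G : MGraph V E} {S T : Finset V} {f1 f2 : E} {x1 x2 y1 y2 : V}

open Classical in
/-- glueing of edge sets -/
noncomputable def join (G : MGraph V E) (S T : Finset V) (f1 f2 : E) (C : Finset (E1 G S))
    (D : Finset (E1 G T)) : Finset E :=
  univ.filter (fun e => (∃ h, some ⟨e, h⟩ ∈ C) ∨ (∃ h, some ⟨e, h⟩ ∈ D) ∨
    ((e = f1 ∨ e = f2) ∧ none ∈ C ∧ none ∈ D))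

theorem mem_join {C : Finset (E1 G S)} {D : Finset (E1 G T)} {e : E} :
    e ∈ join G S T f1 f2 C D ↔ (∃ h, some ⟨e, h⟩ ∈ C) ∨ (∃ h, some ⟨e, h⟩ ∈ D) ∨
    ((e = f1 ∨ e = f2) ∧ none ∈ C ∧ none ∈ D) := by
  simp [join]

theorem join_comm (C : Finset (E1 G S)) (D : Finset (E1 G T)) :
    join G S T f1 f2 C D = join G T S f1 f2 D C := by
  ext e
  rw [mem_join, mem_join]
  tauto

theorem excl (hT : T = Sᶜ) {e : E} (h1 : ∀ x ∈ G.ends e, x ∈ S) (h2 : ∀ x ∈ G.ends e, x ∈ T) :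
    False := by
  subst hT
  generalize G.ends e = s at h1 h2
  induction s with | _ p q
  exact (mem_compl.1 (h2 p (Sym2.mem_mk_left _ _))) (h1 p (Sym2.mem_mk_left _ _))

theorem tri (hS : Half G S f1 f2 x1 x2) (hT : T = Sᶜ) (e : E) :
    (∀ x ∈ G.ends e, x ∈ S) ∨ (∀ x ∈ G.ends e, x ∈ T) ∨ e = f1 ∨ e = f2 := by
  subst hT
  by_contra hcon
  push Not at hcon
  obtain ⟨⟨y, hy, hyS⟩, ⟨x, hx, hxS⟩, h1, h2⟩ := hcon
  have : e ∈ cut G S := mem_cut.2 ⟨⟨x, by simpa using hxS, hx⟩, ⟨y, hyS, hy⟩⟩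
  rw [hS.hcut, mem_insert, mem_singleton] at this
  tauto

theorem mem_join_f1 (hS : Half G S f1 f2 x1 x2) (hT : Half G T f1 f2 y1 y2)
    {C : Finset (E1 G S)} {D : Finset (E1 G T)} :
    f1 ∈ join G S T f1 f2 C D ↔ none ∈ C ∧ none ∈ D := by
  rw [mem_join]
  constructor
  · rintro (⟨h, -⟩ | ⟨h, -⟩ | h)
    · exact absurd h hS.not_in1
    · exact absurd h hT.not_in1
    · exact h.2
  · intro h
    exact Or.inr (Or.inr ⟨Or.inl rfl, h⟩)

theorem mem_join_f2 (hS : Half G S f1 f2 x1 x2) (hT : Half G T f1 f2 y1 y2)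
    {C : Finset (E1 G S)} {D : Finset (E1 G T)} :
    f2 ∈ join G S T f1 f2 C D ↔ none ∈ C ∧ none ∈ D := by
  rw [mem_join]
  constructor
  · rintro (⟨h, -⟩ | ⟨h, -⟩ | h)
    · exact absurd h hS.swap.not_in1
    · exact absurd h hT.swap.not_in1
    · exact h.2
  · intro h
    exact Or.inr (Or.inr ⟨Or.inr rfl, h⟩)

theorem mem_join_in (hS : Half G S f1 f2 x1 x2) (hTS : T = Sᶜ)
    {C : Finset (E1 G S)} {D : Finset (E1 G T)} {e : E} (he : ∀ x ∈ G.ends e, x ∈ S) :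
    e ∈ join G S T f1 f2 C D ↔ some ⟨e, he⟩ ∈ C := by
  rw [mem_join]
  constructor
  · rintro (⟨h, h'⟩ | ⟨h, -⟩ | ⟨rfl | rfl, -⟩)
    · exact h'
    · exact (excl hTS he h).elim
    · exact absurd he hS.not_in1
    · exact absurd he hS.swap.not_in1
  · intro h
    exact Or.inl ⟨he, h⟩

theorem res_join (hS : Half G S f1 f2 x1 x2) (hT : Half G T f1 f2 y1 y2) (hTS : T = Sᶜ)
    {C : Finset (E1 G S)} {D : Finset (E1 G T)} (hCD : none ∈ C ↔ none ∈ D) :
    res G S f1 (join G S T f1 f2 C D) = C := by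
  ext o
  rcases o with _ | e
  · rw [res_none, mem_join_f1 hS hT]
    tauto
  · rw [res_some, mem_join_in hS hTS e.2]

theorem join_res (hS : Half G S f1 f2 x1 x2) (hT : Half G T f1 f2 y1 y2) (hTS : T = Sᶜ)
    {U : Finset E} (hU : f1 ∈ U ↔ f2 ∈ U) :
    join G S T f1 f2 (res G S f1 U) (res G T f1 U) = U := by
  ext e
  rcases tri hS hTS e with he | he | rfl | rfl
  · rw [mem_join_in hS hTS he, res_some]
  · rw [join_comm, mem_join_in hT (by rw [hTS, compl_compl]) he, res_some]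
  · rw [mem_join_f1 hS hT, res_none, res_none]
    tauto
  · rw [mem_join_f2 hS hT, res_none, res_none]
    tauto

theorem ev_iff (hS : Half G S f1 f2 x1 x2) (hT : Half G T f1 f2 y1 y2) (hTS : T = Sᶜ)
    {U : Finset E} (hU : f1 ∈ U ↔ f2 ∈ U) :
    Ev G U ↔ Ev (Hg G S x1 x2 hS.m1 hS.m2) (res G S f1 U) ∧
      Ev (Hg G T y1 y2 hT.m1 hT.m2) (res G T f1 U) := by
  constructor
  · intro h
    constructor
    · intro v
      rw [hS.card_res U hU v]
      exact h _
    · intro v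
      rw [hT.card_res U hU v]
      exact h _
  · rintro ⟨h1, h2⟩ v
    by_cases hv : v ∈ S
    · have := h1 ⟨v, hv⟩
      rwa [hS.card_res U hU] at this
    · have hv' : v ∈ T := by rw [hTS, mem_compl]; exact hv
      have := h2 ⟨v, hv'⟩
      rwa [hT.card_res U hU] at this

theorem f_iff (hS : Half G S f1 f2 x1 x2) {U : Finset E} (hU : Ev G U) : f1 ∈ U ↔ f2 ∈ U := by
  have h := handshake G hS.cub S U hU
  rw [hS.hcut] at h
  by_contra hcon
  have : (U ∩ {f1, f2}).card = 1 := by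
    rw [card_eq_one]
    by_cases h1 : f1 ∈ U
    · have h2 : f2 ∉ U := fun h2 => hcon ⟨fun _ => h2, fun _ => h1⟩
      refine ⟨f1, ?_⟩
      ext e
      simp only [mem_inter, mem_insert, mem_singleton]
      constructor
      · rintro ⟨he, rfl | rfl⟩
        · rfl
        · exact absurd he h2
      · rintro rfl; exact ⟨h1, Or.inl rfl⟩
    · have h2 : f2 ∈ U := by
        by_contra h2
        exact hcon ⟨fun h => absurd h h1, fun h => absurd h h2⟩
      refine ⟨f2, ?_⟩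
      ext e
      simp only [mem_inter, mem_insert, mem_singleton]
      constructor
      · rintro ⟨he, rfl | rfl⟩
        · exact absurd he h1
        · rfl
      · rintro rfl; exact ⟨h2, Or.inr rfl⟩
  rw [this] at h
  exact absurd h (by decide)

theorem ev_empty {V' E' : Type} [Fintype V'] [DecidableEq V'] [Fintype E'] [DecidableEq E']
    (K : MGraph V' E') : Ev K ∅ := by
  intro v
  simp

theorem res_mono {U W : Finset E} (h : U ⊆ W) : res G S f1 U ⊆ res G S f1 W := by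
  rintro (_ | e) he
  · rw [res_none] at he ⊢; exact h he
  · rw [res_some] at he ⊢; exact h he

theorem join_empty : join G S T f1 f2 (∅ : Finset (E1 G S)) (∅ : Finset (E1 G T)) = ∅ := by
  ext e
  rw [mem_join]
  simp

theorem circ_both (hS : Half G S f1 f2 x1 x2) (hT : Half G T f1 f2 y1 y2) (hTS : T = Sᶜ)
    {C : Finset (E1 G S)} {D : Finset (E1 G T)} (hC : Circ (Hg G S x1 x2 hS.m1 hS.m2) C)
    (hD : Circ (Hg G T y1 y2 hT.m1 hT.m2) D) (nC : none ∈ C) (nD : none ∈ D) :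
    Circ G (join G S T f1 f2 C D) := by
  have hST : S = Tᶜ := by rw [hTS, compl_compl]
  have hCD : none ∈ C ↔ none ∈ D := ⟨fun _ => nD, fun _ => nC⟩
  have r1 : res G S f1 (join G S T f1 f2 C D) = C := res_join hS hT hTS hCD
  have r2 : res G T f1 (join G S T f1 f2 C D) = D := by
    rw [join_comm]; exact res_join hT hS hST hCD.symm
  have hf : f1 ∈ join G S T f1 f2 C D ↔ f2 ∈ join G S T f1 f2 C D := by
    rw [mem_join_f1 hS hT, mem_join_f2 hS hT]
  refine ⟨⟨f1, (mem_join_f1 hS hT).2 ⟨nC, nD⟩⟩, ?_, ?_⟩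
  · rw [ev_iff hS hT hTS hf, r1, r2]
    exact ⟨hC.2.1, hD.2.1⟩
  · intro U hU hne hev
    have hfU := f_iff hS hev
    obtain ⟨e1, e2⟩ := (ev_iff hS hT hTS hfU).1 hev
    have s1 : res G S f1 U ⊆ C := by rw [← r1]; exact res_mono hU
    have s2 : res G T f1 U ⊆ D := by rw [← r2]; exact res_mono hU
    rw [← join_res hS hT hTS hfU] at hne ⊢
    by_cases h1 : f1 ∈ U
    · rw [hC.2.2 _ s1 ⟨none, res_none.2 h1⟩ e1, hD.2.2 _ s2 ⟨none, res_none.2 h1⟩ e2]
    · exfalso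
      have z1 : res G S f1 U = ∅ := by
        by_contra hz
        have := hC.2.2 _ s1 (nonempty_iff_ne_empty.2 hz) e1
        rw [← this, res_none] at nC
        exact h1 nC
      have z2 : res G T f1 U = ∅ := by
        by_contra hz
        have := hD.2.2 _ s2 (nonempty_iff_ne_empty.2 hz) e2
        rw [← this, res_none] at nD
        exact h1 nD
      rw [z1, z2, join_empty] at hne
      exact not_nonempty_empty hne

theorem circ_one (hS : Half G S f1 f2 x1 x2) (hT : Half G T f1 f2 y1 y2) (hTS : T = Sᶜ)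
    {C : Finset (E1 G S)} (hC : Circ (Hg G S x1 x2 hS.m1 hS.m2) C) (nC : none ∉ C) :
    Circ G (join G S T f1 f2 C ∅) := by
  have hST : S = Tᶜ := by rw [hTS, compl_compl]
  have hCD : none ∈ C ↔ none ∈ (∅ : Finset (E1 G T)) := by
    constructor
    · intro h; exact absurd h nC
    · intro h; exact absurd h (notMem_empty _)
  have r1 : res G S f1 (join G S T f1 f2 C ∅) = C := res_join hS hT hTS hCD
  have r2 : res G T f1 (join G S T f1 f2 C ∅) = ∅ := by
    rw [join_comm]; exact res_join hT hS hST hCD.symm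
  have hf : f1 ∈ join G S T f1 f2 C ∅ ↔ f2 ∈ join G S T f1 f2 C ∅ := by
    rw [mem_join_f1 hS hT, mem_join_f2 hS hT]
  refine ⟨?_, ?_, ?_⟩
  · obtain ⟨o, ho⟩ := hC.1
    rcases o with _ | e
    · exact absurd ho nC
    · exact ⟨e.1, mem_join.2 (Or.inl ⟨e.2, ho⟩)⟩
  · rw [ev_iff hS hT hTS hf, r1, r2]
    exact ⟨hC.2.1, ev_empty _⟩
  · intro U hU hne hev
    have hfU := f_iff hS hev
    obtain ⟨e1, e2⟩ := (ev_iff hS hT hTS hfU).1 hev
    have s1 : res G S f1 U ⊆ C := by rw [← r1]; exact res_mono hU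
    have s2 : res G T f1 U ⊆ ∅ := by rw [← r2]; exact res_mono hU
    have z2 : res G T f1 U = ∅ := subset_empty.1 s2
    rw [← join_res hS hT hTS hfU, z2] at hne ⊢
    by_cases hz : res G S f1 U = ∅
    · exfalso
      rw [hz, join_empty] at hne
      exact not_nonempty_empty hne
    · rw [hC.2.2 _ s1 (nonempty_iff_ne_empty.2 hz) e1]

theorem two_split {α : Type} (p : α → Prop) [DecidablePred p] (F : Multiset α)
    (h : F.countP p = 2) : ∃ a b F', F = a ::ₘ b ::ₘ F' ∧ p a ∧ p b ∧ ∀ c ∈ F', ¬ p c := by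
  obtain ⟨a, ha, pa⟩ := Multiset.countP_pos.1 (show 0 < F.countP p by omega)
  obtain ⟨F1, rfl⟩ := Multiset.exists_cons_of_mem ha
  rw [Multiset.countP_cons_of_pos _ pa] at h
  obtain ⟨b, hb, pb⟩ := Multiset.countP_pos.1 (show 0 < F1.countP p by omega)
  obtain ⟨F2, rfl⟩ := Multiset.exists_cons_of_mem hb
  rw [Multiset.countP_cons_of_pos _ pb] at h
  refine ⟨a, b, F2, rfl, pa, pb, ?_⟩
  exact Multiset.countP_eq_zero.1 (by omega)

theorem glue (hS : Half G S f1 f2 x1 x2) (hT : Half G T f1 f2 y1 y2) (hTS : T = Sᶜ)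
    (F₁ : Multiset (Finset (E1 G S))) (F₂ : Multiset (Finset (E1 G T)))
    (h1 : CD (Hg G S x1 x2 hS.m1 hS.m2) F₁) (h2 : CD (Hg G T y1 y2 hT.m1 hT.m2) F₂) :
    ∃ F, CD G F ∧ Multiset.card F + 2 = Multiset.card F₁ + Multiset.card F₂ := by
  have hST : S = Tᶜ := by rw [hTS, compl_compl]
  obtain ⟨C1, C2, F1, rfl, nC1, nC2, nF1⟩ := two_split _ F₁ (h1.2 none)
  obtain ⟨D1, D2, F2, rfl, nD1, nD2, nF2⟩ := two_split _ F₂ (h2.2 none)
  refine ⟨join G S T f1 f2 C1 D1 ::ₘ join G S T f1 f2 C2 D2 ::ₘ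
    (F1.map (fun C => join G S T f1 f2 C ∅) + F2.map (fun D => join G S T f1 f2 ∅ D)), ⟨?_, ?_⟩, ?_⟩
  · intro C hC
    rw [Multiset.mem_cons, Multiset.mem_cons, Multiset.mem_add, Multiset.mem_map,
      Multiset.mem_map] at hC
    rcases hC with rfl | rfl | ⟨C', hC', rfl⟩ | ⟨D', hD', rfl⟩
    · exact circ_both hS hT hTS (h1.1 _ (by simp)) (h2.1 _ (by simp)) nC1 nD1
    · exact circ_both hS hT hTS (h1.1 _ (by simp)) (h2.1 _ (by simp)) nC2 nD2
    · exact circ_one hS hT hTS (h1.1 _ (by simp [hC'])) (nF1 _ hC')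
    · rw [join_comm]
      exact circ_one hT hS hST (h2.1 _ (by simp [hD'])) (nF2 _ hD')
  · intro e
    rw [Multiset.countP_cons, Multiset.countP_cons, Multiset.countP_add, Multiset.countP_map,
      Multiset.countP_map, ← Multiset.countP_eq_card_filter, ← Multiset.countP_eq_card_filter]
    rcases tri hS hTS e with he | he | he | he
    · have q := h1.2 (some ⟨e, he⟩)
      rw [Multiset.countP_cons, Multiset.countP_cons] at q
      simp only [mem_join_in hS hTS he]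
      have z : F2.countP (fun D => (some ⟨e, he⟩ : E1 G S) ∈ (∅ : Finset (E1 G S))) = 0 :=
        Multiset.countP_eq_zero.2 fun _ _ => notMem_empty _
      rw [z]
      omega
    · have q := h2.2 (some ⟨e, he⟩)
      rw [Multiset.countP_cons, Multiset.countP_cons] at q
      have hj : ∀ (C : Finset (E1 G S)) (D : Finset (E1 G T)),
          e ∈ join G S T f1 f2 C D ↔ (some ⟨e, he⟩ : E1 G T) ∈ D := by
        intro C D
        rw [join_comm, mem_join_in hT hST he]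
      simp only [hj]
      have z : F1.countP (fun D => (some ⟨e, he⟩ : E1 G T) ∈ (∅ : Finset (E1 G T))) = 0 :=
        Multiset.countP_eq_zero.2 fun _ _ => notMem_empty _
      rw [z]
      omega
    · subst he
      simp only [mem_join_f1 hS hT]
      have z1 : F1.countP (fun C => none ∈ C ∧ none ∈ (∅ : Finset (E1 G T))) = 0 :=
        Multiset.countP_eq_zero.2 fun _ _ h => notMem_empty _ h.2
      have z2 : F2.countP (fun D => none ∈ (∅ : Finset (E1 G S)) ∧ none ∈ D) = 0 :=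
        Multiset.countP_eq_zero.2 fun _ _ h => notMem_empty _ h.1
      rw [z1, z2, if_pos ⟨nC2, nD2⟩, if_pos ⟨nC1, nD1⟩]
    · subst he
      simp only [mem_join_f2 hS hT]
      have z1 : F1.countP (fun C => none ∈ C ∧ none ∈ (∅ : Finset (E1 G T))) = 0 :=
        Multiset.countP_eq_zero.2 fun _ _ h => notMem_empty _ h.2
      have z2 : F2.countP (fun D => none ∈ (∅ : Finset (E1 G S)) ∧ none ∈ D) = 0 :=
        Multiset.countP_eq_zero.2 fun _ _ h => notMem_empty _ h.1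
      rw [z1, z2, if_pos ⟨nC2, nD2⟩, if_pos ⟨nC1, nD1⟩]
  · simp only [Multiset.card_cons, Multiset.card_add, Multiset.card_map]
    omega

end glue

theorem ne_of_ec {G : MGraph V E} (hG : Cubic G) (hE : EC G 2) {S : Finset V} {f1 f2 : E}
    {x1 x2 : V} (hcut : cut G S = {f1, f2}) (hne : f1 ≠ f2) (m1 : x1 ∈ S) (e1 : x1 ∈ G.ends f1)
    (e2 : x2 ∈ G.ends f2) : x1 ≠ x2 := by
  rintro rfl
  have c1 : f1 ∈ cut G S := by rw [hcut]; simp
  have c2 : f2 ∈ cut G S := by rw [hcut]; simp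
  obtain ⟨z1, hz1, hz1'⟩ := (mem_cut.1 c1).2
  obtain ⟨z2, hz2, hz2'⟩ := (mem_cut.1 c2).2
  have h3 := hG.three x1
  have hsub : ({f1, f2} : Finset E) ⊆ inc G x1 := by
    intro e he
    rw [mem_insert, mem_singleton] at he
    rcases he with rfl | rfl
    · exact mem_inc.2 e1
    · exact mem_inc.2 e2
  have hcard : (inc G x1 \ {f1, f2}).card = 1 := by
    rw [card_sdiff_of_subset hsub, h3, card_pair hne]
  obtain ⟨f3, hf3⟩ := card_eq_one.1 hcard
  have hf3' : f3 ∈ inc G x1 \ {f1, f2} := by rw [hf3]; simp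
  rw [mem_sdiff, mem_inc, mem_insert, mem_singleton] at hf3'
  have hall : ∀ e ∈ inc G x1, e = f1 ∨ e = f2 ∨ e = f3 := by
    intro e he
    by_cases h : e ∈ ({f1, f2} : Finset E)
    · rw [mem_insert, mem_singleton] at h
      tauto
    · have : e ∈ inc G x1 \ {f1, f2} := mem_sdiff.2 ⟨he, h⟩
      rw [hf3, mem_singleton] at this
      tauto
  have hin : ∀ x ∈ G.ends f3, x ∈ S := by
    intro y hy
    by_contra hyS
    have : f3 ∈ cut G S := mem_cut.2 ⟨⟨x1, m1, hf3'.1⟩, ⟨y, hyS, hy⟩⟩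
    rw [hcut, mem_insert, mem_singleton] at this
    exact hf3'.2 this
  have hle : cut G (S.erase x1) ⊆ {f3} := by
    intro e he
    obtain ⟨⟨a, ha, hae⟩, ⟨y, hy, hye⟩⟩ := mem_cut.1 he
    rw [mem_erase] at ha
    have n1 : e ≠ f1 := by
      rintro rfl
      exact ha.1 (three hae e1 hz1' (fun h => hz1 (h ▸ ha.2)) (fun h => hz1 (h ▸ m1)))
    have n2 : e ≠ f2 := by
      rintro rfl
      exact ha.1 (three hae e2 hz2' (fun h => hz2 (h ▸ ha.2)) (fun h => hz2 (h ▸ m1)))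
    rw [mem_singleton]
    by_cases hyS : y ∈ S
    · have hyx : y = x1 := by
        by_contra hh
        exact hy (mem_erase.2 ⟨hh, hyS⟩)
      subst hyx
      rcases hall e (mem_inc.2 hye) with h | h | h
      · exact absurd h n1
      · exact absurd h n2
      · exact h
    · have : e ∈ cut G S := mem_cut.2 ⟨⟨a, ha.2, hae⟩, ⟨y, hyS, hye⟩⟩
      rw [hcut, mem_insert, mem_singleton] at this
      rcases this with h | h
      · exact absurd h n1
      · exact absurd h n2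
  have hnon : (S.erase x1).Nonempty := by
    have hl := hG.loopless f3
    have hx := hf3'.1
    generalize G.ends f3 = s at hl hx hin
    induction s with | _ p q
    rw [Sym2.mk_isDiag_iff] at hl
    rcases Sym2.mem_iff.1 hx with rfl | rfl
    · exact ⟨q, mem_erase.2 ⟨fun h => hl h.symm, hin q (Sym2.mem_mk_right _ _)⟩⟩
    · exact ⟨p, mem_erase.2 ⟨hl, hin p (Sym2.mem_mk_left _ _)⟩⟩
  have h2 := hE _ hnon (fun h => by
    have : x1 ∈ S.erase x1 := by rw [h]; exact mem_univ _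
    exact notMem_erase _ _ this)
  have h4 := card_le_card hle
  rw [card_singleton] at h4
  omega

theorem t : T12 := by
  intro V E _ _ _ _ G hG hE S hS hne huniv
  obtain ⟨f1, f2, hf, hcut⟩ := card_eq_two.1 hS
  have c1 : f1 ∈ cut G S := by rw [hcut]; simp
  have c2 : f2 ∈ cut G S := by rw [hcut]; simp
  obtain ⟨⟨x1, m1, e1⟩, ⟨y1, n1, k1⟩⟩ := mem_cut.1 c1
  obtain ⟨⟨x2, m2, e2⟩, ⟨y2, n2, k2⟩⟩ := mem_cut.1 c2
  have hcut' : cut G Sᶜ = {f1, f2} := by rw [cut_compl, hcut]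
  have n1' : y1 ∈ Sᶜ := mem_compl.2 n1
  have n2' : y2 ∈ Sᶜ := mem_compl.2 n2
  have HS : Half G S f1 f2 x1 x2 := ⟨hG, hcut, hf, m1, m2, e1, e2, ne_of_ec hG hE hcut hf m1 e1 e2⟩
  have HT : Half G Sᶜ f1 f2 y1 y2 :=
    ⟨hG, hcut', hf, n1', n2', k1, k2, ne_of_ec hG hE hcut' hf n1' k1 k2⟩
  refine ⟨{v // v ∈ S}, E1 G S, inferInstance, inferInstance, inferInstance, inferInstance,
    Hg G S x1 x2 HS.m1 HS.m2, none, {v // v ∈ Sᶜ}, E1 G Sᶜ, inferInstance, inferInstance,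
    inferInstance, inferInstance, Hg G Sᶜ y1 y2 HT.m1 HT.m2, none,
    HS.cubic, HS.ec hE, ?_, HS.simp, HT.cubic, HT.ec hE, ?_, HT.simp, ?_⟩
  · exact Fintype.card_coe S
  · exact Fintype.card_coe Sᶜ
  · intro F₁ F₂ h1 h2
    exact glue HS HT rfl F₁ F₂ h1 h2

end Pool.Agent.H366R3.SC.T12h608
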