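import Pool.Agent.H366R3.SC.Red

set_option autoImplicit false
set_option linter.unusedSectionVars false
set_option linter.unusedSimpArgs false

namespace Pool.Agent.H366R3.SC

open Finset
open Pool.Agent.H126R2.CDC (MGraph)

variable {V E : Type} [Fintype V] [DecidableEq V] [Fintype E] [DecidableEq E]
variable {G : MGraph V E}

lemma Nb.far {F : Multiset (Finset E)} {T : Finset E} {L : ℕ} [NeZero L]
    {a : Fin L → V} {t : Fin L → E} {X : Fin L → Finset E} (h : Nb G F T a t X) (i k : Fin L)
    (h1 : i ≠ k) (h2 : i ≠ k + 1) (h3 : i + 1 ≠ k) (h4 : i + 1 ≠ k + 1) :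
    ∀ v, v ∈ G.ends (t i) → v ∉ G.ends (t k) := by
  intro v hv hv2
  rw [h.ends] at hv hv2
  simp only [Sym2.mem_iff] at hv hv2
  rcases hv with rfl | rfl <;> rcases hv2 with r | r
  · exact h1 (h.inja r)
  · exact h2 (h.inja r)
  · exact h3 (h.inja r)
  · exact h4 (h.inja r)

/-- the third edge at a vertex of a face -/
lemma Nb.third {F : Multiset (Finset E)} {T : Finset E} {L : ℕ} [NeZero L]
    {a : Fin L → V} {t : Fin L → E} {X : Fin L → Finset E} (c : Ctx G F) (hT : T ∈ F)
    (h : Nb G F T a t X) (i : Fin L) :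
    ∃ g, a i ∈ G.ends g ∧ g ∉ T ∧ g ∈ X i ∧ g ∈ X (i - 1) ∧
      ∀ e, a i ∈ G.ends e → e = t i ∨ e = t (i - 1) ∨ e = g := by
  have hti : t i ∈ T := (h.memT _).2 ⟨i, rfl⟩
  have hai : a i ∈ G.ends (t i) := by rw [h.ends]; simp
  obtain ⟨f, g, h1, h2, h3, h4, h5, h6, h7, h8⟩ := (c.hF.1 T hT).two c.hG hti hai
  have hf : f = t (i - 1) := by
    obtain ⟨j, rfl⟩ := (h.memT f).1 h4
    rw [h.ends] at h6
    simp only [Sym2.mem_iff] at h6
    rcases h6 with r | r
    · exact absurd (by rw [h.inja r]) h1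
    · have := h.inja r
      rw [this]; simp
  subst hf
  refine ⟨g, h7, h5, ?_, ?_, h8⟩
  · obtain ⟨f', g', k1, k2, k3, k4, k5, k6, k7, k8⟩ :=
      (c.hF.1 _ (h.XF i)).two c.hG (h.tX i) hai
    rcases h8 f' k6 with r | r | r
    · exact absurd r k1
    · exfalso
      subst r
      exact c.hF.corner c.hG hT (h.XF i) (h.XT i).symm (Ne.symm h1) hai h6 hti h4 (h.tX i) k4
    · rw [← r]; exact k4
  · obtain ⟨f', g', k1, k2, k3, k4, k5, k6, k7, k8⟩ :=
      (c.hF.1 _ (h.XF (i - 1))).two c.hG (h.tX (i - 1)) h6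
    rcases h8 f' k6 with r | r | r
    · exfalso
      subst r
      exact c.hF.corner c.hG hT (h.XF (i - 1)) (h.XT (i - 1)).symm h1 h6 hai h4 hti (h.tX (i - 1))
        k4
    · exact absurd r k1
    · rw [← r]; exact k4

lemma inter_le_two {F : Multiset (Finset E)} (c : Ctx G F) {X Y : Finset E} (hX : X ∈ F)
    (hY : Y ∈ F) (hXY : X ≠ Y) : (X ∩ Y).card ≤ 2 := by
  by_contra hcon
  push Not at hcon
  obtain ⟨p, q, r, hp, hq, hr, hpq, hpr, hqr⟩ := two_lt_card_iff.1 hcon
  rw [mem_inter] at hp hq hr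
  have nc : ∀ x y : E, ∀ S : Finset V, cut G S ≠ {x, y} := by
    intro x y S hS
    have := ec_small c.h3 (S := S) (by rw [hS]; exact card_le_two)
    rw [hS] at this
    have h2 : x ∈ ({x, y} : Finset E) := by simp
    rw [this] at h2
    simp at h2
  obtain ⟨S, hS⟩ := c.tk2 {p, q} {q, r} (dual2 c.hG c.hF hX hY hXY hpq hp.1 hp.2 hq.1 hq.2)
    (dual2 c.hG c.hF hX hY hXY hqr hq.1 hq.2 hr.1 hr.2) (nc p q) (nc q r)
  refine nc p r S ?_
  rw [hS]
  ext x
  simp only [mem_symmDiff, mem_insert, mem_singleton]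
  constructor
  · tauto
  · rintro (rfl | rfl)
    · left; simp [hpq, hpr]
    · right; simp [Ne.symm hpr, Ne.symm hqr]

lemma caseK4 {F : Multiset (Finset E)} (c : Ctx G F) {T : Finset E} (hT : T ∈ F)
    {a : Fin 4 → V} {t : Fin 4 → E} {X : Fin 4 → Finset E} (h : Nb G F T a t X)
    (h02 : X 0 = X 2) (h13 : X 1 = X 3) : Fintype.card V = 4 ∧ Multiset.card F = 3 := by
  have n01 : X 0 ≠ X 1 := h.adj c hT 0 (by decide)
  have hth : ∀ i : Fin 4, ∃ g, a i ∈ G.ends g ∧ g ∉ T ∧ g ∈ X 0 ∧ g ∈ X 1 ∧
      ∀ e, a i ∈ G.ends e → e = t i ∨ e = t (i - 1) ∨ e = g := by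
    intro i
    obtain ⟨g, h1, h2, h3, h4, h5⟩ := h.third c hT i
    refine ⟨g, h1, h2, ?_, ?_, h5⟩
    · fin_cases i
      · exact h3
      · exact h4
      · rw [h02]; exact h3
      · rw [h02]; exact h4
    · fin_cases i
      · rw [h13]; exact h4
      · exact h3
      · exact h4
      · rw [h13]; exact h3
  choose g hg1 hg2 hg3 hg4 hg5 using hth
  have hle := inter_le_two c (h.XF 0) (h.XF 1) n01
  have hgm : ∀ i, g i ∈ X 0 ∩ X 1 := fun i => mem_inter.2 ⟨hg3 i, hg4 i⟩
  have hend3 : ∀ i j k : Fin 4, i ≠ j → i ≠ k → j ≠ k → g i = g j → g i = g k → False := by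
    intro i j k hij hik hjk e1 e2
    obtain ⟨x, y, hxy, he⟩ := exists_ends c.hG (g i)
    have q1 := hg1 i
    have q2 := hg1 j
    have q3 := hg1 k
    rw [← e1] at q2
    rw [← e2] at q3
    rw [he] at q1 q2 q3
    simp only [Sym2.mem_iff] at q1 q2 q3
    rcases q1 with q1 | q1 <;> rcases q2 with q2 | q2 <;> rcases q3 with q3 | q3
    · exact hij (h.inja (q1.trans q2.symm))
    · exact hij (h.inja (q1.trans q2.symm))
    · exact hik (h.inja (q1.trans q3.symm))
    · exact hjk (h.inja (q2.trans q3.symm))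
    · exact hjk (h.inja (q2.trans q3.symm))
    · exact hik (h.inja (q1.trans q3.symm))
    · exact hij (h.inja (q1.trans q2.symm))
    · exact hij (h.inja (q1.trans q2.symm))
  have hpart : ∀ i : Fin 4, ∃ j, j ≠ i ∧ g j = g i := by
    intro i
    by_contra hcon
    push Not at hcon
    have h1 : ∀ j k : Fin 4, j ≠ i → k ≠ i → g j = g k := by
      intro j k hj hk
      by_contra hne
      have h2 : ({g i, g j, g k} : Finset E) ⊆ X 0 ∩ X 1 := by
        intro x hx
        simp only [mem_insert, mem_singleton] at hx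
        rcases hx with rfl | rfl | rfl <;> exact hgm _
      have h3 := card_le_card h2
      rw [card_insert_of_notMem, card_pair hne] at h3
      · omega
      · simp only [mem_insert, mem_singleton, not_or]
        exact ⟨(hcon j hj).symm, (hcon k hk).symm⟩
    exact hend3 (i + 1) (i + 2) (i + 3) (by fin_cases i <;> decide) (by fin_cases i <;> decide)
      (by fin_cases i <;> decide) (h1 _ _ (by fin_cases i <;> decide) (by fin_cases i <;> decide))
      (h1 _ _ (by fin_cases i <;> decide) (by fin_cases i <;> decide))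
  have hgends : ∀ i, ∀ x ∈ G.ends (g i), ∃ j, x = a j := by
    intro i x hx
    obtain ⟨j, hji, hgj⟩ := hpart i
    have q1 := hg1 i
    have q2 := hg1 j
    rw [hgj] at q2
    obtain ⟨y, z, hyz, he⟩ := exists_ends c.hG (g i)
    rw [he] at q1 q2 hx
    simp only [Sym2.mem_iff] at q1 q2 hx
    have haij : a i ≠ a j := fun r => hji (h.inja r).symm
    rcases q1 with q1 | q1 <;> rcases q2 with q2 | q2
    · exact absurd (q1.trans q2.symm) haij
    · rcases hx with r | r
      · exact ⟨i, by rw [q1, r]⟩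
      · exact ⟨j, by rw [q2, r]⟩
    · rcases hx with r | r
      · exact ⟨j, by rw [q2, r]⟩
      · exact ⟨i, by rw [q1, r]⟩
    · exact absurd (q1.trans q2.symm) haij
  have hcut : cut G (univ.image a) = ∅ := by
    rw [eq_empty_iff_forall_notMem]
    intro e he
    rw [mem_cut] at he
    obtain ⟨⟨x, hx, hx2⟩, y, hy, hy2⟩ := he
    simp only [mem_image, mem_univ, true_and] at hx hy
    obtain ⟨i, rfl⟩ := hx
    apply hy
    rcases hg5 i e hx2 with rfl | rfl | rfl
    · rw [h.ends] at hy2
      simp only [Sym2.mem_iff] at hy2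
      rcases hy2 with rfl | rfl <;> exact ⟨_, rfl⟩
    · rw [h.ends] at hy2
      simp only [Sym2.mem_iff] at hy2
      rcases hy2 with rfl | rfl <;> exact ⟨_, rfl⟩
    · obtain ⟨j, rfl⟩ := hgends i y hy2
      exact ⟨j, rfl⟩
  have huniv : univ.image a = (univ : Finset V) := by
    by_contra hne
    have := c.h3 (univ.image a) ⟨a 0, by simp⟩ hne
    rw [hcut] at this
    simp at this
  have hV : Fintype.card V = 4 := by
    rw [← card_univ, ← huniv, card_image_of_injective _ h.inja]
    simp
  refine ⟨hV, ?_⟩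
  have hsub : F.toFinset ⊆ {T, X 0, X 1} := by
    intro B hB
    rw [Multiset.mem_toFinset] at hB
    obtain ⟨e, he⟩ := (c.hF.1 B hB).1
    obtain ⟨x, y, hxy, hends⟩ := exists_ends c.hG e
    have hx : x ∈ univ.image a := by rw [huniv]; simp
    simp only [mem_image, mem_univ, true_and] at hx
    obtain ⟨i, rfl⟩ := hx
    have hti : ∀ j, e = t j → B = T ∨ B = X 0 ∨ B = X 1 := by
      rintro j rfl
      rcases h.uq j B hB he with r | r
      · exact Or.inl r
      · rw [r]; fin_cases j
        · exact Or.inr (Or.inl rfl)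
        · exact Or.inr (Or.inr rfl)
        · exact Or.inr (Or.inl h02.symm)
        · exact Or.inr (Or.inr h13.symm)
    simp only [mem_insert, mem_singleton]
    rcases hg5 i e (by rw [hends]; simp) with r | r | r
    · exact hti _ r
    · exact hti _ r
    · subst r
      rcases c.hF.two_of_three c.hG (h.XF 0) (h.XF 1) hB n01 (hg3 i) (hg4 i) he with s | s
      · exact Or.inr (Or.inl s)
      · exact Or.inr (Or.inr s)
  have h1 := card_le_card hsub
  rw [Multiset.toFinset_card_of_nodup (c.hF.nodup c.hG)] at h1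
  have h2 : ({T, X 0, X 1} : Finset (Finset E)).card ≤ 3 := card_le_three
  have h3 := c.hc
  omega

lemma case4 {F : Multiset (Finset E)} (c : Ctx G F) {T : Finset E} (hT : T ∈ F)
    {a : Fin 4 → V} {t : Fin 4 → E} {X : Fin 4 → Finset E} (h : Nb G F T a t X) :
    (Fintype.card V = 4 ∧ Multiset.card F = 3) ∨
    ∃ F', CD G F' ∧ Multiset.card F' < Multiset.card F := by
  -- one coincidence
  have one : ∀ (a : Fin 4 → V) (t : Fin 4 → E) (X : Fin 4 → Finset E), Nb G F T a t X →
      X 0 = X 2 → X 1 ≠ X 3 → ∃ F', CD G F' ∧ Multiset.card F' < Multiset.card F := by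
    intro a t X h h02 h13
    have n01 : X 0 ≠ X 1 := h.adj c hT 0 (by decide)
    have n12 : X 1 ≠ X 2 := h.adj c hT 1 (by decide)
    have n23 : X 2 ≠ X 3 := h.adj c hT 2 (by decide)
    have n30 : X 3 ≠ X 0 := h.adj c hT 3 (by decide)
    have i0 : ∀ j, j ≠ 0 → j ≠ 2 → X j ≠ X 0 := by
      intro j hj hj2; fin_cases j <;> simp_all [Ne.symm n01]
    have i1 : ∀ j, j ≠ 1 → X j ≠ X 1 := by
      intro j hj; fin_cases j <;> simp_all [Ne.symm n12, Ne.symm h13]
    have i3 : ∀ j, j ≠ 3 → X j ≠ X 3 := by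
      intro j hj; fin_cases j <;> simp_all [Ne.symm n30]
    refine opP1 c.hG c.hF hT (h.XF 0) (h.XF 1) (h.XF 3) (h.XT 0).symm (h.XT 1).symm (h.XT 3).symm
      n01 n30.symm h13 ?_ (h.c2 c hT 0 2 h02.symm (by decide) i0) (h.c1 c hT 1 i1)
      (h.c1 c hT 3 i3)
    intro e he
    obtain ⟨i, rfl⟩ := (h.memT e).1 he
    have := h.tX i
    fin_cases i
    · exact Or.inl this
    · exact Or.inr (Or.inl this)
    · left; rw [h02]; exact this
    · exact Or.inr (Or.inr this)
  by_cases h02 : X 0 = X 2
  · by_cases h13 : X 1 = X 3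
    · exact Or.inl (caseK4 c hT h h02 h13)
    · exact Or.inr (one a t X h h02 h13)
  · by_cases h13 : X 1 = X 3
    · right
      exact one _ _ _ (h.rot 1) h13 (Ne.symm h02)
    · right
      have n01 : X 0 ≠ X 1 := h.adj c hT 0 (by decide)
      have n12 : X 1 ≠ X 2 := h.adj c hT 1 (by decide)
      have n23 : X 2 ≠ X 3 := h.adj c hT 2 (by decide)
      have n30 : X 3 ≠ X 0 := h.adj c hT 3 (by decide)
      have inj : ∀ i j, j ≠ i → X j ≠ X i := by
        intro i j hij
        fin_cases i <;> fin_cases j <;>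
          first
            | exact absurd rfl hij
            | assumption
            | (apply Ne.symm; assumption)
      by_cases hf : ∃ f ∈ X 0, f ∈ X 2
      · obtain ⟨f, hf1, hf2⟩ := hf
        exact zz c hT (h.XF 0) (h.XF 2) (h.XT 0).symm (h.XT 2).symm h02 (h.single 0 (inj 0))
          (h.single 2 (inj 2)) (h.far 0 2 (by decide) (by decide) (by decide) (by decide)) hf1 hf2
      · push Not at hf
        refine opP2 c.hG c.hF hT (h.XF 1) (h.XF 3) (h.XF 0) (h.XF 2) (h.XT 1).symm (h.XT 3).symm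
          (h.XT 0).symm (h.XT 2).symm h13 n01.symm n12 n30 n23.symm h02 ?_ hf
          (h.c1 c hT 1 (inj 1)) (h.c1 c hT 3 (inj 3))
          (circ2 c hT (h.XF 0) (h.XF 2) (h.single 0 (inj 0)) (h.single 2 (inj 2)) hf)
        intro e he
        obtain ⟨i, rfl⟩ := (h.memT e).1 he
        have := h.tX i
        fin_cases i
        · exact Or.inr (Or.inr (Or.inl this))
        · exact Or.inl this
        · exact Or.inr (Or.inr (Or.inr this))
        · exact Or.inr (Or.inl this)

lemma case5 {F : Multiset (Finset E)} (c : Ctx G F) {T : Finset E} (hT : T ∈ F)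
    {a : Fin 5 → V} {t : Fin 5 → E} {X : Fin 5 → Finset E} (h : Nb G F T a t X) :
    ∃ F', CD G F' ∧ Multiset.card F' < Multiset.card F := by
  -- a coincidence
  have one : ∀ (a : Fin 5 → V) (t : Fin 5 → E) (X : Fin 5 → Finset E), Nb G F T a t X →
      X 0 = X 2 → ∃ F', CD G F' ∧ Multiset.card F' < Multiset.card F := by
    intro a t X h h02
    have n01 : X 0 ≠ X 1 := h.adj c hT 0 (by decide)
    have n12 : X 1 ≠ X 2 := h.adj c hT 1 (by decide)
    have n23 : X 2 ≠ X 3 := h.adj c hT 2 (by decide)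
    have n34 : X 3 ≠ X 4 := h.adj c hT 3 (by decide)
    have n40 : X 4 ≠ X 0 := h.adj c hT 4 (by decide)
    have n03 : X 0 ≠ X 3 := by rw [h02]; exact n23
    have i0 : ∀ j, j ≠ 0 → j ≠ 2 → X j ≠ X 0 := by
      intro j hj hj2
      fin_cases j
      · exact absurd rfl hj
      · exact n01.symm
      · exact absurd rfl hj2
      · exact n03.symm
      · exact n40
    have k0 : Circ G (symmDiff T (X 0)) := h.c2 c hT 0 2 h02.symm (by decide) i0
    by_cases h13 : X 1 = X 3
    · have n14 : X 1 ≠ X 4 := by rw [h13]; exact n34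
      have i1 : ∀ j, j ≠ 1 → j ≠ 3 → X j ≠ X 1 := by
        intro j hj hj2
        fin_cases j
        · exact n01
        · exact absurd rfl hj
        · exact n12.symm
        · exact absurd rfl hj2
        · exact n14.symm
      have i4 : ∀ j, j ≠ 4 → X j ≠ X 4 := by
        intro j hj
        fin_cases j
        · exact n40.symm
        · exact n14
        · show X 2 ≠ X 4
          rw [← h02]; exact n40.symm
        · exact n34
        · exact absurd rfl hj
      refine opP1 c.hG c.hF hT (h.XF 0) (h.XF 1) (h.XF 4) (h.XT 0).symm (h.XT 1).symm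
        (h.XT 4).symm n01 n40.symm n14 ?_ k0 (h.c2 c hT 1 3 h13.symm (by decide) i1)
        (h.c1 c hT 4 i4)
      intro e he
      obtain ⟨i, rfl⟩ := (h.memT e).1 he
      have := h.tX i
      fin_cases i
      · exact Or.inl this
      · exact Or.inr (Or.inl this)
      · left; rw [h02]; exact this
      · right; left; rw [h13]; exact this
      · exact Or.inr (Or.inr this)
    · by_cases h14 : X 1 = X 4
      · have n13 : X 1 ≠ X 3 := h13
        have i1 : ∀ j, j ≠ 1 → j ≠ 4 → X j ≠ X 1 := by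
          intro j hj hj2
          fin_cases j
          · exact n01
          · exact absurd rfl hj
          · exact n12.symm
          · exact n13.symm
          · exact absurd rfl hj2
        have i3 : ∀ j, j ≠ 3 → X j ≠ X 3 := by
          intro j hj
          fin_cases j
          · exact n03
          · exact n13
          · exact n23
          · exact absurd rfl hj
          · exact n34.symm
        refine opP1 c.hG c.hF hT (h.XF 0) (h.XF 1) (h.XF 3) (h.XT 0).symm (h.XT 1).symm
          (h.XT 3).symm n01 n03 n13 ?_ k0 (h.c2 c hT 1 4 h14.symm (by decide) i1)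
          (h.c1 c hT 3 i3)
        intro e he
        obtain ⟨i, rfl⟩ := (h.memT e).1 he
        have := h.tX i
        fin_cases i
        · exact Or.inl this
        · exact Or.inr (Or.inl this)
        · left; rw [h02]; exact this
        · exact Or.inr (Or.inr this)
        · right; left; rw [h14]; exact this
      · have i1 : ∀ j, j ≠ 1 → X j ≠ X 1 := by
          intro j hj
          fin_cases j
          · exact n01
          · exact absurd rfl hj
          · exact n12.symm
          · exact Ne.symm h13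
          · exact Ne.symm h14
        have i3 : ∀ j, j ≠ 3 → X j ≠ X 3 := by
          intro j hj
          fin_cases j
          · exact n03
          · exact h13
          · exact n23
          · exact absurd rfl hj
          · exact n34.symm
        have i4 : ∀ j, j ≠ 4 → X j ≠ X 4 := by
          intro j hj
          fin_cases j
          · exact n40.symm
          · exact h14
          · show X 2 ≠ X 4
            rw [← h02]; exact n40.symm
          · exact n34
          · exact absurd rfl hj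
        by_cases hf : ∃ f ∈ X 1, f ∈ X 3
        · obtain ⟨f, hf1, hf2⟩ := hf
          exact zz c hT (h.XF 1) (h.XF 3) (h.XT 1).symm (h.XT 3).symm h13 (h.single 1 i1)
            (h.single 3 i3) (h.far 1 3 (by decide) (by decide) (by decide) (by decide)) hf1 hf2
        · push Not at hf
          refine opP2 c.hG c.hF hT (h.XF 0) (h.XF 4) (h.XF 1) (h.XF 3) (h.XT 0).symm (h.XT 4).symm
            (h.XT 1).symm (h.XT 3).symm n40.symm n01 n03 (Ne.symm h14) n34.symm h13 ?_ hf
            k0 (h.c1 c hT 4 i4)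
            (circ2 c hT (h.XF 1) (h.XF 3) (h.single 1 i1) (h.single 3 i3) hf)
          intro e he
          obtain ⟨i, rfl⟩ := (h.memT e).1 he
          have := h.tX i
          fin_cases i
          · exact Or.inl this
          · exact Or.inr (Or.inr (Or.inl this))
          · left; rw [h02]; exact this
          · exact Or.inr (Or.inr (Or.inr this))
          · exact Or.inr (Or.inl this)
  by_cases h02 : X 0 = X 2
  · exact one a t X h h02
  by_cases h13 : X 1 = X 3
  · exact one _ _ _ (h.rot 1) h13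
  by_cases h24 : X 2 = X 4
  · exact one _ _ _ (h.rot 2) h24
  by_cases h30 : X 3 = X 0
  · exact one _ _ _ (h.rot 3) h30
  by_cases h41 : X 4 = X 1
  · exact one _ _ _ (h.rot 4) h41
  have n01 : X 0 ≠ X 1 := h.adj c hT 0 (by decide)
  have n12 : X 1 ≠ X 2 := h.adj c hT 1 (by decide)
  have n23 : X 2 ≠ X 3 := h.adj c hT 2 (by decide)
  have n34 : X 3 ≠ X 4 := h.adj c hT 3 (by decide)
  have n40 : X 4 ≠ X 0 := h.adj c hT 4 (by decide)
  have inj : ∀ i j, j ≠ i → X j ≠ X i := by
    intro i j hij
    fin_cases i <;> fin_cases j <;>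
      first
        | exact absurd rfl hij
        | assumption
        | (apply Ne.symm; assumption)
  by_cases hf : ∃ f ∈ X 0, f ∈ X 2
  · obtain ⟨f, hf1, hf2⟩ := hf
    exact zz c hT (h.XF 0) (h.XF 2) (h.XT 0).symm (h.XT 2).symm h02 (h.single 0 (inj 0))
      (h.single 2 (inj 2)) (h.far 0 2 (by decide) (by decide) (by decide) (by decide)) hf1 hf2
  by_cases hf' : ∃ f ∈ X 1, f ∈ X 3
  · obtain ⟨f, hf1, hf2⟩ := hf'
    exact zz c hT (h.XF 1) (h.XF 3) (h.XT 1).symm (h.XT 3).symm h13 (h.single 1 (inj 1))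
      (h.single 3 (inj 3)) (h.far 1 3 (by decide) (by decide) (by decide) (by decide)) hf1 hf2
  push Not at hf hf'
  refine opP3 c.hG c.hF hT (h.XF 4) (h.XF 0) (h.XF 2) (h.XF 1) (h.XF 3) ?_ ?_ hf hf'
    (h.c1 c hT 4 (inj 4))
    (circ2 c hT (h.XF 0) (h.XF 2) (h.single 0 (inj 0)) (h.single 2 (inj 2)) hf)
    (circ2 c hT (h.XF 1) (h.XF 3) (h.single 1 (inj 1)) (h.single 3 (inj 3)) hf')
  · simp only [List.nodup_cons, List.mem_cons, List.not_mem_nil, or_false, not_or,
      not_false_eq_true, List.nodup_nil, and_true]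
    exact ⟨⟨(h.XT 4).symm, (h.XT 0).symm, (h.XT 2).symm, (h.XT 1).symm, (h.XT 3).symm⟩,
      ⟨n40, Ne.symm h24, h41, n34.symm⟩, ⟨h02, n01, Ne.symm h30⟩, ⟨n12.symm, n23⟩, h13⟩
  · intro e he
    obtain ⟨i, rfl⟩ := (h.memT e).1 he
    have := h.tX i
    fin_cases i
    · exact Or.inr (Or.inl this)
    · exact Or.inr (Or.inr (Or.inr (Or.inl this)))
    · exact Or.inr (Or.inr (Or.inl this))
    · exact Or.inr (Or.inr (Or.inr (Or.inr this)))
    · exact Or.inl this

lemma circ_three_le (hG : Cubic G) (h3 : EC G 3) (hn : 4 ≤ Fintype.card V) {C : Finset E}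
    (hC : Circ G C) : 3 ≤ C.card := by
  by_contra hcon
  push Not at hcon
  obtain ⟨e, he⟩ := hC.1
  obtain ⟨x, y, hxy, hends⟩ := exists_ends hG e
  obtain ⟨f, g, h1, h2, h3', h4, h5, h6, h7, h8⟩ := hC.two hG he (v := x) (by rw [hends]; simp)
  obtain ⟨f2, g2, k1, k2, k3, k4, k5, k6, k7, k8⟩ := hC.two hG he (v := y) (by rw [hends]; simp)
  have hff : f2 = f := by
    by_contra hne
    have : ({e, f, f2} : Finset E) ⊆ C := by
      intro z hz
      simp only [mem_insert, mem_singleton] at hz
      rcases hz with rfl | rfl | rfl <;> assumption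
    have := card_le_card this
    rw [card_insert_of_notMem, card_pair (Ne.symm hne)] at this
    · omega
    · simp [Ne.symm h1, Ne.symm k1]
  subst hff
  -- e and f2 both join x and y
  have hcut : cut G {x, y} ⊆ {g, g2} := by
    intro z hz
    rw [mem_cut] at hz
    obtain ⟨⟨u, hu, hu2⟩, w, hw, hw2⟩ := hz
    have hfe : ∀ w, w ∈ G.ends f2 → w = x ∨ w = y := by
      intro w hw
      have : G.ends f2 = s(x, y) := by
        rw [← Sym2.mem_and_mem_iff hxy]; exact ⟨h6, k6⟩
      rw [this] at hw
      simpa using hw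
    simp only [mem_insert, mem_singleton, not_or] at hu hw
    simp only [mem_insert, mem_singleton]
    have hze : z ≠ e := by
      rintro rfl
      rw [hends] at hw2
      simp only [Sym2.mem_iff] at hw2
      tauto
    have hzf : z ≠ f2 := by
      rintro rfl
      have := hfe w hw2
      tauto
    rcases hu with rfl | rfl
    · rcases h8 z hu2 with r | r | r
      · exact absurd r hze
      · exact absurd r hzf
      · exact Or.inl r
    · rcases k8 z hu2 with r | r | r
      · exact absurd r hze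
      · exact absurd r hzf
      · exact Or.inr r
  have h10 := h3 {x, y} (by simp) (by
    intro h
    have : Fintype.card V ≤ 2 := by
      rw [← card_univ, ← h]; exact card_le_two
    omega)
  have h11 := card_le_card hcut
  have h12 : ({g, g2} : Finset E).card ≤ 2 := card_le_two
  omega

theorem t13 : T13 := by
  intro t1 t3 tk tk2 t4 t5 t6 t7a t7 t8a t8 t9 V E _ _ _ _ G hG h3 h4 hn F hF hc
  have ec1 : EC G 1 := fun S a b => le_trans (by norm_num) (h3 S a b)
  have c : Ctx G F := {
    hG := hG, h3 := h3, h4 := h4, hn := hn, hF := hF, hc := hc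
    tk2 := tk2 t1 t3 V E G hG ec1 F hF hc
    t4 := t4 V E G hG
    t7 := t7 t1 t3 tk t5 t6 t7a V E G hG h3 hn F hF hc
    t8 := t8 t1 t3 tk t5 t6 t8a V E G hG h3 hn F hF hc }
  obtain ⟨T, hT, hT5⟩ := hF.short hG hc
  have hT3 := circ_three_le hG h3 hn (hF.1 T hT)
  obtain ⟨n, hn'⟩ : ∃ n, T.card = n + 3 := ⟨T.card - 3, by omega⟩
  have hn2 : n ≤ 2 := by omega
  obtain ⟨a, t, ha, ht, hmem, hends⟩ := t9 V E G hG T (hF.1 T hT) n hn'
  have hX : ∀ i, ∃ X ∈ F, X ≠ T ∧ t i ∈ X ∧ ∀ Y ∈ F, t i ∈ Y → Y = T ∨ Y = X := fun i =>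
    hF.other hG hT ((hmem _).2 ⟨i, rfl⟩)
  choose X X1 X2 X3 X4 using hX
  have nb : Nb G F T a t X := ⟨ha, ht, hmem, hends, X1, X2, X3, X4⟩
  interval_cases n
  · exact Or.inr (case3 c hT nb)
  · exact case4 c hT nb
  · exact Or.inr (case5 c hT nb)

end Pool.Agent.H366R3.SC
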