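import Pool.Agent.H366R3.SC.Stmts

set_option autoImplicit false

namespace Pool.Agent.H366R3.SC.T14_helper105

open Finset SimpleGraph
open Pool.Agent.H126R2.CDC (MGraph)
open Pool.Agent.H366R3.SC

theorem t : T14 := by
  intro V _ _ G _ H hH C hcub hC
  obtain ⟨hne, hev, hmin⟩ := hC
  obtain ⟨G', hG'⟩ : ∃ G' : SimpleGraph V, ∀ x y, G'.Adj x y ↔
      ∃ h : s(x, y) ∈ G.edgeSet, (⟨s(x, y), h⟩ : G.edgeSet) ∈ C := by
    refine ⟨⟨fun x y => ∃ h : s(x, y) ∈ G.edgeSet, (⟨s(x, y), h⟩ : G.edgeSet) ∈ C, ?_, ?_⟩,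
      fun _ _ => Iff.rfl⟩
    · constructor
      rintro x y ⟨h, h2⟩
      refine ⟨by rw [Sym2.eq_swap]; exact h, ?_⟩
      convert h2 using 2
      exact Sym2.eq_swap
    · constructor
      rintro x ⟨h, _⟩
      exact (G.irrefl (v := x)) h
  have hle : G' ≤ G := by
    intro x y h
    exact ((hG' x y).mp h).1
  have hinc : ∀ (v : V) (e : G.edgeSet), e ∈ inc H v ↔ v ∈ e.1 := by
    intro v e
    simp [inc, hH]
  have hdeg : ∀ v w, G'.Adj v w → ∃ w', w' ≠ w ∧ G'.Adj v w' := by
    intro v w hvw
    obtain ⟨h, h2⟩ := (hG' v w).mp hvw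
    have hmem : (⟨s(v, w), h⟩ : G.edgeSet) ∈ C ∩ inc H v := by
      rw [Finset.mem_inter]
      refine ⟨h2, ?_⟩
      rw [hinc]
      exact Sym2.mem_mk_left v w
    have hcard : 1 < (C ∩ inc H v).card := by
      have h1 : 0 < (C ∩ inc H v).card := Finset.card_pos.mpr ⟨_, hmem⟩
      obtain ⟨k, hk⟩ := hev v
      omega
    obtain ⟨e', he', hne'⟩ := Finset.exists_mem_ne hcard (⟨s(v, w), h⟩ : G.edgeSet)
    rw [Finset.mem_inter, hinc] at he'
    obtain ⟨he'C, hve'⟩ := he'
    obtain ⟨w', hw'⟩ := Sym2.mem_iff_exists.mp hve'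
    refine ⟨w', ?_, ?_⟩
    · rintro rfl
      apply hne'
      exact Subtype.ext hw'
    · rw [hG']
      refine ⟨hw' ▸ e'.2, ?_⟩
      convert he'C
      exact hw'.symm
  have hnac : ¬ G'.IsAcyclic := by
    intro hac
    obtain ⟨⟨e, heG⟩, he⟩ := hne
    induction e using Sym2.ind with
    | _ x y =>
      have hxy : G'.Adj x y := (hG' x y).mpr ⟨heG, he⟩
      have : Nonempty V := ⟨x⟩
      obtain ⟨u, v, p, hp, hmax⟩ :=
        SimpleGraph.Walk.exists_isPath_forall_isPath_length_le_length G'
      have hlen : 1 ≤ p.length := by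
        have := hmax x y (Walk.cons hxy Walk.nil) (by
          rw [Walk.cons_isPath_iff]
          refine ⟨Walk.IsPath.nil, ?_⟩
          simpa using hxy.ne)
        simpa using this
      have hnn : ¬ p.Nil := by
        intro hnil
        have := Walk.nil_iff_length_eq.mp hnil
        omega
      have hpen : G'.Adj p.penultimate v := p.adj_penultimate hnn
      obtain ⟨w', hw', hadjw⟩ := hdeg v p.penultimate hpen.symm
      by_cases hs : w' ∈ p.support
      · exact hw' (hac.eq_penultimate_of_adj_end hp hadjw hs)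
      · have := hmax u w' (p.concat hadjw) (hp.concat hs hadjw)
        rw [Walk.length_concat] at this
        omega
  unfold SimpleGraph.IsAcyclic at hnac
  push Not at hnac
  obtain ⟨a, c, hc⟩ := hnac
  have hedge : ∀ e ∈ c.edges, ∃ h : e ∈ G.edgeSet, (⟨e, h⟩ : G.edgeSet) ∈ C := by
    intro e he
    have := c.edges_subset_edgeSet he
    induction e using Sym2.ind with
    | _ x y => exact (hG' x y).mp this
  have hD : C.filter (fun e => e.1 ∈ c.edges) = C := by
    apply hmin _ (Finset.filter_subset _ _)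
    · have hne2 : c.edges ≠ [] := by
        intro h
        have h1 := hc.three_le_length
        rw [← Walk.length_edges, h] at h1
        simp at h1
      obtain ⟨e, he⟩ := List.exists_mem_of_ne_nil _ hne2
      obtain ⟨h, h2⟩ := hedge e he
      exact ⟨⟨e, h⟩, Finset.mem_filter.mpr ⟨h2, he⟩⟩
    · intro v
      have heven := (hc.isTrail.even_countP_edges_iff v).mpr (fun h => absurd rfl h)
      have hcard : (C.filter (fun e => e.1 ∈ c.edges) ∩ inc H v).card =
          c.edges.countP (fun e => v ∈ e) := by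
        rw [List.countP_eq_length_filter,
          ← List.toFinset_card_of_nodup (hc.isTrail.edges_nodup.filter _),
          ← Finset.card_map (Function.Embedding.subtype _)]
        congr 1
        ext e
        simp only [Finset.mem_map, Finset.mem_inter, Finset.mem_filter, List.mem_toFinset,
          List.mem_filter, Function.Embedding.subtype_apply, decide_eq_true_eq]
        constructor
        · rintro ⟨e', ⟨⟨h1, h2⟩, h3⟩, rfl⟩
          exact ⟨h2, (hinc v e').mp h3⟩
        · rintro ⟨h1, h2⟩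
          obtain ⟨h, h3⟩ := hedge e h1
          exact ⟨⟨e, h⟩, ⟨⟨h3, h1⟩, (hinc v ⟨e, h⟩).mpr h2⟩, rfl⟩
      rw [hcard]
      exact heven
  refine ⟨a, c.mapLe hle, hc.mapLe hle, ?_⟩
  intro e
  rw [Walk.edges_mapLe_eq_edges]
  constructor
  · intro he
    obtain ⟨h, h2⟩ := hedge e.1 he
    exact h2
  · intro he
    rw [← hD, Finset.mem_filter] at he
    exact he.2

end Pool.Agent.H366R3.SC.T14_helper105
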