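import Pool.Agent.H366R3.SC.Stmts

set_option autoImplicit false

/-! SCDC project, task T2 (helper744): the Euler bound. -/

namespace Pool.Agent.H366R3.SC.T2H744

open Finset
open Pool.Agent.H126R2.CDC (MGraph)
open Pool.Agent.H366R3.SC

theorem zmod2_add_eq_zero {a b : ZMod 2} (h : a + b = 0) : a = b := by
  revert a b; decide

theorem card_le_rank {m n : Type} [Fintype m] [Fintype n] [DecidableEq n]
    (M : Matrix m n (ZMod 2)) (h : ∀ a : n → ZMod 2, M.mulVec a = 0 → ∀ i j, a i = a j) :
    Fintype.card n ≤ M.rank + 1 := by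
  have h1 := LinearMap.finrank_range_add_finrank_ker M.mulVecLin
  have h2 : Module.finrank (ZMod 2) (LinearMap.ker M.mulVecLin) ≤ 1 := by
    have hle : LinearMap.ker M.mulVecLin ≤ Submodule.span (ZMod 2) {(fun _ => 1 : n → ZMod 2)} := by
      intro a ha
      have ha' : M.mulVec a = 0 := by simpa using ha
      have := h a ha'
      rw [Submodule.mem_span_singleton]
      by_cases hn : Nonempty n
      · obtain ⟨i0⟩ := hn
        refine ⟨a i0, ?_⟩
        funext j
        simp [this j i0]
      · refine ⟨0, ?_⟩
        funext j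
        exact absurd ⟨j⟩ hn
    calc Module.finrank (ZMod 2) (LinearMap.ker M.mulVecLin)
        ≤ Module.finrank (ZMod 2) (Submodule.span (ZMod 2) {(fun _ => 1 : n → ZMod 2)}) :=
          Submodule.finrank_mono hle
      _ ≤ 1 := by
          have := finrank_span_le_card (R := ZMod 2) ({(fun _ => 1 : n → ZMod 2)} : Set (n → ZMod 2))
          simpa using this
  rw [Module.finrank_fintype_fun_eq_card] at h1
  have h3 : M.rank = Module.finrank (ZMod 2) (LinearMap.range M.mulVecLin) := rfl
  omega

section
variable {V E : Type} [Fintype V] [DecidableEq V] [Fintype E] [DecidableEq E] (G : MGraph V E)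

theorem ends_card (hG : Cubic G) (e : E) : (univ.filter (fun v => v ∈ G.ends e)).card = 2 := by
  have h := hG.loopless e
  induction hz : G.ends e using Sym2.ind with
  | _ x y =>
    rw [hz] at h
    have hxy : x ≠ y := by simpa using h
    have : (univ.filter (fun v => v ∈ s(x, y))) = {x, y} := by
      ext v
      simp
    rw [this, Finset.card_pair hxy]

theorem card_E (hG : Cubic G) : 2 * Fintype.card E = 3 * Fintype.card V := by
  have h1 : ∑ v : V, (inc G v).card = ∑ e : E, (univ.filter (fun v => v ∈ G.ends e)).card := by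
    unfold inc
    simp only [Finset.card_filter]
    exact Finset.sum_comm
  rw [Finset.sum_congr rfl (fun v _ => hG.three v),
    Finset.sum_congr rfl (fun e _ => ends_card G hG e)] at h1
  simp only [Finset.sum_const, Finset.card_univ, smul_eq_mul] at h1
  omega

theorem exists_index (F : Multiset (Finset E)) (hF : CD G F) :
    ∃ (C : Fin (Multiset.card F) → Finset E), (∀ i, Circ G (C i)) ∧
      ∀ e, (univ.filter (fun i => e ∈ C i)).card = 2 := by
  classical
  obtain ⟨l, rfl⟩ : ∃ l : List (Finset E), F = ↑l := ⟨F.toList, by simp⟩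
  have hmap : (Finset.univ : Finset (Fin l.length)).val.map l.get = (↑l : Multiset (Finset E)) := by
    rw [Fin.univ_val_map, List.ofFn_get]
  refine ⟨fun i => l.get i, ?_, ?_⟩
  · intro i
    apply hF.1
    rw [Multiset.mem_coe]
    exact List.get_mem _ _
  · intro e
    have h := hF.2 e
    rw [← hmap, Multiset.countP_map] at h
    exact h

variable {G}

theorem ev_card (hG : Cubic G) {C : Finset E} (hC : Ev G C) {v : V} {e f g : E}
    (hinc : inc G v = {e, f, g}) (hef : e ≠ f) (heg : e ≠ g) (hfg : f ≠ g) (he : e ∈ C)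
    (hf : f ∉ C) : g ∈ C := by
  by_contra hg
  have h := hC v
  have : C ∩ inc G v = {e} := by
    rw [hinc]
    ext x
    simp only [mem_inter, mem_insert, mem_singleton]
    constructor
    · rintro ⟨hx, rfl | rfl | rfl⟩
      · rfl
      · exact absurd hx hf
      · exact absurd hx hg
    · rintro rfl
      exact ⟨he, Or.inl rfl⟩
  rw [this] at h
  simp at h

theorem exists_common (hG : Cubic G) {n : ℕ} {C : Fin n → Finset E} (hC : ∀ i, Circ G (C i))
    (h2 : ∀ e, (univ.filter (fun i => e ∈ C i)).card = 2) {v : V} {e f : E} (he : e ∈ inc G v)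
    (hf : f ∈ inc G v) : ∃ i, e ∈ C i ∧ f ∈ C i := by
  by_cases hef : e = f
  · subst hef
    have : 0 < (univ.filter (fun i => e ∈ C i)).card := by rw [h2]; norm_num
    obtain ⟨i, hi⟩ := Finset.card_pos.mp this
    rw [mem_filter] at hi
    exact ⟨i, hi.2, hi.2⟩
  · obtain ⟨g, hg1, hg2⟩ : ∃ g, g ∈ inc G v \ {e, f} ∧ True := by
      have hcard : 0 < (inc G v \ {e, f}).card := by
        have := Finset.le_card_sdiff {e, f} (inc G v)
        rw [hG.three v, Finset.card_pair hef] at this
        omega
      obtain ⟨g, hg⟩ := Finset.card_pos.mp hcard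
      exact ⟨g, hg, trivial⟩
    rw [mem_sdiff] at hg1
    simp only [mem_insert, mem_singleton, not_or] at hg1
    obtain ⟨hgi, hge, hgf⟩ := hg1
    have hinc : inc G v = {e, f, g} := by
      symm
      apply Finset.eq_of_subset_of_card_le
      · intro x hx
        simp only [mem_insert, mem_singleton] at hx
        rcases hx with rfl | rfl | rfl <;> assumption
      · rw [hG.three v, Finset.card_eq_three.mpr ⟨e, f, g, hef, Ne.symm hge, Ne.symm hgf, rfl⟩]
    by_contra hcon
    push Not at hcon
    have hsub : univ.filter (fun i => e ∈ C i) ∪ univ.filter (fun i => f ∈ C i)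
        ⊆ univ.filter (fun i => g ∈ C i) := by
      intro i hi
      rw [mem_union, mem_filter, mem_filter] at hi
      rw [mem_filter]
      refine ⟨mem_univ _, ?_⟩
      rcases hi with ⟨_, h⟩ | ⟨_, h⟩
      · exact ev_card hG (hC i).2.1 hinc hef (Ne.symm hge) (Ne.symm hgf) h (hcon i h)
      · have hinc' : inc G v = {f, e, g} := by
          rw [hinc]; ext x; simp only [mem_insert, mem_singleton]; tauto
        exact ev_card hG (hC i).2.1 hinc' (Ne.symm hef) (Ne.symm hgf) (Ne.symm hge) h
          (fun h' => hcon i h' h)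
    have hdisj : Disjoint (univ.filter (fun i => e ∈ C i)) (univ.filter (fun i => f ∈ C i)) := by
      rw [Finset.disjoint_left]
      intro i hi hi'
      rw [mem_filter] at hi hi'
      exact hcon i hi.2 hi'.2
    have := Finset.card_le_card hsub
    rw [Finset.card_union_of_disjoint hdisj, h2, h2, h2] at this
    omega

/-- a nonempty vertex set closed under adjacency is everything -/
theorem closed_univ (hE : EC G 1) (S : Finset V) (hS : S.Nonempty)
    (hcl : ∀ e x y, G.ends e = s(x, y) → x ∈ S → y ∈ S) : S = univ := by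
  by_contra h
  have := hE S hS h
  obtain ⟨e, he⟩ := Finset.card_pos.mp this
  unfold cut at he
  rw [mem_filter] at he
  obtain ⟨_, ⟨x, hx, hxe⟩, y, hy, hye⟩ := he
  apply hy
  have hxy : x ≠ y := by rintro rfl; exact hy hx
  have : G.ends e = s(x, y) := ((Sym2.mem_and_mem_iff hxy).mp ⟨hxe, hye⟩)
  exact hcl e x y this hx

theorem face_const (hG : Cubic G) (hE : EC G 1) {n : ℕ} {C : Fin n → Finset E}
    (hC : ∀ i, Circ G (C i)) (h2 : ∀ e, (univ.filter (fun i => e ∈ C i)).card = 2)
    (a : Fin n → ZMod 2)
    (ha : (Matrix.of (fun (e : E) (i : Fin n) => if e ∈ C i then (1 : ZMod 2) else 0)).mulVec a = 0) :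
    ∀ i j, a i = a j := by
  have k1 : ∀ e i j, e ∈ C i → e ∈ C j → a i = a j := by
    intro e i j hi hj
    by_cases hij : i = j
    · rw [hij]
    · have h3 := congrFun ha e
      simp only [Matrix.mulVec, dotProduct, Matrix.of_apply, ite_mul, one_mul, zero_mul,
        Pi.zero_apply] at h3
      rw [← Finset.sum_filter] at h3
      have : univ.filter (fun i => e ∈ C i) = {i, j} := by
        symm
        apply Finset.eq_of_subset_of_card_le
        · intro x hx
          simp only [mem_insert, mem_singleton] at hx
          rw [mem_filter]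
          rcases hx with rfl | rfl
          · exact ⟨mem_univ _, hi⟩
          · exact ⟨mem_univ _, hj⟩
        · rw [h2, Finset.card_pair hij]
      rw [this, Finset.sum_pair hij] at h3
      exact zmod2_add_eq_zero h3
  have k2 : ∀ v e f, e ∈ inc G v → f ∈ inc G v → ∀ i j, e ∈ C i → f ∈ C j → a i = a j := by
    intro v e f he hf i j hi hj
    obtain ⟨k, hk1, hk2⟩ := exists_common hG hC h2 he hf
    rw [k1 e i k hi hk1, k1 f k j hk2 hj]
  intro i0 j0
  have touch : ∀ i, ∃ v e, e ∈ C i ∧ e ∈ inc G v := by
    intro i
    obtain ⟨e, he⟩ := (hC i).1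
    obtain ⟨v, hv⟩ : ∃ v, v ∈ G.ends e := ⟨(G.ends e).out.1, Sym2.out_fst_mem _⟩
    exact ⟨v, e, he, by unfold inc; rw [mem_filter]; exact ⟨mem_univ _, hv⟩⟩
  obtain ⟨v0, e0, he0, hv0⟩ := touch i0
  set S : Finset V := univ.filter (fun v => ∀ i e, e ∈ C i → e ∈ inc G v → a i = a i0) with hS
  have hSuniv : S = univ := by
    apply closed_univ hE
    · refine ⟨v0, ?_⟩
      rw [hS, mem_filter]
      refine ⟨mem_univ _, ?_⟩
      intro i e hi he
      exact k2 v0 e e0 he hv0 i i0 hi he0
    · intro e x y hxy hx
      rw [hS, mem_filter] at hx ⊢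
      refine ⟨mem_univ _, ?_⟩
      intro j f hj hf
      have hex : e ∈ inc G x := by unfold inc; rw [mem_filter, hxy]; simp
      have hey : e ∈ inc G y := by unfold inc; rw [mem_filter, hxy]; simp
      obtain ⟨i, hi, _⟩ := exists_common hG hC h2 hex hex
      rw [← hx.2 i e hi hex]
      exact k2 y f e hf hey j i hj hi
  obtain ⟨v1, e1, he1, hv1⟩ := touch j0
  have : v1 ∈ S := by rw [hSuniv]; exact mem_univ _
  rw [hS, mem_filter] at this
  exact (this.2 j0 e1 he1 hv1).symm

theorem vert_const (hG : Cubic G) (hE : EC G 1) (s : V → ZMod 2)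
    (hs : (Matrix.of (fun (e : E) (v : V) => if v ∈ G.ends e then (1 : ZMod 2) else 0)).mulVec s = 0) :
    ∀ i j, s i = s j := by
  intro v0 w0
  set S : Finset V := univ.filter (fun v => s v = s v0) with hS
  have hSuniv : S = univ := by
    apply closed_univ hE
    · exact ⟨v0, by rw [hS, mem_filter]; exact ⟨mem_univ _, rfl⟩⟩
    · intro e x y hxy hx
      rw [hS, mem_filter] at hx ⊢
      refine ⟨mem_univ _, ?_⟩
      rw [← hx.2]
      have hne : x ≠ y := by
        have := hG.loopless e
        rw [hxy] at this
        simpa using this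
      have h3 := congrFun hs e
      simp only [Matrix.mulVec, dotProduct, Matrix.of_apply, ite_mul, one_mul, zero_mul,
        Pi.zero_apply] at h3
      rw [← Finset.sum_filter] at h3
      have : univ.filter (fun v => v ∈ G.ends e) = {x, y} := by
        ext v
        rw [hxy]
        simp
      rw [this, Finset.sum_pair hne] at h3
      exact (zmod2_add_eq_zero h3).symm
  have : w0 ∈ S := by rw [hSuniv]; exact mem_univ _
  rw [hS, mem_filter] at this
  exact this.2.symm

end

theorem t : T2 := by
  intro V E _ _ _ _ G hG hE F hF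
  classical
  obtain ⟨C, hC, h2⟩ := exists_index G F hF
  set A : Matrix E (Fin (Multiset.card F)) (ZMod 2) :=
    Matrix.of (fun e i => if e ∈ C i then (1 : ZMod 2) else 0) with hA
  set B : Matrix E V (ZMod 2) := Matrix.of (fun e v => if v ∈ G.ends e then (1 : ZMod 2) else 0)
    with hB
  have r1 := card_le_rank A (fun a ha => face_const hG hE hC h2 a ha)
  have r2 := card_le_rank B (fun s hs => vert_const hG hE s hs)
  have hAB : A.transpose * B = 0 := by
    ext i v
    rw [Matrix.mul_apply]
    simp only [Matrix.transpose_apply, hA, hB, Matrix.of_apply, Matrix.zero_apply]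
    have hev := (hC i).2.1 v
    have : ∑ e : E, (if e ∈ C i then (1 : ZMod 2) else 0) * (if v ∈ G.ends e then (1 : ZMod 2) else 0)
        = (((C i ∩ inc G v).card : ℕ) : ZMod 2) := by
      rw [Finset.card_eq_sum_ones, Nat.cast_sum, inc, Finset.inter_filter, Finset.inter_univ,
        Finset.sum_filter, ← Finset.sum_filter_add_sum_filter_not univ (fun e => e ∈ C i)]
      rw [Finset.sum_eq_zero (s := univ.filter (fun e => ¬ e ∈ C i))]
      · rw [add_zero, Finset.filter_mem_eq_inter, Finset.univ_inter]
        apply Finset.sum_congr rfl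
        intro e he
        rw [if_pos he]
        simp
      · intro e he
        rw [mem_filter] at he
        rw [if_neg he.2, zero_mul]
    rw [this]
    exact (ZMod.natCast_eq_zero_iff_even).mpr hev
  have r3 := Matrix.rank_add_rank_le_card_of_mul_eq_zero hAB
  rw [Matrix.rank_transpose] at r3
  have r4 := card_E G hG
  rw [Fintype.card_fin] at r1
  omega

end Pool.Agent.H366R3.SC.T2H744
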