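import Pool.Agent.H366R3.SC.Stmts

set_option autoImplicit false

/-! Tasks T3 and T2: the dimension of the span of the faces and of the space of even sets. -/

namespace Pool.Agent.H366R3.SC.T3H51

open Finset
open Pool.Agent.H126R2.CDC (MGraph)
open Pool.Agent.H366R3.SC

section Local

variable {V E : Type} [Fintype V] [DecidableEq V] [Fintype E] [DecidableEq E]

theorem card_two {G : MGraph V E} (hG : Cubic G) {B : Finset E} (hB : Ev G B) {v : V}
    (hv : (B ∩ inc G v).Nonempty) : (B ∩ inc G v).card = 2 := by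
  have h1 : (B ∩ inc G v).card ≤ 3 := by
    rw [← hG.three v]
    exact card_le_card inter_subset_right
  have h2 := card_pos.2 hv
  obtain ⟨k, hk⟩ := hB v
  omega

theorem share {G : MGraph V E} (hG : Cubic G) {B B' : Finset E} (hB : Ev G B) (hB' : Ev G B')
    {v : V} (hv : (B ∩ inc G v).Nonempty) (hv' : (B' ∩ inc G v).Nonempty) :
    ∃ e ∈ inc G v, e ∈ B ∧ e ∈ B' := by
  have h1 := card_two hG hB hv
  have h2 := card_two hG hB' hv'
  by_contra hcon
  push Not at hcon
  have hd : Disjoint (B ∩ inc G v) (B' ∩ inc G v) := by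
    rw [disjoint_left]
    intro e he he'
    rw [mem_inter] at he he'
    exact hcon e he.2 he.1 he'.1
  have h3 : ((B ∩ inc G v) ∪ (B' ∩ inc G v)).card ≤ 3 := by
    rw [← hG.three v]
    exact card_le_card (union_subset inter_subset_right inter_subset_right)
  rw [card_union_of_disjoint hd] at h3
  omega

theorem exists_end (G : MGraph V E) (e : E) : ∃ v, v ∈ G.ends e := by
  induction h : G.ends e with
  | _ a b => exact ⟨a, Sym2.mem_mk_left a b⟩

theorem mem_inc {G : MGraph V E} {e : E} {v : V} : e ∈ inc G v ↔ v ∈ G.ends e := by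
  unfold inc
  rw [mem_filter]
  exact ⟨fun h => h.2, fun h => ⟨mem_univ _, h⟩⟩

theorem nodup {G : MGraph V E} (hG : Cubic G) {F : Multiset (Finset E)} (hF : CD G F) :
    F.Nodup := by
  rw [Multiset.nodup_iff_le]
  intro B hB
  rw [Multiset.le_iff_exists_add] at hB
  obtain ⟨F', hF'⟩ := hB
  have hFc : F = B ::ₘ B ::ₘ F' := by
    rw [hF', Multiset.cons_add, Multiset.cons_add, Multiset.zero_add]
  have hBF : B ∈ F := by
    rw [hFc]
    exact Multiset.mem_cons_self _ _
  have hBc := hF.1 B hBF
  obtain ⟨e, he⟩ := hBc.1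
  obtain ⟨v, hv⟩ := exists_end G e
  have hBv : (B ∩ inc G v).Nonempty := ⟨e, mem_inter.2 ⟨he, mem_inc.2 hv⟩⟩
  have h2 := card_two hG hBc.2.1 hBv
  obtain ⟨h, hh1, hh2⟩ : ∃ h ∈ inc G v, h ∉ B := by
    by_contra hcon
    push Not at hcon
    have : B ∩ inc G v = inc G v := by
      rw [inter_eq_right]
      exact hcon
    rw [this, hG.three v] at h2
    omega
  obtain ⟨C, hC, hhC⟩ : ∃ C ∈ F, h ∈ C := by
    have := hF.2 h
    have h0 : 0 < F.countP (fun C => h ∈ C) := by omega
    rw [Multiset.countP_pos] at h0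
    exact h0
  have hCB : C ≠ B := fun hEq => hh2 (hEq ▸ hhC)
  have hCv : (C ∩ inc G v).Nonempty := ⟨h, mem_inter.2 ⟨hhC, hh1⟩⟩
  obtain ⟨e', _, he'B, he'C⟩ := share hG hBc.2.1 (hF.1 C hC).2.1 hBv hCv
  have hCF' : C ∈ F' := by
    rw [hFc, Multiset.mem_cons, Multiset.mem_cons] at hC
    rcases hC with hC | hC | hC
    · exact absurd hC hCB
    · exact absurd hC hCB
    · exact hC
  have h3 := hF.2 e'
  rw [hFc, Multiset.countP_cons_of_pos (p := fun C => e' ∈ C) _ he'B,
    Multiset.countP_cons_of_pos (p := fun C => e' ∈ C) _ he'B] at h3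
  have h4 : 0 < F'.countP (fun C => e' ∈ C) := by
    rw [Multiset.countP_pos]
    exact ⟨C, hCF', he'C⟩
  omega

/-- two faces at a common vertex have the same coefficient -/
theorem same_at {G : MGraph V E} (hG : Cubic G) {F : Multiset (Finset E)} (hF : CD G F)
    (c : Finset E → ZMod 2)
    (hc : ∀ e, ∑ B ∈ F.toFinset.filter (fun B => e ∈ B), c B = 0) {v : V} {B B' : Finset E}
    (hB : B ∈ F) (hB' : B' ∈ F) (hv : (B ∩ inc G v).Nonempty) (hv' : (B' ∩ inc G v).Nonempty) :
    c B = c B' := by
  by_cases hBB : B = B'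
  · rw [hBB]
  obtain ⟨e, _, heB, heB'⟩ := share hG (hF.1 B hB).2.1 (hF.1 B' hB').2.1 hv hv'
  have hcard : (F.toFinset.filter (fun B => e ∈ B)).card = 2 := by
    have h1 := hF.2 e
    rw [Multiset.countP_eq_card_filter] at h1
    have h2 : F.toFinset.filter (fun B => e ∈ B) = (F.filter (fun B => e ∈ B)).toFinset := by
      ext D
      simp only [mem_filter, Multiset.mem_toFinset, Multiset.mem_filter]
    rw [h2, Multiset.toFinset_card_of_nodup ((nodup hG hF).filter _), h1]
  have hsub : ({B, B'} : Finset (Finset E)) = F.toFinset.filter (fun B => e ∈ B) := by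
    apply eq_of_subset_of_card_le
    · intro D hD
      rw [mem_insert, mem_singleton] at hD
      rw [mem_filter, Multiset.mem_toFinset]
      rcases hD with rfl | rfl
      · exact ⟨hB, heB⟩
      · exact ⟨hB', heB'⟩
    · rw [hcard, card_pair hBB]
  have h := hc e
  rw [← hsub, sum_pair hBB] at h
  have h3 : c B = - c B' := eq_neg_of_add_eq_zero_left h
  rw [h3]
  exact ZMod.neg_eq_self_mod_two _

theorem const_coeff {G : MGraph V E} (hG : Cubic G) (hE : EC G 1) {F : Multiset (Finset E)}
    (hF : CD G F) (c : Finset E → ZMod 2)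
    (hc : ∀ e, ∑ B ∈ F.toFinset.filter (fun B => e ∈ B), c B = 0) :
    ∃ a : ZMod 2, ∀ B ∈ F, c B = a := by
  classical
  -- every vertex is touched
  have htouch : ∀ v : V, ∃ B ∈ F, (B ∩ inc G v).Nonempty := by
    intro v
    obtain ⟨e, he⟩ : (inc G v).Nonempty := by
      rw [← card_pos, hG.three v]
      norm_num
    have h0 : 0 < F.countP (fun C => e ∈ C) := by
      rw [hF.2 e]
      norm_num
    rw [Multiset.countP_pos] at h0
    obtain ⟨B, hB, heB⟩ := h0
    exact ⟨B, hB, e, mem_inter.2 ⟨heB, he⟩⟩
  choose f hf1 hf2 using htouch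
  have key : ∀ (v : V) (B : Finset E), B ∈ F → (B ∩ inc G v).Nonempty → c B = c (f v) :=
    fun v B hB hBv => same_at hG hF c hc hB (hf1 v) hBv (hf2 v)
  by_cases hconst : ∃ a, ∀ v, c (f v) = a
  · obtain ⟨a, ha⟩ := hconst
    refine ⟨a, fun B hB => ?_⟩
    obtain ⟨e, he⟩ := (hF.1 B hB).1
    obtain ⟨v, hv⟩ := exists_end G e
    rw [key v B hB ⟨e, mem_inter.2 ⟨he, mem_inc.2 hv⟩⟩, ha]
  · exfalso
    push Not at hconst
    obtain ⟨v0, hv0⟩ := hconst 0
    obtain ⟨w0, hw0⟩ := hconst (c (f v0))
    have hS := hE (univ.filter fun v => c (f v) = c (f v0)) ⟨v0, by simp⟩ (by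
      intro h
      have : w0 ∈ (univ : Finset V) := mem_univ _
      rw [← h, mem_filter] at this
      exact hw0 this.2)
    have hne : (cut G (univ.filter fun v => c (f v) = c (f v0))).Nonempty := card_pos.1 (by omega)
    obtain ⟨e, he⟩ := hne
    unfold cut at he
    rw [mem_filter] at he
    obtain ⟨_, ⟨x, hx, hxe⟩, ⟨y, hy, hye⟩⟩ := he
    have h0 : 0 < F.countP (fun C => e ∈ C) := by
      rw [hF.2 e]
      norm_num
    rw [Multiset.countP_pos] at h0
    obtain ⟨B, hB, heB⟩ := h0
    have h1 := key x B hB ⟨e, mem_inter.2 ⟨heB, mem_inc.2 hxe⟩⟩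
    have h2 := key y B hB ⟨e, mem_inter.2 ⟨heB, mem_inc.2 hye⟩⟩
    rw [mem_filter] at hx
    apply hy
    rw [mem_filter]
    refine ⟨mem_univ _, ?_⟩
    rw [← h2, h1, hx.2]

/-- the incidence matrix -/
def incM (G : MGraph V E) : Matrix V E (ZMod 2) := fun v e => if e ∈ inc G v then 1 else 0

/-- the matrix of the faces -/
def faceM (F : Multiset (Finset E)) : Matrix E F.toFinset (ZMod 2) :=
  fun e B => if e ∈ B.1 then 1 else 0

/-- indicator vector -/
def ind (C : Finset E) : E → ZMod 2 := fun e => if e ∈ C then 1 else 0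

theorem ind_inj {C D : Finset E} (h : ind C = ind D) : C = D := by
  ext e
  have := congrFun h e
  unfold ind at this
  by_cases h1 : e ∈ C <;> by_cases h2 : e ∈ D <;> simp_all

theorem ind_symmDiff (C D : Finset E) : ind (symmDiff C D) = ind C + ind D := by
  funext e
  unfold ind
  rw [Pi.add_apply]
  by_cases h1 : e ∈ C <;> by_cases h2 : e ∈ D <;> simp [h1, h2, mem_symmDiff]
  decide

theorem mem_ker_iff (G : MGraph V E) (C : Finset E) :
    ind C ∈ LinearMap.ker (incM G).mulVecLin ↔ Ev G C := by
  rw [LinearMap.mem_ker, Matrix.mulVecLin_apply]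
  have h : ∀ v, (incM G).mulVec (ind C) v = (((C ∩ inc G v).card : ℕ) : ZMod 2) := by
    intro v
    unfold Matrix.mulVec dotProduct incM ind
    have h1 : ∀ e : E, (if e ∈ inc G v then (1 : ZMod 2) else 0) * (if e ∈ C then 1 else 0) =
        if e ∈ C ∩ inc G v then 1 else 0 := by
      intro e
      by_cases h1 : e ∈ C <;> by_cases h2 : e ∈ inc G v <;> simp [h1, h2]
    rw [sum_congr rfl fun e _ => h1 e, sum_ite_mem, univ_inter, sum_const, nsmul_eq_mul, mul_one]
  constructor
  · intro h0 v
    have := congrFun h0 v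
    rw [h v, Pi.zero_apply, ZMod.natCast_eq_zero_iff_even] at this
    exact this
  · intro h0
    funext v
    rw [h v, Pi.zero_apply, ZMod.natCast_eq_zero_iff_even]
    exact h0 v

theorem mem_range (F : Multiset (Finset E)) (C : Finset E)
    (h : ind C ∈ LinearMap.range (faceM F).mulVecLin) :
    ∃ A : Finset (Finset E), (∀ B ∈ A, B ∈ F) ∧ C = oddSum A := by
  obtain ⟨c, hc⟩ := h
  rw [Matrix.mulVecLin_apply] at hc
  refine ⟨(univ.filter fun B : F.toFinset => c B = 1).map ⟨Subtype.val, Subtype.val_injective⟩,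
    ?_, ?_⟩
  · intro B hB
    rw [mem_map] at hB
    obtain ⟨B', _, rfl⟩ := hB
    exact Multiset.mem_toFinset.1 B'.2
  · ext e
    unfold oddSum
    rw [mem_filter]
    have h1 := congrFun hc e
    unfold Matrix.mulVec dotProduct faceM at h1
    have h2 : ∀ B : F.toFinset, (if e ∈ B.1 then (1 : ZMod 2) else 0) * c B =
        if (c B = 1 ∧ e ∈ B.1) then 1 else 0 := by
      intro B
      have h01 : c B = 0 ∨ c B = 1 := by
        have : ∀ z : ZMod 2, z = 0 ∨ z = 1 := by decide
        exact this _
      rcases h01 with h | h <;> by_cases h3 : e ∈ B.1 <;> simp [h, h3]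
    rw [sum_congr rfl fun B _ => h2 B, sum_boole] at h1
    rw [filter_map, card_map, filter_filter]
    have h3 : ∀ k : ℕ, Odd k ↔ (k : ZMod 2) = 1 := by
      intro k
      rw [← Nat.not_even_iff_odd, ← ZMod.natCast_eq_zero_iff_even]
      have : ∀ z : ZMod 2, ¬ z = 0 ↔ z = 1 := by decide
      exact this _
    rw [h3]
    have h4 : (univ.filter fun B : F.toFinset => c B = 1 ∧
        ((fun C : Finset E => e ∈ C) ∘ (⟨Subtype.val, Subtype.val_injective⟩ :
          F.toFinset ↪ Finset E)) B) =
        univ.filter fun B : F.toFinset => c B = 1 ∧ e ∈ B.1 := rfl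
    rw [h4, h1]
    unfold ind
    by_cases h5 : e ∈ C <;> simp [h5]

theorem range_le_ker {G : MGraph V E} {F : Multiset (Finset E)} (hF : CD G F) :
    LinearMap.range (faceM F).mulVecLin ≤ LinearMap.ker (incM G).mulVecLin := by
  rintro x ⟨c, rfl⟩
  have h : (faceM F).mulVecLin c = ∑ B : F.toFinset, c B • ind B.1 := by
    funext e
    rw [Matrix.mulVecLin_apply, Finset.sum_apply]
    unfold Matrix.mulVec dotProduct faceM ind
    refine sum_congr rfl fun B _ => ?_
    rw [Pi.smul_apply, smul_eq_mul, mul_comm]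
  rw [h]
  refine Submodule.sum_mem _ fun B _ => Submodule.smul_mem _ _ ?_
  rw [mem_ker_iff]
  exact (hF.1 B.1 (Multiset.mem_toFinset.1 B.2)).2.1

/-- the kernel of the face matrix is at most one dimensional -/
theorem ker_face {G : MGraph V E} (hG : Cubic G) (hE : EC G 1) {F : Multiset (Finset E)}
    (hF : CD G F) : Module.finrank (ZMod 2) (LinearMap.ker (faceM F).mulVecLin) ≤ 1 := by
  classical
  have h1 : LinearMap.ker (faceM F).mulVecLin ≤ Submodule.span (ZMod 2) {fun _ => 1} := by
    intro c hc
    rw [LinearMap.mem_ker, Matrix.mulVecLin_apply] at hc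
    obtain ⟨a, ha⟩ := const_coeff hG hE hF (fun B => if h : B ∈ F.toFinset then c ⟨B, h⟩ else 0) (by
      intro e
      have h2 : ∑ B : F.toFinset, (if e ∈ B.1 then (1 : ZMod 2) else 0) * c B = 0 := congrFun hc e
      rw [← h2, sum_filter, ← sum_coe_sort F.toFinset]
      refine sum_congr rfl fun B _ => ?_
      rw [dif_pos B.2]
      by_cases h3 : e ∈ B.1
      · rw [if_pos h3, if_pos h3, one_mul]
      · rw [if_neg h3, if_neg h3, zero_mul])
    rw [Submodule.mem_span_singleton]
    refine ⟨a, ?_⟩
    funext B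
    have := ha B.1 (Multiset.mem_toFinset.1 B.2)
    rw [dif_pos B.2] at this
    rw [Pi.smul_apply, smul_eq_mul, mul_one, ← this]
  exact (Submodule.finrank_mono h1).trans ((finrank_span_le_card _).trans (by simp))

/-- the kernel of the transposed incidence matrix is at most one dimensional -/
theorem ker_inc {G : MGraph V E} (hG : Cubic G) (hE : EC G 1) :
    Module.finrank (ZMod 2) (LinearMap.ker (incM G).transpose.mulVecLin) ≤ 1 := by
  classical
  have h01 : ∀ z : ZMod 2, z = 0 ∨ z = 1 := by decide
  have h1 : LinearMap.ker (incM G).transpose.mulVecLin ≤ Submodule.span (ZMod 2) {fun _ => 1} := by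
    intro s hs
    rw [LinearMap.mem_ker, Matrix.mulVecLin_apply] at hs
    have hedge : ∀ e : E, ∀ x y : V, G.ends e = s(x, y) → s x = s y := by
      intro e x y hxy
      have hxy' : x ≠ y := by
        intro h
        apply hG.loopless e
        rw [hxy, h]
        exact Sym2.mk_isDiag_iff.2 rfl
      have h2 := congrFun hs e
      unfold Matrix.mulVec dotProduct Matrix.transpose incM at h2
      rw [Pi.zero_apply] at h2
      have h3 : ∑ v : V, (Matrix.of fun x y => if x ∈ inc G y then (1 : ZMod 2) else 0) e v * s v =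
          s x + s y := by
        rw [← sum_pair hxy', ← sum_subset (subset_univ ({x, y} : Finset V))]
        · refine sum_congr rfl fun v hv => ?_
          have hv' : e ∈ inc G v := by
            rw [mem_inc, hxy, Sym2.mem_iff]
            rw [mem_insert, mem_singleton] at hv
            exact hv
          rw [Matrix.of_apply, if_pos hv', one_mul]
        · intro v _ hv
          have hv' : e ∉ inc G v := by
            rw [mem_inc, hxy, Sym2.mem_iff]
            rw [mem_insert, mem_singleton] at hv
            exact hv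
          rw [Matrix.of_apply, if_neg hv', zero_mul]
      rw [h3] at h2
      have h3 : s x = - s y := eq_neg_of_add_eq_zero_left h2
      rw [h3]
      exact ZMod.neg_eq_self_mod_two _
    rw [Submodule.mem_span_singleton]
    by_cases hconst : ∃ a, ∀ v, s v = a
    · obtain ⟨a, ha⟩ := hconst
      refine ⟨a, ?_⟩
      funext v
      rw [Pi.smul_apply, smul_eq_mul, mul_one, ha]
    · exfalso
      push Not at hconst
      obtain ⟨v0, hv0⟩ := hconst 0
      obtain ⟨w0, hw0⟩ := hconst (s v0)
      have hS := hE (univ.filter fun v => s v = s v0) ⟨v0, by simp⟩ (by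
        intro h
        have : w0 ∈ (univ : Finset V) := mem_univ _
        rw [← h, mem_filter] at this
        exact hw0 this.2)
      have hne : (cut G (univ.filter fun v => s v = s v0)).Nonempty := card_pos.1 (by omega)
      obtain ⟨e, he⟩ := hne
      unfold cut at he
      rw [mem_filter] at he
      obtain ⟨_, ⟨x, hx, hxe⟩, ⟨y, hy, hye⟩⟩ := he
      rw [mem_filter] at hx
      have hxy : x ≠ y := by
        intro h
        apply hy
        rw [mem_filter, ← h]
        exact hx
      have hends : G.ends e = s(x, y) := ((Sym2.mem_and_mem_iff hxy).1 ⟨hxe, hye⟩)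
      apply hy
      rw [mem_filter]
      exact ⟨mem_univ _, by rw [← hedge e x y hends, hx.2]⟩
  exact (Submodule.finrank_mono h1).trans ((finrank_span_le_card _).trans (by simp))

theorem handshake {G : MGraph V E} (hG : Cubic G) :
    3 * Fintype.card V = 2 * Fintype.card E := by
  have h1 : ∑ v : V, (inc G v).card = ∑ e : E, (univ.filter fun v => v ∈ G.ends e).card := by
    unfold inc
    simp only [card_filter]
    exact sum_comm
  have h2 : ∀ e : E, (univ.filter fun v => v ∈ G.ends e).card = 2 := by
    intro e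
    have hl := hG.loopless e
    induction h : G.ends e with
    | _ a b =>
      rw [h, Sym2.mk_isDiag_iff] at hl
      have : (univ.filter fun v => v ∈ s(a, b)) = {a, b} := by
        ext v
        rw [mem_filter, Sym2.mem_iff, mem_insert, mem_singleton]
        exact ⟨fun h => h.2, fun h => ⟨mem_univ _, h⟩⟩
      rw [this, card_pair hl]
  rw [sum_congr rfl fun v _ => hG.three v, sum_congr rfl fun e _ => h2 e, sum_const, sum_const,
    card_univ, card_univ, smul_eq_mul, smul_eq_mul] at h1
  omega

theorem dim_even {G : MGraph V E} (hG : Cubic G) (hE : EC G 1) :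
    2 * Module.finrank (ZMod 2) (LinearMap.ker (incM G).mulVecLin) ≤ Fintype.card V + 2 := by
  have h1 := LinearMap.finrank_range_add_finrank_ker (incM G).mulVecLin
  have h2 := LinearMap.finrank_range_add_finrank_ker (incM G).transpose.mulVecLin
  have h3 : Module.finrank (ZMod 2) (LinearMap.range (incM G).mulVecLin) =
      Module.finrank (ZMod 2) (LinearMap.range (incM G).transpose.mulVecLin) :=
    (Matrix.rank_transpose (incM G)).symm
  have h4 := ker_inc hG hE
  have h5 := handshake hG
  rw [Module.finrank_fintype_fun_eq_card] at h1 h2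
  omega

theorem dim_span {G : MGraph V E} (hG : Cubic G) (hE : EC G 1) {F : Multiset (Finset E)}
    (hF : CD G F) : Multiset.card F ≤
      Module.finrank (ZMod 2) (LinearMap.range (faceM F).mulVecLin) + 1 := by
  have h1 := LinearMap.finrank_range_add_finrank_ker (faceM F).mulVecLin
  have h2 := ker_face hG hE hF
  rw [Module.finrank_fintype_fun_eq_card, Fintype.card_coe,
    Multiset.toFinset_card_of_nodup (nodup hG hF)] at h1
  omega

end Local

/-- T2: Euler bound. -/
theorem t2 : T2 := by
  intro V E _ _ _ _ G hG hE F hF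
  have h1 := dim_span hG hE hF
  have h2 := dim_even hG hE
  have h3 := Submodule.finrank_mono (range_le_ker hF)
  omega

/-- T3 -/
theorem t : T3 := by
  intro V E _ _ _ _ G hG hE F hF hcard C C' hC hC'
  have h1 := dim_span hG hE hF
  have h2 := dim_even hG hE
  have h3 := Submodule.finrank_mono (range_le_ker hF)
  set U := LinearMap.range (faceM F).mulVecLin with hU
  set K := LinearMap.ker (incM G).mulVecLin with hK
  by_cases hCU : ind C ∈ U
  · exact Or.inl (mem_range F C hCU)
  · right
    have hCK : ind C ∈ K := (mem_ker_iff G C).2 hC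
    have hCK' : ind C' ∈ K := (mem_ker_iff G C').2 hC'
    have hUK : U ⊔ Submodule.span (ZMod 2) {ind C} ≤ K := by
      refine sup_le (range_le_ker hF) ?_
      rw [Submodule.span_singleton_le_iff_mem]
      exact hCK
    have hlt : U < U ⊔ Submodule.span (ZMod 2) {ind C} := by
      refine lt_of_le_of_ne le_sup_left ?_
      intro h
      apply hCU
      rw [h]
      exact Submodule.mem_sup_right (Submodule.mem_span_singleton_self _)
    have h4 := Submodule.finrank_lt_finrank_of_lt hlt
    have h5 := Submodule.finrank_mono hUK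
    have h6 : U ⊔ Submodule.span (ZMod 2) {ind C} = K := by
      apply Submodule.eq_of_le_of_finrank_le hUK
      omega
    rw [← h6, Submodule.mem_sup] at hCK'
    obtain ⟨u, hu, w, hw, huw⟩ := hCK'
    rw [Submodule.mem_span_singleton] at hw
    obtain ⟨a, rfl⟩ := hw
    have h01 : a = 0 ∨ a = 1 := by
      have : ∀ z : ZMod 2, z = 0 ∨ z = 1 := by decide
      exact this a
    rcases h01 with rfl | rfl
    · left
      rw [zero_smul, add_zero] at huw
      exact mem_range F C' (huw ▸ hu)
    · right
      apply mem_range F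
      rw [ind_symmDiff, ← huw, one_smul]
      have h7 : ind C + (u + ind C) = u := by
        funext e
        simp only [Pi.add_apply]
        have : ∀ a b : ZMod 2, a + (b + a) = b := by decide
        exact this _ _
      rw [h7]
      exact hu

end Pool.Agent.H366R3.SC.T3H51
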