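import Pool.Agent.H366R3.SC.Stmts

/-! T4 of the H366-SCDC project (MP_32fd1f_co). -/

set_option autoImplicit false

namespace Pool.Agent.H366R3.SC.T4H127

open Finset Pool.Agent.H366R3.SC
open Pool.Agent.H126R2.CDC (MGraph)

variable {V E : Type} [Fintype V] [DecidableEq V] [Fintype E] [DecidableEq E]

lemma mem_inc (G : MGraph V E) (v : V) (e : E) : e ∈ inc G v ↔ v ∈ G.ends e := by
  simp [inc]

lemma card_symmDiff_add (A B : Finset E) :
    (symmDiff A B).card + 2 * (A ∩ B).card = A.card + B.card := by
  have h1 : (symmDiff A B).card = (A \ B).card + (B \ A).card := by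
    rw [symmDiff_def]
    exact card_union_of_disjoint disjoint_sdiff_sdiff
  have h2 := card_sdiff_add_card_inter A B
  have h3 := card_sdiff_add_card_inter B A
  rw [inter_comm B A] at h3
  omega

lemma symmDiff_inter (A B C : Finset E) :
    symmDiff A B ∩ C = symmDiff (A ∩ C) (B ∩ C) := by
  ext x
  simp only [mem_inter, mem_symmDiff]
  tauto

lemma ev_symmDiff (G : MGraph V E) {A B : Finset E} (hA : Ev G A) (hB : Ev G B) :
    Ev G (symmDiff A B) := by
  intro v
  have h := card_symmDiff_add (A ∩ inc G v) (B ∩ inc G v)
  rw [← symmDiff_inter] at h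
  obtain ⟨a, ha⟩ := hA v
  obtain ⟨b, hb⟩ := hB v
  rw [Nat.even_iff]
  omega

lemma handshake (G : MGraph V E) (hG : Cubic G) (A : Finset E) :
    ∑ v : V, (A ∩ inc G v).card = 2 * A.card := by
  have h1 : ∀ v : V, (A ∩ inc G v).card = ∑ e ∈ A, if v ∈ G.ends e then 1 else 0 := by
    intro v
    rw [← card_filter]
    congr 1
    ext e
    simp [inc]
  rw [sum_congr rfl (fun v _ => h1 v), sum_comm]
  have h2 : ∀ e ∈ A, (∑ v : V, if v ∈ G.ends e then 1 else 0) = 2 := by
    intro e _
    rw [← card_filter]
    rw [← Sym2.card_toFinset_of_not_isDiag (G.ends e) (hG.loopless e)]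
    congr 1
    ext v
    simp
  rw [sum_congr rfl h2]
  simp [mul_comm]

lemma card_two (G : MGraph V E) (hG : Cubic G) {A : Finset E} (hA : Ev G A) (v : V) :
    (A ∩ inc G v).card = 0 ∨ (A ∩ inc G v).card = 2 := by
  have h1 := hG.three v
  have h2 : (A ∩ inc G v).card ≤ (inc G v).card := card_le_card inter_subset_right
  obtain ⟨k, hk⟩ := hA v
  omega

/-- the main step: the part in `T` of a subset `D` -/
lemma part_even (G : MGraph V E) (hG : Cubic G) {T X D : Finset E} {e : E} (hT : Ev G T)
    (hX : Ev G X) (hTX : T ∩ X = {e}) (hD : Ev G D) (hsub : D ⊆ symmDiff T X) {v : V}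
    (hv : v ∉ G.ends e) : Even ((D ∩ T) ∩ inc G v).card := by
  by_cases h0 : (T ∩ inc G v).card = 0
  · have : (D ∩ T) ∩ inc G v = ∅ := by
      rw [card_eq_zero] at h0
      rw [inter_assoc, h0, inter_empty]
    rw [this]
    simp
  · by_cases h1 : (X ∩ inc G v).card = 0
    · have : (D ∩ T) ∩ inc G v = D ∩ inc G v := by
        ext x
        simp only [mem_inter]
        constructor
        · rintro ⟨⟨a, _⟩, c⟩
          exact ⟨a, c⟩
        · rintro ⟨a, c⟩
          refine ⟨⟨a, ?_⟩, c⟩
          have := hsub a
          rw [mem_symmDiff] at this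
          rcases this with h | h
          · exact h.1
          · exfalso
            rw [card_eq_zero] at h1
            have : x ∈ X ∩ inc G v := mem_inter.2 ⟨h.1, c⟩
            rw [h1] at this
            simp at this
      rw [this]
      exact hD v
    · exfalso
      have hT2 := (card_two G hG hT v).resolve_left h0
      have hX2 := (card_two G hG hX v).resolve_left h1
      have h3 := card_union_add_card_inter (T ∩ inc G v) (X ∩ inc G v)
      have h4 : ((T ∩ inc G v) ∪ (X ∩ inc G v)).card ≤ (inc G v).card :=
        card_le_card (union_subset inter_subset_right inter_subset_right)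
      have h5 := hG.three v
      have h6 : ((T ∩ inc G v) ∩ (X ∩ inc G v)).Nonempty := by
        rw [← card_pos]
        omega
      obtain ⟨x, hx⟩ := h6
      simp only [mem_inter] at hx
      have hx' : x ∈ T ∩ X := mem_inter.2 ⟨hx.1.1, hx.2.1⟩
      rw [hTX, mem_singleton] at hx'
      rw [hx'] at hx
      exact hv ((mem_inc G v e).1 hx.1.2)

theorem t : T4 := by
  intro V E _ _ _ _ G hG T X e hT hX hTX
  obtain ⟨hTn, hTe, hTm⟩ := hT
  obtain ⟨hXn, hXe, hXm⟩ := hX
  have heT : e ∈ T := by
    have : e ∈ T ∩ X := by rw [hTX]; simp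
    exact (mem_inter.1 this).1
  have heX : e ∈ X := by
    have : e ∈ T ∩ X := by rw [hTX]; simp
    exact (mem_inter.1 this).2
  have hboth : ∀ x, x ∈ T → x ∈ X → x = e := by
    intro x h1 h2
    have : x ∈ T ∩ X := mem_inter.2 ⟨h1, h2⟩
    rw [hTX] at this
    simpa using this
  obtain ⟨u, w, huw⟩ : ∃ u w : V, G.ends e = s(u, w) := by
    induction h : G.ends e using Sym2.ind with
    | _ x y => exact ⟨x, y, rfl⟩
  have hne : u ≠ w := by
    intro h
    apply hG.loopless e
    rw [huw, h]
    simp
  have hmem : ∀ v, v ∈ G.ends e ↔ v = u ∨ v = w := by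
    intro v
    rw [huw, Sym2.mem_iff]
  have heY : e ∉ symmDiff T X := by
    rw [mem_symmDiff]
    tauto
  refine ⟨?_, ev_symmDiff G hTe hXe, ?_⟩
  · have h1 : e ∈ T ∩ inc G u := mem_inter.2 ⟨heT, (mem_inc G u e).2 ((hmem u).2 (Or.inl rfl))⟩
    have h2 : (T ∩ inc G u).card = 2 := by
      rcases card_two G hG hTe u with h | h
      · rw [card_eq_zero] at h
        rw [h] at h1
        simp at h1
      · exact h
    obtain ⟨x, hx, hxe⟩ : ∃ x ∈ T ∩ inc G u, x ≠ e := by
      apply Finset.exists_mem_ne
      omega
    refine ⟨x, ?_⟩
    rw [mem_symmDiff]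
    left
    exact ⟨(mem_inter.1 hx).1, fun h => hxe (hboth x (mem_inter.1 hx).1 h)⟩
  · intro D hsub hDn hDe
    have heD : e ∉ D := fun h => heY (hsub h)
    have hcase : ∀ x ∈ D, x ∈ T ∧ x ∉ X ∨ x ∈ X ∧ x ∉ T := by
      intro x hx
      have := hsub hx
      rw [mem_symmDiff] at this
      exact this
    have hsplit : ∀ v, (D ∩ inc G v).card = ((D ∩ T) ∩ inc G v).card
        + ((D ∩ X) ∩ inc G v).card := by
      intro v
      rw [← card_union_of_disjoint]
      · congr 1
        ext x
        simp only [mem_inter, mem_union]
        constructor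
        · rintro ⟨a, b⟩
          rcases hcase x a with h | h
          · exact Or.inl ⟨⟨a, h.1⟩, b⟩
          · exact Or.inr ⟨⟨a, h.1⟩, b⟩
        · rintro (⟨⟨a, _⟩, b⟩ | ⟨⟨a, _⟩, b⟩) <;> exact ⟨a, b⟩
      · rw [disjoint_left]
        intro x h1 h2
        simp only [mem_inter] at h1 h2
        have := hboth x h1.1.2 h2.1.2
        rw [this] at h1
        exact heD h1.1.1
    have hpT : ∀ v, v ∉ G.ends e → Even ((D ∩ T) ∩ inc G v).card := fun v hv =>
      part_even G hG hTe hXe hTX hDe hsub hv
    have hpX : ∀ v, v ∉ G.ends e → Even ((D ∩ X) ∩ inc G v).card := fun v hv =>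
      part_even G hG hXe hTe (by rw [inter_comm]; exact hTX) hDe
        (by rw [symmDiff_comm]; exact hsub) hv
    have hshake := handshake G hG (D ∩ T)
    have hsum : ∑ v : V, ((D ∩ T) ∩ inc G v).card = ((D ∩ T) ∩ inc G u).card
        + (((D ∩ T) ∩ inc G w).card + ∑ v ∈ (univ.erase u).erase w, ((D ∩ T) ∩ inc G v).card) := by
      rw [← add_sum_erase univ _ (mem_univ u),
        ← add_sum_erase (univ.erase u) _ (mem_erase.2 ⟨hne.symm, mem_univ w⟩)]
    have hrest : Even (∑ v ∈ (univ.erase u).erase w, ((D ∩ T) ∩ inc G v).card) := by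
      apply Finset.even_sum
      intro v hv
      rw [mem_erase, mem_erase] at hv
      apply hpT v
      rw [hmem]
      tauto
    by_cases hodd : Even ((D ∩ T) ∩ inc G u).card
    · -- none
      exfalso
      have hw : Even ((D ∩ T) ∩ inc G w).card := by
        rw [Nat.even_iff] at *
        omega
      have hevT : Ev G (D ∩ T) := by
        intro v
        by_cases hv : v ∈ G.ends e
        · rw [hmem] at hv
          rcases hv with h | h
          · rw [h]; exact hodd
          · rw [h]; exact hw
        · exact hpT v hv
      have hempty : D ∩ T = ∅ := by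
        by_contra hcon
        have := hTm (D ∩ T) inter_subset_right (nonempty_iff_ne_empty.2 hcon) hevT
        apply heD
        have h2 : e ∈ D ∩ T := by rw [this]; exact heT
        exact (mem_inter.1 h2).1
      have hDX : D ⊆ X := by
        intro x hx
        rcases hcase x hx with h | h
        · have : x ∈ D ∩ T := mem_inter.2 ⟨hx, h.1⟩
          rw [hempty] at this
          simp at this
        · exact h.1
      have := hXm D hDX hDn hDe
      rw [this] at heD
      exact heD heX
    · -- both
      have hw : ¬ Even ((D ∩ T) ∩ inc G w).card := by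
        rw [Nat.even_iff] at *
        omega
      have hins : ∀ (A : Finset E) (v : V), e ∉ A → v ∈ G.ends e →
          ((insert e A) ∩ inc G v).card = (A ∩ inc G v).card + 1 := by
        intro A v hA hv
        rw [insert_inter_of_mem ((mem_inc G v e).2 hv), card_insert_of_notMem]
        simp [hA]
      have hins' : ∀ (A : Finset E) (v : V), v ∉ G.ends e →
          ((insert e A) ∩ inc G v).card = (A ∩ inc G v).card := by
        intro A v hv
        rw [insert_inter_of_notMem]
        rw [mem_inc]
        exact hv
      have heDT : e ∉ D ∩ T := fun h => heD (mem_inter.1 h).1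
      have heDX : e ∉ D ∩ X := fun h => heD (mem_inter.1 h).1
      have hT' : insert e (D ∩ T) = T := by
        apply hTm
        · exact insert_subset heT inter_subset_right
        · exact insert_nonempty _ _
        · intro v
          by_cases hv : v ∈ G.ends e
          · rw [hins _ v heDT hv]
            rw [hmem] at hv
            rcases hv with h | h
            · rw [h]
              rw [Nat.even_iff] at *
              omega
            · rw [h]
              rw [Nat.even_iff] at *
              omega
          · rw [hins' _ v hv]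
            exact hpT v hv
      have hX' : insert e (D ∩ X) = X := by
        apply hXm
        · exact insert_subset heX inter_subset_right
        · exact insert_nonempty _ _
        · intro v
          by_cases hv : v ∈ G.ends e
          · rw [hins _ v heDX hv]
            have h1 := hsplit v
            have h2 := hDe v
            rw [hmem] at hv
            rcases hv with h | h
            · rw [h] at h1 h2 ⊢
              rw [Nat.even_iff] at *
              omega
            · rw [h] at h1 h2 ⊢
              rw [Nat.even_iff] at *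
              omega
          · rw [hins' _ v hv]
            exact hpX v hv
      apply Finset.Subset.antisymm hsub
      intro x hx
      rw [mem_symmDiff] at hx
      rcases hx with ⟨h1, h2⟩ | ⟨h1, h2⟩
      · rw [← hT', mem_insert] at h1
        rcases h1 with h | h
        · exact absurd (h ▸ heX) h2
        · exact (mem_inter.1 h).1
      · rw [← hX', mem_insert] at h1
        rcases h1 with h | h
        · exact absurd (h ▸ heT) h2
        · exact (mem_inter.1 h).1

end Pool.Agent.H366R3.SC.T4H127
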