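import Pool.Agent.H366R3.SC.Basic

set_option autoImplicit false
set_option linter.unusedSectionVars false

namespace Pool.Agent.H366R3.SC.T5own

open Finset
open Pool.Agent.H126R2.CDC (MGraph)

lemma odd_symm {α : Type} [DecidableEq α] (A B I : Finset α) :
    Odd (symmDiff A B ∩ I).card ↔ ¬ (Odd (A ∩ I).card ↔ Odd (B ∩ I).card) := by
  have h1 : symmDiff A B ∩ I = ((A ∩ I) \ (B ∩ I)) ∪ ((B ∩ I) \ (A ∩ I)) := by
    ext x
    simp only [mem_inter, mem_symmDiff, mem_union, mem_sdiff]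
    tauto
  have h2 : Disjoint ((A ∩ I) \ (B ∩ I)) ((B ∩ I) \ (A ∩ I)) := by
    rw [disjoint_left]
    intro x
    simp only [mem_sdiff]
    tauto
  have h3 := card_inter_add_card_sdiff (A ∩ I) (B ∩ I)
  have h4 := card_inter_add_card_sdiff (B ∩ I) (A ∩ I)
  rw [inter_comm (B ∩ I) (A ∩ I)] at h4
  rw [h1, card_union_of_disjoint h2]
  simp only [Nat.odd_iff]
  omega

theorem t : T5 := by
  intro V E _ _ _ _ G hG T hT a b hab ha hb e he
  classical
  obtain ⟨S, hS⟩ : ∃ S : Finset V, ∀ x, x ∈ S ↔ ∃ A ⊆ T, ∀ v, Odd (A ∩ inc G v).card ↔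
      ¬ (v = a ↔ v = x) := ⟨univ.filter (fun x => ∃ A ⊆ T, ∀ v, Odd (A ∩ inc G v).card ↔
      ¬ (v = a ↔ v = x)), by simp⟩
  have haS : a ∈ S := by
    rw [hS]
    exact ⟨∅, by simp, fun v => by simp⟩
  have hstep : ∀ g ∈ T, ∀ x y, x ≠ y → G.ends g = s(x, y) → x ∈ S → y ∈ S := by
    intro g hg x y hxy hgx hx
    rw [hS] at hx ⊢
    obtain ⟨A, hA, hA2⟩ := hx
    refine ⟨symmDiff A {g}, ?_, ?_⟩
    · intro z hz
      rw [mem_symmDiff] at hz
      rcases hz with hz | hz
      · exact hA hz.1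
      · rw [mem_singleton] at hz; rw [hz.1]; exact hg
    · intro v
      rw [odd_symm, hA2 v]
      have h1 : Odd (({g} : Finset E) ∩ inc G v).card ↔ (v = x ∨ v = y) := by
        by_cases hv : g ∈ inc G v
        · rw [singleton_inter_of_mem hv]
          rw [mem_inc, hgx] at hv
          simp only [Sym2.mem_iff] at hv
          simp [hv]
        · rw [singleton_inter_of_notMem hv]
          rw [mem_inc, hgx] at hv
          simp only [Sym2.mem_iff] at hv
          simp [hv]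
      rw [h1]
      by_cases p : v = x
      · subst p
        simp [hxy]
      · by_cases q : v = y
        · subst q
          simp [p]
        · simp [p, q]
  have hstep2 : ∀ g ∈ T, ∀ x, x ∈ G.ends g → x ∈ S → ∀ y, y ∈ G.ends g → y ∈ S := by
    intro g hg x hx hxS y hy
    obtain ⟨p, q, hpq, h⟩ := exists_ends hG g
    rw [h] at hx hy
    simp only [Sym2.mem_iff] at hx hy
    rcases hx with rfl | rfl <;> rcases hy with rfl | rfl
    · exact hxS
    · exact hstep g hg _ _ hpq h hxS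
    · exact hstep g hg _ _ hpq.symm (by rw [h]; exact Sym2.eq_swap) hxS
    · exact hxS
  obtain ⟨TS, hTS⟩ : ∃ TS : Finset E, ∀ g, g ∈ TS ↔ g ∈ T ∧ ∃ x ∈ S, x ∈ G.ends g :=
    ⟨T.filter (fun g => ∃ x ∈ S, x ∈ G.ends g), by simp⟩
  have hTSeq : TS = T := by
    apply hT.2.2 TS
    · intro g hg; exact ((hTS g).1 hg).1
    · obtain ⟨g, hg⟩ := ha
      rw [mem_inter, mem_inc] at hg
      exact ⟨g, (hTS g).2 ⟨hg.1, a, haS, hg.2⟩⟩
    · intro v
      by_cases hv : v ∈ S
      · have : TS ∩ inc G v = T ∩ inc G v := by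
          ext g
          simp only [mem_inter, mem_inc, hTS]
          constructor
          · rintro ⟨⟨h1, _⟩, h2⟩; exact ⟨h1, h2⟩
          · rintro ⟨h1, h2⟩; exact ⟨⟨h1, v, hv, h2⟩, h2⟩
        rw [this]
        exact hT.2.1 v
      · have : TS ∩ inc G v = ∅ := by
          rw [eq_empty_iff_forall_notMem]
          intro g hg
          simp only [mem_inter, mem_inc, hTS] at hg
          obtain ⟨⟨h1, x, hx, hx2⟩, h2⟩ := hg
          exact hv (hstep2 g h1 x hx2 hx v h2)
        rw [this]; simp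
  have hbS : b ∈ S := by
    obtain ⟨g, hg⟩ := hb
    rw [mem_inter, mem_inc] at hg
    have : g ∈ TS := by rw [hTSeq]; exact hg.1
    obtain ⟨_, x, hx, hx2⟩ := (hTS g).1 this
    exact hstep2 g hg.1 x hx2 hx b hg.2
  rw [hS] at hbS
  obtain ⟨A, hA, hA2⟩ := hbS
  have hA3 : ∀ v, Odd (A ∩ inc G v).card ↔ (v = a ∨ v = b) := by
    intro v
    rw [hA2]
    by_cases p : v = a
    · subst p
      simp [hab]
    · simp [p]
  by_cases heA : e ∈ A
  · refine ⟨T \ A, sdiff_subset, by simp [heA], ?_⟩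
    intro v
    rw [← hA3]
    have h1 : (T \ A) ∩ inc G v = (T ∩ inc G v) \ (A ∩ inc G v) := by
      ext x
      simp only [mem_inter, mem_sdiff]
      tauto
    have h2 := card_inter_add_card_sdiff (T ∩ inc G v) (A ∩ inc G v)
    have h3 : (T ∩ inc G v) ∩ (A ∩ inc G v) = A ∩ inc G v := by
      ext x
      simp only [mem_inter]
      constructor
      · tauto
      · rintro ⟨h, h'⟩; exact ⟨⟨hA h, h'⟩, h, h'⟩
    rw [h3] at h2
    have h4 := hT.2.1 v
    rw [h1]
    rw [Nat.even_iff] at h4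
    simp only [Nat.odd_iff]
    omega
  · exact ⟨A, hA, heA, hA3⟩

end Pool.Agent.H366R3.SC.T5own
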