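import Pool.Agent.H366R3.SC.Stmts

set_option autoImplicit false

namespace Pool.Agent.H725R3.SCT6

open Finset Pool.Agent.H366R3.SC
open Pool.Agent.H126R2.CDC (MGraph)

lemma uniq {α : Type} (F : Multiset α) (p : α → Prop) [DecidablePred p] (h : F.countP p = 1) :
    ∃ a ∈ F, p a ∧ ∀ b ∈ F, p b → b = a := by
  rw [Multiset.countP_eq_card_filter, Multiset.card_eq_one] at h
  obtain ⟨a, ha⟩ := h
  have h1 : a ∈ Multiset.filter p F := by rw [ha]; exact Multiset.mem_singleton_self a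
  rw [Multiset.mem_filter] at h1
  refine ⟨a, h1.1, h1.2, fun b hb hpb => ?_⟩
  have h2 : b ∈ Multiset.filter p F := Multiset.mem_filter.2 ⟨hb, hpb⟩
  rw [ha, Multiset.mem_singleton] at h2
  exact h2

variable {V E : Type} [Fintype V] [DecidableEq V] [Fintype E] [DecidableEq E]

/-- the three types of a face at a vertex with edges `g, h, k` -/
lemma types (g h k : E) (hgh : g ≠ h) (hgk : g ≠ k) (hhk : h ≠ k) (C : Finset E)
    (he : Even (C ∩ {g, h, k}).card) :
    (g ∈ C ∧ h ∈ C ∧ k ∉ C) ∨ (g ∈ C ∧ h ∉ C ∧ k ∈ C) ∨ (g ∉ C ∧ h ∈ C ∧ k ∈ C) ∨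
      (g ∉ C ∧ h ∉ C ∧ k ∉ C) := by
  have hcard : (C ∩ {g, h, k}).card = (if g ∈ C then 1 else 0) + (if h ∈ C then 1 else 0) +
      (if k ∈ C then 1 else 0) := by
    rw [Finset.inter_comm, ← Finset.filter_mem_eq_inter, Finset.card_filter,
      Finset.sum_insert (by simp [hgh, hgk]), Finset.sum_insert (by simp [hhk]), Finset.sum_singleton]
    ring
  rw [hcard] at he
  by_cases h1 : g ∈ C <;> by_cases h2 : h ∈ C <;> by_cases h3 : k ∈ C <;>
    simp_all [Nat.even_iff]

lemma counts (g h k : E) (hgh : g ≠ h) (hgk : g ≠ k) (hhk : h ≠ k) (F : Multiset (Finset E))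
    (he : ∀ C ∈ F, Even (C ∩ {g, h, k}).card) :
    F.countP (fun C => g ∈ C) = F.countP (fun C => g ∈ C ∧ h ∈ C ∧ k ∉ C) +
      F.countP (fun C => g ∈ C ∧ h ∉ C ∧ k ∈ C) ∧
    F.countP (fun C => h ∈ C) = F.countP (fun C => g ∈ C ∧ h ∈ C ∧ k ∉ C) +
      F.countP (fun C => g ∉ C ∧ h ∈ C ∧ k ∈ C) ∧
    F.countP (fun C => k ∈ C) = F.countP (fun C => g ∈ C ∧ h ∉ C ∧ k ∈ C) +
      F.countP (fun C => g ∉ C ∧ h ∈ C ∧ k ∈ C) := by
  induction F using Multiset.induction_on with
  | empty => simp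
  | cons C F ih =>
    have ih' := ih fun D hD => he D (Multiset.mem_cons_of_mem hD)
    have ht := types g h k hgh hgk hhk C (he C (Multiset.mem_cons_self C F))
    obtain ⟨i1, i2, i3⟩ := ih'
    simp only [Multiset.countP_cons]
    rcases ht with ⟨a, b, c⟩ | ⟨a, b, c⟩ | ⟨a, b, c⟩ | ⟨a, b, c⟩ <;>
      simp only [a, b, c, not_true_eq_false, not_false_eq_true, and_true, and_false, false_and,
        true_and, if_true, if_false, and_self] <;> omega

theorem t : T6 := by
  intro V E _ _ _ _ G hG F hF A Y hA hY hAY hodd W hW g hg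
  obtain ⟨hcirc, hcount⟩ := hF
  unfold cut at hg
  rw [Finset.mem_filter] at hg
  obtain ⟨-, ⟨x, hxW, hxg⟩, y, hyW, hyg⟩ := hg
  have hgx : g ∈ inc G x := by unfold inc; simpa using hxg
  have hgy : g ∈ inc G y := by unfold inc; simpa using hyg
  have h3 := hG.three x
  have h2 : ((inc G x).erase g).card = 2 := by rw [Finset.card_erase_of_mem hgx, h3]
  obtain ⟨h, k, hhk, hk⟩ := Finset.card_eq_two.1 h2
  have hinc : inc G x = {g, h, k} := by
    rw [← Finset.insert_erase hgx, hk]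
  have hgh : g ≠ h := by
    rintro rfl
    have : g ∈ (inc G x).erase g := by rw [hk]; simp
    simp at this
  have hgk : g ≠ k := by
    rintro rfl
    have : g ∈ (inc G x).erase g := by rw [hk]; simp
    simp at this
  have hev : ∀ C ∈ F, Even (C ∩ {g, h, k}).card := by
    intro C hC
    have := (hcirc C hC).2.1 x
    rwa [hinc] at this
  obtain ⟨c1, c2, c3⟩ := counts g h k hgh hgk hhk F hev
  rw [hcount g] at c1
  rw [hcount h] at c2
  rw [hcount k] at c3
  obtain ⟨B1, hB1F, ⟨h1g, h1h, h1k⟩, u1⟩ := uniq F (fun C => g ∈ C ∧ h ∈ C ∧ k ∉ C) (by omega)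
  obtain ⟨B2, hB2F, ⟨h2g, h2h, h2k⟩, u2⟩ := uniq F (fun C => g ∈ C ∧ h ∉ C ∧ k ∈ C) (by omega)
  obtain ⟨B3, hB3F, ⟨h3g, h3h, h3k⟩, u3⟩ := uniq F (fun C => g ∉ C ∧ h ∈ C ∧ k ∈ C) (by omega)
  have n1 : B1 ∉ A := fun hB => hyW ((hW y).2 ⟨B1, hB, g, Finset.mem_inter.2 ⟨h1g, hgy⟩⟩)
  have n2 : B2 ∉ A := fun hB => hyW ((hW y).2 ⟨B2, hB, g, Finset.mem_inter.2 ⟨h2g, hgy⟩⟩)
  have cls : ∀ C ∈ F, (h ∈ C → C = B1 ∨ C = B3) ∧ (k ∈ C → C = B2 ∨ C = B3) ∧
      ((C ∩ inc G x).Nonempty → C = B1 ∨ C = B2 ∨ C = B3) := by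
    intro C hC
    rcases types g h k hgh hgk hhk C (hev C hC) with q | q | q | q
    · have := u1 C hC q
      exact ⟨fun _ => Or.inl this, fun z => absurd z q.2.2, fun _ => Or.inl this⟩
    · have := u2 C hC q
      exact ⟨fun z => absurd z q.2.1, fun _ => Or.inl this, fun _ => Or.inr (Or.inl this)⟩
    · have := u3 C hC q
      exact ⟨fun _ => Or.inr this, fun _ => Or.inr this, fun _ => Or.inr (Or.inr this)⟩
    · refine ⟨fun z => absurd z q.2.1, fun z => absurd z q.2.2, ?_⟩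
      rintro ⟨e, he⟩
      rw [Finset.mem_inter, hinc] at he
      simp only [Finset.mem_insert, Finset.mem_singleton] at he
      rcases he with ⟨he, rfl | rfl | rfl⟩
      · exact absurd he q.1
      · exact absurd he q.2.1
      · exact absurd he q.2.2
  have n3 : B3 ∈ A := by
    obtain ⟨B, hB, hBx⟩ := (hW x).1 hxW
    rcases (cls B (hA B hB)).2.2 hBx with rfl | rfl | rfl
    · exact absurd hB n1
    · exact absurd hB n2
    · exact hB
  have oh : h ∈ oddSum A := by
    unfold oddSum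
    rw [Finset.mem_filter]
    refine ⟨Finset.mem_univ _, ?_⟩
    have : A.filter (fun C => h ∈ C) = {B3} := by
      ext C
      rw [Finset.mem_filter, Finset.mem_singleton]
      constructor
      · rintro ⟨hC, hh⟩
        rcases (cls C (hA C hC)).1 hh with rfl | rfl
        · exact absurd hC n1
        · rfl
      · rintro rfl
        exact ⟨n3, h3h⟩
    rw [this, Finset.card_singleton]
    exact odd_one
  have ok : k ∈ oddSum A := by
    unfold oddSum
    rw [Finset.mem_filter]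
    refine ⟨Finset.mem_univ _, ?_⟩
    have : A.filter (fun C => k ∈ C) = {B3} := by
      ext C
      rw [Finset.mem_filter, Finset.mem_singleton]
      constructor
      · rintro ⟨hC, hh⟩
        rcases (cls C (hA C hC)).2.1 hh with rfl | rfl
        · exact absurd hC n2
        · rfl
      · rintro rfl
        exact ⟨n3, h3k⟩
    rw [this, Finset.card_singleton]
    exact odd_one
  have y3 : B3 ∉ Y := fun hy => Finset.disjoint_left.1 hAY n3 hy
  have y1 : B1 ∈ Y := by
    obtain ⟨B, hB, hhB⟩ := hodd h oh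
    rcases (cls B (hY B hB)).1 hhB with rfl | rfl
    · exact hB
    · exact absurd hB y3
  have y2 : B2 ∈ Y := by
    obtain ⟨B, hB, hkB⟩ := hodd k ok
    rcases (cls B (hY B hB)).2.1 hkB with rfl | rfl
    · exact hB
    · exact absurd hB y3
  exact ⟨B1, y1, B2, y2, fun hE => h2h (hE ▸ h1h), h1g, h2g⟩

end Pool.Agent.H725R3.SCT6
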