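import Pool.Agent.H366R3.SC.Stmts

set_option autoImplicit false
set_option linter.unusedSectionVars false

namespace Pool.Agent.H366R3.SC.T7h275

open Finset
open Pool.Agent.H126R2.CDC (MGraph)

variable {V E : Type} [Fintype V] [DecidableEq V] [Fintype E] [DecidableEq E] {G : MGraph V E}

theorem mem_inc {v : V} {e : E} : e ∈ inc G v ↔ v ∈ G.ends e := by simp [inc]

theorem not_inc_sub (hG : Cubic G) {C : Finset E} (hC : Ev G C) (v : V) : ¬ inc G v ⊆ C := by
  intro h
  have h1 := hC v
  rw [inter_eq_right.2 h, hG.three v] at h1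
  exact absurd h1 (by decide)

theorem two_le {C : Finset E} (hC : Ev G C) {v : V} (h : (C ∩ inc G v).Nonempty) :
    2 ≤ (C ∩ inc G v).card := by
  obtain ⟨k, hk⟩ := hC v
  have := h.card_pos
  omega

theorem le_two (hG : Cubic G) {C : Finset E} (hC : Ev G C) (v : V) :
    (C ∩ inc G v).card ≤ 2 := by
  obtain ⟨k, hk⟩ := hC v
  have h1 : (C ∩ inc G v).card ≤ (inc G v).card := card_le_card inter_subset_right
  rw [hG.three v] at h1
  omega

theorem meet (hG : Cubic G) {C D : Finset E} (hC : Ev G C) (hD : Ev G D) {v : V}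
    (h1 : (C ∩ inc G v).Nonempty) (h2 : (D ∩ inc G v).Nonempty) :
    ∃ g, g ∈ C ∧ g ∈ D ∧ g ∈ inc G v := by
  have a1 := two_le hC h1
  have a2 := two_le hD h2
  have h3 := card_union_add_card_inter (C ∩ inc G v) (D ∩ inc G v)
  have h4 : ((C ∩ inc G v) ∪ (D ∩ inc G v)).card ≤ (inc G v).card :=
    card_le_card (union_subset inter_subset_right inter_subset_right)
  rw [hG.three v] at h4
  have h5 : ((C ∩ inc G v) ∩ (D ∩ inc G v)).Nonempty := by
    rw [← card_pos]; omega
  obtain ⟨g, hg⟩ := h5
  simp only [mem_inter] at hg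
  exact ⟨g, hg.1.1, hg.2.1, hg.1.2⟩

theorem exists_face {F : Multiset (Finset E)} (hF : CD G F) (g : E) : ∃ B ∈ F, g ∈ B := by
  have h := hF.2 g
  have h2 : 0 < F.countP (fun C => g ∈ C) := by omega
  exact Multiset.countP_pos.1 h2

theorem two_faces {F : Multiset (Finset E)} (hF : CD G F) {T X B : Finset E} (hT : T ∈ F)
    (hX : X ∈ F) (hTX : T ≠ X) (hB : B ∈ F) {g : E} (gT : g ∈ T) (gX : g ∈ X) (gB : g ∈ B) :
    B = T ∨ B = X := by
  by_contra h
  push Not at h
  have hle : T ::ₘ X ::ₘ B ::ₘ 0 ≤ F := by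
    rw [Multiset.le_iff_subset]
    · intro C hC
      simp only [Multiset.mem_cons, Multiset.notMem_zero, or_false] at hC
      rcases hC with rfl | rfl | rfl <;> assumption
    · simp [hTX, h.1.symm, h.2.symm]
  have h2 := Multiset.countP_le_of_le (fun C => g ∈ C) hle
  rw [hF.2 g, Multiset.countP_cons_of_pos (p := fun C => g ∈ C) _ gT,
    Multiset.countP_cons_of_pos (p := fun C => g ∈ C) _ gX,
    Multiset.countP_cons_of_pos (p := fun C => g ∈ C) _ gB] at h2
  omega

theorem nodup (hG : Cubic G) {F : Multiset (Finset E)} (hF : CD G F) : F.Nodup := by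
  rw [Multiset.nodup_iff_le]
  intro T hle
  have hT : T ∈ F := Multiset.mem_of_le hle (by simp)
  obtain ⟨g, hg⟩ := (hF.1 T hT).1
  obtain ⟨v, hv⟩ : ∃ v, v ∈ G.ends g := ⟨(G.ends g).out.1, Sym2.out_fst_mem _⟩
  obtain ⟨h, hh, hhT⟩ := not_subset.1 (not_inc_sub hG (hF.1 T hT).2.1 v)
  obtain ⟨B, hB, hhB⟩ := exists_face hF h
  obtain ⟨g', h1, h2, h3⟩ := meet (v := v) hG (hF.1 T hT).2.1 (hF.1 B hB).2.1
    ⟨g, mem_inter.2 ⟨hg, mem_inc.2 hv⟩⟩ ⟨h, mem_inter.2 ⟨hhB, hh⟩⟩
  obtain ⟨F', hF'⟩ := Multiset.le_iff_exists_add.1 hle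
  have hBT : B ≠ T := by
    rintro rfl; exact hhT hhB
  have hB' : B ∈ F' := by
    rw [hF'] at hB
    simpa [hBT] using hB
  have h4 := hF.2 g'
  rw [hF', Multiset.countP_add, Multiset.countP_cons_of_pos (p := fun C => g' ∈ C) _ h1,
    Multiset.countP_cons_of_pos (p := fun C => g' ∈ C) _ h1] at h4
  have h5 : 0 < F'.countP (fun C => g' ∈ C) := Multiset.countP_pos.2 ⟨B, hB', h2⟩
  omega

theorem card_filter (hG : Cubic G) {F : Multiset (Finset E)} (hF : CD G F) (g : E) :
    (F.toFinset.filter (fun C => g ∈ C)).card = 2 := by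
  have h := hF.2 g
  rw [Multiset.countP_eq_card_filter] at h
  rw [← Multiset.toFinset_filter, Multiset.toFinset_card_of_nodup ((nodup hG hF).filter _)]
  exact h

theorem oddSum_compl (hG : Cubic G) {F : Multiset (Finset E)} (hF : CD G F)
    {A : Finset (Finset E)} (hA : ∀ B ∈ A, B ∈ F) :
    oddSum (F.toFinset \ A) = oddSum A := by
  have hAF : A ⊆ F.toFinset := fun B hB => Multiset.mem_toFinset.2 (hA B hB)
  ext g
  simp only [oddSum, mem_filter, mem_univ, true_and]
  have h1 := card_filter hG hF g
  rw [← union_sdiff_of_subset hAF, filter_union, card_union_of_disjoint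
    (disjoint_filter_filter disjoint_sdiff)] at h1
  rw [Nat.odd_iff, Nat.odd_iff]
  omega

theorem mem_oddSum {A : Finset (Finset E)} {g : E} :
    g ∈ oddSum A ↔ Odd (A.filter (fun C => g ∈ C)).card := by
  simp [oddSum]

/-- two common edges of two faces share no vertex -/
theorem no_share (hG : Cubic G) {F : Multiset (Finset E)} (hF : CD G F) {T X : Finset E}
    (hT : T ∈ F) (hX : X ∈ F) (hTX : T ≠ X) {e e' : E} (hee : e ≠ e') (h : T ∩ X = {e, e'})
    {v : V} (hv : v ∈ G.ends e) (hv' : v ∈ G.ends e') : False := by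
  have heT : e ∈ T ∩ X := by rw [h]; simp
  have heT' : e' ∈ T ∩ X := by rw [h]; simp
  rw [mem_inter] at heT heT'
  have hTe := (hF.1 T hT).2.1
  have hXe := (hF.1 X hX).2.1
  obtain ⟨k, hk, hkT⟩ := not_subset.1 (not_inc_sub hG hTe v)
  obtain ⟨B, hB, hkB⟩ := exists_face hF k
  obtain ⟨g, g1, g2, g3⟩ := meet (v := v) hG hTe (hF.1 B hB).2.1
    ⟨e, mem_inter.2 ⟨heT.1, mem_inc.2 hv⟩⟩ ⟨k, mem_inter.2 ⟨hkB, hk⟩⟩
  -- the edges at `v`
  have hinc : inc G v = {e, e', k} := by
    symm
    apply eq_of_subset_of_card_le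
    · intro x hx
      simp only [mem_insert, mem_singleton] at hx
      rcases hx with rfl | rfl | rfl
      · exact mem_inc.2 hv
      · exact mem_inc.2 hv'
      · exact hk
    · rw [hG.three v, card_eq_three.2 ⟨e, e', k, hee, ?_, ?_, rfl⟩]
      · rintro rfl; exact hkT heT.1
      · rintro rfl; exact hkT heT'.1
  have hg : g = e ∨ g = e' := by
    rw [hinc] at g3
    simp only [mem_insert, mem_singleton] at g3
    rcases g3 with h1 | h1 | h1
    · exact Or.inl h1
    · exact Or.inr h1
    · exact absurd (h1 ▸ g1) hkT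
  have hgX : g ∈ X := by
    rcases hg with h1 | h1
    · rw [h1]; exact heT.2
    · rw [h1]; exact heT'.2
  rcases two_faces hF hT hX hTX hB g1 hgX g2 with h1 | h1
  · exact hkT (h1 ▸ hkB)
  · apply not_inc_sub hG hXe v
    rw [hinc]
    intro x hx
    simp only [mem_insert, mem_singleton] at hx
    rcases hx with rfl | rfl | rfl
    · exact heT.2
    · exact heT'.2
    · exact h1 ▸ hkB

/-- removing an edge `s(b, b')` -/
theorem erase_odd {a b b' : V} (hab' : a ≠ b') (hbb : b ≠ b') (hab : a ≠ b) {P : Finset E}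
    {e' : E} (he : G.ends e' = s(b, b'))
    (heP : e' ∈ P) (hP : ∀ v, Odd (P ∩ inc G v).card ↔ (v = a ∨ v = b)) (v : V) :
    Odd ((P.erase e') ∩ inc G v).card ↔ (v = a ∨ v = b') := by
  rw [erase_inter]
  by_cases hv : e' ∈ inc G v
  · have h1 : e' ∈ P ∩ inc G v := mem_inter.2 ⟨heP, hv⟩
    have h2 := card_erase_add_one h1
    have h3 := hP v
    rw [← h2] at h3
    have hv2 : v = b ∨ v = b' := by
      have := mem_inc.1 hv
      rw [he] at this
      simpa using this
    rw [Nat.odd_add_one] at h3
    rcases hv2 with rfl | rfl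
    · have : ¬ Odd ((P ∩ inc G v).erase e').card := h3.2 (Or.inr rfl)
      constructor
      · intro h; exact absurd h this
      · rintro (h | h)
        · exact absurd h.symm hab
        · exact absurd h hbb
    · constructor
      · intro _; exact Or.inr rfl
      · intro _
        by_contra h4
        rcases h3.1 h4 with h5 | h5
        · exact hab' h5.symm
        · exact hbb h5.symm
  · rw [erase_eq_of_notMem (fun h => hv (mem_inter.1 h).2), hP v]
    have hv2 : v ≠ b ∧ v ≠ b' := by
      constructor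
      · rintro rfl; exact hv (mem_inc.2 (by rw [he]; simp))
      · rintro rfl; exact hv (mem_inc.2 (by rw [he]; simp))
    simp [hv2.1, hv2.2]

theorem t : T7 := by
  intro h1 h3 hK h5 h6 h7a V E _ _ _ _ G hG hEC hV F hF hcard T hT X hX hTX e e' hee hTXe
  have hTc := hF.1 T hT
  have hXc := hF.1 X hX
  have he : e ∈ T ∩ X := by rw [hTXe]; simp
  have he' : e' ∈ T ∩ X := by rw [hTXe]; simp
  rw [mem_inter] at he he'
  have hEC1 : EC G 1 := fun S hS hS' => le_trans (by norm_num) (hEC S hS hS')
  have nos := fun {v : V} => no_share hG hF hT hX hTX hee hTXe (v := v)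
  obtain ⟨a, a', haa⟩ : ∃ a a', G.ends e = s(a, a') := by
    induction h : G.ends e with
    | _ x y => exact ⟨x, y, rfl⟩
  obtain ⟨b0, b0', hbb0⟩ : ∃ b b', G.ends e' = s(b, b') := by
    induction h : G.ends e' with
    | _ x y => exact ⟨x, y, rfl⟩
  have hne_a : a ≠ a' := by
    intro h
    apply hG.loopless e
    rw [haa, h]
    exact Sym2.mk_isDiag_iff.2 rfl
  -- choose the names of the ends of `e'` by the arc of `T`
  have arcT : ∃ b b', G.ends e' = s(b, b') ∧ ∃ P ⊆ T, e ∉ P ∧ e' ∉ P ∧
      ∀ v, Odd (P ∩ inc G v).card ↔ (v = a ∨ v = b) := by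
    have hab : a ≠ b0 := by
      rintro rfl
      exact nos (v := a) (by rw [haa]; simp) (by rw [hbb0]; simp)
    have hab' : a ≠ b0' := by
      rintro rfl
      exact nos (v := a) (by rw [haa]; simp) (by rw [hbb0]; simp)
    have hbb : b0 ≠ b0' := by
      intro h
      apply hG.loopless e'
      rw [hbb0, h]
      exact Sym2.mk_isDiag_iff.2 rfl
    obtain ⟨P, hPT, heP, hP⟩ := h5 V E G hG T hTc a b0 hab
      ⟨e, mem_inter.2 ⟨he.1, mem_inc.2 (by rw [haa]; simp)⟩⟩
      ⟨e', mem_inter.2 ⟨he'.1, mem_inc.2 (by rw [hbb0]; simp)⟩⟩ e he.1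
    by_cases heP' : e' ∈ P
    · refine ⟨b0', b0, by rw [hbb0, Sym2.eq_swap], P.erase e', (erase_subset _ _).trans hPT,
        fun h => heP (mem_of_mem_erase h), notMem_erase _ _, ?_⟩
      exact erase_odd hab' hbb hab hbb0 heP' hP
    · exact ⟨b0, b0', hbb0, P, hPT, heP, heP', hP⟩
  obtain ⟨b, b', hbb0', P, hPT, heP, heP', hP⟩ := arcT
  have hab : a ≠ b := by
    rintro rfl
    exact nos (v := a) (by rw [haa]; simp) (by rw [hbb0']; simp)
  have hab' : a ≠ b' := by
    rintro rfl
    exact nos (v := a) (by rw [haa]; simp) (by rw [hbb0']; simp)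
  have ha'b : a' ≠ b := by
    rintro rfl
    exact nos (v := a') (by rw [haa]; simp) (by rw [hbb0']; simp)
  have ha'b' : a' ≠ b' := by
    rintro rfl
    exact nos (v := a') (by rw [haa]; simp) (by rw [hbb0']; simp)
  have hbb : b ≠ b' := by
    intro h
    apply hG.loopless e'
    rw [hbb0', h]
    exact Sym2.mk_isDiag_iff.2 rfl
  obtain ⟨R, hRX, heR, hR⟩ := h5 V E G hG X hXc a b hab
    ⟨e, mem_inter.2 ⟨he.2, mem_inc.2 (by rw [haa]; simp)⟩⟩
    ⟨e', mem_inter.2 ⟨he'.2, mem_inc.2 (by rw [hbb0']; simp)⟩⟩ e he.2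
  by_cases heR' : e' ∈ R
  · -- crossed case
    exact h7a V E G hG T X hTc hXc e e' hee hTXe a a' b b' haa hbb0' hab hab' ha'b ha'b' P hPT
      (R.erase e') ((erase_subset _ _).trans hRX) heP heP'
      (fun h => heR (mem_of_mem_erase h)) (notMem_erase _ _) hP
      (erase_odd hab' hbb hab hbb0' heR' hR)
  · -- parallel case: contradiction
    exfalso
    have hPR : Disjoint P R := by
      rw [disjoint_left]
      intro x hxP hxR
      have hx : x ∈ T ∩ X := mem_inter.2 ⟨hPT hxP, hRX hxR⟩
      rw [hTXe] at hx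
      simp only [mem_insert, mem_singleton] at hx
      rcases hx with rfl | rfl
      · exact heP hxP
      · exact heP' hxP
    have hEvC : Ev G (P ∪ R) := by
      intro v
      rw [union_inter_distrib_right, card_union_of_disjoint
        (hPR.mono inter_subset_left inter_subset_left), Nat.even_add]
      rw [← Nat.not_odd_iff_even, ← Nat.not_odd_iff_even, hP v, hR v]
    have hdis : Disjoint (P ∪ R) {e, e'} := by
      rw [disjoint_left]
      intro x hx hx2
      simp only [mem_insert, mem_singleton] at hx2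
      rw [mem_union] at hx
      rcases hx2 with rfl | rfl
      · rcases hx with hx | hx
        · exact heP hx
        · exact heR hx
      · rcases hx with hx | hx
        · exact heP' hx
        · exact heR' hx
    have hKc : ({e, e'} : Finset E).card = 2 := card_pair hee
    have hKev : ∀ B ∈ F, Even (B ∩ {e, e'}).card := by
      intro B hB
      by_cases hBT : B = T ∨ B = X
      · have : ({e, e'} : Finset E) ⊆ B := by
          intro x hx
          simp only [mem_insert, mem_singleton] at hx
          rcases hBT with rfl | rfl <;> rcases hx with rfl | rfl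
          · exact he.1
          · exact he'.1
          · exact he.2
          · exact he'.2
        rw [inter_eq_right.2 this, hKc]
        decide
      · have : B ∩ {e, e'} = ∅ := by
          rw [eq_empty_iff_forall_notMem]
          intro x hx
          simp only [mem_inter, mem_insert, mem_singleton] at hx
          apply hBT
          rcases hx.2 with h | h
          · exact two_faces hF hT hX hTX hB (g := x) (h ▸ he.1) (h ▸ he.2) hx.1
          · exact two_faces hF hT hX hTX hB (g := x) (h ▸ he'.1) (h ▸ he'.2) hx.1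
        rw [this]
        simp
    have hsmall : ∀ S : Finset V, cut G S ⊆ {e, e'} → S = ∅ ∨ S = univ := by
      intro S hS
      by_contra hcon
      push Not at hcon
      have h8 := hEC S hcon.1 hcon.2
      have h9 := card_le_card hS
      rw [hKc] at h9
      omega
    have hcutK : ∀ S : Finset V, cut G S ≠ {e, e'} := by
      intro S hS
      have hz : cut G S = ∅ := by
        rcases hsmall S hS.subset with rfl | rfl
        · simp [cut]
        · simp [cut]
      rw [hz] at hS
      have : e ∈ (∅ : Finset E) := by rw [hS]; simp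
      simp at this
    obtain ⟨A0, hA0, hA0s⟩ := hK h1 h3 V E G hG hEC1 F hF hcard {e, e'} hKev hcutK (P ∪ R)
      hEvC hdis
    -- make `T ∉ A`
    obtain ⟨A, hA, hAs, hTA⟩ : ∃ A : Finset (Finset E), (∀ B ∈ A, B ∈ F) ∧
        P ∪ R = oddSum A ∧ T ∉ A := by
      by_cases hTA : T ∈ A0
      · refine ⟨F.toFinset \ A0, ?_, ?_, ?_⟩
        · intro B hB
          exact Multiset.mem_toFinset.1 (mem_sdiff.1 hB).1
        · rw [oddSum_compl hG hF hA0]; exact hA0s
        · intro h; exact (mem_sdiff.1 h).2 hTA
      · exact ⟨A0, hA0, hA0s, hTA⟩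
    have hXA : X ∉ A := by
      intro hXA
      have hes : e ∈ oddSum A := by
        rw [mem_oddSum]
        have : A.filter (fun C => e ∈ C) = {X} := by
          ext B
          simp only [mem_filter, mem_singleton]
          constructor
          · rintro ⟨hB, heB⟩
            rcases two_faces hF hT hX hTX (hA B hB) he.1 he.2 heB with h | h
            · exact absurd (h ▸ hB) hTA
            · exact h
          · rintro rfl
            exact ⟨hXA, he.2⟩
        rw [this]
        simp
      rw [← hAs] at hes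
      exact (disjoint_left.1 hdis hes) (by simp)
    have hnotA : ∀ B ∈ A, e ∉ B := by
      intro B hB heB
      rcases two_faces hF hT hX hTX (hA B hB) he.1 he.2 heB with h | h
      · exact hTA (h ▸ hB)
      · exact hXA (h ▸ hB)
    set W : Finset V := univ.filter (fun v => ∃ B ∈ A, (B ∩ inc G v).Nonempty) with hW
    have hWmem : ∀ v, v ∈ W ↔ ∃ B ∈ A, (B ∩ inc G v).Nonempty := by
      intro v; simp [hW]
    have h6' := h6 V E G hG F hF A {T, X} hA
      (by
        intro B hB
        simp only [mem_insert, mem_singleton] at hB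
        rcases hB with rfl | rfl
        · exact hT
        · exact hX)
      (by
        rw [disjoint_left]
        intro B hB hB2
        simp only [mem_insert, mem_singleton] at hB2
        rcases hB2 with rfl | rfl
        · exact hTA hB
        · exact hXA hB)
      (by
        intro g hg
        rw [← hAs, mem_union] at hg
        rcases hg with hg | hg
        · exact ⟨T, by simp, hPT hg⟩
        · exact ⟨X, by simp, hRX hg⟩)
      W hWmem
    have hcutW : cut G W ⊆ {e, e'} := by
      intro g hg
      obtain ⟨B, hB, B', hB', hBB, gB, gB'⟩ := h6' g hg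
      rw [← hTXe, mem_inter]
      simp only [mem_insert, mem_singleton] at hB hB'
      rcases hB with rfl | rfl <;> rcases hB' with rfl | rfl
      · exact absurd rfl hBB
      · exact ⟨gB, gB'⟩
      · exact ⟨gB', gB⟩
      · exact absurd rfl hBB
    have hAne : A.Nonempty := by
      rw [nonempty_iff_ne_empty]
      rintro rfl
      have h10 : Odd (P ∩ inc G a).card := (hP a).2 (Or.inl rfl)
      have h11 : (P ∩ inc G a).Nonempty := by
        rw [← card_pos]
        exact h10.pos
      obtain ⟨g, hg⟩ := h11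
      have h12 : g ∈ oddSum (∅ : Finset (Finset E)) := by
        rw [← hAs, mem_union]
        exact Or.inl (mem_inter.1 hg).1
      rw [mem_oddSum] at h12
      simp at h12
    have hWne : W ≠ ∅ := by
      obtain ⟨B, hB⟩ := hAne
      obtain ⟨g, hg⟩ := (hF.1 B (hA B hB)).1
      obtain ⟨v, hv⟩ : ∃ v, v ∈ G.ends g := ⟨(G.ends g).out.1, Sym2.out_fst_mem _⟩
      intro h
      have : v ∈ W := (hWmem v).2 ⟨B, hB, g, mem_inter.2 ⟨hg, mem_inc.2 hv⟩⟩
      rw [h] at this
      simp at this
    have hWu : W = univ := (hsmall W hcutW).resolve_left hWne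
    have ha'W : a' ∈ W := by rw [hWu]; simp
    obtain ⟨B, hB, hBa⟩ := (hWmem a').1 ha'W
    have hBF := hA B hB
    have hea' : e ∈ inc G a' := mem_inc.2 (by rw [haa]; simp)
    -- the other edge of `T` at `a'`
    obtain ⟨t', ht'T, ht'B, ht'a⟩ := meet (v := a') hG hTc.2.1 (hF.1 B hBF).2.1
      ⟨e, mem_inter.2 ⟨he.1, hea'⟩⟩ hBa
    have ht'e : t' ≠ e := by
      rintro rfl
      exact hnotA B hB ht'B
    have hTB : T ≠ B := by
      rintro rfl; exact hTA hB
    have ht's : t' ∈ oddSum A := by
      rw [mem_oddSum]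
      have : A.filter (fun C => t' ∈ C) = {B} := by
        ext D
        simp only [mem_filter, mem_singleton]
        constructor
        · rintro ⟨hD, htD⟩
          rcases two_faces hF hT hBF hTB (hA D hD) ht'T ht'B htD with h | h
          · exact absurd (h ▸ hD) hTA
          · exact h
        · rintro rfl
          exact ⟨hB, ht'B⟩
      rw [this]
      simp
    rw [← hAs, mem_union] at ht's
    rcases ht's with h | h
    · -- `t' ∈ P`
      have hev : ¬ Odd (P ∩ inc G a').card := by
        rw [hP a']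
        rintro (h8 | h8)
        · exact hne_a h8.symm
        · exact ha'b h8
      have hpos : 0 < (P ∩ inc G a').card := card_pos.2 ⟨t', mem_inter.2 ⟨h, ht'a⟩⟩
      rw [Nat.not_odd_iff_even] at hev
      obtain ⟨k, hk⟩ := hev
      have hsub : insert e (P ∩ inc G a') ⊆ T ∩ inc G a' := by
        intro x hx
        rw [mem_insert, mem_inter] at hx
        rcases hx with rfl | hx
        · exact mem_inter.2 ⟨he.1, hea'⟩
        · exact mem_inter.2 ⟨hPT hx.1, hx.2⟩
      have h13 := card_le_card hsub
      rw [card_insert_of_notMem (fun h => heP (mem_inter.1 h).1)] at h13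
      have h14 := le_two hG hTc.2.1 a'
      omega
    · have hx : t' ∈ T ∩ X := mem_inter.2 ⟨ht'T, hRX h⟩
      rw [hTXe] at hx
      simp only [mem_insert, mem_singleton] at hx
      rcases hx with h8 | h8
      · exact ht'e h8
      · apply nos (v := a') (mem_inc.1 hea')
        rw [← h8]
        exact mem_inc.1 ht'a

end Pool.Agent.H366R3.SC.T7h275
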