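import Pool.Agent.H366R3.SC.Stmts

set_option autoImplicit false
set_option linter.unusedSectionVars false
set_option linter.unusedVariables false

/-!
Task T7a: two circuits meeting in two edges, crossed.
-/

namespace Pool.Agent.H366R3.SC.T7a_helper787

open Finset
open Pool.Agent.H126R2.CDC (MGraph)
open Pool.Agent.H366R3.SC

section

variable {V E : Type} [Fintype V] [DecidableEq V] [Fintype E] [DecidableEq E]

theorem mem_inc {G : MGraph V E} {e : E} {v : V} : e ∈ inc G v ↔ v ∈ G.ends e := by
  simp [inc]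

theorem ends_card {G : MGraph V E} (hG : Cubic G) (e : E) :
    (univ.filter (fun v => v ∈ G.ends e)).card = 2 := by
  have h := hG.loopless e
  obtain ⟨x, y, hxy⟩ : ∃ x y, G.ends e = s(x, y) :=
    Sym2.ind (f := fun z => ∃ x y, z = s(x, y)) (fun x y => ⟨x, y, rfl⟩) (G.ends e)
  rw [hxy] at h ⊢
  have hne : x ≠ y := fun h1 => h (by rw [h1]; exact Sym2.mk_isDiag_iff.2 rfl)
  have h2 : (univ.filter (fun v => v ∈ s(x, y))) = {x, y} := by
    ext v
    simp
  rw [h2, card_pair hne]

theorem handshake {G : MGraph V E} (hG : Cubic G) (A : Finset E) :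
    ∑ v, (A ∩ inc G v).card = 2 * A.card := by
  have h1 : ∀ v, (A ∩ inc G v).card = ∑ e ∈ A, if v ∈ G.ends e then 1 else 0 := by
    intro v
    rw [← Finset.card_filter]
    congr 1
    ext e
    simp [inc]
  have h2 : ∀ e, (∑ v, if v ∈ G.ends e then 1 else 0) = 2 := by
    intro e
    rw [← Finset.card_filter]
    exact ends_card hG e
  rw [Finset.sum_congr rfl fun v _ => h1 v, Finset.sum_comm, Finset.sum_congr rfl fun e _ => h2 e,
    Finset.sum_const, smul_eq_mul, mul_comm]

theorem parity {G : MGraph V E} (hG : Cubic G) (A : Finset E) {a b : V} (hab : a ≠ b)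
    (h : ∀ v, v ≠ a → v ≠ b → Even (A ∩ inc G v).card) :
    Even ((A ∩ inc G a).card + (A ∩ inc G b).card) := by
  have h1 := handshake hG A
  rw [← Finset.sum_sdiff (subset_univ ({a, b} : Finset V)), Finset.sum_pair hab] at h1
  have h2 : Even (∑ v ∈ univ \ {a, b}, (A ∩ inc G v).card) := by
    refine Finset.even_sum _ fun v hv => ?_
    simp only [mem_sdiff, mem_univ, true_and, mem_insert, mem_singleton, not_or] at hv
    exact h v hv.1 hv.2
  have h3 : Even (∑ v ∈ univ \ {a, b}, (A ∩ inc G v).card +
      ((A ∩ inc G a).card + (A ∩ inc G b).card)) := by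
    rw [h1]
    exact even_two_mul _
  exact (Nat.even_add.1 h3).1 h2

theorem split_card {G : MGraph V E} (D P : Finset E) (v : V) :
    (P ∩ inc G v).card = (D ∩ P ∩ inc G v).card + ((P \ D) ∩ inc G v).card := by
  rw [← card_union_of_disjoint]
  · congr 1
    ext x
    simp only [mem_union, mem_inter, mem_sdiff]
    tauto
  · rw [disjoint_left]
    intro x hx hx'
    simp only [mem_inter, mem_sdiff] at hx hx'
    exact hx'.1.2 hx.1.1

/-- a set meeting an arc evenly inside contains it or avoids it -/
theorem arc {G : MGraph V E} (hG : Cubic G) {T : Finset E} (hT : Circ G T) {e : E} (heT : e ∈ T)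
    {P : Finset E} (hP : P ⊆ T) (heP : e ∉ P) {a b : V} (hab : a ≠ b)
    (hodd : ∀ v, Odd (P ∩ inc G v).card ↔ (v = a ∨ v = b)) (D : Finset E)
    (hD : ∀ v, v ≠ a → v ≠ b → Even (D ∩ P ∩ inc G v).card) : D ∩ P = ∅ ∨ P ⊆ D := by
  have hpar := parity hG (D ∩ P) hab hD
  have hPv : ∀ v, v ≠ a → v ≠ b → Even (P ∩ inc G v).card := by
    intro v h1 h2
    rw [← Nat.not_odd_iff_even, hodd]
    tauto
  by_cases ha : Even (D ∩ P ∩ inc G a).card
  · have hb : Even (D ∩ P ∩ inc G b).card := (Nat.even_add.1 hpar).1 ha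
    left
    by_contra hne
    have h1 : D ∩ P = T := by
      apply hT.2.2 (D ∩ P) (inter_subset_right.trans hP) (nonempty_iff_ne_empty.2 hne)
      intro v
      by_cases hva : v = a
      · rw [hva]; exact ha
      · by_cases hvb : v = b
        · rw [hvb]; exact hb
        · exact hD v hva hvb
    rw [← h1] at heT
    exact heP (mem_inter.1 heT).2
  · have hb : ¬ Even (D ∩ P ∩ inc G b).card := fun h => ha ((Nat.even_add.1 hpar).2 h)
    right
    by_contra hsub
    have hne : (P \ D).Nonempty := by
      rw [nonempty_iff_ne_empty]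
      intro h
      exact hsub (sdiff_eq_empty_iff_subset.1 h)
    have h1 : P \ D = T := by
      apply hT.2.2 (P \ D) (sdiff_subset.trans hP) hne
      intro v
      have hs := split_card (G := G) D P v
      by_cases hva : v = a
      · have h2 : Odd (P ∩ inc G v).card := (hodd v).2 (Or.inl hva)
        rw [hs, Nat.odd_add] at h2
        rw [hva] at h2 ⊢
        exact h2.1 (Nat.not_even_iff_odd.1 ha)
      · by_cases hvb : v = b
        · have h2 : Odd (P ∩ inc G v).card := (hodd v).2 (Or.inr hvb)
          rw [hs, Nat.odd_add] at h2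
          rw [hvb] at h2 ⊢
          exact h2.1 (Nat.not_even_iff_odd.1 hb)
        · have h2 := hPv v hva hvb
          rw [hs, Nat.even_add] at h2
          exact h2.1 (hD v hva hvb)
    rw [← h1] at heT
    exact heP (mem_sdiff.1 heT).1

theorem circ_card {G : MGraph V E} (hG : Cubic G) {T : Finset E} (hT : Circ G T) (v : V) :
    (T ∩ inc G v).card = 0 ∨ (T ∩ inc G v).card = 2 := by
  have h1 := hT.2.1 v
  have h2 : (T ∩ inc G v).card ≤ 3 := by
    rw [← hG.three v]
    exact card_le_card inter_subset_right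
  obtain ⟨r, hr⟩ := h1
  omega

/-- a common vertex of two circuits carries a common edge -/
theorem common {G : MGraph V E} (hG : Cubic G) {T X : Finset E} (hT : Circ G T) (hX : Circ G X)
    {v : V} (h1 : (T ∩ inc G v).Nonempty) (h2 : (X ∩ inc G v).Nonempty) :
    ∃ g ∈ T ∩ X, g ∈ inc G v := by
  have h3 : (T ∩ inc G v).card = 2 := by
    rcases circ_card hG hT v with h | h
    · rw [card_eq_zero] at h
      rw [h] at h1
      exact absurd h1 not_nonempty_empty
    · exact h
  have h4 : (X ∩ inc G v).card = 2 := by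
    rcases circ_card hG hX v with h | h
    · rw [card_eq_zero] at h
      rw [h] at h2
      exact absurd h2 not_nonempty_empty
    · exact h
  by_contra hcon
  have h5 : Disjoint (T ∩ inc G v) (X ∩ inc G v) := by
    rw [disjoint_left]
    intro g hg hg'
    rw [mem_inter] at hg hg'
    exact hcon ⟨g, mem_inter.2 ⟨hg.1, hg'.1⟩, hg.2⟩
  have h6 := card_union_of_disjoint h5
  have h7 : ((T ∩ inc G v) ∪ (X ∩ inc G v)).card ≤ 3 := by
    rw [← hG.three v]
    exact card_le_card (union_subset inter_subset_right inter_subset_right)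
  omega

/-- at a vertex with an edge `g` of `T` outside `P` -/
theorem at_special {G : MGraph V E} (hG : Cubic G) {T : Finset E} (hT : Circ G T) {P : Finset E}
    (hP : P ⊆ T) {g : E} {v : V} (hgT : g ∈ T) (hgv : g ∈ inc G v) (hgP : g ∉ P) :
    (Even (P ∩ inc G v).card → P ∩ inc G v = ∅) ∧
      (Odd (P ∩ inc G v).card → P ∩ inc G v = (T ∩ inc G v).erase g) := by
  have h1 : (T ∩ inc G v).card = 2 := by
    rcases circ_card hG hT v with h | h
    · rw [card_eq_zero] at h
      have : g ∈ T ∩ inc G v := mem_inter.2 ⟨hgT, hgv⟩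
      rw [h] at this
      exact absurd this (notMem_empty _)
    · exact h
  have h2 : P ∩ inc G v ⊆ (T ∩ inc G v).erase g := by
    intro x hx
    rw [mem_inter] at hx
    rw [mem_erase, mem_inter]
    exact ⟨fun h => hgP (h ▸ hx.1), hP hx.1, hx.2⟩
  have h3 : ((T ∩ inc G v).erase g).card = 1 := by
    rw [card_erase_of_mem (mem_inter.2 ⟨hgT, hgv⟩), h1]
  have h4 := card_le_card h2
  constructor
  · rintro ⟨r, hr⟩
    rw [← card_eq_zero]
    omega
  · rintro ⟨r, hr⟩
    apply eq_of_subset_of_card_le h2
    omega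

/-- the complementary arc -/
theorem compl_arc {G : MGraph V E} {T : Finset E} (hT : Circ G T) {e e' : E}
    (hee : e ≠ e') (heT : e ∈ T) (heT' : e' ∈ T) {a a' b b' : V} (he : G.ends e = s(a, a'))
    (he' : G.ends e' = s(b, b')) (hab : a ≠ b) (hab' : a ≠ b') (ha'b : a' ≠ b) (ha'b' : a' ≠ b')
    (haa : a ≠ a') (hbb : b ≠ b') {P : Finset E} (hP : P ⊆ T) (heP : e ∉ P) (heP' : e' ∉ P)
    (hodd : ∀ v, Odd (P ∩ inc G v).card ↔ (v = a ∨ v = b)) :
    ∀ v, Odd (((T \ {e, e'}) \ P) ∩ inc G v).card ↔ (v = a' ∨ v = b') := by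
  intro v
  have h1 : (T ∩ inc G v).card = (P ∩ inc G v).card + (((T \ {e, e'}) \ P) ∩ inc G v).card +
      (({e, e'} : Finset E) ∩ inc G v).card := by
    rw [← card_union_of_disjoint, ← card_union_of_disjoint]
    · congr 1
      ext x
      simp only [mem_union, mem_inter, mem_sdiff, mem_insert, mem_singleton]
      constructor
      · intro hx
        by_cases hxe : x = e ∨ x = e'
        · exact Or.inr ⟨hxe, hx.2⟩
        · by_cases hxP : x ∈ P
          · exact Or.inl (Or.inl ⟨hxP, hx.2⟩)
          · exact Or.inl (Or.inr ⟨⟨⟨hx.1, hxe⟩, hxP⟩, hx.2⟩)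
      · rintro ((hx | hx) | hx)
        · exact ⟨hP hx.1, hx.2⟩
        · exact ⟨hx.1.1.1, hx.2⟩
        · refine ⟨?_, hx.2⟩
          rcases hx.1 with h | h
          · rw [h]; exact heT
          · rw [h]; exact heT'
    · rw [disjoint_left]
      intro x hx hx'
      simp only [mem_union, mem_inter, mem_sdiff, mem_insert, mem_singleton] at hx hx'
      rcases hx with hx | hx
      · rcases hx'.1 with h | h
        · exact heP (h ▸ hx.1)
        · exact heP' (h ▸ hx.1)
      · exact hx.1.1.2 hx'.1
    · rw [disjoint_left]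
      intro x hx hx'
      simp only [mem_inter, mem_sdiff] at hx hx'
      exact hx'.1.2 hx.1
  have h2 : (({e, e'} : Finset E) ∩ inc G v).card =
      (if v = a ∨ v = a' then 1 else 0) + (if v = b ∨ v = b' then 1 else 0) := by
    have h3 : (({e, e'} : Finset E) ∩ inc G v) =
        (({e, e'} : Finset E).filter (fun x => v ∈ G.ends x)) := by
      ext x
      simp [inc]
    rw [h3, card_filter, sum_pair hee, he, he']
    simp only [Sym2.mem_iff]
  have h4 : Even ((P ∩ inc G v).card + (((T \ {e, e'}) \ P) ∩ inc G v).card +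
      ((if v = a ∨ v = a' then 1 else 0) + (if v = b ∨ v = b' then 1 else 0))) := by
    rw [← h2, ← h1]
    exact hT.2.1 v
  have h5 := hodd v
  by_cases hva : v = a
  · have h6 : Odd (P ∩ inc G v).card := h5.2 (Or.inl hva)
    have h7 : ¬ (v = b ∨ v = b') := by rw [hva]; tauto
    rw [if_pos (Or.inl hva), if_neg h7] at h4
    have h8 : ¬ (v = a' ∨ v = b') := by rw [hva]; tauto
    constructor
    · intro h9
      exfalso
      obtain ⟨r, hr⟩ := h6
      obtain ⟨r', hr'⟩ := h9
      obtain ⟨r'', hr''⟩ := h4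
      omega
    · intro h9
      exact absurd h9 h8
  · by_cases hvb : v = b
    · have h6 : Odd (P ∩ inc G v).card := h5.2 (Or.inr hvb)
      have h7 : ¬ (v = a ∨ v = a') := by
        rw [hvb]
        rintro (h | h)
        · exact hab h.symm
        · exact ha'b h.symm
      rw [if_neg h7, if_pos (Or.inl hvb)] at h4
      have h8 : ¬ (v = a' ∨ v = b') := by
        rw [hvb]
        rintro (h | h)
        · exact ha'b h.symm
        · exact hbb h
      constructor
      · intro h9
        exfalso
        obtain ⟨r, hr⟩ := h6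
        obtain ⟨r', hr'⟩ := h9
        obtain ⟨r'', hr''⟩ := h4
        omega
      · intro h9
        exact absurd h9 h8
    · have h6 : Even (P ∩ inc G v).card := by
        rw [← Nat.not_odd_iff_even, h5]
        tauto
      by_cases hva' : v = a'
      · have h7 : ¬ (v = b ∨ v = b') := by rw [hva']; tauto
        rw [if_pos (Or.inr hva'), if_neg h7] at h4
        refine ⟨fun _ => Or.inl hva', fun _ => ?_⟩
        obtain ⟨r, hr⟩ := h6
        obtain ⟨r'', hr''⟩ := h4
        rw [Nat.odd_iff]
        omega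
      · by_cases hvb' : v = b'
        · have h7 : ¬ (v = a ∨ v = a') := by
            rw [hvb']
            rintro (h | h)
            · exact hab' h.symm
            · exact ha'b' h.symm
          rw [if_neg h7, if_pos (Or.inr hvb')] at h4
          refine ⟨fun _ => Or.inr hvb', fun _ => ?_⟩
          obtain ⟨r, hr⟩ := h6
          obtain ⟨r'', hr''⟩ := h4
          rw [Nat.odd_iff]
          omega
        · have h7 : ¬ (v = a ∨ v = a') := by tauto
          have h8 : ¬ (v = b ∨ v = b') := by tauto
          rw [if_neg h7, if_neg h8] at h4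
          constructor
          · intro h9
            exfalso
            obtain ⟨r, hr⟩ := h6
            obtain ⟨r', hr'⟩ := h9
            obtain ⟨r'', hr''⟩ := h4
            omega
          · intro h9
            exact absurd h9 (by tauto)

/-- the hypothesis of `arc` -/
theorem even_at {G : MGraph V E} (hG : Cubic G) {T X : Finset E} (hT : Circ G T) (hX : Circ G X)
    {e e' : E} (hTX : T ∩ X = {e, e'}) {P : Finset E} (hP : P ⊆ T) (heP : e ∉ P) (heP' : e' ∉ P)
    {D : Finset E} (hD : D ⊆ T ∪ X) (hDe : Ev G D) {v : V} (hPv : Even (P ∩ inc G v).card) :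
    Even (D ∩ P ∩ inc G v).card := by
  have heT : e ∈ T := (mem_inter.1 (hTX ▸ (by simp : e ∈ ({e, e'} : Finset E)))).1
  have heT' : e' ∈ T := (mem_inter.1 (hTX ▸ (by simp : e' ∈ ({e, e'} : Finset E)))).1
  have key : P ∩ inc G v = ∅ → Even (D ∩ P ∩ inc G v).card := by
    intro h
    rw [inter_assoc, h, inter_empty, card_empty]
    exact Even.zero
  by_cases h1 : e ∈ inc G v
  · exact key ((at_special hG hT hP heT h1 heP).1 hPv)
  · by_cases h2 : e' ∈ inc G v
    · exact key ((at_special hG hT hP heT' h2 heP').1 hPv)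
    · rcases Nat.eq_zero_or_pos (P ∩ inc G v).card with h3 | h3
      · exact key (card_eq_zero.1 h3)
      · have h4 : (P ∩ inc G v).card ≤ (T ∩ inc G v).card :=
          card_le_card (inter_subset_inter_right hP)
        have h5 := circ_card hG hT v
        have h6 : P ∩ inc G v = T ∩ inc G v := by
          apply eq_of_subset_of_card_le (inter_subset_inter_right hP)
          obtain ⟨r, hr⟩ := hPv
          omega
        have h7 : (T ∩ inc G v).Nonempty := by
          rw [← h6]
          exact card_pos.1 h3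
        have h8 : X ∩ inc G v = ∅ := by
          by_contra hne
          obtain ⟨g, hg, hgv⟩ := common hG hT hX h7 (nonempty_iff_ne_empty.2 hne)
          rw [hTX, mem_insert, mem_singleton] at hg
          rcases hg with h | h
          · exact h1 (h ▸ hgv)
          · exact h2 (h ▸ hgv)
        have h9 : D ∩ P ∩ inc G v = D ∩ inc G v := by
          ext x
          simp only [mem_inter]
          constructor
          · intro hx
            exact ⟨hx.1.1, hx.2⟩
          · intro hx
            rcases mem_union.1 (hD hx.1) with h | h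
            · have : x ∈ P ∩ inc G v := by
                rw [h6]
                exact mem_inter.2 ⟨h, hx.2⟩
              exact ⟨⟨hx.1, (mem_inter.1 this).1⟩, hx.2⟩
            · have : x ∈ X ∩ inc G v := mem_inter.2 ⟨h, hx.2⟩
              rw [h8] at this
              exact absurd this (notMem_empty _)
        rw [h9]
        exact hDe v

/-- two segments meeting in a vertex with a common edge of the circuits -/
theorem link {G : MGraph V E} (hG : Cubic G) {T X : Finset E} (hT : Circ G T) (hX : Circ G X)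
    {P R D : Finset E} (hP : P ⊆ T) (hR : R ⊆ X) {g : E} {v : V} (hgT : g ∈ T) (hgX : g ∈ X)
    (hgv : g ∈ inc G v) (hgP : g ∉ P) (hgR : g ∉ R) (hPR : Disjoint P R)
    (hPv : Odd (P ∩ inc G v).card) (hRv : Odd (R ∩ inc G v).card)
    (hD : D ⊆ symmDiff T X) (hDe : Ev G D)
    (h1 : D ∩ P = ∅ ∨ P ⊆ D) (h2 : D ∩ R = ∅ ∨ R ⊆ D) : P ⊆ D ↔ R ⊆ D := by
  have hp := (at_special hG hT hP hgT hgv hgP).2 hPv
  have hr := (at_special hG hX hR hgX hgv hgR).2 hRv
  have hsub : D ∩ inc G v ⊆ (P ∩ inc G v) ∪ (R ∩ inc G v) := by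
    intro x hx
    rw [mem_inter] at hx
    have hx1 := hD hx.1
    rw [mem_symmDiff] at hx1
    rw [mem_union, hp, hr, mem_erase, mem_erase, mem_inter, mem_inter]
    rcases hx1 with h | h
    · left
      exact ⟨fun h' => h.2 (h' ▸ hgX), h.1, hx.2⟩
    · right
      exact ⟨fun h' => h.2 (h' ▸ hgT), h.1, hx.2⟩
  have hDv := hDe v
  constructor
  · intro hPD
    rcases h2 with h | h
    · exfalso
      have h3 : D ∩ inc G v = P ∩ inc G v := by
        apply Subset.antisymm
        · intro x hx
          rcases mem_union.1 (hsub hx) with h' | h'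
          · exact h'
          · exfalso
            have : x ∈ D ∩ R := mem_inter.2 ⟨(mem_inter.1 hx).1, (mem_inter.1 h').1⟩
            rw [h] at this
            exact absurd this (notMem_empty _)
        · exact inter_subset_inter_right hPD
      rw [h3] at hDv
      exact (Nat.not_even_iff_odd.2 hPv) hDv
    · exact h
  · intro hRD
    rcases h1 with h | h
    · exfalso
      have h3 : D ∩ inc G v = R ∩ inc G v := by
        apply Subset.antisymm
        · intro x hx
          rcases mem_union.1 (hsub hx) with h' | h'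
          · exfalso
            have : x ∈ D ∩ P := mem_inter.2 ⟨(mem_inter.1 hx).1, (mem_inter.1 h').1⟩
            rw [h] at this
            exact absurd this (notMem_empty _)
          · exact h'
        · exact inter_subset_inter_right hRD
      rw [h3] at hDv
      exact (Nat.not_even_iff_odd.2 hRv) hDv
    · exact h

theorem ev_symmDiff {G : MGraph V E} {T X : Finset E} (hT : Ev G T) (hX : Ev G X) :
    Ev G (symmDiff T X) := by
  intro v
  have h1 : (T ∩ inc G v).card = ((T \ X) ∩ inc G v).card + ((T ∩ X) ∩ inc G v).card := by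
    rw [← card_union_of_disjoint]
    · congr 1
      ext x
      simp only [mem_union, mem_inter, mem_sdiff]
      tauto
    · rw [disjoint_left]
      intro x hx hx'
      simp only [mem_inter, mem_sdiff] at hx hx'
      exact hx.1.2 hx'.1.2
  have h2 : (X ∩ inc G v).card = ((X \ T) ∩ inc G v).card + ((T ∩ X) ∩ inc G v).card := by
    rw [← card_union_of_disjoint]
    · congr 1
      ext x
      simp only [mem_union, mem_inter, mem_sdiff]
      tauto
    · rw [disjoint_left]
      intro x hx hx'
      simp only [mem_inter, mem_sdiff] at hx hx'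
      exact hx.1.2 hx'.1.1
  have h3 : (symmDiff T X ∩ inc G v).card =
      ((T \ X) ∩ inc G v).card + ((X \ T) ∩ inc G v).card := by
    rw [← card_union_of_disjoint]
    · congr 1
      ext x
      simp only [mem_union, mem_inter, mem_sdiff, mem_symmDiff]
      tauto
    · rw [disjoint_left]
      intro x hx hx'
      simp only [mem_inter, mem_sdiff] at hx hx'
      exact hx.1.2 hx'.1.1
  have h4 := hT v
  have h5 := hX v
  obtain ⟨r, hr⟩ := h4
  obtain ⟨s, hs⟩ := h5
  rw [h3, Nat.even_iff]
  omega

end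

theorem t : T7a := by
  intro V E _ _ _ _ G hG T X hT hX e e' hee hTX a a' b b' he he' hab hab' ha'b ha'b' P hP R hR
    heP heP' heR heR' hPodd hRodd
  have heTX : e ∈ T ∩ X := by rw [hTX]; simp
  have heTX' : e' ∈ T ∩ X := by rw [hTX]; simp
  have heT := (mem_inter.1 heTX).1
  have heX := (mem_inter.1 heTX).2
  have heT' := (mem_inter.1 heTX').1
  have heX' := (mem_inter.1 heTX').2
  have hXT : X ∩ T = {e, e'} := by rw [inter_comm, hTX]
  have haa : a ≠ a' := by
    intro h
    apply hG.loopless e
    rw [he, h]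
    exact Sym2.mk_isDiag_iff.2 rfl
  have hbb : b ≠ b' := by
    intro h
    apply hG.loopless e'
    rw [he', h]
    exact Sym2.mk_isDiag_iff.2 rfl
  obtain ⟨Q, hQdef⟩ : ∃ Q, Q = (T \ {e, e'}) \ P := ⟨_, rfl⟩
  obtain ⟨S, hSdef⟩ : ∃ S, S = (X \ {e, e'}) \ R := ⟨_, rfl⟩
  have hQodd : ∀ v, Odd (Q ∩ inc G v).card ↔ (v = a' ∨ v = b') := by
    rw [hQdef]
    exact compl_arc hT hee heT heT' he he' hab hab' ha'b ha'b' haa hbb hP heP heP' hPodd
  have hSodd : ∀ v, Odd (S ∩ inc G v).card ↔ (v = a' ∨ v = b) := by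
    rw [hSdef]
    exact compl_arc hX hee heX heX' he (he'.trans Sym2.eq_swap) hab' hab ha'b' ha'b haa hbb.symm
      hR heR heR' hRodd
  have hQ : Q ⊆ T := by rw [hQdef]; exact sdiff_subset.trans sdiff_subset
  have hS : S ⊆ X := by rw [hSdef]; exact sdiff_subset.trans sdiff_subset
  have heQ : e ∉ Q := by rw [hQdef]; simp
  have heQ' : e' ∉ Q := by rw [hQdef]; simp
  have heS : e ∉ S := by rw [hSdef]; simp
  have heS' : e' ∉ S := by rw [hSdef]; simp
  have hae : e ∈ inc G a := by rw [mem_inc, he]; simp
  have ha'e : e ∈ inc G a' := by rw [mem_inc, he]; simp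
  have hbe : e' ∈ inc G b := by rw [mem_inc, he']; simp
  have hb'e : e' ∈ inc G b' := by rw [mem_inc, he']; simp
  have hdisj : ∀ {A B : Finset E}, A ⊆ T → B ⊆ X → e ∉ A → e' ∉ A → Disjoint A B := by
    intro A B hA hB h1 h2
    rw [disjoint_left]
    intro x hx hx'
    have : x ∈ T ∩ X := mem_inter.2 ⟨hA hx, hB hx'⟩
    rw [hTX, mem_insert, mem_singleton] at this
    rcases this with h | h
    · exact h1 (h ▸ hx)
    · exact h2 (h ▸ hx)
  have hC : ∀ x ∈ symmDiff T X, x ∈ P ∨ x ∈ Q ∨ x ∈ R ∨ x ∈ S := by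
    intro x hx
    have hxe : x ≠ e := by
      rintro rfl
      rw [mem_symmDiff] at hx
      tauto
    have hxe' : x ≠ e' := by
      rintro rfl
      rw [mem_symmDiff] at hx
      tauto
    rw [mem_symmDiff] at hx
    rw [hQdef, hSdef]
    simp only [mem_sdiff, mem_insert, mem_singleton, not_or]
    rcases hx with h | h
    · by_cases hxP : x ∈ P
      · exact Or.inl hxP
      · exact Or.inr (Or.inl ⟨⟨h.1, hxe, hxe'⟩, hxP⟩)
    · by_cases hxR : x ∈ R
      · exact Or.inr (Or.inr (Or.inl hxR))
      · exact Or.inr (Or.inr (Or.inr ⟨⟨h.1, hxe, hxe'⟩, hxR⟩))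
  refine ⟨?_, ev_symmDiff hT.2.1 hX.2.1, ?_⟩
  · have h1 : Odd (P ∩ inc G a).card := (hPodd a).2 (Or.inl rfl)
    have h2 : (P ∩ inc G a).Nonempty := by
      rw [← card_pos]
      exact h1.pos
    obtain ⟨x, hx⟩ := h2
    have hxP := (mem_inter.1 hx).1
    refine ⟨x, mem_symmDiff.2 (Or.inl ⟨hP hxP, fun hxX => ?_⟩)⟩
    exact disjoint_left.1 (hdisj hP (Subset.refl X) heP heP') hxP hxX
  · intro D hD hDne hDe
    have hDu : D ⊆ T ∪ X := by
      intro x hx
      have := hD hx
      rw [mem_symmDiff] at this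
      rw [mem_union]
      tauto
    have hDu' : D ⊆ X ∪ T := by rwa [union_comm]
    have ev_of : ∀ {A : Finset E} {x y : V}, (∀ v, Odd (A ∩ inc G v).card ↔ (v = x ∨ v = y)) →
        ∀ v, v ≠ x → v ≠ y → Even (A ∩ inc G v).card := by
      intro A x y h v h1 h2
      rw [← Nat.not_odd_iff_even, h v]
      tauto
    have aP : D ∩ P = ∅ ∨ P ⊆ D := arc hG hT heT hP heP hab hPodd D fun v h1 h2 =>
      even_at hG hT hX hTX hP heP heP' hDu hDe (ev_of hPodd v h1 h2)
    have aQ : D ∩ Q = ∅ ∨ Q ⊆ D := arc hG hT heT hQ heQ ha'b' hQodd D fun v h1 h2 =>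
      even_at hG hT hX hTX hQ heQ heQ' hDu hDe (ev_of hQodd v h1 h2)
    have aR : D ∩ R = ∅ ∨ R ⊆ D := arc hG hX heX hR heR hab' hRodd D fun v h1 h2 =>
      even_at hG hX hT hXT hR heR heR' hDu' hDe (ev_of hRodd v h1 h2)
    have aS : D ∩ S = ∅ ∨ S ⊆ D := arc hG hX heX hS heS ha'b hSodd D fun v h1 h2 =>
      even_at hG hX hT hXT hS heS heS' hDu' hDe (ev_of hSodd v h1 h2)
    have l1 : P ⊆ D ↔ R ⊆ D := link hG hT hX hP hR heT heX hae heP heR (hdisj hP hR heP heP')
      ((hPodd a).2 (Or.inl rfl)) ((hRodd a).2 (Or.inl rfl)) hD hDe aP aR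
    have l2 : P ⊆ D ↔ S ⊆ D := link hG hT hX hP hS heT' heX' hbe heP' heS' (hdisj hP hS heP heP')
      ((hPodd b).2 (Or.inr rfl)) ((hSodd b).2 (Or.inr rfl)) hD hDe aP aS
    have l3 : Q ⊆ D ↔ S ⊆ D := link hG hT hX hQ hS heT heX ha'e heQ heS (hdisj hQ hS heQ heQ')
      ((hQodd a').2 (Or.inl rfl)) ((hSodd a').2 (Or.inl rfl)) hD hDe aQ aS
    have hall : P ⊆ D := by
      obtain ⟨x, hx⟩ := hDne
      have key : ∀ {A : Finset E}, (D ∩ A = ∅ ∨ A ⊆ D) → x ∈ A → A ⊆ D := by
        intro A h hxA
        rcases h with h | h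
        · exfalso
          have : x ∈ D ∩ A := mem_inter.2 ⟨hx, hxA⟩
          rw [h] at this
          exact absurd this (notMem_empty _)
        · exact h
      rcases hC x (hD hx) with h | h | h | h
      · exact key aP h
      · exact l2.2 (l3.1 (key aQ h))
      · exact l1.2 (key aR h)
      · exact l2.2 (key aS h)
    apply Subset.antisymm hD
    intro x hx
    rcases hC x hx with h | h | h | h
    · exact hall h
    · exact l3.2 (l2.1 hall) h
    · exact l1.1 hall h
    · exact l2.1 hall h

end Pool.Agent.H366R3.SC.T7a_helper787
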