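import Pool.Agent.H366R3.SC.Stmts

set_option autoImplicit false
set_option maxHeartbeats 4000000
set_option linter.unusedSectionVars false

namespace Pool.Agent.H366R3.SC.T8_134

open Finset
open Pool.Agent.H126R2.CDC (MGraph)
open Pool.Agent.H366R3.SC

section

variable {V E : Type} [Fintype V] [DecidableEq V] [Fintype E] [DecidableEq E]
variable {G : MGraph V E}

theorem mem_inc {v : V} {e : E} : e ∈ inc G v ↔ v ∈ G.ends e := by simp [inc]

theorem card_sd (A B : Finset E) : (symmDiff A B).card + 2 * (A ∩ B).card = A.card + B.card := by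
  have h1 : (symmDiff A B).card = (A \ B).card + (B \ A).card := by
    rw [← Finset.card_union_of_disjoint]
    · rfl
    · rw [Finset.disjoint_left]
      intro x hx hx'
      exact (mem_sdiff.1 hx).2 (mem_sdiff.1 hx').1
  have h2 := Finset.card_sdiff_add_card_inter A B
  have h3 := Finset.card_sdiff_add_card_inter B A
  rw [inter_comm B A] at h3
  omega

theorem odd_sd (A B S : Finset E) :
    Odd ((symmDiff A B) ∩ S).card ↔ (Odd (A ∩ S).card ↔ ¬ Odd (B ∩ S).card) := by
  have h : (symmDiff A B) ∩ S = symmDiff (A ∩ S) (B ∩ S) := by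
    ext x
    simp only [mem_inter, mem_symmDiff]
    tauto
  have h2 := card_sd (A ∩ S) (B ∩ S)
  rw [h]
  simp only [Nat.odd_iff]
  omega

theorem card_two (hG : Cubic G) {C : Finset E} {v : V} {e : E} (hev : Even (C ∩ inc G v).card)
    (he : e ∈ C) (hv : e ∈ inc G v) : (C ∩ inc G v).card = 2 := by
  have h1 : (C ∩ inc G v).card ≤ (inc G v).card := card_le_card inter_subset_right
  rw [hG.three] at h1
  have h2 : 0 < (C ∩ inc G v).card := card_pos.2 ⟨e, mem_inter.2 ⟨he, hv⟩⟩
  obtain ⟨r, hr⟩ := hev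
  omega

theorem third {S : Finset E} (hS : S.card = 3) {e e' : E} (he : e ∈ S) (he' : e' ∈ S) (hne : e ≠ e') :
    ∃ g, g ≠ e ∧ g ≠ e' ∧ g ∈ S ∧ ∀ x, x ∈ S → x = e ∨ x = e' ∨ x = g := by
  have h1 : ((S.erase e).erase e').card = 1 := by
    rw [card_erase_of_mem (mem_erase.2 ⟨hne.symm, he'⟩), card_erase_of_mem he, hS]
  obtain ⟨g, hg⟩ := card_eq_one.1 h1
  have hg' : g ∈ (S.erase e).erase e' := by rw [hg]; exact mem_singleton_self g
  simp only [mem_erase] at hg'
  refine ⟨g, hg'.2.1, hg'.1, hg'.2.2, fun x hx => ?_⟩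
  by_cases h2 : x = e
  · exact Or.inl h2
  by_cases h3 : x = e'
  · exact Or.inr (Or.inl h3)
  right; right
  have : x ∈ (S.erase e).erase e' := by simp [h2, h3, hx]
  rw [hg] at this
  exact mem_singleton.1 this

theorem mem_of_even {S C : Finset E} {e e' g : E} (hx : ∀ x, x ∈ S → x = e ∨ x = e' ∨ x = g)
    (hC : Even (C ∩ S).card) (he : e ∈ C) (heS : e ∈ S) (he' : e' ∉ C) : g ∈ C := by
  by_contra hg
  have : C ∩ S = {e} := by
    ext x
    simp only [mem_inter, mem_singleton]
    constructor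
    · rintro ⟨h1, h2⟩
      rcases hx x h2 with h | h | h
      · exact h
      · exact absurd (h ▸ h1) he'
      · exact absurd (h ▸ h1) hg
    · rintro rfl
      exact ⟨he, heS⟩
  rw [this, card_singleton] at hC
  exact absurd hC (by decide)

theorem share (hG : Cubic G) {X Y : Finset E} {v : V} {e e' f : E} (he : e ∈ inc G v)
    (he' : e' ∈ inc G v) (hne : e ≠ e') (hX : Even (X ∩ inc G v).card)
    (hY : Even (Y ∩ inc G v).card) (eX : e ∈ X) (e'X : e' ∉ X) (e'Y : e' ∈ Y) (eY : e ∉ Y)
    (hXY : X ∩ Y = {f}) : inc G v = {e, e', f} := by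
  obtain ⟨g, hge, hge', hg, hx⟩ := third (hG.three v) he he' hne
  have gX : g ∈ X := mem_of_even hx hX eX he e'X
  have hx' : ∀ x, x ∈ inc G v → x = e' ∨ x = e ∨ x = g := by
    intro x h
    rcases hx x h with h | h | h
    · exact Or.inr (Or.inl h)
    · exact Or.inl h
    · exact Or.inr (Or.inr h)
  have gY : g ∈ Y := mem_of_even hx' hY e'Y he' eY
  have gf : g = f := by
    have : g ∈ X ∩ Y := mem_inter.2 ⟨gX, gY⟩
    rwa [hXY, mem_singleton] at this
  subst gf
  ext x
  simp only [mem_insert, mem_singleton]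
  constructor
  · exact hx x
  · rintro (h | h | h)
    · exact h ▸ he
    · exact h ▸ he'
    · exact h ▸ hg

theorem cut_single (hG : Cubic G) (v : V) : cut G {v} = inc G v := by
  ext e
  rw [mem_inc]
  simp only [cut, mem_filter, mem_univ, true_and, mem_singleton, exists_eq_left]
  constructor
  · exact fun h => h.1
  · intro h
    refine ⟨h, ?_⟩
    obtain ⟨w, hw⟩ := Sym2.mem_iff_exists.1 h
    have hl := hG.loopless e
    rw [hw, Sym2.mk_isDiag_iff] at hl
    exact ⟨w, fun h => hl h.symm, by rw [hw]; exact Sym2.mem_mk_right v w⟩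

theorem ex_ends (z : Sym2 V) : ∃ a b, z = s(a, b) := by
  induction z with
  | _ a b => exact ⟨a, b, rfl⟩

theorem F_nodup (hG : Cubic G) (F : Multiset (Finset E)) (hF : CD G F) : F.Nodup := by
  rw [Multiset.nodup_iff_count_le_one]
  intro B
  by_contra hc
  have hB : B ∈ F := Multiset.count_pos.1 (by omega)
  obtain ⟨F1, rfl⟩ := Multiset.exists_cons_of_mem hB
  rw [Multiset.count_cons_self] at hc
  have hB1 : B ∈ F1 := Multiset.count_pos.1 (by omega)
  obtain ⟨F2, rfl⟩ := Multiset.exists_cons_of_mem hB1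
  obtain ⟨⟨e0, he0⟩, hev, -⟩ := hF.1 B (Multiset.mem_cons_self _ _)
  obtain ⟨v, w, hvw⟩ := ex_ends (G.ends e0)
  have hv : e0 ∈ inc G v := mem_inc.2 (by rw [hvw]; exact Sym2.mem_mk_left v w)
  have h2 : (B ∩ inc G v).card = 2 := card_two hG (hev v) he0 hv
  obtain ⟨h, hhv, hhB⟩ : ∃ h ∈ inc G v, h ∉ B := by
    by_contra hcon
    push Not at hcon
    have : B ∩ inc G v = inc G v := inter_eq_right.2 fun x hx => hcon x hx
    rw [this, hG.three] at h2
    omega
  have h0 : 0 < Multiset.countP (fun C => h ∈ C) (B ::ₘ B ::ₘ F2) := by rw [hF.2]; norm_num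
  obtain ⟨D, hD, hhD⟩ := Multiset.countP_pos.1 h0
  have hDB : D ≠ B := fun hh => hhB (hh ▸ hhD)
  have hD2 : D ∈ F2 := by
    rcases Multiset.mem_cons.1 hD with hh | hh
    · exact absurd hh hDB
    rcases Multiset.mem_cons.1 hh with hh | hh
    · exact absurd hh hDB
    · exact hh
  have hDev := (hF.1 D hD).2.1 v
  have hD2c : (D ∩ inc G v).card = 2 := card_two hG hDev hhD hhv
  obtain ⟨h', hh', hne⟩ : ∃ h' ∈ D ∩ inc G v, h' ≠ h :=
    Finset.exists_mem_ne (by omega) h
  obtain ⟨hh'D, hh'v⟩ := mem_inter.1 hh'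
  have h'B : h' ∈ B := by
    by_contra hcon
    have h3 := Finset.card_sdiff_add_card_inter (inc G v) B
    rw [inter_comm (inc G v) B, h2, hG.three] at h3
    have h4 : (inc G v \ B).card ≤ 1 := by omega
    exact hne (Finset.card_le_one.1 h4 h' (mem_sdiff.2 ⟨hh'v, hcon⟩) h (mem_sdiff.2 ⟨hhv, hhB⟩))
  obtain ⟨F3, rfl⟩ := Multiset.exists_cons_of_mem hD2
  have h5 := hF.2 h'
  rw [Multiset.countP_cons_of_pos (p := fun C => h' ∈ C) _ h'B,
    Multiset.countP_cons_of_pos (p := fun C => h' ∈ C) _ h'B,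
    Multiset.countP_cons_of_pos (p := fun C => h' ∈ C) _ hh'D] at h5
  omega

theorem two_card (hG : Cubic G) {F : Multiset (Finset E)} (hF : CD G F) (e : E) :
    (F.toFinset.filter (fun B => e ∈ B)).card = 2 := by
  have hnd := F_nodup hG F hF
  have h := hF.2 e
  rw [Multiset.countP_eq_card_filter] at h
  rw [← h, ← Multiset.toFinset_card_of_nodup (hnd.filter _), Multiset.toFinset_filter]

theorem two (hG : Cubic G) {F : Multiset (Finset E)} (hF : CD G F) {T X : Finset E} (hT : T ∈ F)
    (hX : X ∈ F) (hTX : T ≠ X) {e : E} (eT : e ∈ T) (eX : e ∈ X) :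
    ∀ B ∈ F, e ∈ B → B = T ∨ B = X := by
  intro B hB eB
  by_contra hcon
  push Not at hcon
  have h1 : ({B, T, X} : Finset (Finset E)) ⊆ F.toFinset.filter (fun B => e ∈ B) := by
    intro D hD
    simp only [mem_insert, mem_singleton] at hD
    rw [mem_filter, Multiset.mem_toFinset]
    rcases hD with rfl | rfl | rfl
    · exact ⟨hB, eB⟩
    · exact ⟨hT, eT⟩
    · exact ⟨hX, eX⟩
  have h2 := card_le_card h1
  rw [two_card hG hF, card_eq_three.2 ⟨B, T, X, hcon.1, hcon.2, hTX, rfl⟩] at h2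
  omega

theorem exists_two (hG : Cubic G) {F : Multiset (Finset E)} (hF : CD G F) (e : E) :
    ∃ T ∈ F, ∃ X ∈ F, T ≠ X ∧ e ∈ T ∧ e ∈ X := by
  obtain ⟨T, X, hTX, h⟩ := card_eq_two.1 (two_card hG hF e)
  have hT : T ∈ F.toFinset.filter (fun B => e ∈ B) := by rw [h]; simp
  have hX : X ∈ F.toFinset.filter (fun B => e ∈ B) := by rw [h]; simp
  rw [mem_filter, Multiset.mem_toFinset] at hT hX
  exact ⟨T, hT.1, X, hX.1, hTX, hT.2, hX.2⟩

theorem odd_iff (hG : Cubic G) {F : Multiset (Finset E)} (hF : CD G F) {T X : Finset E} (hT : T ∈ F)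
    (hX : X ∈ F) (hTX : T ≠ X) {e : E} (eT : e ∈ T) (eX : e ∈ X) {A : Finset (Finset E)}
    (hA : ∀ B ∈ A, B ∈ F) : e ∈ oddSum A ↔ (T ∈ A ↔ X ∉ A) := by
  have h1 : A.filter (fun B => e ∈ B) = ({T, X} : Finset (Finset E)).filter (fun B => B ∈ A) := by
    ext B
    simp only [mem_filter, mem_insert, mem_singleton]
    constructor
    · rintro ⟨hB, eB⟩
      exact ⟨two hG hF hT hX hTX eT eX B (hA B hB) eB, hB⟩
    · rintro ⟨rfl | rfl, hB⟩
      · exact ⟨hB, eT⟩
      · exact ⟨hB, eX⟩
  simp only [oddSum, mem_filter, mem_univ, true_and]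
  rw [h1]
  by_cases h2 : T ∈ A <;> by_cases h3 : X ∈ A <;>
    simp [Finset.filter_insert, Finset.filter_singleton, h2, h3, hTX, Nat.odd_iff]

theorem oddSum_compl (hG : Cubic G) {F : Multiset (Finset E)} (hF : CD G F) {A : Finset (Finset E)}
    (hA : ∀ B ∈ A, B ∈ F) : oddSum (F.toFinset \ A) = oddSum A := by
  ext e
  obtain ⟨T, hT, X, hX, hTX, eT, eX⟩ := exists_two hG hF e
  rw [odd_iff hG hF hT hX hTX eT eX hA, odd_iff hG hF hT hX hTX eT eX
    (fun B hB => Multiset.mem_toFinset.1 (mem_sdiff.1 hB).1)]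
  simp only [mem_sdiff, Multiset.mem_toFinset, hT, hX, true_and]
  tauto

theorem arc (hG : Cubic G) (h5 : T5) {T : Finset E} (cT : Circ G T) {e e' : E} (eT : e ∈ T)
    (e'T : e' ∈ T) {a : V} (ha : e ∈ inc G a) (ha' : e' ∉ inc G a) :
    ∃ b b' P, G.ends e' = s(b, b') ∧ P ⊆ T ∧ e ∉ P ∧ e' ∉ P ∧
      ∀ v, Odd (P ∩ inc G v).card ↔ (v = a ∨ v = b) := by
  obtain ⟨b, b', hb⟩ := ex_ends (G.ends e')
  have hbb' : b ≠ b' := by
    have hl := hG.loopless e'
    rwa [hb, Sym2.mk_isDiag_iff] at hl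
  have hib : e' ∈ inc G b := mem_inc.2 (by rw [hb]; exact Sym2.mem_mk_left b b')
  have hib' : e' ∈ inc G b' := mem_inc.2 (by rw [hb]; exact Sym2.mem_mk_right b b')
  have hab : a ≠ b := fun h => ha' (h ▸ hib)
  have hab' : a ≠ b' := fun h => ha' (h ▸ hib')
  obtain ⟨P, hPT, heP, hP⟩ := h5 V E G hG T cT a b hab ⟨e, mem_inter.2 ⟨eT, ha⟩⟩
    ⟨e', mem_inter.2 ⟨e'T, hib⟩⟩ e eT
  by_cases he'P : e' ∈ P
  · refine ⟨b', b, symmDiff P {e'}, by rw [hb, Sym2.eq_swap], ?_, ?_, ?_, ?_⟩
    · intro x hx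
      rw [mem_symmDiff, mem_singleton] at hx
      rcases hx with hx | hx
      · exact hPT hx.1
      · exact hx.1 ▸ e'T
    · rw [mem_symmDiff, mem_singleton]
      rintro (hx | hx)
      · exact heP hx.1
      · exact heP (hx.1 ▸ he'P)
    · rw [mem_symmDiff, mem_singleton]
      rintro (hx | hx)
      · exact hx.2 rfl
      · exact hx.2 he'P
    · intro v
      rw [odd_sd, hP]
      have h1 : Odd (({e'} : Finset E) ∩ inc G v).card ↔ (v = b ∨ v = b') := by
        by_cases hv : e' ∈ inc G v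
        · rw [singleton_inter_of_mem hv, card_singleton]
          have := mem_inc.1 hv
          rw [hb, Sym2.mem_iff] at this
          exact ⟨fun _ => this, fun _ => odd_one⟩
        · rw [singleton_inter_of_notMem hv, card_empty]
          constructor
          · intro h; exact absurd h (by decide)
          · rintro (rfl | rfl)
            · exact absurd hib hv
            · exact absurd hib' hv
      rw [h1]
      by_cases h2 : v = a
      · subst h2; simp [hab, hab']
      by_cases h3 : v = b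
      · subst h3; simp [h2, hbb']
      by_cases h4 : v = b'
      · subst h4; simp [h2, h3]
      simp [h2, h3, h4]
  · exact ⟨b, b', P, hb, hPT, heP, he'P, hP⟩

end

theorem t : T8 := by
  intro h1 h3 hK h5 h6 h8a V E _ _ _ _ G hG hEC hcard F hF hFc T hT X hX Y hY hTX hTY hXY e e' f
    hee' hef he'f hTXe hTYe' hXYf hcut
  have cT := hF.1 T hT
  have cX := hF.1 X hX
  have cY := hF.1 Y hY
  have mTX : ∀ x, x ∈ T → x ∈ X → x = e := fun x h h' => by
    have : x ∈ T ∩ X := mem_inter.2 ⟨h, h'⟩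
    rwa [hTXe, mem_singleton] at this
  have mTY : ∀ x, x ∈ T → x ∈ Y → x = e' := fun x h h' => by
    have : x ∈ T ∩ Y := mem_inter.2 ⟨h, h'⟩
    rwa [hTYe', mem_singleton] at this
  have mXY : ∀ x, x ∈ X → x ∈ Y → x = f := fun x h h' => by
    have : x ∈ X ∩ Y := mem_inter.2 ⟨h, h'⟩
    rwa [hXYf, mem_singleton] at this
  obtain ⟨eT, eX⟩ : e ∈ T ∧ e ∈ X := by
    rw [← mem_inter, hTXe]; exact mem_singleton_self e
  obtain ⟨e'T, e'Y⟩ : e' ∈ T ∧ e' ∈ Y := by
    rw [← mem_inter, hTYe']; exact mem_singleton_self e'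
  obtain ⟨fX, fY⟩ : f ∈ X ∧ f ∈ Y := by
    rw [← mem_inter, hXYf]; exact mem_singleton_self f
  have eY : e ∉ Y := fun h => hee' (mTY e eT h)
  have e'X : e' ∉ X := fun h => hee' (mTX e' e'T h).symm
  have fT : f ∉ T := fun h => hef (mTX f h fX).symm
  have d1 : ∀ v, e ∈ inc G v → e' ∉ inc G v := by
    intro v hv hv'
    refine hcut {v} ?_
    rw [cut_single hG]
    exact share hG hv hv' hee' (cX.2.1 v) (cY.2.1 v) eX e'X e'Y eY hXYf
  have d2 : ∀ v, e ∈ inc G v → f ∉ inc G v := by
    intro v hv hv'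
    refine hcut {v} ?_
    rw [cut_single hG, share hG hv hv' hef (cT.2.1 v) (cY.2.1 v) eT fT fY eY hTYe']
    ext x; simp only [mem_insert, mem_singleton]; tauto
  have d3 : ∀ v, e' ∈ inc G v → f ∉ inc G v := by
    intro v hv hv'
    refine hcut {v} ?_
    rw [cut_single hG, share hG hv hv' he'f (cT.2.1 v) (cX.2.1 v) e'T fT fX e'X hTXe]
    ext x; simp only [mem_insert, mem_singleton]; tauto
  obtain ⟨a, a', hea⟩ := ex_ends (G.ends e)
  have ia : e ∈ inc G a := mem_inc.2 (by rw [hea]; exact Sym2.mem_mk_left a a')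
  have ia' : e ∈ inc G a' := mem_inc.2 (by rw [hea]; exact Sym2.mem_mk_right a a')
  obtain ⟨b, b', P, heb, hPT, heP, he'P, hP⟩ := arc hG h5 cT eT e'T ia (d1 a ia)
  have ib : e' ∈ inc G b := mem_inc.2 (by rw [heb]; exact Sym2.mem_mk_left b b')
  have ib' : e' ∈ inc G b' := mem_inc.2 (by rw [heb]; exact Sym2.mem_mk_right b b')
  obtain ⟨c, c', R, hec, hRX, heR, hfR, hR⟩ := arc hG h5 cX eX fX ia (d2 a ia)
  have ic : f ∈ inc G c := mem_inc.2 (by rw [hec]; exact Sym2.mem_mk_left c c')
  have ic' : f ∈ inc G c' := mem_inc.2 (by rw [hec]; exact Sym2.mem_mk_right c c')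
  obtain ⟨γ, γ', M, heγ, hMY, he'M, hfM, hM⟩ := arc hG h5 cY e'Y fY ib (d3 b ib)
  have naa' : a ≠ a' := by
    have hl := hG.loopless e
    rwa [hea, Sym2.mk_isDiag_iff] at hl
  have nbb' : b ≠ b' := by
    have hl := hG.loopless e'
    rwa [heb, Sym2.mk_isDiag_iff] at hl
  have ncc' : c ≠ c' := by
    have hl := hG.loopless f
    rwa [hec, Sym2.mk_isDiag_iff] at hl
  have nab : a ≠ b := fun h => d1 a ia (h ▸ ib)
  have nab' : a ≠ b' := fun h => d1 a ia (h ▸ ib')
  have na'b : a' ≠ b := fun h => d1 a' ia' (h ▸ ib)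
  have na'b' : a' ≠ b' := fun h => d1 a' ia' (h ▸ ib')
  have nac : a ≠ c := fun h => d2 a ia (h ▸ ic)
  have nac' : a ≠ c' := fun h => d2 a ia (h ▸ ic')
  have na'c : a' ≠ c := fun h => d2 a' ia' (h ▸ ic)
  have na'c' : a' ≠ c' := fun h => d2 a' ia' (h ▸ ic')
  have nbc : b ≠ c := fun h => d3 b ib (h ▸ ic)
  have nbc' : b ≠ c' := fun h => d3 b ib (h ▸ ic')
  have nb'c : b' ≠ c := fun h => d3 b' ib' (h ▸ ic)
  have nb'c' : b' ≠ c' := fun h => d3 b' ib' (h ▸ ic')
  have hγ : γ = c' ∨ γ = c := by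
    rw [hec, Sym2.eq_iff] at heγ
    rcases heγ with h | h
    · exact Or.inr h.1.symm
    · exact Or.inl h.2.symm
  rcases hγ with rfl | rfl
  · refine h8a V E G hG T X Y cT cX cY e e' f hee' hef he'f hTXe hTYe' hXYf a a' b b' c γ hea heb
      hec ?_ P hPT R hRX M hMY heP he'P heR hfR he'M hfM hP hR hM
    simp [naa', nbb', ncc', nab, nab', na'b, na'b', nac, nac', na'c, na'c', nbc, nbc', nb'c, nb'c']
  -- the contradictory case
  exfalso
  have eM : e ∉ M := fun h => eY (hMY h)
  have e'R : e' ∉ R := fun h => e'X (hRX h)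
  have fP : f ∉ P := fun h => fT (hPT h)
  have hC1ev : Ev G (symmDiff (symmDiff P R) M) := by
    intro v
    rw [← Nat.not_odd_iff_even, odd_sd, odd_sd, hP, hR, hM]
    by_cases h2 : v = a
    · subst h2; simp [nab, nac]
    by_cases h4 : v = b
    · subst h4; simp [h2, nbc]
    by_cases h5 : v = γ
    · subst h5; simp [h2, h4]
    simp [h2, h4, h5]
  have hdisj : Disjoint (symmDiff (symmDiff P R) M) ({e, e', f} : Finset E) := by
    rw [Finset.disjoint_right]
    intro x hx
    simp only [mem_insert, mem_singleton] at hx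
    simp only [mem_symmDiff]
    rcases hx with rfl | rfl | rfl
    · tauto
    · tauto
    · tauto
  have hKface : ∀ B ∈ F, Even (B ∩ ({e, e', f} : Finset E)).card := by
    intro B hB
    by_cases hBT : B = T
    · subst hBT
      have : B ∩ ({e, e', f} : Finset E) = {e, e'} := by
        ext x
        simp only [mem_inter, mem_insert, mem_singleton]
        constructor
        · rintro ⟨h, rfl | rfl | rfl⟩
          · exact Or.inl rfl
          · exact Or.inr rfl
          · exact absurd h fT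
        · rintro (rfl | rfl)
          · exact ⟨eT, Or.inl rfl⟩
          · exact ⟨e'T, Or.inr (Or.inl rfl)⟩
      rw [this, card_pair hee']; exact even_two
    by_cases hBX : B = X
    · subst hBX
      have : B ∩ ({e, e', f} : Finset E) = {e, f} := by
        ext x
        simp only [mem_inter, mem_insert, mem_singleton]
        constructor
        · rintro ⟨h, rfl | rfl | rfl⟩
          · exact Or.inl rfl
          · exact absurd h e'X
          · exact Or.inr rfl
        · rintro (rfl | rfl)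
          · exact ⟨eX, Or.inl rfl⟩
          · exact ⟨fX, Or.inr (Or.inr rfl)⟩
      rw [this, card_pair hef]; exact even_two
    by_cases hBY : B = Y
    · subst hBY
      have : B ∩ ({e, e', f} : Finset E) = {e', f} := by
        ext x
        simp only [mem_inter, mem_insert, mem_singleton]
        constructor
        · rintro ⟨h, rfl | rfl | rfl⟩
          · exact absurd h eY
          · exact Or.inl rfl
          · exact Or.inr rfl
        · rintro (rfl | rfl)
          · exact ⟨e'Y, Or.inr (Or.inl rfl)⟩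
          · exact ⟨fY, Or.inr (Or.inr rfl)⟩
      rw [this, card_pair he'f]; exact even_two
    have : B ∩ ({e, e', f} : Finset E) = ∅ := by
      rw [← Finset.disjoint_iff_inter_eq_empty, Finset.disjoint_right]
      intro x hx hxB
      simp only [mem_insert, mem_singleton] at hx
      rcases hx with rfl | rfl | rfl
      · rcases two hG hF hT hX hTX eT eX B hB hxB with h | h
        · exact hBT h
        · exact hBX h
      · rcases two hG hF hT hY hTY e'T e'Y B hB hxB with h | h
        · exact hBT h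
        · exact hBY h
      · rcases two hG hF hX hY hXY fX fY B hB hxB with h | h
        · exact hBX h
        · exact hBY h
    rw [this, card_empty]; exact Even.zero
  have hEC1 : EC G 1 := fun S hS hS' => le_trans (by norm_num) (hEC S hS hS')
  obtain ⟨A, hAF, hA, hTA⟩ : ∃ A : Finset (Finset E), (∀ B ∈ A, B ∈ F) ∧
      symmDiff (symmDiff P R) M = oddSum A ∧ T ∉ A := by
    obtain ⟨A, hAF, hA⟩ := hK h1 h3 V E G hG hEC1 F hF hFc {e, e', f} hKface hcut _ hC1ev hdisj
    by_cases hTA : T ∈ A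
    · refine ⟨F.toFinset \ A, fun B hB => Multiset.mem_toFinset.1 (mem_sdiff.1 hB).1, ?_, ?_⟩
      · rw [oddSum_compl hG hF hAF, hA]
      · intro h; exact (mem_sdiff.1 h).2 hTA
    · exact ⟨A, hAF, hA, hTA⟩
  have eC : e ∉ oddSum A := by
    rw [← hA]; exact fun h => Finset.disjoint_left.1 hdisj h (by simp)
  have e'C : e' ∉ oddSum A := by
    rw [← hA]; exact fun h => Finset.disjoint_left.1 hdisj h (by simp)
  have hXA : X ∉ A := by
    rw [odd_iff hG hF hT hX hTX eT eX hAF] at eC; tauto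
  have hYA : Y ∉ A := by
    rw [odd_iff hG hF hT hY hTY e'T e'Y hAF] at e'C; tauto
  -- the vertex set
  let W : Finset V := univ.filter (fun v => ∃ B ∈ A, (B ∩ inc G v).Nonempty)
  have hW : ∀ v, v ∈ W ↔ ∃ B ∈ A, (B ∩ inc G v).Nonempty := by intro v; simp [W]
  have hcutW : cut G W ⊆ {e, e', f} := by
    intro g hg
    obtain ⟨B, hB, B', hB', hne, gB, gB'⟩ := h6 V E G hG F hF A {T, X, Y} hAF (by
      intro B hB
      simp only [mem_insert, mem_singleton] at hB
      rcases hB with rfl | rfl | rfl <;> assumption) (by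
      rw [Finset.disjoint_right]
      intro B hB
      simp only [mem_insert, mem_singleton] at hB
      rcases hB with rfl | rfl | rfl <;> assumption) (by
      intro x hx
      rw [← hA] at hx
      simp only [mem_symmDiff] at hx
      have : x ∈ P ∨ x ∈ R ∨ x ∈ M := by tauto
      rcases this with h | h | h
      · exact ⟨T, by simp, hPT h⟩
      · exact ⟨X, by simp, hRX h⟩
      · exact ⟨Y, by simp, hMY h⟩) W hW g hg
    simp only [mem_insert, mem_singleton] at hB hB' ⊢
    rcases hB with rfl | rfl | rfl <;> rcases hB' with rfl | rfl | rfl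
    · exact absurd rfl hne
    · exact Or.inl (mTX g gB gB')
    · exact Or.inr (Or.inl (mTY g gB gB'))
    · exact Or.inl (mTX g gB' gB)
    · exact absurd rfl hne
    · exact Or.inr (Or.inr (mXY g gB gB'))
    · exact Or.inr (Or.inl (mTY g gB' gB))
    · exact Or.inr (Or.inr (mXY g gB' gB))
    · exact absurd rfl hne
  have hWne : W.Nonempty := by
    -- P is nonempty
    have hPodd : Odd (P ∩ inc G a).card := (hP a).2 (Or.inl rfl)
    obtain ⟨x, hx⟩ : (P ∩ inc G a).Nonempty := by
      rw [← card_pos]; exact hPodd.pos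
    have hxP := (mem_inter.1 hx).1
    have hxR : x ∉ R := fun h => heP ((mTX x (hPT hxP) (hRX h)) ▸ hxP)
    have hxM : x ∉ M := fun h => he'P ((mTY x (hPT hxP) (hMY h)) ▸ hxP)
    have hxC : x ∈ oddSum A := by
      rw [← hA]; simp only [mem_symmDiff]; tauto
    simp only [oddSum, mem_filter, mem_univ, true_and] at hxC
    obtain ⟨B, hB⟩ : (A.filter (fun C => x ∈ C)).Nonempty := by
      rw [← card_pos]; exact hxC.pos
    rw [mem_filter] at hB
    exact ⟨a, (hW a).2 ⟨B, hB.1, x, mem_inter.2 ⟨hB.2, (mem_inter.1 hx).2⟩⟩⟩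
  have ha'W : a' ∉ W := by
    intro h
    obtain ⟨B, hBA, x, hx⟩ := (hW a').1 h
    obtain ⟨xB, xa'⟩ := mem_inter.1 hx
    have hBF := hAF B hBA
    have eB : e ∉ B := by
      intro h
      rcases two hG hF hT hX hTX eT eX B hBF h with h | h
      · exact hTA (h ▸ hBA)
      · exact hXA (h ▸ hBA)
    have hBc : (B ∩ inc G a').card = 2 := card_two hG ((hF.1 B hBF).2.1 a') xB xa'
    have hTc : (T ∩ inc G a').card = 2 := card_two hG (cT.2.1 a') eT ia'
    obtain ⟨t', ht', ht'e⟩ : ∃ t' ∈ T ∩ inc G a', t' ≠ e := Finset.exists_mem_ne (by omega) e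
    obtain ⟨t'T, t'a'⟩ := mem_inter.1 ht'
    have t'B : t' ∈ B := by
      by_contra hcon
      have h3 := Finset.card_sdiff_add_card_inter (inc G a') B
      rw [inter_comm (inc G a') B, hBc, hG.three] at h3
      have h4 : (inc G a' \ B).card ≤ 1 := by omega
      exact ht'e (Finset.card_le_one.1 h4 t' (mem_sdiff.2 ⟨t'a', hcon⟩) e (mem_sdiff.2 ⟨ia', eB⟩))
    have hTB : T ≠ B := fun h => hTA (h ▸ hBA)
    have t'C : t' ∈ oddSum A := by
      rw [odd_iff hG hF hT hBF hTB t'T t'B hAF]; tauto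
    rw [← hA] at t'C
    have t'P : t' ∉ P := by
      intro hh
      have hne : ¬ Odd (P ∩ inc G a').card := by
        rw [hP]
        rintro (h | h)
        · exact naa' h.symm
        · exact na'b h
      apply hne
      have : P ∩ inc G a' = {t'} := by
        ext y
        simp only [mem_inter, mem_singleton]
        constructor
        · rintro ⟨hy, hy'⟩
          by_contra hcon
          have hsub : ({e, t', y} : Finset E) ⊆ T ∩ inc G a' := by
            intro z hz
            simp only [mem_insert, mem_singleton] at hz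
            rcases hz with rfl | rfl | rfl
            · exact mem_inter.2 ⟨eT, ia'⟩
            · exact ht'
            · exact mem_inter.2 ⟨hPT hy, hy'⟩
          have hc := card_le_card hsub
          have hey : e ≠ y := fun h => heP (h ▸ hy)
          rw [hTc, card_eq_three.2 ⟨e, t', y, ht'e.symm, hey, fun h => hcon h.symm, rfl⟩] at hc
          omega
        · rintro rfl
          exact ⟨hh, t'a'⟩
      rw [this, card_singleton]; exact odd_one
    have t'R : t' ∉ R := fun h => ht'e (mTX t' t'T (hRX h))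
    have t'M : t' ∉ M := fun h => d1 a' ia' ((mTY t' t'T (hMY h)) ▸ t'a')
    simp only [mem_symmDiff] at t'C
    tauto
  have hWuniv : W ≠ univ := fun h => ha'W (h ▸ mem_univ a')
  have h3W := hEC W hWne hWuniv
  refine hcut W (Finset.eq_of_subset_of_card_le hcutW ?_)
  rw [card_eq_three.2 ⟨e, e', f, hee', hef, he'f, rfl⟩]
  exact h3W

end Pool.Agent.H366R3.SC.T8_134
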