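import Pool.Agent.H366R3.SC.Stmts

set_option autoImplicit false
set_option linter.unusedSectionVars false
set_option linter.unusedVariables false
set_option maxHeartbeats 4000000

/-!
Task T8a: three circuits pairwise meeting in one edge, Moebius position.
-/

namespace Pool.Agent.H366R3.SC.T8aH773

open Finset
open Pool.Agent.H126R2.CDC (MGraph)

variable {V E : Type} [Fintype V] [DecidableEq V] [Fintype E] [DecidableEq E]

lemma mem_inc {G : MGraph V E} {e : E} {v : V} : e ∈ inc G v ↔ v ∈ G.ends e := by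
  simp [inc]

lemma card_symmDiff_add {A B : Finset E} :
    (symmDiff A B).card + 2 * (A ∩ B).card = A.card + B.card := by
  have h1 : (symmDiff A B).card = (A \ B).card + (B \ A).card := by
    rw [symmDiff_def, sup_eq_union, card_union_of_disjoint]
    exact disjoint_sdiff_sdiff
  have h2 := card_sdiff_add_card_inter A B
  have h3 := card_sdiff_add_card_inter B A
  rw [inter_comm B A] at h3
  omega

lemma odd_symmDiff (G : MGraph V E) (A B : Finset E) (v : V) :
    Odd (symmDiff A B ∩ inc G v).card ↔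
      ¬ (Odd (A ∩ inc G v).card ↔ Odd (B ∩ inc G v).card) := by
  have h0 : symmDiff A B ∩ inc G v = symmDiff (A ∩ inc G v) (B ∩ inc G v) := by
    ext x
    simp only [mem_inter, mem_symmDiff]
    tauto
  rw [h0]
  have h := card_symmDiff_add (A := A ∩ inc G v) (B := B ∩ inc G v)
  rw [Nat.odd_iff, Nat.odd_iff, Nat.odd_iff]
  omega

/-- handshake -/
lemma handshake {G : MGraph V E} (hl : ∀ e, ¬ (G.ends e).IsDiag) (A : Finset E) :
    ∑ v, (A ∩ inc G v).card = 2 * A.card := by
  have h1 : ∀ v, (A ∩ inc G v).card = ∑ e ∈ A, if v ∈ G.ends e then 1 else 0 := by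
    intro v
    rw [← card_filter]
    congr 1
    ext x
    simp [inc]
  simp_rw [h1]
  rw [sum_comm]
  have h2 : ∀ e ∈ A, (∑ v : V, if v ∈ G.ends e then 1 else 0) = 2 := by
    intro e _
    have h3 := hl e
    revert h3
    induction G.ends e using Sym2.ind with
    | _ x y =>
      intro h3
      rw [Sym2.mk_isDiag_iff] at h3
      rw [← card_filter]
      have : (univ.filter fun v => v ∈ s(x, y)) = {x, y} := by
        ext v
        simp
      rw [this, card_pair h3]
  rw [sum_congr rfl h2]
  simp [mul_comm]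

/-- a set with odd degree possibly at `a`, `b` only -/
lemma two_odd {G : MGraph V E} (hl : ∀ e, ¬ (G.ends e).IsDiag) (A : Finset E) (a b : V)
    (hab : a ≠ b) (p q : Prop)
    (h : ∀ v, Odd (A ∩ inc G v).card ↔ (v = a ∧ p) ∨ (v = b ∧ q)) : p ↔ q := by
  have h1 := handshake hl A
  have h2 : Even (∑ v, (A ∩ inc G v).card) := by rw [h1]; exact even_two_mul _
  rw [even_sum_iff_even_card_odd] at h2
  by_contra hne
  have h3 : (univ.filter fun v => Odd (A ∩ inc G v).card).card = 1 := by
    by_cases hp : p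
    · have hq : ¬ q := fun hq => hne ⟨fun _ => hq, fun _ => hp⟩
      rw [card_eq_one]
      refine ⟨a, ?_⟩
      ext v
      simp [h, hp, hq]
    · have hq : q := by
        by_contra hq
        exact hne ⟨fun h => absurd h hp, fun h => absurd h hq⟩
      rw [card_eq_one]
      refine ⟨b, ?_⟩
      ext v
      simp [h, hp, hq]
  rw [h3] at h2
  exact absurd h2 (by decide)

lemma deg_two {G : MGraph V E} (hc : Cubic G) {T : Finset E} (hT : Ev G T) {v : V}
    (h : (T ∩ inc G v).Nonempty) : (T ∩ inc G v).card = 2 := by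
  have h1 : (T ∩ inc G v).card ≤ 3 := by
    rw [← hc.three v]
    exact card_le_card inter_subset_right
  have h2 := hT v
  have h3 := card_pos.2 h
  rw [Nat.even_iff] at h2
  omega

/-- two circuits with one common edge meet only at its ends -/
lemma meet {G : MGraph V E} (hc : Cubic G) {T X : Finset E} (hT : Ev G T) (hX : Ev G X) {e : E}
    (hTX : T ∩ X = {e}) {v : V} (h1 : (T ∩ inc G v).Nonempty) (h2 : (X ∩ inc G v).Nonempty) :
    v ∈ G.ends e := by
  have c1 := deg_two hc hT h1
  have c2 := deg_two hc hX h2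
  have c3 : ((T ∩ inc G v) ∪ (X ∩ inc G v)).card ≤ 3 := by
    rw [← hc.three v]
    exact card_le_card (union_subset inter_subset_right inter_subset_right)
  have c4 := card_union_add_card_inter (T ∩ inc G v) (X ∩ inc G v)
  have c5 : 0 < ((T ∩ inc G v) ∩ (X ∩ inc G v)).card := by omega
  obtain ⟨x, hx⟩ := card_pos.1 c5
  simp only [mem_inter] at hx
  have hx2 : x ∈ T ∩ X := mem_inter.2 ⟨hx.1.1, hx.2.1⟩
  rw [hTX, mem_singleton] at hx2
  subst hx2
  exact mem_inc.1 hx.1.2

lemma part_empty {G : MGraph V E} (hc : Cubic G) {T P : Finset E} (hT : Ev G T) (hP : P ⊆ T)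
    {e : E} (he : e ∈ T) (heP : e ∉ P) {v : V} (hv : v ∈ G.ends e)
    (hodd : ¬ Odd (P ∩ inc G v).card) : P ∩ inc G v = ∅ := by
  have h1 : (T ∩ inc G v).Nonempty := ⟨e, mem_inter.2 ⟨he, mem_inc.2 hv⟩⟩
  have h2 := deg_two hc hT h1
  have h3 : P ∩ inc G v ⊆ (T ∩ inc G v).erase e := by
    intro x hx
    rw [mem_inter] at hx
    rw [mem_erase, mem_inter]
    exact ⟨fun h => heP (h ▸ hx.1), hP hx.1, hx.2⟩
  have h4 := card_le_card h3
  rw [card_erase_of_mem (mem_inter.2 ⟨he, mem_inc.2 hv⟩), h2] at h4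
  rw [← card_eq_zero]
  rw [Nat.odd_iff] at hodd
  omega

/-- an arc inside an even set -/
lemma part {G : MGraph V E} (hc : Cubic G) {T P D : Finset E} (hT : Circ G T) (hP : P ⊆ T)
    {e e' : E} (he : e ∈ T) (he' : e' ∈ T) (heP : e ∉ P)
    {a a' b b' : V} (hea : G.ends e = s(a, a')) (heb : G.ends e' = s(b, b'))
    (n1 : a ≠ a') (n2 : a ≠ b) (n3 : a ≠ b') (n4 : a' ≠ b) (n6 : b ≠ b')
    (he'P : e' ∉ P)
    (hodd : ∀ v, Odd (P ∩ inc G v).card ↔ (v = a ∨ v = b))
    (hD : Ev G D) (hDT : ∀ x ∈ D, x ∈ T → x ∈ P ∨ x = e ∨ x = e')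
    (hout : ∀ x ∈ D, x ∉ T → ∀ v, v ∈ G.ends x → (T ∩ inc G v).Nonempty → v = a' ∨ v = b')
    (n5 : a' ≠ b') :
    (e ∈ D ↔ e' ∈ D) ∧ (e ∉ D → D ∩ P = ∅) ∧ (e ∈ D → P ⊆ D) := by
  have hTe := hT.2.1
  have ma : a ∈ G.ends e := by rw [hea]; simp
  have ma' : a' ∈ G.ends e := by rw [hea]; simp
  have mb : b ∈ G.ends e' := by rw [heb]; simp
  have mb' : b' ∈ G.ends e' := by rw [heb]; simp
  have ea' : P ∩ inc G a' = ∅ := part_empty hc hTe hP he heP ma'
    (fun h => by rcases (hodd a').1 h with h | h; exacts [n1 h.symm, n4 h])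
  have eb' : P ∩ inc G b' = ∅ := part_empty hc hTe hP he' he'P mb'
    (fun h => by rcases (hodd b').1 h with h | h; exacts [n3 h.symm, n6 h.symm])
  have hpar : ∀ v, Odd ((D ∩ P) ∩ inc G v).card ↔ (v = a ∧ e ∈ D) ∨ (v = b ∧ e' ∈ D) := by
    intro v
    by_cases hva' : v = a'
    · subst hva'
      have : (D ∩ P) ∩ inc G v = ∅ := by
        rw [inter_assoc, ea', inter_empty]
      rw [this]
      constructor
      · intro h; simp at h
      · rintro (⟨h, _⟩ | ⟨h, _⟩)
        · exact absurd h.symm n1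
        · exact absurd h n4
    by_cases hvb' : v = b'
    · subst hvb'
      have : (D ∩ P) ∩ inc G v = ∅ := by
        rw [inter_assoc, eb', inter_empty]
      rw [this]
      constructor
      · intro h; simp at h
      · rintro (⟨h, _⟩ | ⟨h, _⟩)
        · exact absurd h.symm n3
        · exact absurd h.symm n6
    have hEv := hD v
    by_cases hTv : (T ∩ inc G v).Nonempty
    · -- all edges of `D` at `v` are in `T`
      have hall : ∀ x ∈ D, v ∈ G.ends x → x ∈ P ∨ x = e ∨ x = e' := by
        intro x hx hxv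
        by_cases hxT : x ∈ T
        · exact hDT x hx hxT
        · rcases hout x hx hxT v hxv hTv with h | h
          · exact absurd h hva'
          · exact absurd h hvb'
      by_cases hva : v = a
      · subst hva
        have hne' : v ∉ G.ends e' := by
          rw [heb]; simp [n2, n3]
        by_cases heD : e ∈ D
        · have : D ∩ inc G v = insert e ((D ∩ P) ∩ inc G v) := by
            ext x
            simp only [mem_inter, mem_insert, mem_inc]
            constructor
            · rintro ⟨h1, h2⟩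
              rcases hall x h1 h2 with h | h | h
              · exact Or.inr ⟨⟨h1, h⟩, h2⟩
              · exact Or.inl h
              · subst h; exact absurd h2 hne'
            · rintro (h | ⟨⟨h1, _⟩, h2⟩)
              · subst h; exact ⟨heD, ma⟩
              · exact ⟨h1, h2⟩
          rw [this, card_insert_of_notMem (by simp [heP])] at hEv
          rw [Nat.even_iff] at hEv
          rw [Nat.odd_iff]
          constructor
          · intro _; exact Or.inl ⟨rfl, heD⟩
          · intro _; omega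
        · have : D ∩ inc G v = (D ∩ P) ∩ inc G v := by
            ext x
            simp only [mem_inter, mem_inc]
            constructor
            · rintro ⟨h1, h2⟩
              rcases hall x h1 h2 with h | h | h
              · exact ⟨⟨h1, h⟩, h2⟩
              · subst h; exact absurd h1 heD
              · subst h; exact absurd h2 hne'
            · rintro ⟨⟨h1, _⟩, h2⟩
              exact ⟨h1, h2⟩
          rw [this] at hEv
          constructor
          · intro h; exact absurd hEv (Nat.not_even_iff_odd.2 h)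
          · rintro (⟨_, h⟩ | ⟨h, _⟩)
            · exact absurd h heD
            · exact absurd h n2
      · by_cases hvb : v = b
        · subst hvb
          have hne : v ∉ G.ends e := by
            rw [hea]; simp [n2.symm, n4.symm]
          by_cases heD : e' ∈ D
          · have : D ∩ inc G v = insert e' ((D ∩ P) ∩ inc G v) := by
              ext x
              simp only [mem_inter, mem_insert, mem_inc]
              constructor
              · rintro ⟨h1, h2⟩
                rcases hall x h1 h2 with h | h | h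
                · exact Or.inr ⟨⟨h1, h⟩, h2⟩
                · subst h; exact absurd h2 hne
                · exact Or.inl h
              · rintro (h | ⟨⟨h1, _⟩, h2⟩)
                · subst h; exact ⟨heD, mb⟩
                · exact ⟨h1, h2⟩
            rw [this, card_insert_of_notMem (by simp [he'P])] at hEv
            rw [Nat.even_iff] at hEv
            rw [Nat.odd_iff]
            constructor
            · intro _; exact Or.inr ⟨rfl, heD⟩
            · intro _; omega
          · have : D ∩ inc G v = (D ∩ P) ∩ inc G v := by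
              ext x
              simp only [mem_inter, mem_inc]
              constructor
              · rintro ⟨h1, h2⟩
                rcases hall x h1 h2 with h | h | h
                · exact ⟨⟨h1, h⟩, h2⟩
                · subst h; exact absurd h2 hne
                · subst h; exact absurd h1 heD
              · rintro ⟨⟨h1, _⟩, h2⟩
                exact ⟨h1, h2⟩
            rw [this] at hEv
            constructor
            · intro h; exact absurd hEv (Nat.not_even_iff_odd.2 h)
            · rintro (⟨h, _⟩ | ⟨_, h⟩)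
              · exact absurd h.symm n2
              · exact absurd h heD
        · have hne : v ∉ G.ends e := by
            rw [hea]; simp [hva, hva']
          have hne' : v ∉ G.ends e' := by
            rw [heb]; simp [hvb, hvb']
          have : D ∩ inc G v = (D ∩ P) ∩ inc G v := by
            ext x
            simp only [mem_inter, mem_inc]
            constructor
            · rintro ⟨h1, h2⟩
              rcases hall x h1 h2 with h | h | h
              · exact ⟨⟨h1, h⟩, h2⟩
              · subst h; exact absurd h2 hne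
              · subst h; exact absurd h2 hne'
            · rintro ⟨⟨h1, _⟩, h2⟩
              exact ⟨h1, h2⟩
          rw [this] at hEv
          constructor
          · intro h; exact absurd hEv (Nat.not_even_iff_odd.2 h)
          · rintro (⟨h, _⟩ | ⟨h, _⟩)
            · exact absurd h hva
            · exact absurd h hvb
    · have h0 : (D ∩ P) ∩ inc G v = ∅ := by
        rw [not_nonempty_iff_eq_empty] at hTv
        rw [← subset_empty, ← hTv]
        intro x hx
        simp only [mem_inter] at hx ⊢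
        exact ⟨hP hx.1.2, hx.2⟩
      rw [h0]
      constructor
      · intro h; simp at h
      · rintro (⟨h, _⟩ | ⟨h, _⟩)
        · subst h; exact absurd ⟨e, mem_inter.2 ⟨he, mem_inc.2 ma⟩⟩ hTv
        · subst h; exact absurd ⟨e', mem_inter.2 ⟨he', mem_inc.2 mb⟩⟩ hTv
  have hiff : e ∈ D ↔ e' ∈ D := two_odd hc.loopless (D ∩ P) a b n2 _ _ hpar
  have hkill : ∀ B : Finset E, B ⊆ P → Ev G B → B = ∅ := by
    intro B hB hBe
    by_contra hne
    have h1 := hT.2.2 B (hB.trans hP) (nonempty_iff_ne_empty.2 hne) hBe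
    exact heP (hB (h1 ▸ he))
  refine ⟨hiff, fun hn => ?_, fun hy => ?_⟩
  · apply hkill _ inter_subset_right
    intro v
    rw [← Nat.not_odd_iff_even, hpar v]
    have hn' : e' ∉ D := fun h => hn (hiff.2 h)
    simp [hn, hn']
  · have h1 : P \ D = ∅ := by
      apply hkill _ sdiff_subset
      intro v
      have h2 : P \ D = symmDiff (D ∩ P) P := by
        ext x
        simp only [mem_sdiff, mem_symmDiff, mem_inter]
        tauto
      rw [← Nat.not_odd_iff_even, h2, odd_symmDiff, hpar v, hodd v]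
      have hy' : e' ∈ D := hiff.1 hy
      simp [hy, hy']
    exact sdiff_eq_empty_iff_subset.1 h1


/-- the circuit formed by three arcs and three edges -/
lemma zcirc {G : MGraph V E} (hc : Cubic G) {T X Y P S N : Finset E} (hT : Circ G T)
    (hX : Circ G X) (hY : Circ G Y) {e e' f : E} (hTX : T ∩ X = {e}) (hTY : T ∩ Y = {e'})
    (hXY : X ∩ Y = {f}) {a a' b b' c c' : V} (hea : G.ends e = s(a, a'))
    (heb : G.ends e' = s(b, b')) (hfc : G.ends f = s(c, c'))
    (n1 : a ≠ a') (n2 : a ≠ b) (n3 : a ≠ b') (n4 : a ≠ c) (n5 : a ≠ c') (n6 : a' ≠ b)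
    (n7 : a' ≠ b') (n8 : a' ≠ c) (n9 : a' ≠ c') (n10 : b ≠ b') (n11 : b ≠ c) (n12 : b ≠ c')
    (n13 : b' ≠ c) (n14 : b' ≠ c') (n15 : c ≠ c')
    (hP : P ⊆ T) (hS : S ⊆ X) (hN : N ⊆ Y) (heP : e ∉ P) (he'P : e' ∉ P) (heS : e ∉ S)
    (hfS : f ∉ S) (he'N : e' ∉ N) (hfN : f ∉ N)
    (oP : ∀ v, Odd (P ∩ inc G v).card ↔ (v = a ∨ v = b))
    (oS : ∀ v, Odd (S ∩ inc G v).card ↔ (v = a' ∨ v = c'))
    (oN : ∀ v, Odd (N ∩ inc G v).card ↔ (v = b' ∨ v = c)) :
    Circ G (P ∪ S ∪ N ∪ {e, e', f}) := by
  have heT : e ∈ T := (mem_inter.1 (hTX ▸ mem_singleton_self e : e ∈ T ∩ X)).1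
  have heX : e ∈ X := (mem_inter.1 (hTX ▸ mem_singleton_self e : e ∈ T ∩ X)).2
  have he'T : e' ∈ T := (mem_inter.1 (hTY ▸ mem_singleton_self e' : e' ∈ T ∩ Y)).1
  have he'Y : e' ∈ Y := (mem_inter.1 (hTY ▸ mem_singleton_self e' : e' ∈ T ∩ Y)).2
  have hfX : f ∈ X := (mem_inter.1 (hXY ▸ mem_singleton_self f : f ∈ X ∩ Y)).1
  have hfY : f ∈ Y := (mem_inter.1 (hXY ▸ mem_singleton_self f : f ∈ X ∩ Y)).2
  have iTX : ∀ x, x ∈ T → x ∈ X → x = e := fun x h1 h2 =>
    mem_singleton.1 (hTX ▸ mem_inter.2 ⟨h1, h2⟩)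
  have iTY : ∀ x, x ∈ T → x ∈ Y → x = e' := fun x h1 h2 =>
    mem_singleton.1 (hTY ▸ mem_inter.2 ⟨h1, h2⟩)
  have iXY : ∀ x, x ∈ X → x ∈ Y → x = f := fun x h1 h2 =>
    mem_singleton.1 (hXY ▸ mem_inter.2 ⟨h1, h2⟩)
  have nee' : e ≠ e' := by
    intro h
    rw [h, heb, Sym2.eq_iff] at hea
    rcases hea with ⟨h1, _⟩ | ⟨h1, _⟩
    · exact n2 h1.symm
    · exact n6 h1.symm
  have nef : e ≠ f := by
    intro h
    rw [h, hfc, Sym2.eq_iff] at hea
    rcases hea with ⟨h1, _⟩ | ⟨h1, _⟩
    · exact n4 h1.symm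
    · exact n8 h1.symm
  have ne'f : e' ≠ f := by
    intro h
    rw [h, hfc, Sym2.eq_iff] at heb
    rcases heb with ⟨h1, _⟩ | ⟨h1, _⟩
    · exact n11 h1.symm
    · exact n13 h1.symm
  have ve : ∀ v, v ∈ G.ends e ↔ v = a ∨ v = a' := fun v => by rw [hea]; simp
  have ve' : ∀ v, v ∈ G.ends e' ↔ v = b ∨ v = b' := fun v => by rw [heb]; simp
  have vf : ∀ v, v ∈ G.ends f ↔ v = c ∨ v = c' := fun v => by rw [hfc]; simp
  -- empty places
  have Sa : S ∩ inc G a = ∅ := part_empty hc hX.2.1 hS heX heS ((ve a).2 (Or.inl rfl))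
    (fun h => by rcases (oS a).1 h with h | h; exacts [n1 h, n5 h])
  have Sc : S ∩ inc G c = ∅ := part_empty hc hX.2.1 hS hfX hfS ((vf c).2 (Or.inl rfl))
    (fun h => by rcases (oS c).1 h with h | h; exacts [n8 h.symm, n15 h])
  have Nb : N ∩ inc G b = ∅ := part_empty hc hY.2.1 hN he'Y he'N ((ve' b).2 (Or.inl rfl))
    (fun h => by rcases (oN b).1 h with h | h; exacts [n10 h, n11 h])
  have Nc' : N ∩ inc G c' = ∅ := part_empty hc hY.2.1 hN hfY hfN ((vf c').2 (Or.inr rfl))
    (fun h => by rcases (oN c').1 h with h | h; exacts [n14 h.symm, n15 h.symm])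
  have Pa' : P ∩ inc G a' = ∅ := part_empty hc hT.2.1 hP heT heP ((ve a').2 (Or.inr rfl))
    (fun h => by rcases (oP a').1 h with h | h; exacts [n1 h.symm, n6 h])
  have Pb' : P ∩ inc G b' = ∅ := part_empty hc hT.2.1 hP he'T he'P ((ve' b').2 (Or.inr rfl))
    (fun h => by rcases (oP b').1 h with h | h; exacts [n3 h.symm, n10 h.symm])
  have hno : ∀ {B : Finset E} {v : V} {x : E}, B ∩ inc G v = ∅ → x ∈ B → v ∈ G.ends x → False := by
    intro B v x h1 h2 h3
    have : x ∈ B ∩ inc G v := mem_inter.2 ⟨h2, mem_inc.2 h3⟩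
    rw [h1] at this
    exact absurd this (notMem_empty x)
  have hEvZ : Ev G (P ∪ S ∪ N ∪ {e, e', f}) := by
    intro v
    have hz : P ∪ S ∪ N ∪ {e, e', f} =
        symmDiff P (symmDiff S (symmDiff N (symmDiff {e} (symmDiff {e'} {f})))) := by
      ext x
      have p1 : x ∈ P → x ∈ T := fun h => hP h
      have p2 : x ∈ S → x ∈ X := fun h => hS h
      have p3 : x ∈ N → x ∈ Y := fun h => hN h
      have q1 := iTX x
      have q2 := iTY x
      have q3 := iXY x
      have r1 : x = e → x ∉ P := fun h => h ▸ heP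
      have r2 : x = e' → x ∉ P := fun h => h ▸ he'P
      have r3 : x = e → x ∉ S := fun h => h ▸ heS
      have r4 : x = f → x ∉ S := fun h => h ▸ hfS
      have r5 : x = e' → x ∉ N := fun h => h ▸ he'N
      have r6 : x = f → x ∉ N := fun h => h ▸ hfN
      have t1 : x = e → x ∉ Y := fun h hy => nee' (h ▸ iTY x (h ▸ heT) hy)
      have t2 : x = e' → x ∉ X := fun h hy => nee' ((h ▸ iTX x (h ▸ he'T) hy : e' = e).symm)
      have t3 : x = f → x ∉ T := fun h hy => nef ((h ▸ iTX x hy (h ▸ hfX) : f = e).symm)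
      have s1 : x = e → x ≠ e' := fun h h' => nee' (h ▸ h')
      have s2 : x = e → x ≠ f := fun h h' => nef (h ▸ h')
      have s3 : x = e' → x ≠ f := fun h h' => ne'f (h ▸ h')
      simp only [mem_union, mem_symmDiff, mem_insert, mem_singleton]
      by_cases c1 : x = e
      · have u1 := r1 c1
        have u2 := r3 c1
        have u3 : x ∉ N := fun h => t1 c1 (p3 h)
        have u4 := s1 c1
        have u5 := s2 c1
        simp only [c1] at u1 u2 u3 u4 u5
        simp [c1, u1, u2, u3, u4, u5]
      · by_cases c2 : x = e'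
        · have u1 := r2 c2
          have u2 := r5 c2
          have u3 : x ∉ S := fun h => t2 c2 (p2 h)
          have u4 := s3 c2
          simp only [c2] at u1 u2 u3 u4 c1
          simp [c2, u1, u2, u3, u4, c1]
        · by_cases c3 : x = f
          · have u1 := r4 c3
            have u2 := r6 c3
            have u3 : x ∉ P := fun h => t3 c3 (p1 h)
            simp only [c3] at u1 u2 u3 c1 c2
            simp [c3, u1, u2, u3, c1, c2]
          · by_cases d1 : x ∈ P
            · have d2 : x ∉ S := fun h => c1 (q1 (p1 d1) (p2 h))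
              have d3 : x ∉ N := fun h => c2 (q2 (p1 d1) (p3 h))
              simp [c1, c2, c3, d1, d2, d3]
            · by_cases d2 : x ∈ S
              · have d3 : x ∉ N := fun h => c3 (q3 (p2 d2) (p3 h))
                simp [c1, c2, c3, d1, d2, d3]
              · simp [c1, c2, c3, d1, d2]
    have hsing : ∀ (g : E), Odd (({g} : Finset E) ∩ inc G v).card ↔ v ∈ G.ends g := by
      intro g
      by_cases h : v ∈ G.ends g
      · have : ({g} : Finset E) ∩ inc G v = {g} := by
          ext x
          simp only [mem_inter, mem_singleton, mem_inc]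
          constructor
          · exact fun h => h.1
          · intro hx; subst hx; exact ⟨rfl, h⟩
        rw [this]
        simp [h]
      · have : ({g} : Finset E) ∩ inc G v = ∅ := by
          ext x
          simp only [mem_inter, mem_singleton, mem_inc, notMem_empty, iff_false]
          rintro ⟨hx, h1⟩
          subst hx; exact h h1
        rw [this]
        simp [h]
    rw [← Nat.not_odd_iff_even, hz, odd_symmDiff, odd_symmDiff, odd_symmDiff, odd_symmDiff,
      odd_symmDiff, hsing, hsing, hsing, oP, oS, oN, ve, ve', vf]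
    by_cases c1 : v = a
    · subst c1
      simp [n1, n2, n3, n4, n5]
    by_cases c2 : v = a'
    · subst c2
      simp [n1.symm, n6, n7, n8, n9]
    by_cases c3 : v = b
    · subst c3
      simp [n2.symm, n6.symm, n10, n11, n12]
    by_cases c4 : v = b'
    · subst c4
      simp [n3.symm, n7.symm, n10.symm, n13, n14]
    by_cases c5 : v = c
    · subst c5
      simp [n4.symm, n8.symm, n11.symm, n13.symm, n15]
    by_cases c6 : v = c'
    · subst c6
      simp [n5.symm, n9.symm, n12.symm, n14.symm, n15.symm]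
    simp [c1, c2, c3, c4, c5, c6]
  refine ⟨⟨e, by simp⟩, hEvZ, ?_⟩
  intro D hDZ hDne hDE
  have hDc : ∀ x ∈ D, x ∈ P ∨ x ∈ S ∨ x ∈ N ∨ x = e ∨ x = e' ∨ x = f := by
    intro x hx
    have := hDZ hx
    simp only [mem_union, mem_insert, mem_singleton] at this
    tauto
  have nonemp : ∀ {B : Finset E} {x : E} {v : V}, x ∈ B → v ∈ G.ends x →
      (B ∩ inc G v).Nonempty := fun h1 h2 => ⟨_, mem_inter.2 ⟨h1, mem_inc.2 h2⟩⟩
  obtain ⟨i1, k1, l1⟩ := part (D := D) hc hT hP heT he'T heP hea heb n1 n2 n3 n6 n10 he'P oP hDE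
    (by
      intro x hx hxT
      rcases hDc x hx with h | h | h | h | h | h
      · exact Or.inl h
      · exact Or.inr (Or.inl (iTX x hxT (hS h)))
      · exact Or.inr (Or.inr (iTY x hxT (hN h)))
      · exact Or.inr (Or.inl h)
      · exact Or.inr (Or.inr h)
      · subst h; exact Or.inr (Or.inl (iTX x hxT hfX)))
    (by
      intro x hx hxT v hv hTv
      rcases hDc x hx with h | h | h | h | h | h
      · exact absurd (hP h) hxT
      · have := meet hc hT.2.1 hX.2.1 hTX hTv (nonemp (hS h) hv)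
        rcases (ve v).1 this with h1 | h1
        · subst h1; exact (hno Sa h hv).elim
        · exact Or.inl h1
      · have := meet hc hT.2.1 hY.2.1 hTY hTv (nonemp (hN h) hv)
        rcases (ve' v).1 this with h1 | h1
        · subst h1; exact (hno Nb h hv).elim
        · exact Or.inr h1
      · subst h; exact absurd heT hxT
      · subst h; exact absurd he'T hxT
      · subst h
        have := meet hc hT.2.1 hX.2.1 hTX hTv (nonemp hfX hv)
        exfalso
        rcases (ve v).1 this with h1 | h1 <;> rcases (vf v).1 hv with h2 | h2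
        · exact n4 (h1.symm.trans h2)
        · exact n5 (h1.symm.trans h2)
        · exact n8 (h1.symm.trans h2)
        · exact n9 (h1.symm.trans h2))
    n7
  obtain ⟨i2, k2, l2⟩ := part (D := D) (P := S) hc hX hS heX hfX heS
    (a := a') (a' := a) (b := c') (b' := c)
    (by rw [hea]; exact Sym2.eq_swap) (by rw [hfc]; exact Sym2.eq_swap)
    n1.symm n9 n8 n5 n15.symm hfS oS hDE
    (by
      intro x hx hxT
      rcases hDc x hx with h | h | h | h | h | h
      · exact Or.inr (Or.inl (iTX x (hP h) hxT))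
      · exact Or.inl h
      · exact Or.inr (Or.inr (iXY x hxT (hN h)))
      · exact Or.inr (Or.inl h)
      · subst h; exact Or.inr (Or.inl (iTX x he'T hxT))
      · exact Or.inr (Or.inr h))
    (by
      intro x hx hxX v hv hXv
      rcases hDc x hx with h | h | h | h | h | h
      · have := meet hc hT.2.1 hX.2.1 hTX (nonemp (hP h) hv) hXv
        rcases (ve v).1 this with h1 | h1
        · exact Or.inl h1
        · subst h1; exact (hno Pa' h hv).elim
      · exact absurd (hS h) hxX
      · have := meet hc hX.2.1 hY.2.1 hXY hXv (nonemp (hN h) hv)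
        rcases (vf v).1 this with h1 | h1
        · exact Or.inr h1
        · subst h1; exact (hno Nc' h hv).elim
      · subst h; exact absurd heX hxX
      · subst h
        have := meet hc hT.2.1 hX.2.1 hTX (nonemp he'T hv) hXv
        exfalso
        rcases (ve v).1 this with h1 | h1 <;> rcases (ve' v).1 hv with h2 | h2
        · exact n2 (h1.symm.trans h2)
        · exact n3 (h1.symm.trans h2)
        · exact n6 (h1.symm.trans h2)
        · exact n7 (h1.symm.trans h2)
      · subst h; exact absurd hfX hxX)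
    n4
  obtain ⟨i3, k3, l3⟩ := part (D := D) (P := N) hc hY hN he'Y hfY he'N
    (a := b') (a' := b) (b := c) (b' := c')
    (by rw [heb]; exact Sym2.eq_swap) hfc
    n10.symm n13 n14 n11 n15 hfN oN hDE
    (by
      intro x hx hxT
      rcases hDc x hx with h | h | h | h | h | h
      · exact Or.inr (Or.inl (iTY x (hP h) hxT))
      · exact Or.inr (Or.inr (iXY x (hS h) hxT))
      · exact Or.inl h
      · subst h; exact Or.inr (Or.inl (iTY x heT hxT))
      · exact Or.inr (Or.inl h)
      · exact Or.inr (Or.inr h))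
    (by
      intro x hx hxY v hv hYv
      rcases hDc x hx with h | h | h | h | h | h
      · have := meet hc hT.2.1 hY.2.1 hTY (nonemp (hP h) hv) hYv
        rcases (ve' v).1 this with h1 | h1
        · exact Or.inl h1
        · subst h1; exact (hno Pb' h hv).elim
      · have := meet hc hX.2.1 hY.2.1 hXY (nonemp (hS h) hv) hYv
        rcases (vf v).1 this with h1 | h1
        · subst h1; exact (hno Sc h hv).elim
        · exact Or.inr h1
      · exact absurd (hN h) hxY
      · subst h
        have := meet hc hT.2.1 hY.2.1 hTY (nonemp heT hv) hYv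
        exfalso
        rcases (ve v).1 hv with h1 | h1 <;> rcases (ve' v).1 this with h2 | h2
        · exact n2 (h1.symm.trans h2)
        · exact n3 (h1.symm.trans h2)
        · exact n6 (h1.symm.trans h2)
        · exact n7 (h1.symm.trans h2)
      · subst h; exact absurd he'Y hxY
      · subst h; exact absurd hfY hxY)
    n12
  by_cases hD : e ∈ D
  · have h1 : e' ∈ D := i1.1 hD
    have h2 : f ∈ D := i2.1 hD
    apply Subset.antisymm hDZ
    intro x hx
    simp only [mem_union, mem_insert, mem_singleton] at hx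
    rcases hx with ((h | h) | h) | h | h | h
    · exact l1 hD h
    · exact l2 hD h
    · exact l3 h1 h
    · subst h; exact hD
    · subst h; exact h1
    · subst h; exact h2
  · exfalso
    have h1 : e' ∉ D := fun h => hD (i1.2 h)
    have h2 : f ∉ D := fun h => hD (i2.2 h)
    obtain ⟨x, hx⟩ := hDne
    have g1 := k1 hD
    have g2 := k2 hD
    have g3 := k3 h1
    rcases hDc x hx with h | h | h | h | h | h
    · exact absurd (g1 ▸ mem_inter.2 ⟨hx, h⟩) (notMem_empty x)
    · exact absurd (g2 ▸ mem_inter.2 ⟨hx, h⟩) (notMem_empty x)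
    · exact absurd (g3 ▸ mem_inter.2 ⟨hx, h⟩) (notMem_empty x)
    · subst h; exact hD hx
    · subst h; exact h1 hx
    · subst h; exact h2 hx

/-- the complementary arc -/
lemma compl_arc {G : MGraph V E} {T P : Finset E} (hT : Ev G T) (hP : P ⊆ T) {e e' : E}
    (he : e ∈ T) (he' : e' ∈ T) (hne : e ≠ e') (heP : e ∉ P) (he'P : e' ∉ P)
    {a a' b b' : V} (hea : G.ends e = s(a, a')) (heb : G.ends e' = s(b, b'))
    (n1 : a ≠ a') (n2 : a ≠ b) (n3 : a ≠ b') (n4 : a' ≠ b) (n5 : a' ≠ b') (n6 : b ≠ b')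
    (hodd : ∀ v, Odd (P ∩ inc G v).card ↔ (v = a ∨ v = b)) (v : V) :
    Odd (((T \ {e, e'}) \ P) ∩ inc G v).card ↔ (v = a' ∨ v = b') := by
  have hz : (T \ {e, e'}) \ P = symmDiff T (symmDiff P (symmDiff {e} {e'})) := by
    ext x
    simp only [mem_sdiff, mem_symmDiff, mem_insert, mem_singleton]
    have h1 : x ∈ P → x ∈ T := fun h => hP h
    by_cases c1 : x = e
    · subst c1; tauto
    · by_cases c2 : x = e'
      · subst c2; tauto
      · tauto
  have hsing : ∀ (g : E), Odd (({g} : Finset E) ∩ inc G v).card ↔ v ∈ G.ends g := by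
    intro g
    by_cases h : v ∈ G.ends g
    · have : ({g} : Finset E) ∩ inc G v = {g} := by
        ext x
        simp only [mem_inter, mem_singleton, mem_inc]
        constructor
        · exact fun h => h.1
        · intro hx; subst hx; exact ⟨rfl, h⟩
      rw [this]
      simp [h]
    · have : ({g} : Finset E) ∩ inc G v = ∅ := by
        ext x
        simp only [mem_inter, mem_singleton, mem_inc, notMem_empty, iff_false]
        rintro ⟨hx, h1⟩
        subst hx; exact h h1
      rw [this]
      simp [h]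
  have ve : v ∈ G.ends e ↔ v = a ∨ v = a' := by rw [hea]; simp
  have ve' : v ∈ G.ends e' ↔ v = b ∨ v = b' := by rw [heb]; simp
  have hTv : ¬ Odd (T ∩ inc G v).card := Nat.not_odd_iff_even.2 (hT v)
  rw [hz, odd_symmDiff, odd_symmDiff, odd_symmDiff, hsing, hsing, hodd, ve, ve']
  by_cases c1 : v = a
  · subst c1
    simp [n1, n2, n3, hTv]
  by_cases c2 : v = a'
  · subst c2
    simp [n1.symm, n4, n5, hTv]
  by_cases c3 : v = b
  · subst c3
    simp [n2.symm, n4.symm, n6, hTv]
  by_cases c4 : v = b'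
  · subst c4
    simp [n3.symm, n5.symm, n6.symm, hTv]
  simp [c1, c2, c3, c4, hTv]

theorem t : T8a := by
  intro V E _ _ _ _ G hc T X Y hT hX hY e e' f nee' nef ne'f hTX hTY hXY a a' b b' c c' hea heb hfc
    hnd P hP R hR M hM heP he'P heR hfR he'M hfM oP oR oM
  simp only [List.nodup_cons, List.mem_cons, List.not_mem_nil, or_false, not_or,
    List.nodup_nil, and_true, not_false_eq_true] at hnd
  obtain ⟨⟨n1, n2, n3, n4, n5⟩, ⟨n6, n7, n8, n9⟩, ⟨n10, n11, n12⟩, ⟨n13, n14⟩, n15⟩ := hnd
  change a ≠ a' at n1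
  change b ≠ b' at n10
  change c ≠ c' at n15
  have heT : e ∈ T := (mem_inter.1 (hTX ▸ mem_singleton_self e : e ∈ T ∩ X)).1
  have heX : e ∈ X := (mem_inter.1 (hTX ▸ mem_singleton_self e : e ∈ T ∩ X)).2
  have he'T : e' ∈ T := (mem_inter.1 (hTY ▸ mem_singleton_self e' : e' ∈ T ∩ Y)).1
  have he'Y : e' ∈ Y := (mem_inter.1 (hTY ▸ mem_singleton_self e' : e' ∈ T ∩ Y)).2
  have hfX : f ∈ X := (mem_inter.1 (hXY ▸ mem_singleton_self f : f ∈ X ∩ Y)).1
  have hfY : f ∈ Y := (mem_inter.1 (hXY ▸ mem_singleton_self f : f ∈ X ∩ Y)).2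
  set Q := (T \ {e, e'}) \ P with hQ
  set S := (X \ {e, f}) \ R with hS
  set N := (Y \ {e', f}) \ M with hN
  have oQ : ∀ v, Odd (Q ∩ inc G v).card ↔ (v = a' ∨ v = b') :=
    compl_arc hT.2.1 hP heT he'T nee' heP he'P hea heb n1 n2 n3 n6 n7 n10 oP
  have oS : ∀ v, Odd (S ∩ inc G v).card ↔ (v = a' ∨ v = c') :=
    compl_arc hX.2.1 hR heX hfX nef heR hfR hea hfc n1 n4 n5 n8 n9 n15 oR
  have oN : ∀ v, Odd (N ∩ inc G v).card ↔ (v = b' ∨ v = c) :=
    compl_arc hY.2.1 hM he'Y hfY ne'f he'M hfM heb (by rw [hfc]; exact Sym2.eq_swap)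
      n10 n12 n11 n14 n13 n15.symm oM
  have hZ : Circ G (P ∪ S ∪ N ∪ {e, e', f}) :=
    zcirc hc hT hX hY hTX hTY hXY hea heb hfc n1 n2 n3 n4 n5 n6 n7 n8 n9 n10 n11 n12 n13 n14 n15
      hP (fun x hx => (mem_sdiff.1 (mem_sdiff.1 hx).1).1)
      (fun x hx => (mem_sdiff.1 (mem_sdiff.1 hx).1).1) heP he'P (by simp [hS]) (by simp [hS])
      (by simp [hN]) (by simp [hN]) oP oS oN
  have hZ' : Circ G (Q ∪ R ∪ M ∪ {e, e', f}) :=
    zcirc hc hT hX hY hTX hTY hXY (a := a') (a' := a) (b := b') (b' := b) (c := c') (c' := c)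
      (by rw [hea]; exact Sym2.eq_swap) (by rw [heb]; exact Sym2.eq_swap)
      (by rw [hfc]; exact Sym2.eq_swap)
      n1.symm n7 n6 n9 n8 n3 n2 n5 n4 n10.symm n14 n13 n12 n11 n15.symm
      (fun x hx => (mem_sdiff.1 (mem_sdiff.1 hx).1).1) hR hM (by simp [hQ]) (by simp [hQ]) heR hfR
      he'M hfM oQ oR oM
  refine ⟨_, _, hZ, hZ', ?_, ?_⟩
  · ext x
    have q1 : x ∈ T → x ∈ X → x = e := fun h1 h2 => mem_singleton.1 (hTX ▸ mem_inter.2 ⟨h1, h2⟩)
    have q2 : x ∈ T → x ∈ Y → x = e' := fun h1 h2 => mem_singleton.1 (hTY ▸ mem_inter.2 ⟨h1, h2⟩)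
    have q3 : x ∈ X → x ∈ Y → x = f := fun h1 h2 => mem_singleton.1 (hXY ▸ mem_inter.2 ⟨h1, h2⟩)
    have p1 : x ∈ P → x ∈ T := fun h => hP h
    have p2 : x ∈ R → x ∈ X := fun h => hR h
    have p3 : x ∈ M → x ∈ Y := fun h => hM h
    simp only [hQ, hS, hN, mem_inter, mem_union, mem_sdiff, mem_insert, mem_singleton, not_or]
    by_cases c1 : x = e
    · simp [c1]
    by_cases c2 : x = e'
    · simp [c2]
    by_cases c3 : x = f
    · simp [c3]
    have d1 : x ∈ T → x ∉ X := fun h1 h2 => c1 (q1 h1 h2)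
    have d2 : x ∈ T → x ∉ Y := fun h1 h2 => c2 (q2 h1 h2)
    have d3 : x ∈ X → x ∉ Y := fun h1 h2 => c3 (q3 h1 h2)
    clear q1 q2 q3 hZ hZ' oQ oS oN oP oR oM
    by_cases g1 : x ∈ T
    · have g2 := d1 g1
      have g3 := d2 g1
      have g4 : x ∉ R := fun h => g2 (p2 h)
      have g5 : x ∉ M := fun h => g3 (p3 h)
      by_cases g6 : x ∈ P <;> simp [c1, c2, c3, g1, g2, g3, g4, g5, g6]
    · have g4 : x ∉ P := fun h => g1 (p1 h)
      by_cases g2 : x ∈ X
      · have g3 := d3 g2
        have g5 : x ∉ M := fun h => g3 (p3 h)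
        by_cases g6 : x ∈ R <;> simp [c1, c2, c3, g1, g2, g3, g4, g5, g6]
      · have g5 : x ∉ R := fun h => g2 (p2 h)
        by_cases g3 : x ∈ Y
        · by_cases g6 : x ∈ M <;> simp [c1, c2, c3, g1, g2, g3, g4, g5, g6]
        · have g6 : x ∉ M := fun h => g3 (p3 h)
          simp [c1, c2, c3, g1, g2, g3, g4, g5, g6]
  · ext x
    have q1 : x ∈ T → x ∈ X → x = e := fun h1 h2 => mem_singleton.1 (hTX ▸ mem_inter.2 ⟨h1, h2⟩)
    have q2 : x ∈ T → x ∈ Y → x = e' := fun h1 h2 => mem_singleton.1 (hTY ▸ mem_inter.2 ⟨h1, h2⟩)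
    have q3 : x ∈ X → x ∈ Y → x = f := fun h1 h2 => mem_singleton.1 (hXY ▸ mem_inter.2 ⟨h1, h2⟩)
    have p1 : x ∈ P → x ∈ T := fun h => hP h
    have p2 : x ∈ R → x ∈ X := fun h => hR h
    have p3 : x ∈ M → x ∈ Y := fun h => hM h
    simp only [hQ, hS, hN, mem_symmDiff, mem_union, mem_sdiff, mem_insert, mem_singleton, not_or]
    by_cases c1 : x = e
    · have : e ∉ Y := fun h => nee' (mem_singleton.1 (hTY ▸ mem_inter.2 ⟨heT, h⟩))
      simp [c1, heT, heX, this]
    by_cases c2 : x = e'
    · have : e' ∉ X := fun h => nee' (mem_singleton.1 (hTX ▸ mem_inter.2 ⟨he'T, h⟩)).symm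
      simp [c2, he'T, he'Y, this]
    by_cases c3 : x = f
    · have : f ∉ T := fun h => nef (mem_singleton.1 (hTX ▸ mem_inter.2 ⟨h, hfX⟩)).symm
      simp [c3, hfX, hfY, this]
    have d1 : x ∈ T → x ∉ X := fun h1 h2 => c1 (q1 h1 h2)
    have d2 : x ∈ T → x ∉ Y := fun h1 h2 => c2 (q2 h1 h2)
    have d3 : x ∈ X → x ∉ Y := fun h1 h2 => c3 (q3 h1 h2)
    clear q1 q2 q3 hZ hZ' oQ oS oN oP oR oM
    by_cases g1 : x ∈ T
    · have g2 := d1 g1
      have g3 := d2 g1
      have g4 : x ∉ R := fun h => g2 (p2 h)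
      have g5 : x ∉ M := fun h => g3 (p3 h)
      by_cases g6 : x ∈ P <;> simp [c1, c2, c3, g1, g2, g3, g4, g5, g6]
    · have g4 : x ∉ P := fun h => g1 (p1 h)
      by_cases g2 : x ∈ X
      · have g3 := d3 g2
        have g5 : x ∉ M := fun h => g3 (p3 h)
        by_cases g6 : x ∈ R <;> simp [c1, c2, c3, g1, g2, g3, g4, g5, g6]
      · have g5 : x ∉ R := fun h => g2 (p2 h)
        by_cases g3 : x ∈ Y
        · by_cases g6 : x ∈ M <;> simp [c1, c2, c3, g1, g2, g3, g4, g5, g6]
        · have g6 : x ∉ M := fun h => g3 (p3 h)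
          simp [c1, c2, c3, g1, g2, g3, g4, g5, g6]

end Pool.Agent.H366R3.SC.T8aH773
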