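import Pool.Agent.H366R3.SC.Stmts

set_option autoImplicit false
set_option linter.unusedSectionVars false

/-! SCDC-PROJECT, task T9: cyclic enumeration of a circuit. -/

namespace Pool.Agent.H366R3.SC.T9_helper237

open Finset
open Pool.Agent.H126R2.CDC (MGraph)
open Pool.Agent.H366R3.SC

section

variable {V E : Type} [Fintype V] [DecidableEq V] [Fintype E] [DecidableEq E]

theorem mem_inc (G : MGraph V E) (v : V) (e : E) : e ∈ inc G v ↔ v ∈ G.ends e := by
  simp [inc]

/-- no parallel edges in a circuit with at least three edges -/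
theorem no_par (G : MGraph V E) (C : Finset E) (hC : Circ G C) (h3 : 3 ≤ C.card)
    {e f : E} (he : e ∈ C) (hf : f ∈ C) (h : G.ends e = G.ends f) : e = f := by
  by_contra hne
  have hD : ({e, f} : Finset E) = C := by
    apply hC.2.2
    · intro x hx
      rcases mem_insert.1 hx with rfl | hx
      · exact he
      · rw [mem_singleton.1 hx]; exact hf
    · exact ⟨e, mem_insert_self _ _⟩
    · intro v
      by_cases hv : v ∈ G.ends e
      · have : ({e, f} : Finset E) ∩ inc G v = {e, f} := by
          rw [inter_eq_left]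
          intro x hx
          rw [mem_inc]
          rcases mem_insert.1 hx with rfl | hx
          · exact hv
          · rw [mem_singleton.1 hx, ← h]; exact hv
        rw [this, card_pair hne]
        decide
      · have : ({e, f} : Finset E) ∩ inc G v = ∅ := by
          rw [← disjoint_iff_inter_eq_empty, disjoint_left]
          intro x hx hx'
          rw [mem_inc] at hx'
          rcases mem_insert.1 hx with rfl | hx
          · exact hv hx'
          · rw [mem_singleton.1 hx, ← h] at hx'; exact hv hx'
        rw [this]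
        simp
  rw [← hD, card_pair hne] at h3
  omega

/-- the simple graph of a set of edges -/
def HH (G : MGraph V E) (hG : Cubic G) (D : Finset E) : SimpleGraph V where
  Adj v w := ∃ e ∈ D, G.ends e = s(v, w)
  symm := ⟨fun v w ⟨e, he, h⟩ => ⟨e, he, by rw [h, Sym2.eq_swap]⟩⟩
  loopless := ⟨fun v ⟨e, _, h⟩ => hG.loopless e (by rw [h]; exact Sym2.diag_isDiag v)⟩

/-- degree count -/
theorem ncard_nbr (G : MGraph V E) (D : Finset E)
    (hpar : ∀ e ∈ D, ∀ f ∈ D, G.ends e = G.ends f → e = f) (v : V) :
    {w : V | ∃ e ∈ D, G.ends e = s(v, w)}.ncard = (D ∩ inc G v).card := by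
  classical
  have hch : ∀ e ∈ D ∩ inc G v, ∃ w, G.ends e = s(v, w) := by
    intro e he
    have := (mem_inc G v e).1 (mem_inter.1 he).2
    obtain ⟨w, hw⟩ := Sym2.mem_iff_exists.1 this
    exact ⟨w, hw⟩
  have : Nonempty V := ⟨v⟩
  choose! o ho using hch
  have himg : {w : V | ∃ e ∈ D, G.ends e = s(v, w)} = ((D ∩ inc G v).image o : Set V) := by
    ext w
    simp only [Set.mem_ofPred_eq, coe_image, Set.mem_image, mem_coe]
    constructor
    · rintro ⟨e, he, h⟩
      have hmem : e ∈ D ∩ inc G v := by
        rw [mem_inter, mem_inc, h]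
        exact ⟨he, Sym2.mem_mk_left v w⟩
      refine ⟨e, hmem, ?_⟩
      have h2 := ho e hmem
      rw [h] at h2
      exact (Sym2.congr_right.1 h2).symm
    · rintro ⟨e, he, rfl⟩
      exact ⟨e, (mem_inter.1 he).1, ho e he⟩
  rw [himg, Set.ncard_coe_finset, card_image_of_injOn]
  intro e he f hf hef
  apply hpar e (mem_inter.1 he).1 f (mem_inter.1 hf).1
  rw [ho e he, ho f hf, hef]

end

theorem t : T9 := by
  intro V E _ _ _ _ G hG C hC n hn
  classical
  have hpar : ∀ e ∈ C, ∀ f ∈ C, G.ends e = G.ends f → e = f := fun e he f hf h =>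
    no_par G C hC (by omega) he hf h
  set H := HH G hG C with hH
  have hnb : ∀ v, H.neighborSet v = {w : V | ∃ e ∈ C, G.ends e = s(v, w)} := fun v => rfl
  have hcyc : H.IsCycles := by
    intro v hv
    rw [hnb, ncard_nbr G C hpar v]
    have h1 : (C ∩ inc G v).card ≤ 3 := by
      rw [← hG.three v]
      exact card_le_card inter_subset_right
    have h2 := hC.2.1 v
    have h3 : (C ∩ inc G v).card ≠ 0 := by
      obtain ⟨w, e, he, h⟩ := hv
      apply (card_pos.2 ⟨e, _⟩).ne'
      rw [mem_inter, mem_inc, h]
      exact ⟨he, Sym2.mem_mk_left v w⟩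
    rcases h2 with ⟨r, hr⟩
    omega
  obtain ⟨e0, he0⟩ := hC.1
  obtain ⟨v0, w0, hvw⟩ : ∃ v w, G.ends e0 = s(v, w) := by
    induction h : G.ends e0 using Sym2.ind with
    | _ x y => exact ⟨x, y, rfl⟩
  obtain ⟨p, hp, -⟩ := hcyc.exists_cycle_toSubgraph_verts_eq_connectedComponentSupp
    (c := H.connectedComponentMk v0) (v := v0) rfl ⟨w0, e0, he0, hvw⟩
  -- all the edges of `C` are in the cycle
  have hedge : ∀ v w, p.toSubgraph.Adj v w ↔ ∃ e ∈ C.filter (fun e => G.ends e ∈ p.edges),
      G.ends e = s(v, w) := by
    intro v w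
    rw [← SimpleGraph.Subgraph.mem_edgeSet, SimpleGraph.Walk.mem_edges_toSubgraph]
    constructor
    · intro h
      have hadj : H.Adj v w := p.adj_of_mem_edges h
      obtain ⟨e, he, hs⟩ := hadj
      exact ⟨e, mem_filter.2 ⟨he, by rw [hs]; exact h⟩, hs⟩
    · rintro ⟨e, he, hs⟩
      rw [← hs]
      exact (mem_filter.1 he).2
  have hD : C.filter (fun e => G.ends e ∈ p.edges) = C := by
    apply hC.2.2 _ (filter_subset _ _)
    · have hne : p.edges ≠ [] := by
        intro h
        have h1 := p.length_edges
        have h2 := hp.three_le_length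
        rw [h] at h1
        simp at h1
        omega
      obtain ⟨s, hs⟩ := List.exists_mem_of_ne_nil _ hne
      induction s using Sym2.ind with
      | _ x y =>
        obtain ⟨e, he, -⟩ := (hedge x y).1 (by
          rw [← SimpleGraph.Subgraph.mem_edgeSet, SimpleGraph.Walk.mem_edges_toSubgraph]
          exact hs)
        exact ⟨e, he⟩
    · intro v
      rw [← ncard_nbr G _ (fun e he f hf h => hpar e (mem_filter.1 he).1 f (mem_filter.1 hf).1 h) v]
      have : {w : V | ∃ e ∈ C.filter (fun e => G.ends e ∈ p.edges), G.ends e = s(v, w)} =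
          p.toSubgraph.neighborSet v := by
        ext w
        exact (hedge v w).symm
      rw [this]
      by_cases hv : v ∈ p.support
      · rw [hp.ncard_neighborSet_toSubgraph_eq_two hv]
        decide
      · have : p.toSubgraph.neighborSet v = ∅ := by
          ext w
          simp only [Set.mem_empty_iff_false, iff_false]
          intro hw
          exact hv ((SimpleGraph.Walk.mem_verts_toSubgraph p).1 hw.fst_mem)
        rw [this]
        simp
  have hCp : ∀ e ∈ C, G.ends e ∈ p.edges := by
    intro e he
    rw [← hD] at he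
    exact (mem_filter.1 he).2
  have hlen : p.length = n + 3 := by
    rw [← hn, ← p.length_edges, ← List.toFinset_card_of_nodup hp.isCircuit.isTrail.edges_nodup,
      ← card_image_of_injOn (f := G.ends) (s := C) (fun e he f hf h => hpar e he f hf h)]
    congr 1
    ext s
    rw [List.mem_toFinset, mem_image]
    constructor
    · intro hs
      induction s using Sym2.ind with
      | _ x y =>
        obtain ⟨e, he, h⟩ := p.adj_of_mem_edges hs
        exact ⟨e, he, h⟩
    · rintro ⟨e, he, rfl⟩
      exact hCp e he
  have hstep : ∀ i : Fin (n + 3), ∃ e ∈ C, G.ends e = s(p.getVert i, p.getVert (i + 1)) := by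
    intro i
    exact p.adj_getVert_succ (by omega)
  choose t ht1 ht2 using hstep
  have hnext : ∀ i : Fin (n + 3), p.getVert ((i : ℕ) + 1) = p.getVert ((i + 1 : Fin (n + 3)) : ℕ) := by
    intro i
    by_cases hi : (i : ℕ) + 1 < n + 3
    · congr 1
      rw [Fin.val_add_one_of_lt' hi]
    · have h1 : (i : ℕ) + 1 = n + 3 := by omega
      have h2 : i = Fin.last (n + 2) := Fin.ext (by simp; omega)
      have h3 : ((i + 1 : Fin (n + 3)) : ℕ) = 0 := by
        rw [h2]
        simp
      rw [h1, h3, ← hlen, SimpleGraph.Walk.getVert_length, SimpleGraph.Walk.getVert_zero]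
  have hsurj : ∀ e, e ∈ C ↔ ∃ i, t i = e := by
    intro e
    constructor
    · intro he
      have h1 := hCp e he
      obtain ⟨x, y, hxy⟩ : ∃ v w, G.ends e = s(v, w) := by
        induction h : G.ends e using Sym2.ind with
        | _ x y => exact ⟨x, y, rfl⟩
      rw [hxy, ← SimpleGraph.Walk.mem_edges_toSubgraph, SimpleGraph.Subgraph.mem_edgeSet,
        SimpleGraph.Walk.toSubgraph_adj_iff] at h1
      obtain ⟨i, hi1, hi2⟩ := h1
      rw [hlen] at hi2
      refine ⟨⟨i, hi2⟩, hpar _ (ht1 _) _ he ?_⟩
      rw [ht2, hxy]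
      exact hi1
    · rintro ⟨i, rfl⟩
      exact ht1 i
  refine ⟨fun i => p.getVert i, t, ?_, ?_, hsurj, ?_⟩
  · intro i j hij
    have := hp.getVert_injOn' (by rw [Set.mem_ofPred_eq]; omega) (by rw [Set.mem_ofPred_eq]; omega)
      hij
    exact Fin.ext this
  · have himg : univ.image t = C := by
      ext e
      rw [mem_image, hsurj]
      simp
    have hcard : (univ.image t).card = (univ : Finset (Fin (n + 3))).card := by
      rw [himg, hn]
      simp
    have := card_image_iff.1 hcard
    intro i j hij
    exact this (mem_coe.2 (mem_univ i)) (mem_coe.2 (mem_univ j)) hij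
  · intro i
    rw [ht2 i, hnext i]

end Pool.Agent.H366R3.SC.T9_helper237
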