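import Pool.Agent.H366R3.SC.Stmts

set_option autoImplicit false

namespace Pool.Agent.H366R3.SC.TK2h73

open Finset Pool.Agent.H366R3.SC
open Pool.Agent.H126R2.CDC (MGraph)

section
variable {E : Type} [Fintype E] [DecidableEq E]

lemma card_symmDiff_two (A B : Finset E) :
    (symmDiff A B).card + 2 * (A ∩ B).card = A.card + B.card := by
  have h1 : symmDiff A B = (A \ B) ∪ (B \ A) := rfl
  have h2 : Disjoint (A \ B) (B \ A) := disjoint_sdiff_sdiff
  have h3 := Finset.card_sdiff_add_card_inter A B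
  have h4 := Finset.card_sdiff_add_card_inter B A
  rw [Finset.inter_comm B A] at h4
  rw [h1, Finset.card_union_of_disjoint h2]
  omega

lemma par_left (A B K : Finset E) :
    Even ((symmDiff A B) ∩ K).card ↔ (Even (A ∩ K).card ↔ Even (B ∩ K).card) := by
  have h1 : (symmDiff A B) ∩ K = symmDiff (A ∩ K) (B ∩ K) := by
    ext e
    simp only [Finset.mem_inter, Finset.mem_symmDiff]
    tauto
  have h2 := card_symmDiff_two (A ∩ K) (B ∩ K)
  rw [h1, Nat.even_iff, Nat.even_iff, Nat.even_iff]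
  omega

lemma par_right (C K K' : Finset E) :
    Even (C ∩ (symmDiff K K')).card ↔ (Even (C ∩ K).card ↔ Even (C ∩ K').card) := by
  rw [Finset.inter_comm C, par_left, Finset.inter_comm K, Finset.inter_comm K']

lemma even_oddSum (A : Finset (Finset E)) (K : Finset E) (h : ∀ B ∈ A, Even (B ∩ K).card) :
    Even (oddSum A ∩ K).card := by
  have h1 : oddSum A ∩ K = K.filter (fun e => Odd (A.filter (fun C => e ∈ C)).card) := by
    ext e
    simp only [oddSum, Finset.mem_inter, Finset.mem_filter, Finset.mem_univ, true_and]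
    tauto
  have h2 : ∑ e ∈ K, (A.filter (fun C => e ∈ C)).card = ∑ B ∈ A, (B ∩ K).card := by
    have h3 := Finset.sum_card_bipartiteAbove_eq_sum_card_bipartiteBelow
      (s := K) (t := A) (fun (e : E) (C : Finset E) => e ∈ C)
    unfold Finset.bipartiteAbove Finset.bipartiteBelow at h3
    rw [h3]
    apply Finset.sum_congr rfl
    intro B _
    congr 1
    ext e
    simp only [Finset.mem_filter, Finset.mem_inter]
    tauto
  have h4 : Even (∑ e ∈ K, (A.filter (fun C => e ∈ C)).card) := by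
    rw [h2]
    exact Finset.even_sum _ h
  rw [Finset.even_sum_iff_even_card_odd] at h4
  rw [h1]
  exact h4

end

theorem t : TK2 := by
  intro h1 h3 V E _ _ _ _ G hG hEC F hF hcard K K' hK hK' hn hn'
  by_contra hcon
  push Not at hcon
  have key : ∀ L : Finset E, (∀ S : Finset V, cut G S ≠ L) →
      ∃ C, Ev G C ∧ ¬ Even (C ∩ L).card := by
    intro L hL
    by_contra hc
    push Not at hc
    obtain ⟨S, hS⟩ := h1 V E G hG hEC L (fun C hC => by simpa using hc C hC)
    exact hL S hS.symm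
  obtain ⟨C3, hC3, hodd3⟩ := key _ hcon
  obtain ⟨C1, hC1, hodd1⟩ := key K hn
  obtain ⟨C2, hC2, hodd2⟩ := key K' hn'
  rw [par_right] at hodd3
  have hA : ∀ A : Finset (Finset E), (∀ B ∈ A, B ∈ F) →
      Even (oddSum A ∩ K).card ∧ Even (oddSum A ∩ K').card := fun A hA =>
    ⟨even_oddSum A K fun B hB => hK B (hA B hB), even_oddSum A K' fun B hB => hK' B (hA B hB)⟩
  by_cases hp : Even (C3 ∩ K).card
  · have hp' : ¬ Even (C3 ∩ K').card := fun h => hodd3 (iff_of_true hp h)
    rcases h3 V E G hG hEC F hF hcard C3 C1 hC3 hC1 with ⟨A, hAF, h⟩ | ⟨A, hAF, h⟩ | ⟨A, hAF, h⟩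
    · exact hp' (h ▸ (hA A hAF).2)
    · exact hodd1 (h ▸ (hA A hAF).1)
    · have h5 : Even ((symmDiff C3 C1) ∩ K).card := h ▸ (hA A hAF).1
      rw [par_left] at h5
      exact hodd1 (h5.1 hp)
  · have hp' : Even (C3 ∩ K').card := by
      by_contra h
      exact hodd3 (iff_of_false hp h)
    rcases h3 V E G hG hEC F hF hcard C3 C2 hC3 hC2 with ⟨A, hAF, h⟩ | ⟨A, hAF, h⟩ | ⟨A, hAF, h⟩
    · exact hp (h ▸ (hA A hAF).1)
    · exact hodd2 (h ▸ (hA A hAF).2)
    · have h5 : Even ((symmDiff C3 C2) ∩ K').card := h ▸ (hA A hAF).2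
      rw [par_left] at h5
      exact hodd2 (h5.1 hp')

end Pool.Agent.H366R3.SC.TK2h73
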