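import Pool.Agent.H366R3.SC.Stmts

/-!
# Task TK of the SCDC project (helper366)
-/

set_option autoImplicit false

namespace Pool.Agent.H366R3.SC.TKh352

open Finset
open Pool.Agent.H126R2.CDC (MGraph)

variable {E : Type} [Fintype E] [DecidableEq E]

lemma even_oddSum_inter (A : Finset (Finset E)) (K : Finset E)
    (h : ∀ B ∈ A, Even (B ∩ K).card) : Even (oddSum A ∩ K).card := by
  rw [← ZMod.natCast_eq_zero_iff_even]
  have h1 : oddSum A ∩ K = K.filter (fun e => Odd (A.filter (fun C => e ∈ C)).card) := by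
    ext e
    simp [oddSum, and_comm]
  rw [h1, Finset.card_filter, Nat.cast_sum]
  have h2 : ∀ e ∈ K, (((if Odd (A.filter (fun C => e ∈ C)).card then 1 else 0 : ℕ)) : ZMod 2) =
      ∑ B ∈ A, (if e ∈ B then (1 : ZMod 2) else 0) := by
    intro e _
    rw [← Finset.sum_filter, Finset.sum_const, nsmul_eq_mul, mul_one]
    split_ifs with ho
    · rw [(ZMod.natCast_eq_one_iff_odd).2 ho, Nat.cast_one]
    · rw [(ZMod.natCast_eq_zero_iff_even).2 (Nat.not_odd_iff_even.1 ho), Nat.cast_zero]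
  rw [Finset.sum_congr rfl h2, Finset.sum_comm]
  apply Finset.sum_eq_zero
  intro B hB
  have h3 := (ZMod.natCast_eq_zero_iff_even).2 (h B hB)
  rw [← Finset.sum_filter, Finset.sum_const, nsmul_eq_mul, mul_one]
  have h4 : K.filter (fun e => e ∈ B) = B ∩ K := by
    ext e
    simp [and_comm]
  rw [h4]
  exact h3

theorem t : TK := by
  intro h1 h3 V E _ _ _ _ G hG hE F hF hn K hK hcut C hC hdis
  have hex : ∃ C', Ev G C' ∧ ¬ Even (C' ∩ K).card := by
    by_contra hne
    push Not at hne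
    obtain ⟨S, hS⟩ := h1 V E G hG hE K hne
    exact hcut S hS.symm
  obtain ⟨C', hC', hodd⟩ := hex
  rcases h3 V E G hG hE F hF hn C C' hC hC' with ⟨A, hA, hCA⟩ | ⟨A, hA, hCA⟩ | ⟨A, hA, hCA⟩
  · exact ⟨A, hA, hCA⟩
  · exfalso
    apply hodd
    rw [hCA]
    exact even_oddSum_inter A K fun B hB => hK B (hA B hB)
  · exfalso
    apply hodd
    have h5 := even_oddSum_inter A K fun B hB => hK B (hA B hB)
    rw [← hCA] at h5
    have h6 : symmDiff C C' ∩ K = C' ∩ K := by
      ext e
      simp only [Finset.mem_inter, Finset.mem_symmDiff]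
      constructor
      · rintro ⟨h | h, hk⟩
        · exact absurd hk (Finset.disjoint_left.1 hdis h.1)
        · exact ⟨h.1, hk⟩
      · rintro ⟨h, hk⟩
        exact ⟨Or.inr ⟨h, fun hc => Finset.disjoint_left.1 hdis hc hk⟩, hk⟩
    rwa [h6] at h5

end Pool.Agent.H366R3.SC.TKh352
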